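import Pool.Agent.CauchyInt.SliceT

/-!
# Logarithmic polar coordinates
-/

namespace Pool.Agent.CauchyInt

open MeasureTheory Set Filter Topology Metric NNReal

/-- zero density in the plane -/
def ZDc (B : Set ℂ) (ζ : ℂ) : Prop :=
  ∀ κ > (0 : ℝ), ∀ᶠ r in 𝓝[>] (0 : ℝ), volume (ball ζ r ∩ B) ≤ ENNReal.ofReal (κ * r ^ 2)

/-- the linear coordinates: `ω = y + i x` for `true` (rays) and `ω = x + i y` for `false`
(circles) -/
noncomputable def ell : Bool → ((ℝ × ℝ) ≃L[ℝ] ℂ)
  | true => (ContinuousLinearEquiv.prodComm ℝ ℝ ℝ).trans Complex.equivRealProdCLM.symm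
  | false => Complex.equivRealProdCLM.symm

/-- the direction of the slices -/
noncomputable def dir : Bool → ℂ
  | true => 1
  | false => Complex.I

/-- the direction of the parameter -/
noncomputable def dir' : Bool → ℂ
  | true => Complex.I
  | false => 1

lemma ell_apply (β : Bool) (p : ℝ × ℝ) : ell β p = p.1 * dir' β + p.2 * dir β := by
  cases β
  · simp [ell, dir, dir', Complex.equivRealProdCLM_symm_apply]
  · simp [ell, dir, dir', Complex.equivRealProdCLM_symm_apply, add_comm]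

/-- logarithmic polar coordinates around `c` -/
noncomputable def Phi (c : ℂ) (β : Bool) (p : ℝ × ℝ) : ℂ := c + Complex.exp (ell β p)

lemma Phi_ne (c : ℂ) (β : Bool) (p : ℝ × ℝ) : Phi c β p ≠ c := by
  unfold Phi
  intro h
  have : Complex.exp (ell β p) = 0 := by
    have := congrArg (· - c) h
    simp at this
  exact Complex.exp_ne_zero _ this

lemma continuous_Phi (c : ℂ) (β : Bool) : Continuous (Phi c β) := by
  unfold Phi
  exact continuous_const.add (Complex.continuous_exp.comp (ell β).continuous)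

lemma hasStrictFDerivAt_Phi (c : ℂ) (β : Bool) (p : ℝ × ℝ) :
    ∃ f' : (ℝ × ℝ) ≃L[ℝ] ℂ, HasStrictFDerivAt (Phi c β) (f' : ℝ × ℝ →L[ℝ] ℂ) p := by
  have h1 := (Complex.hasStrictDerivAt_exp (ell β p)).hasStrictFDerivAt_equiv
    (Complex.exp_ne_zero _)
  have h2 := h1.restrictScalars ℝ
  have h3 := h2.comp p (ell β).hasStrictFDerivAt
  have h4 := h3.const_add c
  exact ⟨(ell β).trans ((ContinuousLinearEquiv.unitsEquivAut ℂ
    (Units.mk0 (Complex.exp (ell β p)) (Complex.exp_ne_zero _))).restrictScalars ℝ), h4⟩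

/-! ### Measures of Lipschitz images -/

lemma volume_image_le {f : ℝ × ℝ → ℂ} {K : ℝ≥0} {S : Set (ℝ × ℝ)} (h : LipschitzOnWith K f S) :
    volume (f '' S) ≤ (K : ENNReal) ^ 2 * volume S := by
  have he : LipschitzWith 1 (Complex.measurableEquivRealProd : ℂ → ℝ × ℝ) := by
    apply LipschitzWith.of_dist_le_mul
    intro z w
    rw [NNReal.coe_one, one_mul, Prod.dist_eq, max_le_iff, Real.dist_eq, Real.dist_eq,
      Complex.dist_eq]
    exact ⟨Complex.abs_re_le_norm (z - w), Complex.abs_im_le_norm (z - w)⟩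
  have h1 : LipschitzOnWith K (Complex.measurableEquivRealProd ∘ f) S := by
    have := he.comp_lipschitzOnWith h
    rwa [one_mul] at this
  have h2 := h1.hausdorffMeasure_image_le (d := 2) (by norm_num)
  rw [hausdorffMeasure_prod_real, image_comp] at h2
  have h3 : volume (Complex.measurableEquivRealProd '' (f '' S)) = volume (f '' S) := by
    rw [← Complex.volume_preserving_equiv_real_prod.measure_preimage_equiv]
    congr 1
    exact preimage_image_eq _ Complex.measurableEquivRealProd.injective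
  rw [h3] at h2
  refine h2.trans (le_of_eq ?_)
  norm_num

lemma volume_image_le' {g : ℂ → ℝ × ℝ} {K : ℝ≥0} {T : Set ℂ} (h : LipschitzOnWith K g T) :
    volume (g '' T) ≤ ((K * 2 : ℝ≥0) : ENNReal) ^ 2 * volume T := by
  set e := Complex.measurableEquivRealProd with he'
  have he : LipschitzWith 2 (e.symm : ℝ × ℝ → ℂ) := by
    apply LipschitzWith.of_dist_le_mul
    intro z w
    rw [Complex.dist_eq, Prod.dist_eq, Real.dist_eq, Real.dist_eq]
    have h1 := Complex.norm_le_abs_re_add_abs_im (e.symm z - e.symm w)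
    have h2 : (e.symm z - e.symm w).re = z.1 - w.1 := rfl
    have h3 : (e.symm z - e.symm w).im = z.2 - w.2 := rfl
    rw [h2, h3] at h1
    have h4 := le_max_left |z.1 - w.1| |z.2 - w.2|
    have h5 := le_max_right |z.1 - w.1| |z.2 - w.2|
    have h6 : ((2 : ℝ≥0) : ℝ) = 2 := rfl
    rw [h6]
    linarith
  have h1 : LipschitzOnWith (K * 2) (g ∘ e.symm) (e '' T) := by
    apply h.comp he.lipschitzOnWith
    rintro x ⟨z, hz, rfl⟩
    rw [e.symm_apply_apply]
    exact hz
  have h2 := h1.hausdorffMeasure_image_le (d := 2) (by norm_num)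
  rw [hausdorffMeasure_prod_real] at h2
  have h3 : (g ∘ e.symm) '' (e '' T) = g '' T := by
    rw [image_comp, ← image_comp e.symm e]
    simp
  have h4 : volume (e '' T) = volume T := by
    rw [← Complex.volume_preserving_equiv_real_prod.measure_preimage_equiv]
    congr 1
    exact preimage_image_eq _ Complex.measurableEquivRealProd.injective
  rw [h3, h4] at h2
  refine h2.trans (le_of_eq ?_)
  norm_num

lemma ofReal_sq_mul (K : ℝ≥0) (x : ℝ) :
    ENNReal.ofReal ((K : ℝ) ^ 2 * x) = (K : ENNReal) ^ 2 * ENNReal.ofReal x := by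
  rw [ENNReal.ofReal_mul (by positivity), ENNReal.ofReal_pow (by positivity),
    ENNReal.ofReal_coe_nnreal]

theorem transfer_zd (c : ℂ) (β : Bool) (B : Set ℂ) (p : ℝ × ℝ) :
    ZD (Phi c β ⁻¹' B) p ↔ ZDc B (Phi c β p) := by
  obtain ⟨f', hf⟩ := hasStrictFDerivAt_Phi c β p
  obtain ⟨K, U, hU, hK⟩ := hf.exists_lipschitzOnWith
  have hg := hf.to_localInverse
  obtain ⟨K', V, hV, hK'⟩ := hg.exists_lipschitzOnWith
  set f := Phi c β with hfdef
  set g := hf.localInverse f f' p with hgdef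
  have hgf : ∀ᶠ x in 𝓝 p, g (f x) = x := hf.eventually_left_inverse
  have hfg : ∀ᶠ y in 𝓝 (f p), f (g y) = y := hf.eventually_right_inverse
  have hgp : g (f p) = p := hf.localInverse_apply_image
  have hfcont : ContinuousAt f p := (continuous_Phi c β).continuousAt
  have hgcont : ContinuousAt g (f p) := hf.localInverse_continuousAt
  -- small radii
  have hpU : ∀ᶠ x in 𝓝 p, x ∈ U ∧ g (f x) = x ∧ f x ∈ V := by
    have h1 : ∀ᶠ x in 𝓝 p, f x ∈ V := hfcont.eventually_mem hV
    filter_upwards [hU, hgf, h1] with x a1 a2 a3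
    exact ⟨a1, a2, a3⟩
  have hpV : ∀ᶠ y in 𝓝 (f p), y ∈ V ∧ f (g y) = y ∧ g y ∈ U := by
    have h1 : ∀ᶠ y in 𝓝 (f p), g y ∈ U := by
      have : U ∈ 𝓝 (g (f p)) := by rw [hgp]; exact hU
      exact hgcont.eventually_mem this
    filter_upwards [hV, hfg, h1] with y a1 a2 a3
    exact ⟨a1, a2, a3⟩
  obtain ⟨ρ, hρ, hρU⟩ := Metric.eventually_nhds_iff_ball.1 hpU
  obtain ⟨ρ', hρ', hρV⟩ := Metric.eventually_nhds_iff_ball.1 hpV
  set L : ℝ := max (K : ℝ) (K' : ℝ) + 1 with hL
  have hL0 : 0 < L := by positivity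
  have hKL : (K : ℝ) ≤ L := by
    have := le_max_left (K : ℝ) (K' : ℝ)
    linarith
  have hKL' : (K' : ℝ) ≤ L := by
    have := le_max_right (K : ℝ) (K' : ℝ)
    linarith
  have hscale : Tendsto (fun r : ℝ => L * r) (𝓝[>] 0) (𝓝[>] 0) := by
    refine tendsto_nhdsWithin_iff.2 ⟨?_, ?_⟩
    · have : Tendsto (fun r : ℝ => L * r) (𝓝 0) (𝓝 (L * 0)) := tendsto_id.const_mul L
      rw [mul_zero] at this
      exact this.mono_left nhdsWithin_le_nhds
    · filter_upwards [self_mem_nhdsWithin] with r hr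
      have : (0 : ℝ) < r := hr
      show (0 : ℝ) < L * r
      positivity
  have hsmall : ∀ t > (0 : ℝ), ∀ᶠ r in 𝓝[>] (0 : ℝ), r < t := fun t ht =>
    eventually_nhdsWithin_of_eventually_nhds (eventually_lt_nhds ht)
  constructor
  · intro hZ κ hκ
    have hκ' : 0 < κ / ((K : ℝ) ^ 2 * L ^ 2 + 1) := by positivity
    filter_upwards [hscale.eventually (hZ _ hκ'), hsmall ρ' hρ', self_mem_nhdsWithin]
      with r a1 a2 a3
    have hr : (0 : ℝ) < r := a3
    have hsub : ball (f p) r ∩ B ⊆ f '' (ball p (L * r) ∩ f ⁻¹' B ∩ U) := by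
      rintro y ⟨hy1, hy2⟩
      have hyV := hρV y (ball_subset_ball a2.le hy1)
      have hpV' := hρV (f p) (mem_ball_self hρ')
      refine ⟨g y, ⟨⟨?_, ?_⟩, hyV.2.2⟩, hyV.2.1⟩
      · have h1 := hK'.dist_le_mul y hyV.1 (f p) hpV'.1
        rw [hgp] at h1
        rw [mem_ball] at hy1 ⊢
        calc dist (g y) p ≤ K' * dist y (f p) := h1
          _ ≤ L * dist y (f p) := by gcongr
          _ < L * r := by gcongr
      · rw [mem_preimage, hyV.2.1]
        exact hy2
    calc volume (ball (f p) r ∩ B) ≤ volume (f '' (ball p (L * r) ∩ f ⁻¹' B ∩ U)) :=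
          measure_mono hsub
      _ ≤ (K : ENNReal) ^ 2 * volume (ball p (L * r) ∩ f ⁻¹' B ∩ U) :=
          volume_image_le (hK.mono inter_subset_right)
      _ ≤ (K : ENNReal) ^ 2 * volume (ball p (L * r) ∩ f ⁻¹' B) :=
          mul_le_mul' le_rfl (measure_mono inter_subset_left)
      _ ≤ (K : ENNReal) ^ 2 *
          ENNReal.ofReal (κ / ((K : ℝ) ^ 2 * L ^ 2 + 1) * (L * r) ^ 2) := by gcongr
      _ = ENNReal.ofReal ((K : ℝ) ^ 2 * (κ / ((K : ℝ) ^ 2 * L ^ 2 + 1) * (L * r) ^ 2)) :=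
          (ofReal_sq_mul _ _).symm
      _ ≤ ENNReal.ofReal (κ * r ^ 2) := by
          apply ENNReal.ofReal_le_ofReal
          have : (K : ℝ) ^ 2 * (κ / ((K : ℝ) ^ 2 * L ^ 2 + 1) * (L * r) ^ 2) =
              ((K : ℝ) ^ 2 * L ^ 2 / ((K : ℝ) ^ 2 * L ^ 2 + 1)) * (κ * r ^ 2) := by
            field_simp
          rw [this]
          have h1 : (K : ℝ) ^ 2 * L ^ 2 / ((K : ℝ) ^ 2 * L ^ 2 + 1) ≤ 1 := by
            rw [div_le_one (by positivity)]
            linarith
          have h2 : 0 ≤ κ * r ^ 2 := by positivity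
          nlinarith
  · intro hZ κ hκ
    have hκ' : 0 < κ / (((K' : ℝ) * 2) ^ 2 * L ^ 2 + 1) := by positivity
    filter_upwards [hscale.eventually (hZ _ hκ'), hsmall ρ hρ, self_mem_nhdsWithin]
      with r a1 a2 a3
    have hr : (0 : ℝ) < r := a3
    have hsub : ball p r ∩ f ⁻¹' B ⊆ g '' (ball (f p) (L * r) ∩ B ∩ V) := by
      rintro x ⟨hx1, hx2⟩
      have hxU := hρU x (ball_subset_ball a2.le hx1)
      have hpU' := hρU p (mem_ball_self hρ)
      refine ⟨f x, ⟨⟨?_, hx2⟩, hxU.2.2⟩, hxU.2.1⟩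
      have h1 := hK.dist_le_mul x hxU.1 p hpU'.1
      rw [mem_ball] at hx1 ⊢
      calc dist (f x) (f p) ≤ K * dist x p := h1
        _ ≤ L * dist x p := by gcongr
        _ < L * r := by gcongr
    calc volume (ball p r ∩ f ⁻¹' B) ≤ volume (g '' (ball (f p) (L * r) ∩ B ∩ V)) :=
          measure_mono hsub
      _ ≤ ((K' * 2 : ℝ≥0) : ENNReal) ^ 2 * volume (ball (f p) (L * r) ∩ B ∩ V) :=
          volume_image_le' (hK'.mono inter_subset_right)
      _ ≤ ((K' * 2 : ℝ≥0) : ENNReal) ^ 2 * volume (ball (f p) (L * r) ∩ B) :=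
          mul_le_mul' le_rfl (measure_mono inter_subset_left)
      _ ≤ ((K' * 2 : ℝ≥0) : ENNReal) ^ 2 *
          ENNReal.ofReal (κ / (((K' : ℝ) * 2) ^ 2 * L ^ 2 + 1) * (L * r) ^ 2) := by gcongr
      _ = ENNReal.ofReal (((K' : ℝ) * 2) ^ 2 *
          (κ / (((K' : ℝ) * 2) ^ 2 * L ^ 2 + 1) * (L * r) ^ 2)) := by
          have : ((K' : ℝ) * 2) = ((K' * 2 : ℝ≥0) : ℝ) := by push_cast; rfl
          rw [this, ofReal_sq_mul]
      _ ≤ ENNReal.ofReal (κ * r ^ 2) := by
          apply ENNReal.ofReal_le_ofReal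
          have : ((K' : ℝ) * 2) ^ 2 * (κ / (((K' : ℝ) * 2) ^ 2 * L ^ 2 + 1) * (L * r) ^ 2) =
              (((K' : ℝ) * 2) ^ 2 * L ^ 2 / (((K' : ℝ) * 2) ^ 2 * L ^ 2 + 1)) * (κ * r ^ 2) := by
            field_simp
          rw [this]
          have h1 : ((K' : ℝ) * 2) ^ 2 * L ^ 2 / (((K' : ℝ) * 2) ^ 2 * L ^ 2 + 1) ≤ 1 := by
            rw [div_le_one (by positivity)]
            linarith
          have h2 : 0 ≤ κ * r ^ 2 := by positivity
          nlinarith

end Pool.Agent.CauchyInt
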