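import Pool.Agent.CauchyInt.Formula

/-!
# Basic facts on the boundary and on the Cauchy-type integral
-/

namespace Pool.Agent.CauchyInt

open MeasureTheory Set Filter Topology Metric NNReal ENNReal

lemma zdc_iff (B : Set ℂ) (ζ : ℂ) :
    ZDc B ζ ↔ ¬ 0 < limsup (fun r : ℝ => volume (ball ζ r ∩ B) / ENNReal.ofReal (r ^ 2))
      (𝓝[>] 0) := by
  rw [not_lt, nonpos_iff_eq_zero]
  have hr : ∀ r : ℝ, 0 < r → ENNReal.ofReal (r ^ 2) ≠ 0 := by
    intro r hr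
    rw [Ne, ENNReal.ofReal_eq_zero, not_le]
    positivity
  constructor
  · intro h
    rw [← nonpos_iff_eq_zero]
    apply ENNReal.le_of_forall_pos_le_add
    intro κ hκ _
    rw [zero_add]
    apply limsup_le_of_le (by isBoundedDefault)
    filter_upwards [h κ (by exact_mod_cast hκ), self_mem_nhdsWithin] with r h1 h2
    have hr0 : (0 : ℝ) < r := h2
    rw [ENNReal.div_le_iff (hr r hr0) ENNReal.ofReal_ne_top]
    refine h1.trans (le_of_eq ?_)
    rw [ENNReal.ofReal_mul (by positivity), ENNReal.ofReal_coe_nnreal]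
  · intro h κ hκ
    have h1 : limsup (fun r : ℝ => volume (ball ζ r ∩ B) / ENNReal.ofReal (r ^ 2)) (𝓝[>] 0) <
        ENNReal.ofReal κ := by
      rw [h]
      exact ENNReal.ofReal_pos.2 hκ
    have h2 := eventually_lt_of_limsup_lt h1
    filter_upwards [h2, self_mem_nhdsWithin] with r h3 h4
    have hr0 : (0 : ℝ) < r := h4
    rw [ENNReal.ofReal_mul hκ.le]
    exact (ENNReal.div_le_iff (hr r hr0) ENNReal.ofReal_ne_top).1 h3.le

lemma essBdry_eq (A : Set ℂ) : essBdry A = EE Aᶜ := by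
  rw [EE_compl]
  ext ζ
  simp only [essBdry, EE, mem_ofPred_eq, zdc_iff, not_not]

lemma zdc_of_nhds {B : Set ℂ} {ζ : ℂ} (h : Bᶜ ∈ 𝓝 ζ) : ZDc B ζ := by
  intro κ hκ
  obtain ⟨δ, hδ, hδs⟩ := Metric.mem_nhds_iff.1 h
  have h1 : ∀ᶠ r in 𝓝[>] (0 : ℝ), r < δ :=
    eventually_nhdsWithin_of_eventually_nhds (eventually_lt_nhds hδ)
  filter_upwards [h1] with r hr
  have : ball ζ r ∩ B = ∅ := by
    rw [eq_empty_iff_forall_notMem]
    rintro ξ ⟨h2, h3⟩
    exact hδs (ball_subset_ball hr.le h2) h3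
  rw [this, measure_empty]
  exact bot_le

lemma EE_subset (A : Set ℂ) : EE Aᶜ ⊆ frontier A := by
  rintro ζ ⟨h1, h2⟩
  rw [compl_compl] at h2
  rw [frontier, Set.mem_sdiff]
  constructor
  · by_contra h
    apply h2
    apply zdc_of_nhds
    have : (closure A)ᶜ ∈ 𝓝 ζ := isClosed_closure.isOpen_compl.mem_nhds h
    exact mem_of_superset this (compl_subset_compl.2 subset_closure)
  · intro h
    apply h1
    apply zdc_of_nhds
    rw [compl_compl]
    exact mem_of_superset (isOpen_interior.mem_nhds h) interior_subset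

section weight

variable {A : Set ℂ} {η : ℂ} {Q : ℂ → ℝ}

lemma AdmissibleWeight.Q_ae (hA : AdmissibleSet A) :
    ∀ᵐ ζ ∂((μH[1] : Measure ℂ).restrict (EE Aᶜ)), ζ ∈ frontier A := by
  rw [ae_iff]
  have h1 : MeasurableSet (frontier A)ᶜ := hA.isCompact_frontier.isClosed.measurableSet.compl
  have h2 : {ζ | ζ ∉ frontier A} = (frontier A)ᶜ := rfl
  rw [h2, Measure.restrict_apply h1]
  have : (frontier A)ᶜ ∩ EE Aᶜ = ∅ := by
    rw [eq_empty_iff_forall_notMem]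
    rintro ζ ⟨h3, h4⟩
    exact h3 (EE_subset A h4)
  rw [this, measure_empty]

/-- the weight, extended by zero -/
noncomputable def Qe (A : Set ℂ) (Q : ℂ → ℝ) : ℂ → ℝ≥0∞ :=
  (frontier A).indicator fun ζ => ENNReal.ofReal (Q ζ)

lemma measurable_Qe (hA : AdmissibleSet A) (hQ : AdmissibleWeight A η Q) :
    Measurable (Qe A Q) := by
  have hK : IsClosed (frontier A) := hA.isCompact_frontier.isClosed
  apply measurable_of_Ioi
  intro t
  set U : Set ℂ := {ζ | ζ ∈ frontier A ∧ t < ENNReal.ofReal (Q ζ)} with hU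
  have h1 : Qe A Q ⁻¹' Ioi t = U := by
    ext ζ
    rw [hU, mem_preimage, mem_Ioi, Qe, mem_ofPred_eq]
    by_cases h : ζ ∈ frontier A <;> simp [h]
  have h2 : IsOpen (U ∪ (frontier A)ᶜ) := by
    rw [isOpen_iff_mem_nhds]
    rintro ζ (hζ | hζ)
    · have ht : t ≠ ⊤ := ne_top_of_lt hζ.2
      have h3 : t.toReal < Q ζ := by
        rw [← ENNReal.ofReal_lt_ofReal_iff_of_nonneg ENNReal.toReal_nonneg,
          ENNReal.ofReal_toReal ht]
        exact hζ.2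
      have h4 := hQ.lowerSemicontinuousOn ζ hζ.1 _ h3
      rw [eventually_nhdsWithin_iff] at h4
      filter_upwards [h4] with ξ hξ
      by_cases hξK : ξ ∈ frontier A
      · left
        refine ⟨hξK, ?_⟩
        rw [← ENNReal.ofReal_toReal ht]
        rw [ENNReal.ofReal_lt_ofReal_iff_of_nonneg ENNReal.toReal_nonneg]
        exact hξ hξK
      · exact Or.inr hξK
    · exact mem_of_superset (hK.isOpen_compl.mem_nhds hζ) subset_union_right
  have h3 : U = (U ∪ (frontier A)ᶜ) ∩ frontier A := by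
    ext ζ
    constructor
    · intro h
      exact ⟨Or.inl h, h.1⟩
    · rintro ⟨h | h, h'⟩
      · exact h
      · exact absurd h' h
  rw [h1, h3]
  exact h2.measurableSet.inter hK.measurableSet

lemma lintegral_Qe (hA : AdmissibleSet A) :
    ∫⁻ ζ in EE Aᶜ, Qe A Q ζ ∂μH[1] = ∫⁻ ζ in essBdry A, ENNReal.ofReal (Q ζ) ∂μH[1] := by
  rw [essBdry_eq]
  apply lintegral_congr_ae
  filter_upwards [AdmissibleWeight.Q_ae hA] with ζ hζ
  rw [Qe, indicator_of_mem hζ]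

/-- the total weight -/
noncomputable def Itot (A : Set ℂ) (Q : ℂ → ℝ) : ℝ :=
  (∫⁻ ζ in EE Aᶜ, Qe A Q ζ ∂μH[1]).toReal

lemma lintegral_Qe_eq (hA : AdmissibleSet A) (hQ : AdmissibleWeight A η Q) :
    ∫⁻ ζ in EE Aᶜ, Qe A Q ζ ∂μH[1] = ENNReal.ofReal (Itot A Q) := by
  rw [Itot, ENNReal.ofReal_toReal]
  rw [lintegral_Qe hA]
  exact hQ.lintegral_lt_top.ne

lemma Itot_nonneg : 0 ≤ Itot A Q := ENNReal.toReal_nonneg

/-- a positive lower bound of the weight away from `η` -/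
lemma exists_lower (hA : AdmissibleSet A) (hQ : AdmissibleWeight A η Q) {δ : ℝ} (hδ : 0 < δ) :
    ∃ q > (0 : ℝ), ∀ ζ ∈ frontier A, δ ≤ ‖ζ - η‖ → q ≤ Q ζ := by
  have hcl : IsClosed {ζ : ℂ | δ ≤ ‖ζ - η‖} := by
    have h : Continuous fun ζ : ℂ => ‖ζ - η‖ := by fun_prop
    exact isClosed_le continuous_const h
  have hc : IsCompact (frontier A ∩ {ζ | δ ≤ ‖ζ - η‖}) := hA.isCompact_frontier.inter_right hcl
  rcases (frontier A ∩ {ζ | δ ≤ ‖ζ - η‖}).eq_empty_or_nonempty with h | h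
  · refine ⟨1, one_pos, fun ζ h1 h2 => ?_⟩
    have : ζ ∈ frontier A ∩ {ζ | δ ≤ ‖ζ - η‖} := ⟨h1, h2⟩
    rw [h] at this
    exact absurd this (notMem_empty _)
  · obtain ⟨ζ₀, hζ₀, hmin⟩ := (hQ.lowerSemicontinuousOn.mono inter_subset_left).exists_isMinOn h hc
    refine ⟨Q ζ₀, hQ.pos ζ₀ hζ₀.1 ?_, fun ζ h1 h2 => hmin ⟨h1, h2⟩⟩
    intro he
    have := hζ₀.2
    rw [he, mem_ofPred_eq, sub_self, norm_zero] at this
    linarith

lemma locFin (hA : AdmissibleSet A) (hQ : AdmissibleWeight A η Q) : LocFin (EE Aᶜ) η := by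
  intro δ hδ
  obtain ⟨q, hq, hqQ⟩ := exists_lower hA hQ hδ
  have hm : MeasurableSet (ball η δ)ᶜ := measurableSet_ball.compl
  have h1 : ENNReal.ofReal q * μH[1] (EE Aᶜ \ ball η δ) ≤ ∫⁻ ζ in EE Aᶜ, Qe A Q ζ ∂μH[1] := by
    have h2 : μH[1] (EE Aᶜ \ ball η δ) = (μH[1].restrict (EE Aᶜ)) (ball η δ)ᶜ := by
      rw [Measure.restrict_apply hm, inter_comm]
      rfl
    rw [h2, ← lintegral_indicator_const hm]
    apply lintegral_mono_ae
    filter_upwards [AdmissibleWeight.Q_ae hA] with ζ hζ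
    by_cases h : ζ ∈ ball η δ
    · rw [indicator_of_notMem (show ζ ∉ (ball η δ)ᶜ from fun h' => h' h)]
      exact bot_le
    · rw [indicator_of_mem (show ζ ∈ (ball η δ)ᶜ from h), Qe, indicator_of_mem hζ]
      apply ENNReal.ofReal_le_ofReal
      apply hqQ ζ hζ
      rw [mem_ball, dist_eq_norm, not_lt] at h
      exact h
  intro htop
  rw [htop, ENNReal.mul_top (by
    rw [Ne, ENNReal.ofReal_eq_zero, not_le]
    exact hq), lintegral_Qe hA] at h1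
  exact absurd hQ.lintegral_lt_top (not_lt.2 h1)

end weight

/-! ### Linearity -/

lemma rd_sub {c : ℂ} {β : Bool} {φ₁ φ₂ : ℂ → ℝ} (h1 : ContDiff ℝ 1 φ₁) (h2 : ContDiff ℝ 1 φ₂)
    (ζ : ℂ) : rd c β (fun ζ => φ₁ ζ - φ₂ ζ) ζ = rd c β φ₁ ζ - rd c β φ₂ ζ := by
  unfold rd
  have := fderiv_sub (h1.differentiable one_ne_zero ζ) (h2.differentiable one_ne_zero ζ)
  have h3 : fderiv ℝ (fun ζ => φ₁ ζ - φ₂ ζ) ζ = fderiv ℝ φ₁ ζ - fderiv ℝ φ₂ ζ := this
  rw [h3]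
  simp only [FunLike.coe_sub, Pi.sub_apply]
  ring

lemma rd_add {c : ℂ} {β : Bool} {φ₁ φ₂ : ℂ → ℝ} (h1 : ContDiff ℝ 1 φ₁) (h2 : ContDiff ℝ 1 φ₂)
    (ζ : ℂ) : rd c β (fun ζ => φ₁ ζ + φ₂ ζ) ζ = rd c β φ₁ ζ + rd c β φ₂ ζ := by
  unfold rd
  have := fderiv_add (h1.differentiable one_ne_zero ζ) (h2.differentiable one_ne_zero ζ)
  have h3 : fderiv ℝ (fun ζ => φ₁ ζ + φ₂ ζ) ζ = fderiv ℝ φ₁ ζ + fderiv ℝ φ₂ ζ := this
  rw [h3]
  simp only [FunLike.coe_add, Pi.add_apply]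
  ring

/-- the test functions -/
structure Test (c : ℂ) (φ : ℂ → ℝ) : Prop where
  contDiff : ContDiff ℝ 1 φ
  compact : HasCompactSupport φ
  away : c ∉ tsupport φ

lemma Test.zero (c : ℂ) : Test c (fun _ => 0) :=
  ⟨contDiff_const, HasCompactSupport.zero, by simp⟩

lemma tsupport_sub_subset {φ₁ φ₂ : ℂ → ℝ} :
    tsupport (fun ζ => φ₁ ζ - φ₂ ζ) ⊆ tsupport φ₁ ∪ tsupport φ₂ := by
  apply closure_minimal _ ((isClosed_tsupport φ₁).union (isClosed_tsupport φ₂))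
  intro ζ hζ
  by_contra h
  rw [mem_union, not_or] at h
  apply hζ
  have h1 : φ₁ ζ = 0 := by
    by_contra hne
    exact h.1 (subset_tsupport φ₁ hne)
  have h2 : φ₂ ζ = 0 := by
    by_contra hne
    exact h.2 (subset_tsupport φ₂ hne)
  simp only [h1, h2, sub_zero]

lemma tsupport_add_subset {φ₁ φ₂ : ℂ → ℝ} :
    tsupport (fun ζ => φ₁ ζ + φ₂ ζ) ⊆ tsupport φ₁ ∪ tsupport φ₂ := by
  apply closure_minimal _ ((isClosed_tsupport φ₁).union (isClosed_tsupport φ₂))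
  intro ζ hζ
  by_contra h
  rw [mem_union, not_or] at h
  apply hζ
  have h1 : φ₁ ζ = 0 := by
    by_contra hne
    exact h.1 (subset_tsupport φ₁ hne)
  have h2 : φ₂ ζ = 0 := by
    by_contra hne
    exact h.2 (subset_tsupport φ₂ hne)
  simp only [h1, h2, add_zero]

lemma Test.sub {c : ℂ} {φ₁ φ₂ : ℂ → ℝ} (h1 : Test c φ₁) (h2 : Test c φ₂) :
    Test c (fun ζ => φ₁ ζ - φ₂ ζ) where
  contDiff := h1.contDiff.sub h2.contDiff
  compact := h1.compact.sub h2.compact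
  away := fun h => (tsupport_sub_subset h).elim h1.away h2.away

lemma Test.add {c : ℂ} {φ₁ φ₂ : ℂ → ℝ} (h1 : Test c φ₁) (h2 : Test c φ₂) :
    Test c (fun ζ => φ₁ ζ + φ₂ ζ) where
  contDiff := h1.contDiff.add h2.contDiff
  compact := h1.compact.add h2.compact
  away := fun h => (tsupport_add_subset h).elim h1.away h2.away

lemma Test.mul_left {c : ℂ} {φ : ℂ → ℝ} (h : Test c φ) {F : ℂ → ℝ}
    (hF : ∀ ζ ∈ tsupport φ, ContDiffAt ℝ 1 F ζ) : Test c (fun ζ => F ζ * φ ζ) where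
  contDiff := contDiff_mul_away h.contDiff hF
  compact := h.compact.mul_left
  away := fun hc => h.away (tsupport_mul_subset' F φ hc)

lemma RR_sub {c : ℂ} {β : Bool} {G : Set ℂ} {φ₁ φ₂ : ℂ → ℝ} (h1 : Test c φ₁) (h2 : Test c φ₂) :
    RR c β G (fun ζ => φ₁ ζ - φ₂ ζ) = RR c β G φ₁ - RR c β G φ₂ := by
  unfold RR
  simp_rw [rd_sub h1.contDiff h2.contDiff]
  exact integral_sub (integrable_rd β h1.contDiff h1.compact h1.away).integrableOn
    (integrable_rd β h2.contDiff h2.compact h2.away).integrableOn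

lemma RR_add {c : ℂ} {β : Bool} {G : Set ℂ} {φ₁ φ₂ : ℂ → ℝ} (h1 : Test c φ₁) (h2 : Test c φ₂) :
    RR c β G (fun ζ => φ₁ ζ + φ₂ ζ) = RR c β G φ₁ + RR c β G φ₂ := by
  unfold RR
  simp_rw [rd_add h1.contDiff h2.contDiff]
  exact integral_add (integrable_rd β h1.contDiff h1.compact h1.away).integrableOn
    (integrable_rd β h2.contDiff h2.compact h2.away).integrableOn

section bounds

variable {A : Set ℂ} {η : ℂ} {Q : ℂ → ℝ}

/-- the upper bound in real form -/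
lemma RR_le_real (hA : AdmissibleSet A) (hQ : AdmissibleWeight A η Q) {c : ℂ} {β : Bool}
    {φ : ℂ → ℝ} (h : Test c φ) {F : ℂ → ℝ≥0∞} (hF : ∀ ζ ∈ EE Aᶜ, ENNReal.ofReal |φ ζ| ≤ F ζ)
    {M : ℝ} (hM0 : 0 ≤ M) (hM : NN c β (EE Aᶜ) F ≤ ENNReal.ofReal M) : |RR c β Aᶜ φ| ≤ M := by
  rw [← ENNReal.ofReal_le_ofReal_iff hM0]
  refine (RR_le hA.measurableSet.compl (locFin hA hQ) c β h.contDiff h.compact h.away).trans ?_
  exact (NN_mono c β _ hF).trans hM

lemma RR_congr (hA : AdmissibleSet A) (hQ : AdmissibleWeight A η Q) {c : ℂ} {β : Bool}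
    {φ₁ φ₂ : ℂ → ℝ} (h1 : Test c φ₁) (h2 : Test c φ₂) (h : ∀ ζ ∈ frontier A, φ₁ ζ = φ₂ ζ) :
    RR c β Aᶜ φ₁ = RR c β Aᶜ φ₂ := by
  have h3 := RR_le_real (β := β) hA hQ (h1.sub h2) (F := fun _ => 0) (fun ζ hζ => by
    rw [h ζ (EE_subset A hζ), sub_self, abs_zero, ENNReal.ofReal_zero]) le_rfl (by
    simp [NN, Sx])
  rw [RR_sub h1 h2] at h3
  have h4 := abs_nonpos_iff.1 h3
  linarith

/-- the integrated sums of the weight at positive distance -/
lemma NN_le_of_dist (hA : AdmissibleSet A) (hQ : AdmissibleWeight A η Q) (c : ℂ) (β : Bool)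
    {d : ℝ} (hd : 0 < d) (hdist : ∀ ζ ∈ EE Aᶜ, d ≤ ‖ζ - c‖) :
    NN c β (EE Aᶜ) (fun ζ => ENNReal.ofReal (Q ζ)) ≤ ENNReal.ofReal (16 / d * Itot A Q) := by
  obtain ⟨g, hg1, hg2, hg3⟩ := weighted c β hd (EE Aᶜ) hdist (measurable_Qe hA hQ)
  have h1 : NN c β (EE Aᶜ) (fun ζ => ENNReal.ofReal (Q ζ)) ≤ NN c β (EE Aᶜ) (Qe A Q) := by
    apply NN_mono
    intro ζ hζ
    rw [Qe, indicator_of_mem (EE_subset A hζ)]
  refine h1.trans ?_
  have h2 : NN c β (EE Aᶜ) (Qe A Q) ≤ ∫⁻ x in Dx β, g x := by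
    unfold NN
    exact setLIntegral_mono hg1 hg2
  refine h2.trans ((setLIntegral_le_lintegral _ _).trans (hg3.trans (le_of_eq ?_)))
  rw [lintegral_Qe_eq hA hQ, ENNReal.ofReal_mul (by positivity)]

/-- the cutoff near a point of the interior -/
lemma exists_kappa {z : ℂ} (hz : z ∈ interior A) :
    ∃ κ : ℂ → ℝ, ContDiff ℝ 1 κ ∧ (∀ ζ, 0 ≤ κ ζ ∧ κ ζ ≤ 1) ∧ z ∉ tsupport κ ∧
      ∀ ζ ∉ interior A, ∀ᶠ ξ in 𝓝 ζ, κ ξ = 1 := by
  obtain ⟨r, hr, hrs⟩ := Metric.nhds_basis_closedBall.mem_iff.1 (isOpen_interior.mem_nhds hz)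
  let b : ContDiffBump z := ⟨r / 2, r, by positivity, by linarith⟩
  refine ⟨fun ζ => 1 - b ζ, ?_, ?_, ?_, ?_⟩
  · exact contDiff_const.sub b.contDiff
  · intro ζ
    exact ⟨by linarith [b.le_one (x := ζ)], by linarith [b.nonneg (x := ζ)]⟩
  · have h1 : (tsupport fun ζ => 1 - b ζ) ⊆ (ball z (r / 2))ᶜ := by
      apply closure_minimal _ isOpen_ball.isClosed_compl
      intro ζ hζ hζ2
      apply hζ
      have : b ζ = 1 := b.one_of_mem_closedBall (ball_subset_closedBall hζ2)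
      simp only [this, sub_self]
    intro h
    exact h1 h (mem_ball_self (by positivity))
  · intro ζ hζ
    have h1 : (closedBall z r)ᶜ ∈ 𝓝 ζ :=
      isClosed_closedBall.isOpen_compl.mem_nhds fun h => hζ (hrs h)
    filter_upwards [h1] with ξ hξ
    have : b ξ = 0 := by
      apply b.zero_of_le_dist
      rw [mem_compl_iff, mem_closedBall, not_le] at hξ
      exact hξ.le
    rw [this, sub_zero]

lemma cauchyInt_congr (hA : MeasurableSet A) {φ₁ φ₂ : ℂ → ℂ} {z : ℂ}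
    (h : ∀ ζ ∈ Aᶜ, φ₁ =ᶠ[𝓝 ζ] φ₂) : cauchyInt A φ₁ z = cauchyInt A φ₂ z := by
  unfold cauchyInt
  congr 1
  apply setIntegral_congr_fun hA.compl
  intro ζ hζ
  simp only [dbar]
  rw [(h ζ hζ).fderiv_eq]

lemma compl_notMem_interior {ζ : ℂ} (h : ζ ∈ Aᶜ) : ζ ∉ interior A := fun h' =>
  h (interior_subset h')

lemma frontier_notMem_interior {ζ : ℂ} (h : ζ ∈ frontier A) : ζ ∉ interior A := h.2

lemma formula_kappa (hA : MeasurableSet A) {c z : ℂ} {φ κ : ℂ → ℝ} (hφ : ContDiff ℝ 1 φ)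
    (hs : HasCompactSupport φ) (hκ1 : ContDiff ℝ 1 κ) (hκz : z ∉ tsupport κ)
    (hκ : ∀ ζ ∉ interior A, ∀ᶠ ξ in 𝓝 ζ, κ ξ = 1) (hc : c ∉ tsupport fun ζ => κ ζ * φ ζ)
    (β : Bool) :
    2 * Real.pi * Tc β (cauchyInt A (fun ζ => (φ ζ : ℂ)) z) =
      sb β * RR c β Aᶜ (fun ζ => (wq c z ζ).re * (κ ζ * φ ζ)) +
        RR c (!β) Aᶜ (fun ζ => (wq c z ζ).im * (κ ζ * φ ζ)) := by
  have h1 : cauchyInt A (fun ζ => (φ ζ : ℂ)) z =
      cauchyInt A (fun ζ => ((κ ζ * φ ζ : ℝ) : ℂ)) z := by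
    apply cauchyInt_congr hA
    intro ζ hζ
    filter_upwards [hκ ζ (compl_notMem_interior hζ)] with ξ hξ
    rw [hξ, one_mul]
  rw [h1]
  have h2 : z ∉ tsupport fun ζ => κ ζ * φ ζ := by
    intro h
    apply hκz
    have h3 : (fun ζ => κ ζ * φ ζ) = fun ζ => φ ζ * κ ζ := by
      ext ζ
      ring
    rw [h3] at h
    exact tsupport_mul_subset' φ κ h
  exact formula_T A (hκ1.mul hφ) hs.mul_left h2 hc β

/-- the bound of the Cauchy-type integral at a point of the interior -/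
theorem bound_interior (hA : AdmissibleSet A) (hQ : AdmissibleWeight A η Q) {z : ℂ} {d : ℝ}
    (hz : z ∈ interior A) (hd : 0 < d) (hdist : ∀ ζ ∈ frontier A, d ≤ ‖ζ - z‖) {φ : ℂ → ℝ}
    (hφ : ContDiff ℝ 1 φ) (hs : HasCompactSupport φ) {q : ℝ} (hq : 0 ≤ q)
    (hφq : ∀ ζ ∈ frontier A, |φ ζ| ≤ q * Q ζ) (β : Bool) :
    |Tc β (cauchyInt A (fun ζ => (φ ζ : ℂ)) z)| ≤ q * (16 / d * Itot A Q) := by
  obtain ⟨κ, hκ1, hκ2, hκz, hκ⟩ := exists_kappa hz
  have htest : Test z (fun ζ => κ ζ * φ ζ) := by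
    refine ⟨hκ1.mul hφ, hs.mul_left, ?_⟩
    intro h
    apply hκz
    have h3 : (fun ζ => κ ζ * φ ζ) = fun ζ => φ ζ * κ ζ := by
      ext ζ
      ring
    rw [h3] at h
    exact tsupport_mul_subset' φ κ h
  have h1 := formula_kappa hA.measurableSet hφ hs hκ1 hκz hκ htest.away β
  have hw : ∀ ζ, ζ ≠ z → wq z z ζ = 1 := by
    intro ζ hζ
    rw [wq, div_self (sub_ne_zero.2 hζ)]
  have hz0 : κ z * φ z = 0 := by
    by_contra hne
    exact htest.away (subset_tsupport _ hne)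
  have e1 : (fun ζ => (wq z z ζ).re * (κ ζ * φ ζ)) = fun ζ => κ ζ * φ ζ := by
    ext ζ
    rcases eq_or_ne ζ z with h | h
    · rw [h, hz0, mul_zero]
    · rw [hw ζ h, Complex.one_re, one_mul]
  have e2 : (fun ζ => (wq z z ζ).im * (κ ζ * φ ζ)) = fun _ => 0 := by
    ext ζ
    rcases eq_or_ne ζ z with h | h
    · rw [h, hz0, mul_zero]
    · rw [hw ζ h, Complex.one_im, zero_mul]
  have e3 : RR z (!β) Aᶜ (fun _ => (0 : ℝ)) = 0 := by
    unfold RR rd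
    simp
  rw [e1, e2, e3, add_zero] at h1
  have h2 : |RR z β Aᶜ (fun ζ => κ ζ * φ ζ)| ≤ q * (16 / d * Itot A Q) := by
    apply RR_le_real hA hQ htest (F := fun ζ => ENNReal.ofReal q * ENNReal.ofReal (Q ζ))
    · intro ζ hζ
      have hζ' := EE_subset A hζ
      rw [(hκ ζ (frontier_notMem_interior hζ')).self_of_nhds, one_mul, ← ENNReal.ofReal_mul hq]
      exact ENNReal.ofReal_le_ofReal (hφq ζ hζ')
    · have := Itot_nonneg (A := A) (Q := Q)
      positivity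
    · rw [NN_const_mul _ _ _ _ ENNReal.ofReal_ne_top, ENNReal.ofReal_mul hq]
      gcongr
      exact NN_le_of_dist hA hQ z β hd fun ζ hζ => hdist ζ (EE_subset A hζ)
  have hpi := Real.pi_gt_three
  have h3 : 2 * Real.pi * |Tc β (cauchyInt A (fun ζ => (φ ζ : ℂ)) z)| =
      |RR z β Aᶜ (fun ζ => κ ζ * φ ζ)| := by
    have := congrArg abs h1
    rw [abs_mul, abs_mul (sb β), abs_sb, one_mul,
      abs_of_pos (by linarith : 0 < 2 * Real.pi)] at this
    exact this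
  have h4 := abs_nonneg (Tc β (cauchyInt A (fun ζ => (φ ζ : ℂ)) z))
  nlinarith

end bounds

end Pool.Agent.CauchyInt
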