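import Mathlib

/-!
# Definitions for the limits of Cauchy-type integrals

The plane is `ℂ`, with Lebesgue measure `volume`; length is the one-dimensional Hausdorff measure
`μH[1]`. Functions on the boundary of `A` are restrictions of functions on `ℂ`: every notion below
depends only on their values on `frontier A`.
-/

namespace Pool.Agent.CauchyInt

open MeasureTheory Set Filter Topology Metric ENNReal Asymptotics

/-- The set `E` of the points where both `A` and its complement have positive upper density. -/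
def essBdry (A : Set ℂ) : Set ℂ :=
  {ζ | 0 < limsup (fun r : ℝ => volume (ball ζ r ∩ A) / ENNReal.ofReal (r ^ 2)) (𝓝[>] 0) ∧
    0 < limsup (fun r : ℝ => volume (ball ζ r ∩ Aᶜ) / ENNReal.ofReal (r ^ 2)) (𝓝[>] 0)}

/-- The standing assumptions on the Borel set `A`. -/
structure AdmissibleSet (A : Set ℂ) : Prop where
  measurableSet : MeasurableSet A
  isCompact_frontier : IsCompact (frontier A)
  nonempty_interior : (interior A).Nonempty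
  pos_volume : ∀ z ∈ frontier A, ∀ r > 0,
    0 < volume (ball z r ∩ A) ∧ 0 < volume (ball z r ∩ Aᶜ)

/-- The standing assumptions on the boundary point `η` and on the weight `Q`. -/
structure AdmissibleWeight (A : Set ℂ) (η : ℂ) (Q : ℂ → ℝ) : Prop where
  mem_frontier : η ∈ frontier A
  nonneg : ∀ ζ ∈ frontier A, 0 ≤ Q ζ
  pos : ∀ ζ ∈ frontier A, ζ ≠ η → 0 < Q ζ
  bounded : ∃ M : ℝ, ∀ ζ ∈ frontier A, Q ζ ≤ M
  lowerSemicontinuousOn : LowerSemicontinuousOn Q (frontier A)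
  lintegral_lt_top : ∫⁻ ζ in essBdry A, ENNReal.ofReal (Q ζ) ∂μH[1] < ⊤

/-- The functions of `C(∂A, Q)`. -/
def MemCQ (A : Set ℂ) (η : ℂ) (Q : ℂ → ℝ) (f : ℂ → ℂ) : Prop :=
  ContinuousOn f (frontier A) ∧ (fun ζ => f ζ - f η) =o[𝓝[frontier A \ {η}] η] Q

/-- `‖f‖_Q ≤ a`. -/
def NormQLe (A : Set ℂ) (η : ℂ) (Q : ℂ → ℝ) (f : ℂ → ℂ) (a : ℝ) : Prop :=
  (∀ ζ ∈ frontier A, ‖f ζ‖ ≤ a) ∧ ∀ ζ ∈ frontier A, ζ ≠ η → ‖f ζ - f η‖ / Q ζ ≤ a

/-- `∂̄φ = (∂₁φ + i ∂₂φ) / 2`. -/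
noncomputable def dbar (φ : ℂ → ℂ) (ζ : ℂ) : ℂ :=
  (1 / 2) * (fderiv ℝ φ ζ 1 + Complex.I * fderiv ℝ φ ζ Complex.I)

/-- `(π i)⁻¹ ∫_G ∂̄φ(ζ) / (ζ - z) dλ₂(ζ)`, where `G` is the complement of `A`. -/
noncomputable def cauchyInt (A : Set ℂ) (φ : ℂ → ℂ) (z : ℂ) : ℂ :=
  (Real.pi * Complex.I)⁻¹ * ∫ ζ in Aᶜ, dbar φ ζ / (ζ - z)

/-- `K` is the extension by continuity of the operator `𝒦` to `C(∂A, Q)`: it is given by the
defining formula on the restrictions of compactly supported `C¹` functions, and `f ↦ K f` is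
continuous from `C(∂A, Q)` to the functions on `interior A` with locally uniform convergence. -/
structure IsExtension (A : Set ℂ) (η : ℂ) (Q : ℂ → ℝ) (K : (ℂ → ℂ) → ℂ → ℂ) : Prop where
  formula : ∀ φ : ℂ → ℂ, ContDiff ℝ 1 φ → HasCompactSupport φ → MemCQ A η Q φ →
    ∀ z ∈ interior A, φ z = 0 → K φ z = cauchyInt A φ z
  continuity : ∀ f : ℂ → ℂ, MemCQ A η Q f → ∀ L ⊆ interior A, IsCompact L → ∀ ε > 0, ∃ δ > 0,
    ∀ g : ℂ → ℂ, MemCQ A η Q g → NormQLe A η Q (fun ζ => g ζ - f ζ) δ →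
      ∀ z ∈ L, ‖K g z - K f z‖ ≤ ε

/-- `∑ Q(ζ)` over the points `ζ` of `E` with `|ζ - η| = ρ`. -/
noncomputable def circleSum (A : Set ℂ) (η : ℂ) (Q : ℂ → ℝ) (ρ : ℝ) : ℝ≥0∞ :=
  ∑' ζ : {ζ : ℂ // ζ ∈ essBdry A ∧ ‖ζ - η‖ = ρ}, ENNReal.ofReal (Q ζ)

/-- The quantity `𝒰_r^Q(η)` of the question, with the factor `ρ⁻¹`; the interval `(0, r)` is
given as a set. -/
noncomputable def bigU (A : Set ℂ) (η : ℂ) (Q : ℂ → ℝ) (J : Set ℝ) : ℝ≥0∞ :=
  ∫⁻ ρ in J, (ENNReal.ofReal ρ)⁻¹ * circleSum A η Q ρ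

/-- The same integral over `(0, r)` without the factor `ρ⁻¹`. -/
noncomputable def smallU (A : Set ℂ) (η : ℂ) (Q : ℂ → ℝ) (r : ℝ) : ℝ≥0∞ :=
  ∫⁻ ρ in Ioo 0 r, circleSum A η Q ρ

/-- The quantity `V_r^Q(η)`. -/
noncomputable def bigV (A : Set ℂ) (η : ℂ) (Q : ℂ → ℝ) (r : ℝ) : ℝ≥0∞ :=
  ∫⁻ γ in Ioo 0 (2 * Real.pi), ∑' ξ : {ξ : ℂ // ξ ∈ essBdry A ∧
    ∃ ρ ∈ Ioo 0 r, ξ = η + ρ * Complex.exp (γ * Complex.I)}, ENNReal.ofReal (‖(ξ : ℂ) - η‖ * Q ξ)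

/-- The quantity `v^Q(η)`. -/
noncomputable def smallV (A : Set ℂ) (η : ℂ) (Q : ℂ → ℝ) : ℝ≥0∞ :=
  ∫⁻ γ in Ioo 0 (2 * Real.pi), ∑' ξ : {ξ : ℂ // ξ ∈ essBdry A ∧
    ∃ ρ ∈ Ioi (0 : ℝ), ξ = η + ρ * Complex.exp (γ * Complex.I)}, ENNReal.ofReal (Q ξ)

/-- The unit vectors spanning the half-lines of the contingent of `M` at `η`. -/
def contingent (M : Set ℂ) (η : ℂ) : Set ℂ :=
  {u | ∃ z : ℕ → ℂ, (∀ n, z n ∈ M \ {η}) ∧ Tendsto z atTop (𝓝 η) ∧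
    Tendsto (fun n => (z n - η) / ‖z n - η‖) atTop (𝓝 u)}

/-- The assumptions on the set `S` along which the limits are taken. -/
structure AdmissibleApproach (A : Set ℂ) (η : ℂ) (S : Set ℂ) : Prop where
  subset_interior : S ⊆ interior A
  isConnected : IsConnected S
  closure_inter_frontier : closure S ∩ frontier A = {η}
  exists_halfLine : ∃ u : ℂ, contingent S η = {u} ∧ u ∉ contingent (frontier A) η ∧
    -u ∉ contingent (frontier A) η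

end Pool.Agent.CauchyInt
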