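import Pool.Agent.CauchyInt.Ctx

/-!
# Density of smooth functions in the weighted spaces
-/

namespace Pool.Agent.CauchyInt

open MeasureTheory Set Filter Topology Metric NNReal ENNReal Asymptotics Manifold

lemma exists_bump {s t : Set ℂ} (hs : IsClosed s) (h : s ⊆ interior t) :
    ∃ f : ℂ → ℝ, ContDiff ℝ 1 f ∧ (∀ ζ ∈ s, ∀ᶠ ξ in 𝓝 ζ, f ξ = 1) ∧ (∀ ζ, ζ ∉ t → f ζ = 0) ∧
      ∀ ζ, 0 ≤ f ζ ∧ f ζ ≤ 1 := by
  obtain ⟨f, h1, h2, h3⟩ := exists_contMDiffMap_one_nhds_of_subset_interior (n := 1) 𝓘(ℝ, ℂ) hs h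
  refine ⟨f, f.contMDiff.contDiff, fun ζ hζ => ?_, h2, h3⟩
  exact h1.filter_mono (nhds_le_nhdsSet hζ)

/-- a compactly supported function equal to one near a compact set -/
lemma exists_one_near {K : Set ℂ} (hK : IsCompact K) :
    ∃ f : ℂ → ℝ, ContDiff ℝ 1 f ∧ HasCompactSupport f ∧ (∀ ζ ∈ K, ∀ᶠ ξ in 𝓝 ζ, f ξ = 1) ∧
      ∀ ζ, 0 ≤ f ζ ∧ f ζ ≤ 1 := by
  obtain ⟨R, hR⟩ := hK.isBounded.subset_closedBall 0
  obtain ⟨f, h1, h2, h3, h4⟩ := exists_bump (s := K) (t := closedBall 0 (R + 1)) hK.isClosed (by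
    refine hR.trans ?_
    refine subset_trans ?_ (ball_subset_interior_closedBall)
    exact closedBall_subset_ball (by linarith))
  refine ⟨f, h1, ?_, h2, h4⟩
  apply HasCompactSupport.of_support_subset_isCompact (isCompact_closedBall (0 : ℂ) (R + 1))
  intro ζ hζ
  by_contra hne
  exact hζ (h3 ζ hne)

variable {A : Set ℂ} {η : ℂ} {Q : ℂ → ℝ}

lemma dense_real (hA : AdmissibleSet A) (hQ : AdmissibleWeight A η Q) {f : ℂ → ℝ}
    (hf : ContinuousOn f (frontier A)) (h0 : f η = 0)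
    (ho : f =o[𝓝[frontier A \ {η}] η] Q) {ε : ℝ} (hε : 0 < ε) :
    ∃ g : ℂ → ℝ, Test η g ∧ ∀ ζ ∈ frontier A, |g ζ - f ζ| ≤ ε ∧ |g ζ - f ζ| ≤ ε * Q ζ := by
  have hK := hA.isCompact_frontier
  -- behaviour near `η`
  obtain ⟨δ, hδ, hδf⟩ : ∃ δ > 0, ∀ ζ ∈ frontier A, ‖ζ - η‖ < δ →
      |f ζ| ≤ ε / 2 * Q ζ ∧ |f ζ| ≤ ε / 2 := by
    have h1 : ∀ᶠ ζ in 𝓝[frontier A \ {η}] η, ‖f ζ‖ ≤ ε / 2 * ‖Q ζ‖ :=
      ho.bound (half_pos hε)
    have h2 : ∀ᶠ ζ in 𝓝[frontier A] η, |f ζ| < ε / 2 := by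
      have h3 := (hf η hQ.mem_frontier).abs
      rw [ContinuousWithinAt, h0, abs_zero] at h3
      exact h3.eventually (eventually_lt_nhds (half_pos hε))
    rw [Metric.nhdsWithin_basis_ball.eventually_iff] at h1 h2
    obtain ⟨δ₁, hδ₁, h1⟩ := h1
    obtain ⟨δ₂, hδ₂, h2⟩ := h2
    refine ⟨min δ₁ δ₂, lt_min hδ₁ hδ₂, fun ζ hζ hd => ⟨?_, ?_⟩⟩
    · rcases eq_or_ne ζ η with h | h
      · rw [h, h0, abs_zero]
        have := hQ.nonneg η hQ.mem_frontier
        positivity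
      · have h3 := h1 (show ζ ∈ ball η δ₁ ∩ (frontier A \ {η}) from
          ⟨by rw [mem_ball, dist_eq_norm]; exact hd.trans_le (min_le_left _ _), hζ, h⟩)
        rwa [Real.norm_eq_abs, Real.norm_eq_abs, abs_of_nonneg (hQ.nonneg ζ hζ)] at h3
    · exact (h2 (show ζ ∈ ball η δ₂ ∩ frontier A from
          ⟨by rw [mem_ball, dist_eq_norm]; exact hd.trans_le (min_le_right _ _), hζ⟩)).le
  obtain ⟨q, hq, hqQ⟩ := exists_lower hA hQ (show 0 < δ / 4 by positivity)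
  set m : ℝ := min q 1 with hm
  have hm0 : 0 < m := lt_min hq one_pos
  -- the smooth approximation
  obtain ⟨F, hF⟩ := ContinuousMap.exists_restrict_eq hK.isClosed
    (⟨(frontier A).domRestrict f, hf.domRestrict⟩ : C(frontier A, ℝ))
  have hFf : ∀ ζ ∈ frontier A, F ζ = f ζ := by
    intro ζ hζ
    have := congrArg (fun G : C(frontier A, ℝ) => G ⟨ζ, hζ⟩) hF
    simpa using this
  obtain ⟨g₁, hg₁, hg₁F, _⟩ := F.continuous.exists_contDiff_approx 1
    (ε := fun _ => ε / 2 * m) continuous_const (fun _ => by positivity)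
  obtain ⟨φ₀, hφ1, hφ2, hφ3, _⟩ := exists_one_near hK
  let b : ContDiffBump η := ⟨δ / 4, δ / 2, by positivity, by linarith⟩
  refine ⟨fun ζ => (1 - b ζ) * (φ₀ ζ * g₁ ζ), ⟨?_, ?_, ?_⟩, ?_⟩
  · exact (contDiff_const.sub b.contDiff).mul (hφ1.mul hg₁)
  · exact (hφ2.mul_right).mul_left
  · have h1 : (tsupport fun ζ => (1 - b ζ) * (φ₀ ζ * g₁ ζ)) ⊆ (ball η (δ / 4))ᶜ := by
      apply closure_minimal _ isOpen_ball.isClosed_compl
      intro ζ hζ hζ2
      apply hζ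
      have : b ζ = 1 := b.one_of_mem_closedBall (ball_subset_closedBall hζ2)
      simp only [this, sub_self, zero_mul]
    intro h
    exact h1 h (mem_ball_self (by positivity))
  · intro ζ hζ
    have hb0 := b.nonneg (x := ζ)
    have hb1 := b.le_one (x := ζ)
    have e1 : φ₀ ζ = 1 := (hφ3 ζ hζ).self_of_nhds
    have e2 : |g₁ ζ - f ζ| ≤ ε / 2 * m := by
      have := hg₁F ζ
      rw [hFf ζ hζ, Real.dist_eq] at this
      exact this.le
    have e3 : (1 - b ζ) * (φ₀ ζ * g₁ ζ) - f ζ = (1 - b ζ) * (g₁ ζ - f ζ) - b ζ * f ζ := by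
      rw [e1]; ring
    have e4 : |(1 - b ζ) * (φ₀ ζ * g₁ ζ) - f ζ| ≤ (1 - b ζ) * |g₁ ζ - f ζ| + b ζ * |f ζ| := by
      rw [e3]
      refine (abs_sub _ _).trans (le_of_eq ?_)
      rw [abs_mul, abs_mul, abs_of_nonneg hb0, abs_of_nonneg (by linarith : 0 ≤ 1 - b ζ)]
    have e5 : (1 - b ζ) * |g₁ ζ - f ζ| ≤ ε / 2 ∧ (1 - b ζ) * |g₁ ζ - f ζ| ≤ ε / 2 * Q ζ := by
      rcases lt_or_ge ‖ζ - η‖ (δ / 4) with h | h
      · have : b ζ = 1 := b.one_of_mem_closedBall (by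
          rw [mem_closedBall, dist_eq_norm]
          exact h.le)
        rw [this, sub_self, zero_mul]
        have := hQ.nonneg ζ hζ
        constructor <;> positivity
      · have h1 : (1 - b ζ) * |g₁ ζ - f ζ| ≤ 1 * (ε / 2 * m) := by
          apply mul_le_mul (by linarith) e2 (abs_nonneg _) zero_le_one
        rw [one_mul] at h1
        constructor
        · refine h1.trans ?_
          have : m ≤ 1 := min_le_right _ _
          nlinarith
        · refine h1.trans ?_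
          have h2 : m ≤ q := min_le_left _ _
          have h3 := hqQ ζ hζ h
          have : m ≤ Q ζ := h2.trans h3
          gcongr
    have e6 : b ζ * |f ζ| ≤ ε / 2 ∧ b ζ * |f ζ| ≤ ε / 2 * Q ζ := by
      rcases lt_or_ge ‖ζ - η‖ δ with h | h
      · obtain ⟨h1, h2⟩ := hδf ζ hζ h
        have := abs_nonneg (f ζ)
        constructor
        · nlinarith
        · nlinarith
      · have : b ζ = 0 := by
          apply b.zero_of_le_dist
          rw [dist_eq_norm]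
          show δ / 2 ≤ _
          linarith
        rw [this, zero_mul]
        have := hQ.nonneg ζ hζ
        constructor <;> positivity
    constructor
    · linarith [e5.1, e6.1]
    · linarith [e5.2, e6.2]

/-! ### Algebra of the weighted spaces -/

lemma MemCQ.add {f g : ℂ → ℂ} (hf : MemCQ A η Q f) (hg : MemCQ A η Q g) :
    MemCQ A η Q (fun ζ => f ζ + g ζ) := by
  refine ⟨hf.1.add hg.1, ?_⟩
  refine (hf.2.add hg.2).congr_left fun ζ => ?_
  ring

lemma MemCQ.sub {f g : ℂ → ℂ} (hf : MemCQ A η Q f) (hg : MemCQ A η Q g) :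
    MemCQ A η Q (fun ζ => f ζ - g ζ) := by
  refine ⟨hf.1.sub hg.1, ?_⟩
  refine (hf.2.sub hg.2).congr_left fun ζ => ?_
  ring

lemma MemCQ.const_mul {f : ℂ → ℂ} (hf : MemCQ A η Q f) (a : ℂ) :
    MemCQ A η Q (fun ζ => a * f ζ) := by
  refine ⟨continuousOn_const.mul hf.1, ?_⟩
  refine (hf.2.const_mul_left a).congr_left fun ζ => ?_
  ring

lemma MemCQ.congr {f g : ℂ → ℂ} (hf : MemCQ A η Q f) (hη : η ∈ frontier A)
    (h : ∀ ζ ∈ frontier A, f ζ = g ζ) : MemCQ A η Q g := by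
  refine ⟨hf.1.congr fun ζ hζ => (h ζ hζ).symm, ?_⟩
  refine hf.2.congr' ?_ EventuallyEq.rfl
  filter_upwards [self_mem_nhdsWithin] with ζ hζ
  rw [h ζ hζ.1, h η hη]

lemma memCQ_const (a : ℂ) : MemCQ A η Q (fun _ => a) := by
  refine ⟨continuousOn_const, ?_⟩
  simp only [sub_self]
  exact isLittleO_zero _ _

lemma memCQ_of_near {f : ℂ → ℂ} (hf : ContinuousOn f (frontier A))
    (h : ∀ᶠ ζ in 𝓝[frontier A] η, f ζ = f η) : MemCQ A η Q f := by
  refine ⟨hf, ?_⟩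
  have h1 : ∀ᶠ ζ in 𝓝[frontier A \ {η}] η, f ζ - f η = 0 := by
    filter_upwards [h.filter_mono (nhdsWithin_mono η sdiff_subset)] with ζ hζ
    rw [hζ, sub_self]
  exact (isLittleO_zero (g' := Q) (l := 𝓝[frontier A \ {η}] η)).congr'
    (h1.mono fun ζ hζ => hζ.symm) EventuallyEq.rfl

lemma memCQ_test {g : ℂ → ℝ} (hg : Test η g) : MemCQ A η Q (fun ζ => (g ζ : ℂ)) := by
  apply memCQ_of_near
  · exact (Complex.continuous_ofReal.comp hg.contDiff.continuous).continuousOn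
  · have h1 : ∀ᶠ ζ in 𝓝 η, g ζ = 0 := by
      filter_upwards [(isClosed_tsupport g).isOpen_compl.mem_nhds hg.away] with ζ hζ
      by_contra hne
      exact hζ (subset_tsupport g hne)
    have h2 := h1.self_of_nhds
    filter_upwards [h1.filter_mono nhdsWithin_le_nhds] with ζ hζ
    rw [hζ, h2]

lemma NormQLe.add {f g : ℂ → ℂ} {a b : ℝ} (hf : NormQLe A η Q f a) (hg : NormQLe A η Q g b)
    (hQ : AdmissibleWeight A η Q) : NormQLe A η Q (fun ζ => f ζ + g ζ) (a + b) := by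
  constructor
  · intro ζ hζ
    exact (norm_add_le _ _).trans (add_le_add (hf.1 ζ hζ) (hg.1 ζ hζ))
  · intro ζ hζ hne
    have h1 := hf.2 ζ hζ hne
    have h2 := hg.2 ζ hζ hne
    have hq := hQ.pos ζ hζ hne
    have h3 : f ζ + g ζ - (f η + g η) = (f ζ - f η) + (g ζ - g η) := by ring
    rw [h3]
    refine le_trans ?_ (add_le_add h1 h2)
    rw [← add_div]
    gcongr
    exact norm_add_le _ _

lemma NormQLe.neg {f : ℂ → ℂ} {a : ℝ} (hf : NormQLe A η Q f a) :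
    NormQLe A η Q (fun ζ => - f ζ) a := by
  constructor
  · intro ζ hζ
    rw [norm_neg]
    exact hf.1 ζ hζ
  · intro ζ hζ hne
    have h3 : - f ζ - (- f η) = -(f ζ - f η) := by ring
    rw [h3, norm_neg]
    exact hf.2 ζ hζ hne

lemma NormQLe.const_mul {f : ℂ → ℂ} {a : ℝ} (hf : NormQLe A η Q f a) (k : ℂ) :
    NormQLe A η Q (fun ζ => k * f ζ) (‖k‖ * a) := by
  constructor
  · intro ζ hζ
    rw [norm_mul]
    have := hf.1 ζ hζ
    gcongr
  · intro ζ hζ hne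
    have h3 : k * f ζ - k * f η = k * (f ζ - f η) := by ring
    rw [h3, norm_mul, mul_div_assoc]
    have := hf.2 ζ hζ hne
    gcongr

lemma NormQLe.mono {f : ℂ → ℂ} {a b : ℝ} (hf : NormQLe A η Q f a) (h : a ≤ b) :
    NormQLe A η Q f b :=
  ⟨fun ζ hζ => (hf.1 ζ hζ).trans h, fun ζ hζ hne => (hf.2 ζ hζ hne).trans h⟩

lemma NormQLe.congr {f g : ℂ → ℂ} {a : ℝ} (hf : NormQLe A η Q f a) (hη : η ∈ frontier A)
    (h : ∀ ζ ∈ frontier A, f ζ = g ζ) : NormQLe A η Q g a := by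
  constructor
  · intro ζ hζ
    rw [← h ζ hζ]
    exact hf.1 ζ hζ
  · intro ζ hζ hne
    rw [← h ζ hζ, ← h η hη]
    exact hf.2 ζ hζ hne

lemma dense_complex (hA : AdmissibleSet A) (hQ : AdmissibleWeight A η Q) {f : ℂ → ℂ}
    (hf : MemCQ A η Q f) {ε : ℝ} (hε : 0 < ε) :
    ∃ φ : ℂ → ℂ, ContDiff ℝ 1 φ ∧ HasCompactSupport φ ∧ MemCQ A η Q φ ∧
      NormQLe A η Q (fun ζ => φ ζ - f ζ) ε := by
  have hη := hQ.mem_frontier
  set u : ℂ → ℝ := fun ζ => (f ζ - f η).re with hu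
  set v : ℂ → ℝ := fun ζ => (f ζ - f η).im with hv
  have hcu : ContinuousOn u (frontier A) :=
    Complex.continuous_re.comp_continuousOn (hf.1.sub continuousOn_const)
  have hcv : ContinuousOn v (frontier A) :=
    Complex.continuous_im.comp_continuousOn (hf.1.sub continuousOn_const)
  have hOu : u =O[𝓝[frontier A \ {η}] η] (fun ζ => f ζ - f η) :=
    IsBigO.of_bound 1 (Eventually.of_forall fun ζ => by
      rw [one_mul, Real.norm_eq_abs]
      exact Complex.abs_re_le_norm _)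
  have hOv : v =O[𝓝[frontier A \ {η}] η] (fun ζ => f ζ - f η) :=
    IsBigO.of_bound 1 (Eventually.of_forall fun ζ => by
      rw [one_mul, Real.norm_eq_abs]
      exact Complex.abs_im_le_norm _)
  have hou : u =o[𝓝[frontier A \ {η}] η] Q := hOu.trans_isLittleO hf.2
  have hov : v =o[𝓝[frontier A \ {η}] η] Q := hOv.trans_isLittleO hf.2
  obtain ⟨g, hg, hgu⟩ := dense_real hA hQ hcu (by simp [hu]) hou (half_pos hε)
  obtain ⟨h, hh, hhv⟩ := dense_real hA hQ hcv (by simp [hv]) hov (half_pos hε)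
  obtain ⟨φ₀, hφ1, hφ2, hφ3, _⟩ := exists_one_near hA.isCompact_frontier
  have hgη : g η = 0 := by
    by_contra hne
    exact hg.away (subset_tsupport g hne)
  have hhη : h η = 0 := by
    by_contra hne
    exact hh.away (subset_tsupport h hne)
  have hφη : φ₀ η = 1 := (hφ3 η hη).self_of_nhds
  set φ : ℂ → ℂ := fun ζ => f η * (φ₀ ζ : ℂ) + ((g ζ : ℂ) + Complex.I * (h ζ : ℂ)) with hφ
  have hdiff : ∀ ζ ∈ frontier A, φ ζ - f ζ = ((g ζ - u ζ : ℝ) : ℂ) +
      Complex.I * ((h ζ - v ζ : ℝ) : ℂ) := by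
    intro ζ hζ
    have e1 : φ₀ ζ = 1 := (hφ3 ζ hζ).self_of_nhds
    have e2 : (f ζ - f η : ℂ) = (u ζ : ℂ) + Complex.I * (v ζ : ℂ) := by
      rw [hu, hv, mul_comm]
      exact (Complex.re_add_im _).symm
    have e3 : φ ζ - f ζ = (g ζ : ℂ) + Complex.I * (h ζ : ℂ) - (f ζ - f η) := by
      rw [hφ]
      simp only [e1, Complex.ofReal_one]
      ring
    rw [e3, e2]
    push_cast
    ring
  have hzero : φ η - f η = 0 := by
    rw [hφ]
    simp only [hφη, hgη, hhη, Complex.ofReal_one, Complex.ofReal_zero]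
    ring
  have hnorm : ∀ ζ ∈ frontier A, ∀ a, |g ζ - u ζ| ≤ a / 2 → |h ζ - v ζ| ≤ a / 2 →
      ‖φ ζ - f ζ‖ ≤ a := by
    intro ζ hζ a h1 h2
    rw [hdiff ζ hζ]
    refine (norm_add_le _ _).trans ?_
    rw [norm_mul, Complex.norm_I, one_mul, Complex.norm_real, Complex.norm_real,
      Real.norm_eq_abs, Real.norm_eq_abs]
    linarith
  refine ⟨φ, ?_, ?_, ?_, ?_, ?_⟩
  · have c1 : ∀ {k : ℂ → ℝ}, ContDiff ℝ 1 k → ContDiff ℝ 1 fun ζ => (k ζ : ℂ) := fun hk =>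
      Complex.ofRealCLM.contDiff.comp hk
    exact (contDiff_const.mul (c1 hφ1)).add ((c1 hg.contDiff).add
      (contDiff_const.mul (c1 hh.contDiff)))
  · have c1 : ∀ {k : ℂ → ℝ}, HasCompactSupport k → HasCompactSupport fun ζ => (k ζ : ℂ) :=
      fun hk => hk.comp_left (g := fun x : ℝ => (x : ℂ)) Complex.ofReal_zero
    exact ((c1 hφ2).mul_left).add ((c1 hg.compact).add ((c1 hh.compact).mul_left))
  · have c1 : MemCQ A η Q (fun ζ => f η * (φ₀ ζ : ℂ)) := by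
      apply MemCQ.const_mul
      apply memCQ_of_near
      · exact (Complex.continuous_ofReal.comp hφ1.continuous).continuousOn
      · filter_upwards [(hφ3 η hη).filter_mono nhdsWithin_le_nhds] with ζ hζ
        rw [hζ, hφη]
    exact c1.add ((memCQ_test hg).add ((memCQ_test hh).const_mul _))
  · intro ζ hζ
    exact hnorm ζ hζ ε (hgu ζ hζ).1 (hhv ζ hζ).1
  · intro ζ hζ hne
    simp only
    rw [hzero, sub_zero, div_le_iff₀ (hQ.pos ζ hζ hne)]
    apply hnorm ζ hζ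
    · have := (hgu ζ hζ).2
      linarith
    · have := (hhv ζ hζ).2
      linarith

end Pool.Agent.CauchyInt
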