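import Pool.Agent.CauchyInt.Main

/-!
# The unit disc
-/

namespace Pool.Agent.CauchyInt

open MeasureTheory Set Filter Topology Metric NNReal ENNReal

/-- the closed unit disc -/
def disc : Set ℂ := closedBall 0 1

lemma frontier_disc : frontier disc = sphere (0 : ℂ) 1 := frontier_closedBall 0 one_ne_zero

lemma interior_disc : interior disc = ball (0 : ℂ) 1 := interior_closedBall 0 one_ne_zero

lemma vol_quarter (a : ℂ) {r : ℝ} (hr : 0 < r) :
    ENNReal.ofReal (1 / 2 * r ^ 2) < volume (ball a (r / 2)) := by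
  rw [Complex.volume_ball, ← ENNReal.ofReal_pow (by positivity), ← ENNReal.ofReal_coe_nnreal,
    ← ENNReal.ofReal_mul (by positivity), NNReal.coe_real_pi,
    ENNReal.ofReal_lt_ofReal_iff (by positivity)]
  have := Real.pi_gt_three
  nlinarith [sq_pos_of_pos hr]

lemma disc_vol {z : ℂ} (hz : z ∈ sphere (0 : ℂ) 1) {r : ℝ} (hr : 0 < r) (hr1 : r ≤ 1) :
    ENNReal.ofReal (1 / 2 * r ^ 2) < volume (ball z r ∩ disc) ∧
      ENNReal.ofReal (1 / 2 * r ^ 2) < volume (ball z r ∩ discᶜ) := by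
  rw [mem_sphere_zero_iff_norm] at hz
  have key : ∀ s : ℝ, ‖((1 + s : ℝ) : ℂ) * z - z‖ = |s| := by
    intro s
    have : ((1 + s : ℝ) : ℂ) * z - z = (s : ℂ) * z := by push_cast; ring
    rw [this, norm_mul, hz, mul_one, Complex.norm_real, Real.norm_eq_abs]
  have hn : ∀ s : ℝ, ‖((s : ℝ) : ℂ) * z‖ = |s| := by
    intro s
    rw [norm_mul, hz, mul_one, Complex.norm_real, Real.norm_eq_abs]
  constructor
  · refine (vol_quarter (((1 + -(r / 2) : ℝ) : ℂ) * z) hr).trans_le (measure_mono ?_)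
    intro w hw
    rw [mem_ball, dist_eq_norm] at hw
    constructor
    · rw [mem_ball, dist_eq_norm]
      have h1 := norm_add_le (w - ((1 + -(r / 2) : ℝ) : ℂ) * z) (((1 + -(r / 2) : ℝ) : ℂ) * z - z)
      rw [sub_add_sub_cancel, key, abs_neg, abs_of_pos (by positivity : 0 < r / 2)] at h1
      linarith
    · rw [disc, mem_closedBall, dist_zero_right]
      have h1 := norm_add_le (w - ((1 + -(r / 2) : ℝ) : ℂ) * z) (((1 + -(r / 2) : ℝ) : ℂ) * z)
      rw [sub_add_cancel, hn, abs_of_nonneg (by linarith : 0 ≤ 1 + -(r / 2))] at h1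
      linarith
  · refine (vol_quarter (((1 + r / 2 : ℝ) : ℂ) * z) hr).trans_le (measure_mono ?_)
    intro w hw
    rw [mem_ball, dist_eq_norm] at hw
    constructor
    · rw [mem_ball, dist_eq_norm]
      have h1 := norm_add_le (w - ((1 + r / 2 : ℝ) : ℂ) * z) (((1 + r / 2 : ℝ) : ℂ) * z - z)
      rw [sub_add_sub_cancel, key, abs_of_pos (by positivity : 0 < r / 2)] at h1
      linarith
    · rw [disc, mem_compl_iff, mem_closedBall, dist_zero_right, not_le]
      have h1 := norm_sub_norm_le (((1 + r / 2 : ℝ) : ℂ) * z) w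
      rw [hn, abs_of_nonneg (by linarith : 0 ≤ 1 + r / 2), norm_sub_rev] at h1
      linarith

lemma admissible_disc : AdmissibleSet disc where
  measurableSet := isClosed_closedBall.measurableSet
  isCompact_frontier := by rw [frontier_disc]; exact isCompact_sphere 0 1
  nonempty_interior := by
    rw [interior_disc]
    exact ⟨0, mem_ball_self one_pos⟩
  pos_volume := by
    intro z hz r hr
    rw [frontier_disc] at hz
    obtain ⟨h1, h2⟩ := disc_vol hz (r := min r 1) (lt_min hr one_pos) (min_le_right _ _)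
    have hsub : ball z (min r 1) ⊆ ball z r := ball_subset_ball (min_le_left _ _)
    exact ⟨(pos_of_gt h1).trans_le (measure_mono (inter_subset_inter_left _ hsub)),
      (pos_of_gt h2).trans_le (measure_mono (inter_subset_inter_left _ hsub))⟩

lemma not_zdc_of_lower {B : Set ℂ} {z : ℂ}
    (h : ∀ r : ℝ, 0 < r → r ≤ 1 → ENNReal.ofReal (1 / 2 * r ^ 2) < volume (ball z r ∩ B)) :
    ¬ ZDc B z := by
  intro hz
  have h1 := hz (1 / 2) (by norm_num)
  have h2 : ∀ᶠ r in 𝓝[>] (0 : ℝ), r < 1 :=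
    eventually_nhdsWithin_of_eventually_nhds (eventually_lt_nhds one_pos)
  obtain ⟨r, a1, a2, a3⟩ := (h1.and (h2.and self_mem_nhdsWithin)).exists
  exact absurd (h r a3 a2.le) (not_lt.2 a1)

lemma essBdry_disc : essBdry disc = sphere (0 : ℂ) 1 := by
  apply Subset.antisymm
  · rw [essBdry_eq, ← frontier_disc]
    exact EE_subset disc
  · intro z hz
    rw [essBdry_eq, EE_compl]
    exact ⟨not_zdc_of_lower fun r hr hr1 => (disc_vol hz hr hr1).1,
      not_zdc_of_lower fun r hr hr1 => (disc_vol hz hr hr1).2⟩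

lemma sphere_finite : μH[1] (sphere (0 : ℂ) 1) < ⊤ := by
  have h1 : circleMap 0 1 '' Ioc 0 (2 * Real.pi) = sphere (0 : ℂ) |1| := image_circleMap_Ioc 0 1
  rw [abs_one] at h1
  rw [← h1]
  have h2 := (lipschitzWith_circleMap (0 : ℂ) 1).lipschitzOnWith
    (s := Ioc 0 (2 * Real.pi)) |>.hausdorffMeasure_image_le (d := 1) zero_le_one
  refine h2.trans_lt ?_
  apply ENNReal.mul_lt_top
  · rw [ENNReal.rpow_one]
    exact ENNReal.coe_lt_top
  · rw [hausdorffMeasure_real, Real.volume_Ioc]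
    exact ENNReal.ofReal_lt_top

lemma weight_disc : AdmissibleWeight disc 1 (fun _ => 1) where
  mem_frontier := by rw [frontier_disc]; simp
  nonneg := fun _ _ => zero_le_one
  pos := fun _ _ _ => one_pos
  bounded := ⟨1, fun _ _ => le_rfl⟩
  lowerSemicontinuousOn := lowerSemicontinuousOn_const
  lintegral_lt_top := by
    rw [essBdry_disc]
    simp only [ENNReal.ofReal_one, lintegral_const, one_mul, MeasurableSet.univ,
      Measure.restrict_apply, univ_inter]
    exact sphere_finite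

/-- the radius towards the point `1` -/
def radius : Set ℂ := (fun x : ℝ => (x : ℂ)) '' Ioo 0 1

lemma contingent_radius : contingent radius 1 = {-1} := by
  have hdir : ∀ x ∈ Ioo (0 : ℝ) 1, ((x : ℂ) - 1) / ‖(x : ℂ) - 1‖ = -1 := by
    intro x hx
    have h1 : (x : ℂ) - 1 = ((x - 1 : ℝ) : ℂ) := by push_cast; ring
    rw [h1, Complex.norm_real, Real.norm_eq_abs, abs_of_neg (by linarith [hx.2])]
    have h2 : ((x - 1 : ℝ) : ℂ) ≠ 0 := by
      exact_mod_cast (by linarith [hx.2] : x - 1 < 0).ne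
    push_cast at h2 ⊢
    rw [div_neg, div_self h2]
  ext u
  rw [mem_singleton_iff]
  constructor
  · rintro ⟨z, hz, _, hlim⟩
    have h1 : ∀ n, (z n - 1) / ‖z n - 1‖ = -1 := by
      intro n
      obtain ⟨x, hx, hxz⟩ := (hz n).1
      simp only at hxz
      rw [← hxz]
      exact hdir x hx
    have h2 : Tendsto (fun n => (z n - 1) / (‖z n - 1‖ : ℂ)) atTop (𝓝 (-1)) := by
      simp_rw [h1]
      exact tendsto_const_nhds
    exact tendsto_nhds_unique hlim h2
  · rintro rfl
    have hx : ∀ n : ℕ, 1 - 1 / ((n : ℝ) + 2) ∈ Ioo (0 : ℝ) 1 := by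
      intro n
      have hn : (0 : ℝ) ≤ n := Nat.cast_nonneg n
      constructor
      · rw [sub_pos, div_lt_one (by positivity)]
        linarith
      · have : 0 < 1 / ((n : ℝ) + 2) := by positivity
        linarith
    refine ⟨fun n => ((1 - 1 / ((n : ℝ) + 2) : ℝ) : ℂ), fun n => ⟨⟨_, hx n, rfl⟩, ?_⟩, ?_, ?_⟩
    · intro he
      rw [mem_singleton_iff, ← Complex.ofReal_one, Complex.ofReal_inj] at he
      exact absurd he (hx n).2.ne
    · have h1 : Tendsto (fun n : ℕ => (1 : ℝ) - 1 / ((n : ℝ) + 2)) atTop (𝓝 (1 - 0)) := by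
        apply tendsto_const_nhds.sub
        have h2 := tendsto_inv_succ.comp (tendsto_add_atTop_nat 1)
        refine h2.congr fun n => ?_
        simp only [Function.comp_apply]
        push_cast
        ring_nf
      rw [sub_zero] at h1
      have h3 := (Complex.continuous_ofReal.tendsto (1 : ℝ)).comp h1
      rwa [Complex.ofReal_one] at h3
    · have h1 : ∀ n : ℕ, (((1 - 1 / ((n : ℝ) + 2) : ℝ) : ℂ) - 1) /
          ‖((1 - 1 / ((n : ℝ) + 2) : ℝ) : ℂ) - 1‖ = -1 := fun n => hdir _ (hx n)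
      simp_rw [h1]
      exact tendsto_const_nhds

lemma contingent_sphere {u : ℂ} (hu : u ∈ contingent (sphere (0 : ℂ) 1) 1) : u.re = 0 := by
  obtain ⟨z, hz, hz1, hlim⟩ := hu
  have hre : ∀ n, ((z n - 1) / ‖z n - 1‖).re = -(‖z n - 1‖ / 2) := by
    intro n
    have hn : ‖z n‖ = 1 := mem_sphere_zero_iff_norm.1 (hz n).1
    have hne : 0 < ‖z n - 1‖ := norm_pos_iff.2 (sub_ne_zero.2 (hz n).2)
    have h1 : ‖z n‖ ^ 2 = 1 := by rw [hn]; norm_num
    have h2 : ‖z n - 1‖ ^ 2 = (z n).re ^ 2 + (z n).im ^ 2 - 2 * (z n).re + 1 := by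
      rw [← Complex.normSq_eq_norm_sq, Complex.normSq_apply]
      simp
      ring
    rw [← Complex.normSq_eq_norm_sq, Complex.normSq_apply] at h1
    rw [Complex.div_ofReal_re, Complex.sub_re, Complex.one_re, div_eq_iff hne.ne']
    nlinarith
  have h1 := (Complex.continuous_re.tendsto u).comp hlim
  have h2 : Tendsto (fun n => -(‖z n - 1‖ / 2)) atTop (𝓝 (-(‖(1 : ℂ) - 1‖ / 2))) :=
    ((hz1.sub tendsto_const_nhds).norm.div_const 2).neg
  rw [sub_self, norm_zero, zero_div, neg_zero] at h2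
  exact tendsto_nhds_unique (h1.congr hre) h2

lemma approach_disc : AdmissibleApproach disc 1 radius where
  subset_interior := by
    rw [interior_disc]
    rintro _ ⟨x, hx, rfl⟩
    rw [mem_ball_zero_iff, Complex.norm_real, Real.norm_eq_abs, abs_of_pos hx.1]
    exact hx.2
  isConnected := (isConnected_Ioo one_pos).image _ Complex.continuous_ofReal.continuousOn
  closure_inter_frontier := by
    rw [frontier_disc]
    apply Subset.antisymm
    · rintro z ⟨h1, h2⟩
      have h3 : closure radius ⊆ (fun x : ℝ => (x : ℂ)) '' Icc 0 1 := by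
        apply closure_minimal
        · exact image_mono Ioo_subset_Icc_self
        · exact (isCompact_Icc.image Complex.continuous_ofReal).isClosed
      obtain ⟨x, hx, rfl⟩ := h3 h1
      rw [mem_sphere_zero_iff_norm, Complex.norm_real, Real.norm_eq_abs, abs_of_nonneg hx.1] at h2
      rw [mem_singleton_iff]
      show ((x : ℝ) : ℂ) = 1
      rw [h2, Complex.ofReal_one]
    · rintro _ rfl
      refine ⟨?_, by simp⟩
      have h1 : (1 : ℝ) ∈ closure (Ioo (0 : ℝ) 1) := by
        rw [closure_Ioo zero_ne_one]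
        exact ⟨zero_le_one, le_rfl⟩
      have h2 : ((1 : ℝ) : ℂ) ∈ closure radius :=
        image_closure_subset_closure_image (f := fun x : ℝ => (x : ℂ))
          (s := Ioo (0 : ℝ) 1) Complex.continuous_ofReal ⟨1, h1, rfl⟩
      rwa [Complex.ofReal_one] at h2
  exists_halfLine := by
    refine ⟨-1, contingent_radius, ?_, ?_⟩
    · intro h
      rw [frontier_disc] at h
      have := contingent_sphere h
      simp at this
    · intro h
      rw [frontier_disc] at h
      have := contingent_sphere h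
      simp at this

/-! ### The potentials of the disc -/

lemma tsum_one_le {ι : Type*} (n : ℕ) (h : ∀ F : Finset ι, F.card ≤ n) (f : ι → ℝ≥0∞)
    (hf : ∀ i, f i = 1) : ∑' i, f i ≤ n := by
  rw [ENNReal.tsum_eq_iSup_sum]
  refine iSup_le fun F => ?_
  rw [Finset.sum_congr rfl fun i _ => hf i]
  simp only [Finset.sum_const, nsmul_eq_mul, mul_one]
  exact_mod_cast h F

lemma smallV_disc : smallV disc 1 (fun _ => 1) < ⊤ := by
  unfold smallV
  have h1 : ∀ γ : ℝ, ∑' ξ : {ξ : ℂ // ξ ∈ essBdry disc ∧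
      ∃ ρ ∈ Ioi (0 : ℝ), ξ = 1 + ρ * Complex.exp (γ * Complex.I)}, ENNReal.ofReal 1 ≤
      ((1 : ℕ) : ℝ≥0∞) := by
    intro γ
    refine tsum_one_le 1 (fun F => ?_) _ fun _ => ENNReal.ofReal_one
    rw [Finset.card_le_one]
    rintro ⟨ξ, hξ, ρ, hρ, he⟩ _ ⟨ξ', hξ', ρ', hρ', he'⟩ _
    apply Subtype.ext
    have hρ0 : (0 : ℝ) < ρ := hρ
    have hρ0' : (0 : ℝ) < ρ' := hρ'
    have key : ∀ (ξ : ℂ) (ρ : ℝ), 0 < ρ → ξ ∈ essBdry disc →
        ξ = 1 + ρ * Complex.exp (γ * Complex.I) → ρ = -2 * Real.cos γ := by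
      intro ξ ρ hρ hξ he
      rw [essBdry_disc, mem_sphere_zero_iff_norm] at hξ
      have h2 : ‖ξ‖ ^ 2 = 1 := by rw [hξ]; norm_num
      rw [← Complex.normSq_eq_norm_sq, Complex.normSq_apply, he, Complex.exp_mul_I] at h2
      simp only [Complex.add_re, Complex.one_re, Complex.mul_re, Complex.ofReal_re,
        Complex.cos_ofReal_re, Complex.sin_ofReal_re, Complex.I_re, mul_zero,
        Complex.sin_ofReal_im, Complex.I_im, mul_one, sub_self, add_zero, Complex.ofReal_im,
        Complex.add_im, Complex.cos_ofReal_im, Complex.mul_im, zero_add, zero_mul, sub_zero,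
        Complex.one_im] at h2
      have h3 := Real.sin_sq_add_cos_sq γ
      have h4 : ρ * (ρ + 2 * Real.cos γ) = 0 := by linear_combination h2 - ρ ^ 2 * h3
      rcases mul_eq_zero.1 h4 with h5 | h5
      · exact absurd h5 hρ.ne'
      · linarith
    have e1 := key ξ ρ hρ0 hξ he
    have e2 := key ξ' ρ' hρ0' hξ' he'
    simp only
    rw [he, he', e1, e2]
  calc ∫⁻ γ in Ioo 0 (2 * Real.pi), _ ≤ ∫⁻ _γ in Ioo 0 (2 * Real.pi), ((1 : ℕ) : ℝ≥0∞) :=
        lintegral_mono fun γ => h1 γ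
    _ < ⊤ := by
        rw [setLIntegral_const, Real.volume_Ioo, Nat.cast_one, one_mul]
        exact ENNReal.ofReal_lt_top

lemma circleSum_disc_le (ρ : ℝ) : circleSum disc 1 (fun _ => 1) ρ ≤ 2 := by
  classical
  unfold circleSum
  refine tsum_one_le 2 (fun F => ?_) _ fun _ => ENNReal.ofReal_one
  set a : ℂ := ⟨1 - ρ ^ 2 / 2, Real.sqrt (1 - (1 - ρ ^ 2 / 2) ^ 2)⟩ with ha
  set b : ℂ := ⟨1 - ρ ^ 2 / 2, -Real.sqrt (1 - (1 - ρ ^ 2 / 2) ^ 2)⟩ with hb
  have h1 : F.image Subtype.val ⊆ {a, b} := by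
    intro ζ hζ
    rw [Finset.mem_image] at hζ
    obtain ⟨⟨ζ', h2, h3⟩, _, rfl⟩ := hζ
    rw [essBdry_disc, mem_sphere_zero_iff_norm] at h2
    have e1 : ζ'.re * ζ'.re + ζ'.im * ζ'.im = 1 := by
      rw [← Complex.normSq_apply, Complex.normSq_eq_norm_sq, h2]
      norm_num
    have e2 : (ζ'.re - 1) * (ζ'.re - 1) + ζ'.im * ζ'.im = ρ ^ 2 := by
      have : ‖ζ' - 1‖ ^ 2 = ρ ^ 2 := by rw [h3]
      rw [← Complex.normSq_eq_norm_sq, Complex.normSq_apply] at this
      simpa using this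
    have e3 : ζ'.re = 1 - ρ ^ 2 / 2 := by nlinarith
    have e4 : ζ'.im ^ 2 = 1 - (1 - ρ ^ 2 / 2) ^ 2 := by
      rw [← e3]
      nlinarith
    rw [Finset.mem_insert, Finset.mem_singleton]
    rcases le_total 0 ζ'.im with h | h
    · left
      apply Complex.ext
      · exact e3
      · show ζ'.im = Real.sqrt (1 - (1 - ρ ^ 2 / 2) ^ 2)
        rw [← e4, Real.sqrt_sq h]
    · right
      apply Complex.ext
      · exact e3
      · show ζ'.im = -Real.sqrt (1 - (1 - ρ ^ 2 / 2) ^ 2)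
        rw [← e4, Real.sqrt_sq_eq_abs, abs_of_nonpos h, neg_neg]
  calc F.card = (F.image Subtype.val).card :=
        (Finset.card_image_of_injective _ Subtype.val_injective).symm
    _ ≤ ({a, b} : Finset ℂ).card := Finset.card_le_card h1
    _ ≤ 2 := Finset.card_le_two

lemma smallU_disc (r : ℝ) (hr : 0 < r) :
    (ENNReal.ofReal r)⁻¹ * smallU disc 1 (fun _ => 1) r ≤ 2 := by
  have h1 : smallU disc 1 (fun _ => 1) r ≤ 2 * ENNReal.ofReal r := by
    unfold smallU
    calc ∫⁻ ρ in Ioo 0 r, circleSum disc 1 (fun _ => 1) ρ ≤ ∫⁻ _ρ in Ioo 0 r, 2 :=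
          lintegral_mono fun ρ => circleSum_disc_le ρ
      _ = 2 * ENNReal.ofReal r := by
          rw [setLIntegral_const, Real.volume_Ioo, sub_zero]
  have hr0 : ENNReal.ofReal r ≠ 0 := by
    rw [Ne, ENNReal.ofReal_eq_zero, not_le]
    exact hr
  calc (ENNReal.ofReal r)⁻¹ * smallU disc 1 (fun _ => 1) r ≤
      (ENNReal.ofReal r)⁻¹ * (2 * ENNReal.ofReal r) := by gcongr
    _ = 2 := by
        rw [mul_comm 2, ← mul_assoc, ENNReal.inv_mul_cancel hr0 ENNReal.ofReal_ne_top, one_mul]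

lemma one_le_circleSum_disc {ρ : ℝ} (h0 : 0 < ρ) (h1 : ρ < 1) :
    1 ≤ circleSum disc 1 (fun _ => 1) ρ := by
  unfold circleSum
  have hnn : 0 ≤ 1 - (1 - ρ ^ 2 / 2) ^ 2 := by
    have e : 1 - (1 - ρ ^ 2 / 2) ^ 2 = ρ ^ 2 * (1 - ρ ^ 2 / 4) := by ring
    have e2 : ρ ^ 2 ≤ 1 := by nlinarith
    rw [e]
    apply mul_nonneg (by positivity)
    linarith
  set a : ℂ := ⟨1 - ρ ^ 2 / 2, Real.sqrt (1 - (1 - ρ ^ 2 / 2) ^ 2)⟩ with ha
  have hre : a.re = 1 - ρ ^ 2 / 2 := rfl
  have him : a.im * a.im = 1 - (1 - ρ ^ 2 / 2) ^ 2 := Real.mul_self_sqrt hnn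
  have hmem : a ∈ essBdry disc ∧ ‖a - 1‖ = ρ := by
    constructor
    · rw [essBdry_disc, mem_sphere_zero_iff_norm]
      have h2 : ‖a‖ ^ 2 = 1 := by
        rw [← Complex.normSq_eq_norm_sq, Complex.normSq_apply, hre, him]
        ring
      have h3 := norm_nonneg a
      nlinarith
    · have h2 : ‖a - 1‖ ^ 2 = ρ ^ 2 := by
        rw [← Complex.normSq_eq_norm_sq, Complex.normSq_apply]
        simp only [Complex.sub_re, Complex.one_re, Complex.sub_im, Complex.one_im, sub_zero]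
        rw [hre, him]
        ring
      exact (pow_left_inj₀ (norm_nonneg _) h0.le two_ne_zero).1 h2
  have h5 := ENNReal.le_tsum (f := fun ζ : {ζ : ℂ // ζ ∈ essBdry disc ∧ ‖ζ - 1‖ = ρ} =>
    ENNReal.ofReal 1) ⟨a, hmem⟩
  simpa using h5

lemma bigU_disc : bigU disc 1 (fun _ => 1) (Ioo 0 1) = ⊤ := by
  rw [eq_top_iff]
  unfold bigU
  calc (⊤ : ℝ≥0∞) = volume (Iio (0 : ℝ)) := Real.volume_Iio.symm
    _ = ∫⁻ x, (Iio (0 : ℝ)).indicator 1 x := by rw [lintegral_indicator_one measurableSet_Iio]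
    _ = ∫⁻ x, ENNReal.ofReal (Real.exp x) *
        (Ioo (0 : ℝ) 1).indicator (fun ρ => (ENNReal.ofReal ρ)⁻¹) (Real.exp x) := by
        congr 1
        ext x
        by_cases hx : x < 0
        · rw [indicator_of_mem (show x ∈ Iio (0 : ℝ) from hx), indicator_of_mem
            (show Real.exp x ∈ Ioo (0 : ℝ) 1 from ⟨Real.exp_pos x, Real.exp_lt_one_iff.2 hx⟩),
            ENNReal.mul_inv_cancel _ ENNReal.ofReal_ne_top]
          · rfl
          · rw [Ne, ENNReal.ofReal_eq_zero, not_le]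
            exact Real.exp_pos x
        · rw [indicator_of_notMem (show x ∉ Iio (0 : ℝ) from hx), indicator_of_notMem, mul_zero]
          rintro ⟨_, h⟩
          rw [Real.exp_lt_one_iff] at h
          exact hx h
    _ = ∫⁻ ρ in Ioi 0, (Ioo (0 : ℝ) 1).indicator (fun ρ => (ENNReal.ofReal ρ)⁻¹) ρ :=
        (lintegral_Ioi_exp _).symm
    _ = ∫⁻ ρ in Ioo 0 1, (ENNReal.ofReal ρ)⁻¹ := by
        rw [setLIntegral_indicator measurableSet_Ioo]
        congr 2
        ext x
        simp only [mem_inter_iff, mem_Ioo, mem_Ioi]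
        constructor
        · rintro ⟨h, _⟩; exact h
        · intro h; exact ⟨h, h.1⟩
    _ ≤ ∫⁻ ρ in Ioo 0 1, (ENNReal.ofReal ρ)⁻¹ * circleSum disc 1 (fun _ => 1) ρ := by
        apply setLIntegral_mono' measurableSet_Ioo
        intro ρ hρ
        calc (ENNReal.ofReal ρ)⁻¹ = (ENNReal.ofReal ρ)⁻¹ * 1 := (mul_one _).symm
          _ ≤ _ := by
              gcongr
              exact one_le_circleSum_disc hρ.1 hρ.2

end Pool.Agent.CauchyInt
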