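import Pool.Agent.CauchyInt.Shift

/-!
# Lower bounds for the norms of the functionals
-/

namespace Pool.Agent.CauchyInt

open MeasureTheory Set Filter Topology Metric NNReal ENNReal

lemma tau_abs (s : ℝ) : |2 * s / (1 + s ^ 2)| ≤ 1 := by
  have h : 0 < 1 + s ^ 2 := by positivity
  rw [abs_div, abs_of_pos h, div_le_one h, abs_mul, abs_two]
  nlinarith [sq_nonneg (|s| - 1), sq_abs s]

lemma tau_lip (s t : ℝ) : |2 * s / (1 + s ^ 2) - 2 * t / (1 + t ^ 2)| ≤ 2 * |s - t| := by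
  have hs : 0 < 1 + s ^ 2 := by positivity
  have ht : 0 < 1 + t ^ 2 := by positivity
  have h1 : 2 * s / (1 + s ^ 2) - 2 * t / (1 + t ^ 2) =
      2 * (s - t) * ((1 - s * t) / ((1 + s ^ 2) * (1 + t ^ 2))) := by
    field_simp
    ring
  rw [h1, abs_mul, abs_mul, abs_two]
  have h2 : |(1 - s * t) / ((1 + s ^ 2) * (1 + t ^ 2))| ≤ 1 := by
    rw [abs_div, abs_of_pos (by positivity : 0 < (1 + s ^ 2) * (1 + t ^ 2)),
      div_le_one (by positivity), abs_le]
    constructor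
    · nlinarith [sq_nonneg (s - t), sq_nonneg (s + t), sq_nonneg (s * t)]
    · nlinarith [sq_nonneg (s - t), sq_nonneg (s + t), sq_nonneg (s * t)]
  calc 2 * |s - t| * |(1 - s * t) / ((1 + s ^ 2) * (1 + t ^ 2))| ≤ 2 * |s - t| * 1 := by gcongr
    _ = 2 * |s - t| := mul_one _

lemma continuous_inv_mul {c : ℂ} {ψ : ℂ → ℝ} (hψ : Continuous ψ) (hc : c ∉ tsupport ψ) :
    Continuous fun ζ => (‖ζ - c‖ ^ 2)⁻¹ * ψ ζ := by
  rw [continuous_iff_continuousAt]
  intro ζ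
  by_cases h : ζ = c
  · subst h
    have : (fun z => (‖z - ζ‖ ^ 2)⁻¹ * ψ z) =ᶠ[𝓝 ζ] fun _ => (0 : ℝ) := by
      filter_upwards [(isClosed_tsupport _).isOpen_compl.mem_nhds hc] with z hz
      have : ψ z = 0 := by
        by_contra hne
        exact hz (subset_tsupport _ hne)
      rw [this, mul_zero]
    exact (continuousAt_const.congr this.symm)
  · have h3 : ContinuousAt (fun ζ => (‖ζ - c‖ ^ 2)⁻¹) ζ := by
      apply ContinuousAt.inv₀
      · fun_prop
      · have : 0 < ‖ζ - c‖ := norm_pos_iff.2 (sub_ne_zero.2 h)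
        positivity
    exact h3.mul hψ.continuousAt

lemma measurable_sg (c : ℂ) (β : Bool) {G : Set ℂ} (hG : MeasurableSet G) (h : ℝ) :
    Measurable (sg c β G h) := by
  unfold sg
  have h1 : Measurable (G.indicator (1 : ℂ → ℝ)) := measurable_one.indicator hG
  exact h1.sub (h1.comp (continuous_Ts c β h).measurable)

lemma sg_cases (c : ℂ) (β : Bool) (G : Set ℂ) (h : ℝ) (ζ : ℂ) :
    sg c β G h ζ = -1 ∨ sg c β G h ζ = 0 ∨ sg c β G h ζ = 1 := by
  unfold sg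
  by_cases h1 : ζ ∈ G <;> by_cases h2 : Ts c β h ζ ∈ G <;> simp [h1, h2]

theorem var_bound {c : ℂ} {β : Bool} {G : Set ℂ} (hG : MeasurableSet G) {ψ : ℂ → ℝ}
    (hψ : ContDiff ℝ 1 ψ) (hs : HasCompactSupport ψ) (hc : c ∉ tsupport ψ) {h M : ℝ}
    (hh : 0 ≤ h)
    (hM : ∀ φ : ℂ → ℝ, ContDiff ℝ 1 φ → HasCompactSupport φ → c ∉ tsupport φ →
      (∃ u ∈ Icc 0 h, ∀ ζ, |φ ζ| ≤ |ψ (Ts c β (-u) ζ)|) → |RR c β G φ| ≤ M) :
    ∫ ζ, (‖ζ - c‖ ^ 2)⁻¹ * (|ψ ζ| * |sg c β G h ζ|) ≤ M * h := by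
  have hcont := continuous_inv_mul hψ.continuous hc
  obtain ⟨C, hC⟩ := hcont.bounded_above_of_compact_support hs.mul_left
  have hC0 : 0 ≤ C := (norm_nonneg _).trans (hC 0)
  have hC' : ∀ ζ, (‖ζ - c‖ ^ 2)⁻¹ * |ψ ζ| ≤ C := by
    intro ζ
    have := hC ζ
    rwa [norm_mul, Real.norm_eq_abs, Real.norm_eq_abs,
      abs_of_nonneg (by positivity : 0 ≤ (‖ζ - c‖ ^ 2)⁻¹)] at this
  -- the sign function
  set s : ℂ → ℝ := fun ζ => (ψ ζ / |ψ ζ|) * sg c β G h ζ with hsdef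
  have hsgn : ∀ a : ℝ, a / |a| = -1 ∨ a / |a| = 0 ∨ a / |a| = 1 := by
    intro a
    rcases lt_trichotomy a 0 with h | h | h
    · left
      rw [abs_of_neg h, div_neg, div_self h.ne]
    · right; left
      rw [h]; simp
    · right; right
      rw [abs_of_pos h, div_self h.ne']
  have hsm : Measurable s := by
    apply Measurable.mul _ (measurable_sg c β hG h)
    exact hψ.continuous.measurable.div hψ.continuous.abs.measurable
  have hs1 : ∀ ζ, |s ζ| ≤ 1 := by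
    intro ζ
    have h1 : abs (ψ ζ / |ψ ζ|) ≤ 1 := by
      rcases hsgn (ψ ζ) with h | h | h <;> rw [h] <;> simp
    have h2 : |sg c β G h ζ| ≤ 1 := by
      rcases sg_cases c β G h ζ with h | h | h <;> rw [h] <;> simp
    rw [hsdef]
    simp only
    rw [abs_mul]
    exact mul_le_one₀ h1 (abs_nonneg _) h2
  set g : ℂ → ℝ := (tsupport ψ).indicator s with hg
  have hgint : Integrable g := by
    rw [hg, integrable_indicator_iff (isClosed_tsupport ψ).measurableSet]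
    apply Measure.integrableOn_of_bounded (M := 1) hs.isCompact.measure_lt_top.ne
      hsm.aestronglyMeasurable
    exact Eventually.of_forall fun ζ => hs1 ζ
  have hgτ : ∀ ζ, ψ ζ ≠ 0 → 2 * g ζ / (1 + g ζ ^ 2) = s ζ := by
    intro ζ hζ
    rw [hg, indicator_of_mem (subset_tsupport ψ hζ)]
    have h1 : s ζ = -1 ∨ s ζ = 0 ∨ s ζ = 1 := by
      rw [hsdef]
      simp only
      rcases sg_cases c β G h ζ with h' | h' | h' <;>
        rcases hsgn (ψ ζ) with h | h | h <;> rw [h, h'] <;> simp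
    rcases h1 with h' | h' | h' <;> rw [h'] <;> norm_num
  have hid : ∀ ζ, |ψ ζ| * |sg c β G h ζ| = ψ ζ * sg c β G h ζ * s ζ := by
    intro ζ
    rw [hsdef]
    simp only
    have h1 : ψ ζ * (ψ ζ / |ψ ζ|) = |ψ ζ| := by
      rcases eq_or_ne (ψ ζ) 0 with h | h
      · rw [h]; simp
      · have : |ψ ζ| ≠ 0 := abs_ne_zero.2 h
        field_simp
        rw [sq_abs]
    have h2 : sg c β G h ζ * sg c β G h ζ = |sg c β G h ζ| := by
      rcases sg_cases c β G h ζ with h | h | h <;> rw [h] <;> simp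
    calc |ψ ζ| * |sg c β G h ζ| = (ψ ζ * (ψ ζ / |ψ ζ|)) * (sg c β G h ζ * sg c β G h ζ) := by
          rw [h1, h2]
      _ = _ := by ring
  have hbase : Integrable fun ζ => (‖ζ - c‖ ^ 2)⁻¹ * ψ ζ :=
    hcont.integrable_of_hasCompactSupport hs.mul_left
  apply _root_.le_of_forall_pos_le_add
  intro ε hε
  set ε' := ε / (2 * C + 1) with hε'
  have hε'0 : 0 < ε' := by positivity
  obtain ⟨g₁, hg₁s, hg₁c, hg₁⟩ := MemLp.exist_eLpNorm_sub_le (p := 1)
    ENNReal.one_ne_top le_rfl (memLp_one_iff_integrable.2 hgint) hε'0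
  have hg₁int : Integrable g₁ := hg₁c.continuous.integrable_of_hasCompactSupport hg₁s
  have hdiff : ∫ ζ, |g ζ - g₁ ζ| ≤ ε' := by
    have h1 : ∫ ζ, ‖(g - g₁) ζ‖ = (eLpNorm (g - g₁) 1 volume).toReal := by
      rw [integral_norm_eq_lintegral_enorm (hgint.sub hg₁int).aestronglyMeasurable,
        eLpNorm_one_eq_lintegral_enorm]
    have h2 : ∫ ζ, |g ζ - g₁ ζ| = ∫ ζ, ‖(g - g₁) ζ‖ := rfl
    rw [h2, h1]
    exact ENNReal.toReal_le_of_le_ofReal hε'0.le hg₁
  set φ : ℂ → ℝ := fun ζ => ψ ζ * (2 * g₁ ζ / (1 + g₁ ζ ^ 2)) with hφdef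
  have hφle : ∀ ζ, |φ ζ| ≤ |ψ ζ| := by
    intro ζ
    rw [hφdef]
    simp only
    rw [abs_mul]
    calc |ψ ζ| * _ ≤ |ψ ζ| * 1 := by gcongr; exact tau_abs _
      _ = |ψ ζ| := mul_one _
  have hφd : ContDiff ℝ 1 φ := by
    apply hψ.mul
    have h1 : ContDiff ℝ 1 g₁ := hg₁c.of_le (by simp)
    apply ContDiff.div
    · exact contDiff_const.mul h1
    · exact contDiff_const.add (h1.pow 2)
    · intro ζ
      positivity
  have hφs : HasCompactSupport φ := hs.mul_right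
  have hφsub : tsupport φ ⊆ tsupport ψ := closure_mono fun ζ hζ => by
    intro h0
    apply hζ
    rw [hφdef]
    simp only
    rw [h0, zero_mul]
  have hφc : c ∉ tsupport φ := fun h => hc (hφsub h)
  have hb := shift_bound hG hφd hφs hφc hh (M := M) (by
    intro u hu
    apply hM _ (contDiff_comp_Ts c β (-u) hφd) (hasCompactSupport_comp_Ts c β (-u) hφs)
      (notMem_tsupport_comp_Ts β (-u) hφc)
    exact ⟨u, hu, fun ζ => hφle _⟩)
  have hsgb : ∀ ζ, |sg c β G h ζ| ≤ 1 := by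
    intro ζ
    rcases sg_cases c β G h ζ with h | h | h <;> rw [h] <;> simp
  have hint1 : Integrable fun ζ => (‖ζ - c‖ ^ 2)⁻¹ * (φ ζ * sg c β G h ζ) := by
    have h1 : Integrable fun ζ => (‖ζ - c‖ ^ 2)⁻¹ * φ ζ :=
      (continuous_inv_mul hφd.continuous hφc).integrable_of_hasCompactSupport hφs.mul_left
    have h2 := h1.bdd_mul (c := 1) (measurable_sg c β hG h).aestronglyMeasurable
      (Eventually.of_forall fun ζ => hsgb ζ)
    refine h2.congr (Eventually.of_forall fun ζ => ?_)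
    simp only
    ring
  have hint2 : Integrable fun ζ => (‖ζ - c‖ ^ 2)⁻¹ * (|ψ ζ| * |sg c β G h ζ|) := by
    have h2 := hbase.abs.bdd_mul (c := 1) (f := fun ζ => |sg c β G h ζ|)
      ((measurable_sg c β hG h).abs).aestronglyMeasurable
      (Eventually.of_forall fun ζ => by
        simp only [Real.norm_eq_abs, abs_abs]
        exact hsgb ζ)
    refine h2.congr (Eventually.of_forall fun ζ => ?_)
    simp only
    rw [abs_mul, abs_of_nonneg (by positivity : 0 ≤ (‖ζ - c‖ ^ 2)⁻¹)]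
    ring
  have hpt : ∀ ζ, (‖ζ - c‖ ^ 2)⁻¹ * (|ψ ζ| * |sg c β G h ζ|) ≤
      (‖ζ - c‖ ^ 2)⁻¹ * (φ ζ * sg c β G h ζ) + 2 * C * |g ζ - g₁ ζ| := by
    intro ζ
    by_cases hζ : ψ ζ = 0
    · rw [hφdef]
      simp only [hζ, abs_zero, zero_mul, mul_zero, zero_add]
      positivity
    · rw [hid, hφdef]
      simp only
      rw [← hgτ ζ hζ]
      have h1 := tau_lip (g ζ) (g₁ ζ)
      set a := 2 * g ζ / (1 + g ζ ^ 2)
      set b := 2 * g₁ ζ / (1 + g₁ ζ ^ 2)
      have h2 : (‖ζ - c‖ ^ 2)⁻¹ * (ψ ζ * sg c β G h ζ * a) -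
          (‖ζ - c‖ ^ 2)⁻¹ * (ψ ζ * b * sg c β G h ζ) =
          ((‖ζ - c‖ ^ 2)⁻¹ * ψ ζ) * (sg c β G h ζ * (a - b)) := by ring
      have h3 : ((‖ζ - c‖ ^ 2)⁻¹ * ψ ζ) * (sg c β G h ζ * (a - b)) ≤ C * (1 * (2 * |g ζ - g₁ ζ|)) := by
        refine (le_abs_self _).trans ?_
        rw [abs_mul, abs_mul (sg c β G h ζ)]
        have := hC ζ
        rw [Real.norm_eq_abs] at this
        have := hsgb ζ
        gcongr
      linarith
  have hfin : ∫ ζ, (‖ζ - c‖ ^ 2)⁻¹ * (|ψ ζ| * |sg c β G h ζ|) ≤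
      (∫ ζ, (‖ζ - c‖ ^ 2)⁻¹ * (φ ζ * sg c β G h ζ)) + 2 * C * ∫ ζ, |g ζ - g₁ ζ| := by
    have hint3 : Integrable fun ζ => 2 * C * |g ζ - g₁ ζ| :=
      (hgint.sub hg₁int).abs.const_mul (2 * C)
    rw [← integral_const_mul, ← integral_add hint1 hint3]
    exact integral_mono hint2 (hint1.add hint3) hpt
  have h5 : 2 * C * ∫ ζ, |g ζ - g₁ ζ| ≤ ε := by
    calc 2 * C * ∫ ζ, |g ζ - g₁ ζ| ≤ 2 * C * ε' := by gcongr
      _ ≤ (2 * C + 1) * ε' := by nlinarith
      _ = ε := by rw [hε']; field_simp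
  have h6 := (le_abs_self _).trans hb
  linarith

lemma abs_sg_Phi (c : ℂ) (β : Bool) (G : Set ℂ) (h x y : ℝ) :
    |sg c β G h (Phi c β (x, y))| = (chg (sl c β G x) h).indicator 1 y := by
  unfold sg
  rw [Ts_Phi]
  by_cases h1 : Phi c β (x, y) ∈ G <;> by_cases h2 : Phi c β (x, y + h) ∈ G
  · rw [indicator_of_mem h1, indicator_of_mem h2, indicator_of_notMem]
    · simp
    · simp [chg, sl, h1, h2]
  · rw [indicator_of_mem h1, indicator_of_notMem h2, indicator_of_mem]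
    · simp
    · simp [chg, sl, h1, h2]
  · rw [indicator_of_notMem h1, indicator_of_mem h2, indicator_of_mem]
    · simp
    · simp [chg, sl, h1, h2]
  · rw [indicator_of_notMem h1, indicator_of_notMem h2, indicator_of_notMem]
    · simp
    · simp [chg, sl, h1, h2]

/-- the integrated change on a slice -/
noncomputable def Jh (c : ℂ) (β : Bool) (G : Set ℂ) (ψ : ℂ → ℝ) (h x : ℝ) : ℝ≥0∞ :=
  ∫⁻ y in Dyo β, ENNReal.ofReal (|ψ (Phi c β (x, y))| * |sg c β G h (Phi c β (x, y))|)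

lemma measurable_Jh {c : ℂ} {β : Bool} {G : Set ℂ} (hG : MeasurableSet G) {ψ : ℂ → ℝ}
    (hψ : Continuous ψ) (h : ℝ) : Measurable (Jh c β G ψ h) := by
  unfold Jh
  apply Measurable.lintegral_prod_right'
    (f := fun p : ℝ × ℝ => ENNReal.ofReal (|ψ (Phi c β p)| * |sg c β G h (Phi c β p)|))
  apply Measurable.ennreal_ofReal
  apply Measurable.mul
  · exact (hψ.comp (continuous_Phi c β)).abs.measurable
  · exact ((measurable_sg c β hG h).comp (continuous_Phi c β).measurable).abs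

lemma lintegral_Jh {c : ℂ} {β : Bool} {G : Set ℂ} (hG : MeasurableSet G) {ψ : ℂ → ℝ}
    (hψ : ContDiff ℝ 1 ψ) (hs : HasCompactSupport ψ) (hc : c ∉ tsupport ψ) {h M : ℝ}
    (hh : 0 ≤ h)
    (hM : ∀ φ : ℂ → ℝ, ContDiff ℝ 1 φ → HasCompactSupport φ → c ∉ tsupport φ →
      (∃ u ∈ Icc 0 h, ∀ ζ, |φ ζ| ≤ |ψ (Ts c β (-u) ζ)|) → |RR c β G φ| ≤ M) :
    ∫⁻ x in Dx β, Jh c β G ψ h x ≤ ENNReal.ofReal (M * h) := by
  have h1 := var_bound hG hψ hs hc hh hM
  have hcont := continuous_inv_mul hψ.continuous hc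
  have hbase : Integrable fun ζ => (‖ζ - c‖ ^ 2)⁻¹ * ψ ζ :=
    hcont.integrable_of_hasCompactSupport hs.mul_left
  have hint2 : Integrable fun ζ => (‖ζ - c‖ ^ 2)⁻¹ * (|ψ ζ| * |sg c β G h ζ|) := by
    have h2 := hbase.abs.bdd_mul (c := 1) (f := fun ζ => |sg c β G h ζ|)
      ((measurable_sg c β hG h).abs).aestronglyMeasurable
      (Eventually.of_forall fun ζ => by
        simp only [Real.norm_eq_abs, abs_abs]
        rcases sg_cases c β G h ζ with h | h | h <;> rw [h] <;> simp)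
    refine h2.congr (Eventually.of_forall fun ζ => ?_)
    simp only
    rw [abs_mul, abs_of_nonneg (by positivity : 0 ≤ (‖ζ - c‖ ^ 2)⁻¹)]
    ring
  have h2 := ofReal_integral_eq_lintegral_ofReal hint2
    (Eventually.of_forall fun ζ => by positivity)
  have hmeas : Measurable fun ζ => ENNReal.ofReal ((‖ζ - c‖ ^ 2)⁻¹ * (|ψ ζ| * |sg c β G h ζ|)) := by
    apply Measurable.ennreal_ofReal
    apply Measurable.mul
    · fun_prop
    · exact hψ.continuous.abs.measurable.mul (measurable_sg c β hG h).abs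
  rw [lintegral_cv c β hmeas] at h2
  have h3 : ∀ x, Jh c β G ψ h x = ∫⁻ y in Dyo β,
      ENNReal.ofReal (‖Phi c β (x, y) - c‖ ^ 2) * ENNReal.ofReal
        ((‖Phi c β (x, y) - c‖ ^ 2)⁻¹ *
          (|ψ (Phi c β (x, y))| * |sg c β G h (Phi c β (x, y))|)) := by
    intro x
    unfold Jh
    congr 1
    ext y
    rw [← ENNReal.ofReal_mul (by positivity), ← mul_assoc, mul_inv_cancel₀, one_mul]
    have : 0 < ‖Phi c β (x, y) - c‖ := norm_pos_iff.2 (sub_ne_zero.2 (Phi_ne c β _))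
    positivity
  simp_rw [h3]
  rw [← h2]
  exact ENNReal.ofReal_le_ofReal h1

lemma lintegral_shift_window {f : ℝ → ℝ≥0∞} {P a : ℝ}
    (hper : ∀ y, f (y + P) = f y) (ha : a < 0) (haP : 0 < a + P) :
    ∫⁻ y in Ioo a (a + P), f y ≤ ∫⁻ y in Ioo 0 P, f y := by
  have h1 : Ioo a (a + P) ⊆ Ioo a 0 ∪ Ico 0 (a + P) := by
    intro y hy
    rcases lt_or_ge y 0 with h | h
    · exact Or.inl ⟨hy.1, h⟩
    · exact Or.inr ⟨h, hy.2⟩
  have h2 : ∫⁻ y in Ioo a 0, f y = ∫⁻ y in Ioo (a + P) P, f y := by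
    have h3 := (measurePreserving_add_right volume P).setLIntegral_comp_preimage_emb
      (measurableEmbedding_addRight P) f (Ioo (a + P) P)
    rw [← h3]
    have h4 : (fun y => y + P) ⁻¹' Ioo (a + P) P = Ioo a 0 := by
      ext y
      simp only [mem_preimage, mem_Ioo]
      constructor
      · rintro ⟨h5, h6⟩; constructor <;> linarith
      · rintro ⟨h5, h6⟩; constructor <;> linarith
    rw [h4]
    simp_rw [hper]
  have h5 : ∫⁻ y in Ico 0 (a + P), f y = ∫⁻ y in Ioo 0 (a + P), f y :=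
    setLIntegral_congr Ioo_ae_eq_Ico.symm
  have hdisj : Disjoint (Ioo 0 (a + P)) (Ioo (a + P) P) := by
    rw [Set.disjoint_left]
    intro y hy hy'
    linarith [hy.2, hy'.1]
  calc ∫⁻ y in Ioo a (a + P), f y ≤ ∫⁻ y in Ioo a 0 ∪ Ico 0 (a + P), f y :=
        lintegral_mono_set h1
    _ ≤ (∫⁻ y in Ioo a 0, f y) + ∫⁻ y in Ico 0 (a + P), f y := lintegral_union_le _ _ _
    _ = (∫⁻ y in Ioo 0 (a + P), f y) + ∫⁻ y in Ioo (a + P) P, f y := by
        rw [h2, h5, add_comm]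
    _ = ∫⁻ y in Ioo 0 (a + P) ∪ Ioo (a + P) P, f y :=
        (lintegral_union measurableSet_Ioo hdisj).symm
    _ ≤ ∫⁻ y in Ioo 0 P, f y := by
        apply lintegral_mono_set
        rintro y (hy | hy)
        · exact ⟨hy.1, by linarith [hy.2]⟩
        · exact ⟨by linarith [hy.1], hy.2⟩

lemma slice_lower {c : ℂ} {β : Bool} {G : Set ℂ} (hG : MeasurableSet G) {ψ : ℂ → ℝ}
    (hψ : Continuous ψ) :
    ∀ᵐ x : ℝ, ∀ T : Finset ℝ, (∀ y ∈ T, y ∈ Dy β ∧ Phi c β (x, y) ∈ EE G) → ∀ ε > (0 : ℝ),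
      ∀ᶠ h in 𝓝[>] (0 : ℝ), ENNReal.ofReal ((∑ y ∈ T, |ψ (Phi c β (x, y))|) - ε) ≤
        (ENNReal.ofReal h)⁻¹ * Jh c β G ψ h x := by
  filter_upwards [slice_E c β G hG] with x hx T hT ε hε
  have hBm : MeasurableSet (sl c β G x) := measurableSet_sl c β hG x
  have hψc : Continuous fun y => |ψ (Phi c β (x, y))| :=
    (hψ.comp ((continuous_Phi c β).comp (Continuous.prodMk_right x))).abs
  have hint : ∀ (D : Set ℝ) (h : ℝ), MeasurableSet D →
      ∫⁻ y in D ∩ chg (sl c β G x) h, ENNReal.ofReal |ψ (Phi c β (x, y))| =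
      ∫⁻ y in D, ENNReal.ofReal (|ψ (Phi c β (x, y))| * |sg c β G h (Phi c β (x, y))|) := by
    intro D h hD
    have e1 : ∀ y, ENNReal.ofReal (|ψ (Phi c β (x, y))| * |sg c β G h (Phi c β (x, y))|) =
        (chg (sl c β G x) h).indicator (fun y => ENNReal.ofReal |ψ (Phi c β (x, y))|) y := by
      intro y
      rw [abs_sg_Phi]
      by_cases hy : y ∈ chg (sl c β G x) h <;> simp [hy]
    simp_rw [e1]
    rw [setLIntegral_indicator (measurableSet_chg hBm h), inter_comm]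
  cases β
  · -- circles
    have hpi := Real.pi_pos
    obtain ⟨a, ha0, ha1, ha2⟩ : ∃ a < 0, 0 < a + 2 * Real.pi ∧ ∀ y ∈ T, y < a + 2 * Real.pi := by
      have h1 : ∀ y ∈ T, y < 2 * Real.pi := fun y hy => (hT y hy).1.2
      rcases T.eq_empty_or_nonempty with h | h
      · refine ⟨-1, by norm_num, by linarith [Real.pi_gt_three], ?_⟩
        rw [h]
        intro y hy
        simp at hy
      · set m := T.max' h with hm
        have hm1 : m < 2 * Real.pi := h1 m (T.max'_mem h)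
        have hm0 : 0 ≤ m := (hT m (T.max'_mem h)).1.1
        refine ⟨(m - 2 * Real.pi) / 2, by linarith, by linarith, fun y hy => ?_⟩
        have := T.le_max' y hy
        linarith
    have hev := lower_sum (sl c false G x) hBm (fun y => |ψ (Phi c false (x, y))|) hψc
      (fun _ => abs_nonneg _) (c := a) (d := a + 2 * Real.pi) T
      (fun y hy => hx y (hT y hy).2)
      (fun y hy => ⟨by linarith [(hT y hy).1.1], ha2 y hy⟩) hε
    filter_upwards [hev] with h hh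
    refine hh.trans ?_
    refine mul_le_mul' le_rfl ?_
    rw [hint _ _ measurableSet_Ioo]
    unfold Jh
    apply lintegral_shift_window _ ha0 ha1
    intro y
    rw [Phi_periodic]
  · -- rays
    obtain ⟨a, b, hab⟩ : ∃ a b : ℝ, ∀ y ∈ T, y ∈ Ioo a b := by
      rcases T.eq_empty_or_nonempty with h | h
      · refine ⟨0, 1, ?_⟩
        rw [h]
        intro y hy
        simp at hy
      · refine ⟨T.min' h - 1, T.max' h + 1, fun y hy => ⟨?_, ?_⟩⟩
        · have := T.min'_le y hy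
          linarith
        · have := T.le_max' y hy
          linarith
    have hev := lower_sum (sl c true G x) hBm (fun y => |ψ (Phi c true (x, y))|) hψc
      (fun _ => abs_nonneg _) (c := a) (d := b) T
      (fun y hy => hx y (hT y hy).2) hab hε
    filter_upwards [hev] with h hh
    refine hh.trans ?_
    refine mul_le_mul' le_rfl ?_
    rw [hint _ _ measurableSet_Ioo]
    unfold Jh
    exact lintegral_mono_set (subset_univ _)

theorem lower_lin {c : ℂ} {β : Bool} {G : Set ℂ} (hG : MeasurableSet G) {ψ : ℂ → ℝ}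
    (hψ : ContDiff ℝ 1 ψ) (hs : HasCompactSupport ψ) (hc : c ∉ tsupport ψ) {h₀ M : ℝ}
    (hh : 0 < h₀)
    (hM : ∀ φ : ℂ → ℝ, ContDiff ℝ 1 φ → HasCompactSupport φ → c ∉ tsupport φ →
      (∃ u ∈ Icc 0 h₀, ∀ ζ, |φ ζ| ≤ |ψ (Ts c β (-u) ζ)|) → |RR c β G φ| ≤ M) :
    ∃ g : ℝ → ℝ≥0∞, Measurable g ∧ (∀ᵐ x : ℝ, ∀ T : Finset ℝ,
      (∀ y ∈ T, y ∈ Dy β ∧ Phi c β (x, y) ∈ EE G) →
        ∑ y ∈ T, ENNReal.ofReal |ψ (Phi c β (x, y))| ≤ g x) ∧
      ∫⁻ x in Dx β, g x ≤ ENNReal.ofReal M := by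
  have hM0 : 0 ≤ M := by
    have h1 := hM (fun _ => 0) contDiff_const HasCompactSupport.zero (by simp)
      ⟨0, ⟨le_rfl, hh.le⟩, fun ζ => by simp⟩
    exact (abs_nonneg _).trans h1
  set hj : ℕ → ℝ := fun j => h₀ / ((j : ℝ) + 1) with hhj
  have hj0 : ∀ j, 0 < hj j := fun j => by rw [hhj]; positivity
  have hj1 : ∀ j, hj j ≤ h₀ := fun j => by
    rw [hhj]
    exact div_le_self hh.le (by
      have : (0 : ℝ) ≤ j := Nat.cast_nonneg j
      linarith)
  have hjlim : Tendsto hj atTop (𝓝[>] 0) := by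
    refine tendsto_nhdsWithin_iff.2 ⟨?_, Eventually.of_forall fun j => hj0 j⟩
    have h1 := tendsto_one_div_add_atTop_nhds_zero_nat (𝕜 := ℝ)
    have h2 := h1.const_mul h₀
    rw [mul_zero] at h2
    refine h2.congr fun j => ?_
    rw [hhj]
    ring
  have hm : ∀ j, Measurable fun x => (ENNReal.ofReal (hj j))⁻¹ * Jh c β G ψ (hj j) x := fun j =>
    (measurable_Jh hG hψ.continuous (hj j)).const_mul _
  refine ⟨fun x => liminf (fun j => (ENNReal.ofReal (hj j))⁻¹ * Jh c β G ψ (hj j) x) atTop,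
    Measurable.liminf hm, ?_, ?_⟩
  · filter_upwards [slice_lower (c := c) (β := β) hG hψ.continuous] with x hx T hT
    rw [← ENNReal.ofReal_sum_of_nonneg (fun _ _ => abs_nonneg _)]
    set S : ℝ := ∑ y ∈ T, |ψ (Phi c β (x, y))| with hS
    have h1 : ∀ ε > (0 : ℝ), ENNReal.ofReal (S - ε) ≤
        liminf (fun j => (ENNReal.ofReal (hj j))⁻¹ * Jh c β G ψ (hj j) x) atTop := by
      intro ε hε
      exact le_liminf_of_le (by isBoundedDefault) (hjlim.eventually (hx T hT ε hε))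
    have h2 : Tendsto (fun ε : ℝ => ENNReal.ofReal (S - ε)) (𝓝[>] 0)
        (𝓝 (ENNReal.ofReal (S - 0))) := by
      apply ENNReal.tendsto_ofReal
      exact (tendsto_const_nhds.sub tendsto_id).mono_left nhdsWithin_le_nhds
    rw [sub_zero] at h2
    refine le_of_tendsto h2 ?_
    filter_upwards [self_mem_nhdsWithin] with ε hε
    exact h1 ε hε
  · refine (lintegral_liminf_le hm).trans ?_
    refine liminf_le_of_le (by isBoundedDefault) ?_
    intro b hb
    obtain ⟨j, hj'⟩ := hb.exists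
    refine hj'.trans ?_
    rw [lintegral_const_mul _ (measurable_Jh hG hψ.continuous (hj j))]
    have h1 := lintegral_Jh hG hψ hs hc (hj0 j).le (M := M) (by
      rintro φ a1 a2 a3 ⟨u, hu, hle⟩
      exact hM φ a1 a2 a3 ⟨u, ⟨hu.1, hu.2.trans (hj1 j)⟩, hle⟩)
    calc (ENNReal.ofReal (hj j))⁻¹ * ∫⁻ x in Dx β, Jh c β G ψ (hj j) x
        ≤ (ENNReal.ofReal (hj j))⁻¹ * ENNReal.ofReal (M * hj j) := by gcongr
      _ = ENNReal.ofReal M := by
          rw [ENNReal.ofReal_mul hM0, mul_comm (ENNReal.ofReal M), ← mul_assoc,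
            ENNReal.inv_mul_cancel, one_mul]
          · rw [Ne, ENNReal.ofReal_eq_zero, not_le]
            exact hj0 j
          · exact ENNReal.ofReal_ne_top

end Pool.Agent.CauchyInt
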