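import Pool.Agent.CauchyInt.Dual

/-!
# The norm of the functionals on weighted spaces
-/

namespace Pool.Agent.CauchyInt

open MeasureTheory Set Filter Topology Metric NNReal ENNReal

/-- the infimal convolution -/
noncomputable def infc (K : Set ℂ) (Q : ℂ → ℝ) (N : ℝ) (ζ : ℂ) : ℝ :=
  ⨅ ξ : K, (Q ξ + N * ‖ζ - ξ‖)

lemma infc_bdd {K : Set ℂ} {Q : ℂ → ℝ} (h0 : ∀ ζ ∈ K, 0 ≤ Q ζ) {N : ℝ} (hN : 0 ≤ N) (ζ : ℂ) :
    BddBelow (range fun ξ : K => Q ξ + N * ‖ζ - ξ‖) := by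
  refine ⟨0, ?_⟩
  rintro _ ⟨ξ, rfl⟩
  have := h0 ξ ξ.2
  simp only
  positivity

lemma infc_le {K : Set ℂ} {Q : ℂ → ℝ} (h0 : ∀ ζ ∈ K, 0 ≤ Q ζ) {N : ℝ} (hN : 0 ≤ N) (ζ : ℂ)
    {ξ : ℂ} (hξ : ξ ∈ K) : infc K Q N ζ ≤ Q ξ + N * ‖ζ - ξ‖ :=
  ciInf_le (infc_bdd h0 hN ζ) ⟨ξ, hξ⟩

lemma infc_lip {K : Set ℂ} (hne : K.Nonempty) {Q : ℂ → ℝ} (h0 : ∀ ζ ∈ K, 0 ≤ Q ζ) {N : ℝ}
    (hN : 0 ≤ N) (ζ ζ' : ℂ) : infc K Q N ζ ≤ infc K Q N ζ' + N * ‖ζ - ζ'‖ := by
  have : Nonempty K := hne.to_subtype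
  rw [← sub_le_iff_le_add]
  apply le_ciInf
  intro ξ
  have h1 := infc_le h0 hN ζ ξ.2
  have h2 : ‖ζ - ξ‖ ≤ ‖ζ - ζ'‖ + ‖ζ' - ξ‖ := by
    have := norm_add_le (ζ - ζ') (ζ' - ξ)
    rwa [sub_add_sub_cancel] at this
  have h3 : N * ‖ζ - ξ‖ ≤ N * (‖ζ - ζ'‖ + ‖ζ' - ξ‖) := by gcongr
  linarith

lemma continuous_infc {K : Set ℂ} (hne : K.Nonempty) {Q : ℂ → ℝ} (h0 : ∀ ζ ∈ K, 0 ≤ Q ζ) {N : ℝ}
    (hN : 0 ≤ N) : Continuous (infc K Q N) := by
  have : LipschitzWith N.toNNReal (infc K Q N) := by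
    apply LipschitzWith.of_dist_le_mul
    intro ζ ζ'
    rw [Real.dist_eq, dist_eq_norm, Real.coe_toNNReal _ hN, abs_le]
    constructor
    · have := infc_lip hne h0 hN ζ' ζ
      rw [norm_sub_rev ζ' ζ] at this
      linarith
    · have := infc_lip hne h0 hN ζ ζ'
      linarith
  exact this.continuous

lemma infc_lower {K : Set ℂ} (hne : K.Nonempty) {Q : ℂ → ℝ} (hQ : LowerSemicontinuousOn Q K)
    (h0 : ∀ ζ ∈ K, 0 ≤ Q ζ) {ζ : ℂ} (hζ : ζ ∈ K) {ε : ℝ} (hε : 0 < ε) :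
    ∃ N₀ : ℝ, 0 ≤ N₀ ∧ ∀ N ≥ N₀, Q ζ - ε ≤ infc K Q N ζ := by
  have h1 := hQ ζ hζ (Q ζ - ε) (by linarith)
  rw [Metric.nhdsWithin_basis_ball.eventually_iff] at h1
  obtain ⟨δ, hδ, hδs⟩ := h1
  refine ⟨Q ζ / δ, div_nonneg (h0 ζ hζ) hδ.le, fun N hN => ?_⟩
  have hN0 : 0 ≤ N := (div_nonneg (h0 ζ hζ) hδ.le).trans hN
  have : Nonempty K := hne.to_subtype
  apply le_ciInf
  intro ξ
  by_cases hd : ‖ζ - ξ‖ < δ
  · have h2 : (ξ : ℂ) ∈ ball ζ δ ∩ K := ⟨by rwa [mem_ball, dist_comm, dist_eq_norm], ξ.2⟩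
    have h3 := hδs h2
    have : 0 ≤ N * ‖ζ - ξ‖ := by positivity
    linarith
  · push Not at hd
    have h2 : Q ζ ≤ N * ‖ζ - ξ‖ := by
      calc Q ζ = Q ζ / δ * δ := by field_simp
        _ ≤ N * ‖ζ - ξ‖ := by gcongr
    have := h0 ξ ξ.2
    linarith

lemma approx_fun {c : ℂ} {β : Bool} {K : Set ℂ} (hK : IsCompact K) (hne : K.Nonempty)
    {Q : ℂ → ℝ} (h0 : ∀ ζ ∈ K, 0 ≤ Q ζ) (n : ℕ) :
    ∃ ψ : ℂ → ℝ, ContDiff ℝ 1 ψ ∧ HasCompactSupport ψ ∧ c ∉ tsupport ψ ∧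
      (∃ h > (0 : ℝ), ∀ u ∈ Icc 0 h, ∀ ζ ∈ K, |ψ (Ts c β (-u) ζ)| ≤ Q ζ) ∧
      ∀ ζ, 2 ≤ ((n : ℝ) + 1) * ‖ζ - c‖ → ‖ζ - c‖ ≤ n →
        infc K Q (n + 1) ζ - 4 / ((n : ℝ) + 1) ≤ |ψ ζ| := by
  set N : ℝ := (n : ℝ) + 1 with hN
  have hn0 : (0 : ℝ) ≤ n := Nat.cast_nonneg n
  have hN0 : 0 < N := by positivity
  have hN1 : 1 ≤ N := by rw [hN]; linarith
  set θ : ℂ → ℝ := fun ζ => max 0 (min 1 (N * ‖ζ - c‖ - 1)) * max 0 (min 1 (N + 1 - ‖ζ - c‖))
    with hθ
  have hθc : Continuous θ := by rw [hθ]; fun_prop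
  have hθ1 : ∀ ζ, 0 ≤ θ ζ ∧ θ ζ ≤ 1 := by
    intro ζ
    rw [hθ]
    refine ⟨mul_nonneg (le_max_left _ _) (le_max_left _ _), ?_⟩
    apply mul_le_one₀
    · exact max_le zero_le_one (min_le_left _ _)
    · exact le_max_left _ _
    · exact max_le zero_le_one (min_le_left _ _)
  set v : ℂ → ℝ := fun ζ => θ ζ * max (infc K Q N ζ - 3 / N) 0 with hv
  have hvc : Continuous v := by
    apply hθc.mul
    exact ((continuous_infc hne h0 hN0.le).sub continuous_const).max continuous_const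
  obtain ⟨g, hg1, hg2, hg3⟩ := hvc.exists_contDiff_approx 1 (ε := fun _ => 1 / N)
    continuous_const (fun _ => by positivity)
  have hgle : ∀ ζ, |g ζ| ≤ max (infc K Q N ζ - 2 / N) 0 := by
    intro ζ
    by_cases h : v ζ = 0
    · have : g ζ = 0 := by
        by_contra hne
        exact hg3 hne h
      rw [this, abs_zero]
      exact le_max_right _ _
    · have h1 : 0 < infc K Q N ζ - 3 / N := by
        by_contra hle
        push Not at hle
        apply h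
        rw [hv]
        simp only
        rw [max_eq_right hle, mul_zero]
      have h2 : v ζ ≤ infc K Q N ζ - 3 / N := by
        rw [hv]
        simp only
        rw [max_eq_left h1.le]
        have := hθ1 ζ
        nlinarith [this.1, this.2]
      have h3 : 0 ≤ v ζ := by
        rw [hv]
        exact mul_nonneg (hθ1 ζ).1 (le_max_right _ _)
      have h4 := hg2 ζ
      rw [Real.dist_eq] at h4
      refine le_trans ?_ (le_max_left _ _)
      have h5 : |g ζ| ≤ |g ζ - v ζ| + |v ζ| := by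
        have := abs_add_le (g ζ - v ζ) (v ζ)
        rwa [sub_add_cancel] at this
      rw [abs_of_nonneg h3] at h5
      have h6 : infc K Q N ζ - 2 / N = infc K Q N ζ - 3 / N + 1 / N := by ring
      rw [h6]
      linarith
  have hclosed : IsClosed {ζ : ℂ | 1 / N ≤ ‖ζ - c‖ ∧ ‖ζ - c‖ ≤ N + 1} := by
    have hcn : Continuous fun ζ : ℂ => ‖ζ - c‖ := by fun_prop
    exact (isClosed_le continuous_const hcn).inter (isClosed_le hcn continuous_const)
  have hsupp : tsupport g ⊆ {ζ : ℂ | 1 / N ≤ ‖ζ - c‖ ∧ ‖ζ - c‖ ≤ N + 1} := by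
    apply closure_minimal _ hclosed
    intro ζ hζ
    have h1 : v ζ ≠ 0 := hg3 hζ
    have h2 : θ ζ ≠ 0 := left_ne_zero_of_mul h1
    constructor
    · by_contra hlt
      push Not at hlt
      apply h2
      rw [hθ]
      simp only
      have : N * ‖ζ - c‖ - 1 ≤ 0 := by
        rw [lt_div_iff₀ hN0] at hlt
        linarith
      rw [max_eq_left ((min_le_right _ _).trans this), zero_mul]
    · by_contra hlt
      push Not at hlt
      apply h2
      rw [hθ]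
      simp only
      have : N + 1 - ‖ζ - c‖ ≤ 0 := by linarith
      rw [max_eq_left (a := (0 : ℝ)) (b := min 1 (N + 1 - ‖ζ - c‖))
        ((min_le_right _ _).trans this), mul_zero]
  obtain ⟨R, hR⟩ := hK.isBounded.subset_closedBall c
  refine ⟨g, hg1, ?_, ?_, ?_, ?_⟩
  · apply HasCompactSupport.of_support_subset_isCompact
      ((isCompact_closedBall c (N + 1)))
    intro ζ hζ
    rw [mem_closedBall, dist_eq_norm]
    exact (hsupp (subset_tsupport g hζ)).2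
  · intro hc
    have := (hsupp hc).1
    rw [sub_self, norm_zero] at this
    have h1 : 0 < 1 / N := by positivity
    linarith
  · set R' := max R 0 + 1 with hR'
    have hR0 : 0 < R' := by positivity
    refine ⟨min 1 (1 / (N ^ 2 * R')), by positivity, fun u hu ζ hζ => ?_⟩
    have hu1 : |(-u)| ≤ 1 := by
      rw [abs_neg, abs_of_nonneg hu.1]
      exact hu.2.trans (min_le_left _ _)
    have h1 := norm_Ts_sub_self c β hu1 ζ
    have h2 : ‖ζ - c‖ ≤ R' := by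
      have := hR hζ
      rw [mem_closedBall, dist_eq_norm] at this
      have h3 := le_max_left R 0
      linarith
    have h3 : N * ‖Ts c β (-u) ζ - ζ‖ ≤ 2 / N := by
      rw [abs_neg, abs_of_nonneg hu.1] at h1
      calc N * ‖Ts c β (-u) ζ - ζ‖ ≤ N * (2 * u * ‖ζ - c‖) := by gcongr
        _ ≤ N * (2 * (1 / (N ^ 2 * R')) * R') := by
            have := hu.2.trans (min_le_right _ _)
            have := hu.1
            gcongr
        _ = 2 / N := by field_simp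
    have h4 := infc_lip hne h0 hN0.le (Ts c β (-u) ζ) ζ
    have h5 := infc_le h0 hN0.le ζ hζ
    rw [sub_self, norm_zero, mul_zero, add_zero] at h5
    refine (hgle _).trans (max_le ?_ (h0 ζ hζ))
    linarith
  · intro ζ h1 h2
    have hθ1' : θ ζ = 1 := by
      rw [hθ]
      simp only
      rw [min_eq_left (by linarith), min_eq_left (by rw [hN]; linarith),
        max_eq_right zero_le_one, one_mul]
    have h3 : infc K Q N ζ - 3 / N ≤ v ζ := by
      rw [hv]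
      simp only
      rw [hθ1', one_mul]
      exact le_max_left _ _
    have h4 := hg2 ζ
    rw [Real.dist_eq, abs_lt] at h4
    have h5 := le_abs_self (g ζ)
    have h6 : infc K Q N ζ - 4 / N = infc K Q N ζ - 3 / N - 1 / N := by ring
    rw [h6]
    linarith [h4.1]

/-- the lower bound of the norm -/
theorem dual {c : ℂ} {β : Bool} {G : Set ℂ} (hG : MeasurableSet G) {K : Set ℂ}
    (hK : IsCompact K) (hne : K.Nonempty) (hE : EE G ⊆ K) {Q : ℂ → ℝ}
    (hQ : LowerSemicontinuousOn Q K) (h0 : ∀ ζ ∈ K, 0 ≤ Q ζ) {M : ℝ}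
    (hM : ∀ φ : ℂ → ℝ, ContDiff ℝ 1 φ → HasCompactSupport φ → c ∉ tsupport φ →
      (∀ ζ ∈ K, |φ ζ| ≤ Q ζ) → |RR c β G φ| ≤ M) :
    NN c β (EE G) (fun ζ => ENNReal.ofReal (Q ζ)) ≤ ENNReal.ofReal M := by
  classical
  have happ := fun n => approx_fun (c := c) (β := β) hK hne h0 n
  choose ψ hψ1 hψ2 hψ3 hψ4 hψ5 using happ
  choose h hh0 hh using hψ4
  have hlow := fun n => lower_lin hG (hψ1 n) (hψ2 n) (hψ3 n) (hh0 n) (M := M) (by
    rintro φ a1 a2 a3 ⟨u, hu, hle⟩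
    exact hM φ a1 a2 a3 fun ζ hζ => (hle ζ).trans (hh n u hu ζ hζ))
  choose g hg1 hg2 hg3 using hlow
  rw [← ae_all_iff] at hg2
  have hkey : ∀ᵐ x : ℝ, Sx c β (EE G) (fun ζ => ENNReal.ofReal (Q ζ)) x ≤
      liminf (fun n => g n x) atTop := by
    filter_upwards [hg2] with x hx
    unfold Sx
    rw [ENNReal.tsum_eq_iSup_sum]
    refine iSup_le fun F => ?_
    set T : Finset ℝ := F.image (fun y => y.1) with hT
    have hTm : ∀ y ∈ T, y ∈ Dy β ∧ Phi c β (x, y) ∈ EE G := by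
      intro y hy
      rw [hT, Finset.mem_image] at hy
      obtain ⟨z, _, rfl⟩ := hy
      exact z.2
    have hsum : ∑ y ∈ F, ENNReal.ofReal (Q (Phi c β (x, y))) =
        ∑ y ∈ T, ENNReal.ofReal (Q (Phi c β (x, y))) := by
      rw [hT, Finset.sum_image (fun a _ b _ hab => Subtype.ext hab)]
    rw [hsum]
    have h1 : ∀ ε > (0 : ℝ), ∑ y ∈ T, ENNReal.ofReal (Q (Phi c β (x, y)) - ε) ≤
        liminf (fun n => g n x) atTop := by
      intro ε hε
      refine le_liminf_of_le (by isBoundedDefault) ?_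
      have hev : ∀ᶠ n : ℕ in atTop, ∀ y ∈ T, Q (Phi c β (x, y)) - ε ≤ |ψ n (Phi c β (x, y))| := by
        rw [Filter.eventually_all_finset]
        intro y hy
        set ζ := Phi c β (x, y) with hζ
        have hζK : ζ ∈ K := hE (hTm y hy).2
        have hζc : 0 < ‖ζ - c‖ := norm_pos_iff.2 (sub_ne_zero.2 (Phi_ne c β _))
        obtain ⟨N₀, _, hN₀⟩ := infc_lower hne hQ h0 hζK (half_pos hε)
        obtain ⟨n₀, hn₀⟩ := exists_nat_ge (max (max N₀ (2 / ‖ζ - c‖)) (max ‖ζ - c‖ (8 / ε)))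
        filter_upwards [eventually_ge_atTop n₀] with n hn
        have hnn : (n₀ : ℝ) ≤ n := by exact_mod_cast hn
        have e1 : N₀ ≤ n := (le_max_left _ _).trans ((le_max_left _ _).trans (hn₀.trans hnn))
        have e2 : 2 / ‖ζ - c‖ ≤ n :=
          (le_max_right _ _).trans ((le_max_left _ _).trans (hn₀.trans hnn))
        have e3 : ‖ζ - c‖ ≤ n := (le_max_left _ _).trans ((le_max_right _ _).trans (hn₀.trans hnn))
        have e4 : 8 / ε ≤ n := (le_max_right _ _).trans ((le_max_right _ _).trans (hn₀.trans hnn))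
        have h2 := hψ5 n ζ (by
          rw [div_le_iff₀ hζc] at e2
          nlinarith) e3
        have h3 := hN₀ (n + 1) (by linarith)
        have h4 : 4 / ((n : ℝ) + 1) ≤ ε / 2 := by
          rw [div_le_iff₀ hε] at e4
          rw [div_le_iff₀ (by positivity)]
          nlinarith
        linarith
      filter_upwards [hev] with n hn
      refine le_trans ?_ (hx n T hTm)
      exact Finset.sum_le_sum fun y hy => ENNReal.ofReal_le_ofReal (hn y hy)
    have h2 : Tendsto (fun ε : ℝ => ∑ y ∈ T, ENNReal.ofReal (Q (Phi c β (x, y)) - ε)) (𝓝[>] 0)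
        (𝓝 (∑ y ∈ T, ENNReal.ofReal (Q (Phi c β (x, y))))) := by
      apply tendsto_finsetSum
      intro y _
      apply ENNReal.tendsto_ofReal
      have h3 : Tendsto (fun ε : ℝ => Q (Phi c β (x, y)) - ε) (𝓝 0)
          (𝓝 (Q (Phi c β (x, y)) - 0)) := tendsto_const_nhds.sub tendsto_id
      rw [sub_zero] at h3
      exact h3.mono_left nhdsWithin_le_nhds
    refine le_of_tendsto h2 ?_
    filter_upwards [self_mem_nhdsWithin] with ε hε
    exact h1 ε hε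
  calc NN c β (EE G) (fun ζ => ENNReal.ofReal (Q ζ))
      ≤ ∫⁻ x in Dx β, liminf (fun n => g n x) atTop :=
        lintegral_mono_ae (ae_restrict_of_ae hkey)
    _ ≤ liminf (fun n => ∫⁻ x in Dx β, g n x) atTop := lintegral_liminf_le hg1
    _ ≤ ENNReal.ofReal M := by
        refine liminf_le_of_le (by isBoundedDefault) ?_
        intro b hb
        obtain ⟨j, hj⟩ := hb.exists
        exact hj.trans (hg3 j)

end Pool.Agent.CauchyInt
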