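import Pool.Agent.CauchyInt.Coord

/-!
# Slices of sets of finite length
-/

namespace Pool.Agent.CauchyInt

open MeasureTheory Set Filter Topology Metric NNReal ENNReal

/-- An inequality of Eilenberg type. -/
theorem eilenberg {X : Type} [MetricSpace X] [MeasurableSpace X] [BorelSpace X]
    {T : Set X} {L : ℝ → Set X} {C : ℝ≥0∞} (hC : C ≠ ⊤) (hT : μH[1] T ≠ ⊤)
    (h : ∀ D ⊆ T, D.Nonempty → ∃ M : Set ℝ, MeasurableSet M ∧
      (∀ x, (L x ∩ D).Nonempty → x ∈ M) ∧ volume M ≤ C * ediam D) :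
    ∃ g : ℝ → ℝ≥0∞, Measurable g ∧ (∀ x, ∀ F : Finset X, ↑F ⊆ L x ∩ T → (F.card : ℝ≥0∞) ≤ g x) ∧
      ∫⁻ x, g x ≤ C * μH[1] T := by
  classical
  -- covers
  have hcov : ∀ n : ℕ, ∃ t : ℕ → Set X, T ⊆ ⋃ i, t i ∧ (∀ i, ediam (t i) ≤ ((n : ℝ≥0∞) + 1)⁻¹) ∧
      (∑' i, ⨆ _ : (t i).Nonempty, ediam (t i) ^ (1 : ℝ)) ≤ μH[1] T + ((n : ℝ≥0∞) + 1)⁻¹ := by
    intro n
    have h1 := Measure.hausdorffMeasure_apply 1 T
    have hpos : (0 : ℝ≥0∞) < ((n : ℝ≥0∞) + 1)⁻¹ := by
      rw [ENNReal.inv_pos]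
      exact ENNReal.add_ne_top.2 ⟨ENNReal.natCast_ne_top n, ENNReal.one_ne_top⟩
    have h2 : ⨅ (t : ℕ → Set X) (_ : T ⊆ ⋃ n, t n) (_ : ∀ i, ediam (t i) ≤ ((n : ℝ≥0∞) + 1)⁻¹),
          ∑' n, ⨆ _ : (t n).Nonempty, ediam (t n) ^ (1 : ℝ) < μH[1] T + ((n : ℝ≥0∞) + 1)⁻¹ := by
      refine lt_of_le_of_lt ?_ (ENNReal.lt_add_right hT hpos.ne')
      rw [h1]
      exact le_iSup₂_of_le (((n : ℝ≥0∞) + 1)⁻¹) hpos le_rfl
    rw [iInf_lt_iff] at h2
    obtain ⟨t, h2⟩ := h2
    rw [iInf_lt_iff] at h2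
    obtain ⟨ht1, h2⟩ := h2
    rw [iInf_lt_iff] at h2
    obtain ⟨ht2, h2⟩ := h2
    exact ⟨t, ht1, ht2, h2.le⟩
  choose t ht1 ht2 ht3 using hcov
  have hM : ∀ n i, ∃ M : Set ℝ, MeasurableSet M ∧
      (∀ x, (L x ∩ (T ∩ t n i)).Nonempty → x ∈ M) ∧
      volume M ≤ C * ⨆ _ : (t n i).Nonempty, ediam (t n i) ^ (1 : ℝ) := by
    intro n i
    by_cases hne : (T ∩ t n i).Nonempty
    · obtain ⟨M, hM1, hM2, hM3⟩ := h (T ∩ t n i) inter_subset_left hne
      refine ⟨M, hM1, hM2, hM3.trans ?_⟩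
      have hne' : (t n i).Nonempty := hne.mono inter_subset_right
      rw [iSup_pos hne', ENNReal.rpow_one]
      gcongr
      exact inter_subset_right
    · refine ⟨∅, MeasurableSet.empty, ?_, by simp⟩
      rintro x ⟨z, _, hz⟩
      exact absurd ⟨z, hz⟩ hne
  choose M hM1 hM2 hM3 using hM
  let gn : ℕ → ℝ → ℝ≥0∞ := fun n x => ∑' i, (M n i).indicator 1 x
  have hgn : ∀ n, Measurable (gn n) := fun n =>
    Measurable.tsum fun i => measurable_one.indicator (hM1 n i)
  refine ⟨fun x => liminf (fun n => gn n x) atTop, Measurable.liminf hgn, ?_, ?_⟩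
  · intro x F hF
    -- the points of `F` are separated
    have hsep : ∀ᶠ n : ℕ in atTop, ∀ p ∈ F, ∀ q ∈ F, p ≠ q → ((n : ℝ≥0∞) + 1)⁻¹ < edist p q := by
      rw [Filter.eventually_all_finset]
      intro p _
      rw [Filter.eventually_all_finset]
      intro q _
      by_cases hpq : p = q
      · filter_upwards with n hn
        exact absurd hpq hn
      · have hpos : (edist p q) ≠ 0 := by
          rw [Ne, edist_eq_zero]; exact hpq
        obtain ⟨N, hN⟩ := ENNReal.exists_inv_nat_lt hpos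
        filter_upwards [eventually_ge_atTop N] with n hn _
        refine lt_of_le_of_lt ?_ hN
        rw [ENNReal.inv_le_inv]
        have : (N : ℝ≥0∞) ≤ n := by exact_mod_cast hn
        exact this.trans le_self_add
    refine le_liminf_of_le (by isBoundedDefault) ?_
    filter_upwards [hsep] with n hn
    -- choose covering sets
    have hch : ∀ p : F, ∃ i, (p : X) ∈ t n i := by
      intro p
      have := ht1 n (hF p.2).2
      rwa [mem_iUnion] at this
    choose idx hidx using hch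
    have hinj : Function.Injective idx := by
      intro p q hpq
      by_contra hne
      have hne' : (p : X) ≠ q := fun h => hne (Subtype.ext h)
      have h1 := hn p p.2 q q.2 hne'
      have h2 : edist (p : X) q ≤ ediam (t n (idx p)) :=
        edist_le_ediam_of_mem (hidx p) (by rw [hpq]; exact hidx q)
      exact absurd (h2.trans (ht2 n _)) (not_le.2 h1)
    have hmem : ∀ p : F, x ∈ M n (idx p) := by
      intro p
      refine hM2 n (idx p) x ⟨p, (hF p.2).1, (hF p.2).2, hidx p⟩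
    calc (F.card : ℝ≥0∞) = ∑ _p : F, (1 : ℝ≥0∞) := by simp
      _ = ∑ p : F, (M n (idx p)).indicator (1 : ℝ → ℝ≥0∞) x := by
          refine Finset.sum_congr rfl fun p _ => ?_
          rw [indicator_of_mem (hmem p)]
          rfl
      _ = ∑ i ∈ Finset.univ.image idx, (M n i).indicator (1 : ℝ → ℝ≥0∞) x := by
          rw [Finset.sum_image fun a _ b _ hab => hinj hab]
      _ ≤ ∑' i, (M n i).indicator (1 : ℝ → ℝ≥0∞) x := ENNReal.sum_le_tsum _
  · refine (lintegral_liminf_le hgn).trans ?_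
    have hb : ∀ n, ∫⁻ x, gn n x ≤ C * (μH[1] T + ((n : ℝ≥0∞) + 1)⁻¹) := by
      intro n
      rw [lintegral_tsum fun i => (measurable_one.indicator (hM1 n i)).aemeasurable]
      calc ∑' i, ∫⁻ x, (M n i).indicator 1 x = ∑' i, volume (M n i) := by
            refine tsum_congr fun i => ?_
            rw [lintegral_indicator_one (hM1 n i)]
        _ ≤ ∑' i, C * ⨆ _ : (t n i).Nonempty, ediam (t n i) ^ (1 : ℝ) :=
            ENNReal.tsum_le_tsum fun i => hM3 n i
        _ = C * ∑' i, ⨆ _ : (t n i).Nonempty, ediam (t n i) ^ (1 : ℝ) := ENNReal.tsum_mul_left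
        _ ≤ _ := by
            gcongr
            exact ht3 n
    have hlim : Tendsto (fun n : ℕ => C * (μH[1] T + ((n : ℝ≥0∞) + 1)⁻¹)) atTop
        (𝓝 (C * (μH[1] T + 0))) := by
      apply ENNReal.Tendsto.const_mul _ (Or.inr hC)
      apply Tendsto.const_add
      have := ENNReal.tendsto_inv_nat_nhds_zero.comp (tendsto_add_atTop_nat 1)
      refine this.congr fun n => ?_
      simp
    rw [add_zero] at hlim
    calc liminf (fun n => ∫⁻ x, gn n x) atTop
        ≤ liminf (fun n : ℕ => C * (μH[1] T + ((n : ℝ≥0∞) + 1)⁻¹)) atTop :=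
          liminf_le_liminf (Eventually.of_forall hb)
      _ = C * μH[1] T := hlim.liminf_eq

end Pool.Agent.CauchyInt
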