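import Pool.Agent.CauchyInt.Density

/-!
# The extension of the operator by continuity
-/

namespace Pool.Agent.CauchyInt

open MeasureTheory Set Filter Topology Metric NNReal ENNReal Asymptotics

/-- compactly supported `C¹` functions -/
structure CT (φ : ℂ → ℂ) : Prop where
  contDiff : ContDiff ℝ 1 φ
  compact : HasCompactSupport φ

lemma CT.add {φ ψ : ℂ → ℂ} (h1 : CT φ) (h2 : CT ψ) : CT (fun ζ => φ ζ + ψ ζ) :=
  ⟨h1.contDiff.add h2.contDiff, h1.compact.add h2.compact⟩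

lemma CT.sub {φ ψ : ℂ → ℂ} (h1 : CT φ) (h2 : CT ψ) : CT (fun ζ => φ ζ - ψ ζ) :=
  ⟨h1.contDiff.sub h2.contDiff, h1.compact.sub h2.compact⟩

lemma CT.const_mul {φ : ℂ → ℂ} (h1 : CT φ) (a : ℂ) : CT (fun ζ => a * φ ζ) :=
  ⟨contDiff_const.mul h1.contDiff, h1.compact.mul_left⟩

lemma CT.ofReal {φ : ℂ → ℝ} (h1 : ContDiff ℝ 1 φ) (h2 : HasCompactSupport φ) :
    CT (fun ζ => (φ ζ : ℂ)) :=
  ⟨Complex.ofRealCLM.contDiff.comp h1,
    h2.comp_left (g := fun x : ℝ => (x : ℂ)) Complex.ofReal_zero⟩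

lemma CT.re {φ : ℂ → ℂ} (h : CT φ) : ContDiff ℝ 1 (fun ζ => (φ ζ).re) ∧
    HasCompactSupport (fun ζ => (φ ζ).re) :=
  ⟨Complex.reCLM.contDiff.comp h.contDiff,
    h.compact.comp_left (g := fun x : ℂ => x.re) Complex.zero_re⟩

lemma CT.im {φ : ℂ → ℂ} (h : CT φ) : ContDiff ℝ 1 (fun ζ => (φ ζ).im) ∧
    HasCompactSupport (fun ζ => (φ ζ).im) :=
  ⟨Complex.imCLM.contDiff.comp h.contDiff,
    h.compact.comp_left (g := fun x : ℂ => x.im) Complex.zero_im⟩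

lemma continuous_dbar {φ : ℂ → ℂ} (h : CT φ) : Continuous (dbar φ) := by
  have h1 : Continuous (fderiv ℝ φ) := h.contDiff.continuous_fderiv one_ne_zero
  unfold dbar
  fun_prop

lemma hasCompactSupport_dbar {φ : ℂ → ℂ} (h : CT φ) : HasCompactSupport (dbar φ) := by
  apply h.compact.mono'
  intro ζ hζ
  by_contra hne
  apply hζ
  have h1 : fderiv ℝ φ ζ = 0 := by
    by_contra h2
    exact hne (support_fderiv_subset ℝ h2)
  rw [dbar, h1]
  simp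

lemma dbar_add {φ ψ : ℂ → ℂ} (h1 : CT φ) (h2 : CT ψ) (ζ : ℂ) :
    dbar (fun ζ => φ ζ + ψ ζ) ζ = dbar φ ζ + dbar ψ ζ := by
  have h3 : fderiv ℝ (fun ζ => φ ζ + ψ ζ) ζ = fderiv ℝ φ ζ + fderiv ℝ ψ ζ :=
    fderiv_add (h1.contDiff.differentiable one_ne_zero ζ)
      (h2.contDiff.differentiable one_ne_zero ζ)
  unfold dbar
  rw [h3]
  simp only [FunLike.coe_add, Pi.add_apply]
  ring

lemma dbar_const_mul {φ : ℂ → ℂ} (h1 : CT φ) (a : ℂ) (ζ : ℂ) :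
    dbar (fun ζ => a * φ ζ) ζ = a * dbar φ ζ := by
  have h3 : fderiv ℝ (fun ζ => a * φ ζ) ζ = a • fderiv ℝ φ ζ :=
    fderiv_const_mul (h1.contDiff.differentiable one_ne_zero ζ) a
  unfold dbar
  rw [h3]
  simp only [FunLike.coe_smul, Pi.smul_apply, smul_eq_mul]
  ring

section

variable {A : Set ℂ} {η : ℂ} {Q : ℂ → ℝ}

lemma integrableOn_cauchy (hA : MeasurableSet A) {φ : ℂ → ℂ} (h : CT φ) {z : ℂ} {d : ℝ}
    (hd : 0 < d) (hdist : ∀ ζ ∉ interior A, d ≤ ‖ζ - z‖) :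
    IntegrableOn (fun ζ => dbar φ ζ / (ζ - z)) Aᶜ := by
  have h1 : IntegrableOn (dbar φ) Aᶜ :=
    ((continuous_dbar h).integrable_of_hasCompactSupport (hasCompactSupport_dbar h)).integrableOn
  have h2 := Integrable.bdd_mul (c := 1 / d) (f := fun ζ : ℂ => (ζ - z)⁻¹) h1 (by
    have : Measurable fun ζ : ℂ => (ζ - z)⁻¹ := by fun_prop
    exact this.aestronglyMeasurable) (by
    rw [ae_restrict_iff' hA.compl]
    refine Eventually.of_forall fun ζ hζ => ?_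
    have := hdist ζ (compl_notMem_interior hζ)
    rw [norm_inv, one_div]
    gcongr)
  refine h2.congr (Eventually.of_forall fun ζ => ?_)
  simp only
  rw [div_eq_mul_inv, mul_comm]

lemma cauchyInt_add (hA : MeasurableSet A) {φ ψ : ℂ → ℂ} (h1 : CT φ) (h2 : CT ψ) {z : ℂ} {d : ℝ}
    (hd : 0 < d) (hdist : ∀ ζ ∉ interior A, d ≤ ‖ζ - z‖) :
    cauchyInt A (fun ζ => φ ζ + ψ ζ) z = cauchyInt A φ z + cauchyInt A ψ z := by
  unfold cauchyInt
  simp_rw [dbar_add h1 h2, add_div]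
  rw [integral_add (integrableOn_cauchy hA h1 hd hdist) (integrableOn_cauchy hA h2 hd hdist)]
  ring

lemma cauchyInt_const_mul {φ : ℂ → ℂ} (h1 : CT φ) (a : ℂ) (z : ℂ) :
    cauchyInt A (fun ζ => a * φ ζ) z = a * cauchyInt A φ z := by
  unfold cauchyInt
  simp_rw [dbar_const_mul h1, mul_div_assoc]
  rw [integral_const_mul]
  ring

lemma cauchyInt_sub (hA : MeasurableSet A) {φ ψ : ℂ → ℂ} (h1 : CT φ) (h2 : CT ψ) {z : ℂ} {d : ℝ}
    (hd : 0 < d) (hdist : ∀ ζ ∉ interior A, d ≤ ‖ζ - z‖) :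
    cauchyInt A (fun ζ => φ ζ - ψ ζ) z = cauchyInt A φ z - cauchyInt A ψ z := by
  have h3 : (fun ζ => φ ζ - ψ ζ) = fun ζ => φ ζ + (-1) * ψ ζ := by
    ext ζ; ring
  rw [h3, cauchyInt_add hA h1 (h2.const_mul _) hd hdist, cauchyInt_const_mul h2]
  ring

lemma cauchyInt_norm_le (hA : MeasurableSet A) {φ : ℂ → ℂ} (h : CT φ) {z : ℂ} {d : ℝ}
    (hd : 0 < d) (hdist : ∀ ζ ∉ interior A, d ≤ ‖ζ - z‖) :
    ‖cauchyInt A φ z‖ ≤ 1 / d * ∫ ζ, ‖dbar φ ζ‖ := by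
  have hint : Integrable (dbar φ) :=
    (continuous_dbar h).integrable_of_hasCompactSupport (hasCompactSupport_dbar h)
  unfold cauchyInt
  rw [norm_mul, norm_inv, norm_mul, Complex.norm_I, mul_one, Complex.norm_real, Real.norm_eq_abs,
    abs_of_pos Real.pi_pos]
  have h1 : ‖∫ ζ in Aᶜ, dbar φ ζ / (ζ - z)‖ ≤ ∫ ζ in Aᶜ, 1 / d * ‖dbar φ ζ‖ := by
    apply norm_integral_le_of_norm_le (hint.norm.const_mul (1 / d)).integrableOn
    rw [ae_restrict_iff' hA.compl]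
    refine Eventually.of_forall fun ζ hζ => ?_
    have := hdist ζ (compl_notMem_interior hζ)
    rw [norm_div, div_eq_mul_one_div, mul_comm]
    gcongr
  have h2 : ∫ ζ in Aᶜ, 1 / d * ‖dbar φ ζ‖ ≤ ∫ ζ, 1 / d * ‖dbar φ ζ‖ :=
    setIntegral_le_integral (hint.norm.const_mul (1 / d))
      (Eventually.of_forall fun ζ => by positivity)
  have h2' : ∫ ζ, 1 / d * ‖dbar φ ζ‖ = 1 / d * ∫ ζ, ‖dbar φ ζ‖ := integral_const_mul _ _
  rw [h2'] at h2
  have h3 : Real.pi⁻¹ ≤ 1 := by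
    apply inv_le_one_of_one_le₀
    linarith [Real.pi_gt_three]
  have h4 : 0 ≤ ‖∫ ζ in Aᶜ, dbar φ ζ / (ζ - z)‖ := norm_nonneg _
  calc Real.pi⁻¹ * ‖∫ ζ in Aᶜ, dbar φ ζ / (ζ - z)‖ ≤
      1 * ‖∫ ζ in Aᶜ, dbar φ ζ / (ζ - z)‖ := by gcongr
    _ ≤ 1 / d * ∫ ζ, ‖dbar φ ζ‖ := by rw [one_mul]; exact h1.trans h2

lemma exists_dist {z : ℂ} (hz : z ∈ interior A) :
    ∃ d > (0 : ℝ), ∀ ζ ∉ interior A, d ≤ ‖ζ - z‖ := by
  obtain ⟨r, hr, hrs⟩ := Metric.isOpen_iff.1 isOpen_interior z hz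
  refine ⟨r, hr, fun ζ hζ => ?_⟩
  by_contra hlt
  push Not at hlt
  exact hζ (hrs (by rwa [mem_ball, dist_eq_norm]))

lemma exists_dist_compact {L : Set ℂ} (hL : L ⊆ interior A) (hc : IsCompact L) :
    ∃ d > (0 : ℝ), ∀ z ∈ L, ∀ ζ ∉ interior A, d ≤ ‖ζ - z‖ := by
  obtain ⟨δ, hδ, hδs⟩ := hc.exists_thickening_subset_open isOpen_interior hL
  refine ⟨δ, hδ, fun z hz ζ hζ => ?_⟩
  by_contra hlt
  push Not at hlt
  apply hζ
  apply hδs
  rw [mem_thickening_iff]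
  exact ⟨z, hz, by rwa [dist_eq_norm]⟩

/-- the continuity estimate on smooth functions -/
theorem bound_smooth (hA : AdmissibleSet A) (hQ : AdmissibleWeight A η Q) :
    ∃ C : ℝ, 0 ≤ C ∧ ∀ z ∈ interior A, ∀ d > (0 : ℝ), (∀ ζ ∉ interior A, d ≤ ‖ζ - z‖) →
      ∀ φ : ℂ → ℂ, CT φ → ∀ a, NormQLe A η Q φ a → ‖cauchyInt A φ z‖ ≤ C / d * a := by
  obtain ⟨φ₀, hφ1, hφ2, hφ3, _⟩ := exists_one_near hA.isCompact_frontier
  have hη := hQ.mem_frontier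
  have hφη : φ₀ η = 1 := (hφ3 η hη).self_of_nhds
  have hCT0 := CT.ofReal hφ1 hφ2
  have hI := Itot_nonneg (A := A) (Q := Q)
  have hD0 : 0 ≤ ∫ ζ, ‖dbar (fun ζ => (φ₀ ζ : ℂ)) ζ‖ := integral_nonneg fun _ => norm_nonneg _
  refine ⟨(∫ ζ, ‖dbar (fun ζ => (φ₀ ζ : ℂ)) ζ‖) + 64 * Itot A Q, by positivity, ?_⟩
  intro z hz d hd hdist φ hφ a ha
  have ha0 : 0 ≤ a := (norm_nonneg _).trans (ha.1 η hη)
  set ψ : ℂ → ℂ := fun ζ => φ ζ + (-φ η) * (φ₀ ζ : ℂ) with hψ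
  have hψCT : CT ψ := hφ.add (hCT0.const_mul _)
  have hψle : ∀ ζ ∈ frontier A, ‖ψ ζ‖ ≤ a * Q ζ := by
    intro ζ hζ
    have e1 : φ₀ ζ = 1 := (hφ3 ζ hζ).self_of_nhds
    have e2 : ψ ζ = φ ζ - φ η := by
      rw [hψ]
      simp only [e1, Complex.ofReal_one]
      ring
    rw [e2]
    rcases eq_or_ne ζ η with h | h
    · rw [h, sub_self, norm_zero]
      have := hQ.nonneg η hη
      positivity
    · have := ha.2 ζ hζ h
      rwa [div_le_iff₀ (hQ.pos ζ hζ h)] at this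
  -- real and imaginary parts
  have hfr : ∀ ζ ∈ frontier A, d ≤ ‖ζ - z‖ := fun ζ hζ => hdist ζ (frontier_notMem_interior hζ)
  have hpart : ∀ k : ℂ → ℝ, ContDiff ℝ 1 k → HasCompactSupport k → (∀ ζ, |k ζ| ≤ ‖ψ ζ‖) →
      ‖cauchyInt A (fun ζ => (k ζ : ℂ)) z‖ ≤ 2 * (a * (16 / d * Itot A Q)) := by
    intro k hk1 hk2 hk3
    refine (norm_le_Tc _).trans ?_
    have h1 := bound_interior hA hQ hz hd hfr hk1 hk2 ha0
      (fun ζ hζ => (hk3 ζ).trans (hψle ζ hζ)) true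
    have h2 := bound_interior hA hQ hz hd hfr hk1 hk2 ha0
      (fun ζ hζ => (hk3 ζ).trans (hψle ζ hζ)) false
    linarith
  have h1 := hpart (fun ζ => (ψ ζ).re) hψCT.re.1 hψCT.re.2 fun ζ => Complex.abs_re_le_norm _
  have h2 := hpart (fun ζ => (ψ ζ).im) hψCT.im.1 hψCT.im.2 fun ζ => Complex.abs_im_le_norm _
  have e1 : ψ = fun ζ => (((ψ ζ).re : ℝ) : ℂ) + Complex.I * (((ψ ζ).im : ℝ) : ℂ) := by
    ext ζ
    rw [mul_comm]
    exact (Complex.re_add_im _).symm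
  have h3 : ‖cauchyInt A ψ z‖ ≤ 4 * (a * (16 / d * Itot A Q)) := by
    rw [e1, cauchyInt_add hA.measurableSet (CT.ofReal hψCT.re.1 hψCT.re.2)
      ((CT.ofReal hψCT.im.1 hψCT.im.2).const_mul _) hd hdist,
      cauchyInt_const_mul (CT.ofReal hψCT.im.1 hψCT.im.2)]
    refine (norm_add_le _ _).trans ?_
    rw [norm_mul, Complex.norm_I, one_mul]
    linarith
  have h4 : cauchyInt A ψ z = cauchyInt A φ z + (-φ η) * cauchyInt A (fun ζ => (φ₀ ζ : ℂ)) z := by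
    rw [hψ, cauchyInt_add hA.measurableSet hφ (hCT0.const_mul _) hd hdist,
      cauchyInt_const_mul hCT0]
  have h5 : cauchyInt A φ z = cauchyInt A ψ z + φ η * cauchyInt A (fun ζ => (φ₀ ζ : ℂ)) z := by
    rw [h4]; ring
  rw [h5]
  refine (norm_add_le _ _).trans ?_
  rw [norm_mul]
  have h6 := cauchyInt_norm_le hA.measurableSet hCT0 hd hdist
  have h7 := ha.1 η hη
  have h8 : ‖φ η‖ * ‖cauchyInt A (fun ζ => (φ₀ ζ : ℂ)) z‖ ≤
      a * (1 / d * ∫ ζ, ‖dbar (fun ζ => (φ₀ ζ : ℂ)) ζ‖) := by gcongr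
  calc _ ≤ 4 * (a * (16 / d * Itot A Q)) + a * (1 / d * ∫ ζ, ‖dbar (fun ζ => (φ₀ ζ : ℂ)) ζ‖) :=
        add_le_add h3 h8
    _ = _ := by ring

/-! ### Properties of an extension -/

lemma IsExtension.eq_cauchyInt (hA : AdmissibleSet A) (hQ : AdmissibleWeight A η Q)
    {K : (ℂ → ℂ) → ℂ → ℂ} (hK : IsExtension A η Q K) {φ : ℂ → ℂ} (h : CT φ)
    (hm : MemCQ A η Q φ) {z : ℂ} (hz : z ∈ interior A) : K φ z = cauchyInt A φ z := by
  obtain ⟨κ, hκ1, hκ2, hκz, hκ⟩ := exists_kappa hz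
  have hη := hQ.mem_frontier
  have hκc : ContDiff ℝ 1 (fun ζ => (κ ζ : ℂ)) := Complex.ofRealCLM.contDiff.comp hκ1
  have heq : ∀ ζ ∈ frontier A, φ ζ = (κ ζ : ℂ) * φ ζ := by
    intro ζ hζ
    rw [(hκ ζ (frontier_notMem_interior hζ)).self_of_nhds, Complex.ofReal_one, one_mul]
  have hm2 : MemCQ A η Q (fun ζ => (κ ζ : ℂ) * φ ζ) := hm.congr hη heq
  have h1 : K (fun ζ => (κ ζ : ℂ) * φ ζ) z = cauchyInt A (fun ζ => (κ ζ : ℂ) * φ ζ) z := by
    apply hK.formula _ (hκc.mul h.contDiff) h.compact.mul_left hm2 z hz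
    have : κ z = 0 := by
      by_contra hne
      exact hκz (subset_tsupport κ hne)
    simp only [this, Complex.ofReal_zero, zero_mul]
  have h2 : cauchyInt A (fun ζ => (κ ζ : ℂ) * φ ζ) z = cauchyInt A φ z := by
    apply cauchyInt_congr hA.measurableSet
    intro ζ hζ
    filter_upwards [hκ ζ (compl_notMem_interior hζ)] with ξ hξ
    rw [hξ, Complex.ofReal_one, one_mul]
  have h3 : K (fun ζ => (κ ζ : ℂ) * φ ζ) z = K φ z := by
    rw [← sub_eq_zero, ← norm_le_zero_iff]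
    apply _root_.le_of_forall_pos_le_add
    intro ε hε
    rw [zero_add]
    obtain ⟨δ, hδ, hδ2⟩ := hK.continuity φ hm {z} (singleton_subset_iff.2 hz)
      isCompact_singleton ε hε
    apply hδ2 _ hm2 _ z (mem_singleton z)
    constructor
    · intro ζ hζ
      simp only
      rw [← heq ζ hζ, sub_self, norm_zero]
      exact hδ.le
    · intro ζ hζ hne
      simp only
      rw [← heq ζ hζ, ← heq η hη, sub_self, sub_self, sub_self, norm_zero, zero_div]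
      exact hδ.le
  rw [← h3, h1, h2]

/-- an approximating sequence -/
lemma exists_seq (hA : AdmissibleSet A) (hQ : AdmissibleWeight A η Q) {f : ℂ → ℂ}
    (hf : MemCQ A η Q f) : ∃ φ : ℕ → ℂ → ℂ, (∀ n, CT (φ n)) ∧ (∀ n, MemCQ A η Q (φ n)) ∧
      ∀ n, NormQLe A η Q (fun ζ => φ n ζ - f ζ) (1 / ((n : ℝ) + 1)) := by
  have h := fun n : ℕ => dense_complex hA hQ hf (show (0 : ℝ) < 1 / ((n : ℝ) + 1) by positivity)
  choose φ h1 h2 h3 h4 using h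
  exact ⟨φ, fun n => ⟨h1 n, h2 n⟩, h3, h4⟩

lemma IsExtension.tendsto_seq (hA : AdmissibleSet A) (hQ : AdmissibleWeight A η Q)
    {K : (ℂ → ℂ) → ℂ → ℂ} (hK : IsExtension A η Q K) {f : ℂ → ℂ} (hf : MemCQ A η Q f)
    {φ : ℕ → ℂ → ℂ} (h1 : ∀ n, CT (φ n)) (h2 : ∀ n, MemCQ A η Q (φ n)) {a : ℕ → ℝ}
    (ha : Tendsto a atTop (𝓝 0)) (h3 : ∀ n, NormQLe A η Q (fun ζ => φ n ζ - f ζ) (a n)) {z : ℂ}
    (hz : z ∈ interior A) : Tendsto (fun n => cauchyInt A (φ n) z) atTop (𝓝 (K f z)) := by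
  rw [Metric.tendsto_atTop]
  intro ε hε
  obtain ⟨δ, hδ, hδ2⟩ := hK.continuity f hf {z} (singleton_subset_iff.2 hz)
    isCompact_singleton (ε / 2) (half_pos hε)
  obtain ⟨N, hN⟩ := eventually_atTop.1 (ha.eventually (eventually_lt_nhds hδ))
  refine ⟨N, fun n hn => ?_⟩
  rw [← hK.eq_cauchyInt hA hQ (h1 n) (h2 n) hz, dist_eq_norm]
  have := hδ2 (φ n) (h2 n) ((h3 n).mono (hN n hn).le) z (mem_singleton z)
  linarith

lemma tendsto_inv_succ : Tendsto (fun n : ℕ => 1 / ((n : ℝ) + 1)) atTop (𝓝 0) :=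
  tendsto_one_div_add_atTop_nhds_zero_nat

lemma IsExtension.add (hA : AdmissibleSet A) (hQ : AdmissibleWeight A η Q)
    {K : (ℂ → ℂ) → ℂ → ℂ} (hK : IsExtension A η Q K) {f g : ℂ → ℂ} (hf : MemCQ A η Q f)
    (hg : MemCQ A η Q g) {z : ℂ} (hz : z ∈ interior A) :
    K (fun ζ => f ζ + g ζ) z = K f z + K g z := by
  obtain ⟨φ, p1, p2, p3⟩ := exists_seq hA hQ hf
  obtain ⟨ψ, q1, q2, q3⟩ := exists_seq hA hQ hg
  obtain ⟨d, hd, hdist⟩ := exists_dist hz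
  have t1 := hK.tendsto_seq hA hQ hf p1 p2 tendsto_inv_succ p3 hz
  have t2 := hK.tendsto_seq hA hQ hg q1 q2 tendsto_inv_succ q3 hz
  have t3 : Tendsto (fun n => cauchyInt A (fun ζ => φ n ζ + ψ n ζ) z) atTop
      (𝓝 (K (fun ζ => f ζ + g ζ) z)) := by
    apply hK.tendsto_seq hA hQ (hf.add hg) (fun n => (p1 n).add (q1 n))
      (fun n => (p2 n).add (q2 n)) (a := fun n => 1 / ((n : ℝ) + 1) + 1 / ((n : ℝ) + 1))
    · have := tendsto_inv_succ.add tendsto_inv_succ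
      rwa [add_zero] at this
    · intro n
      refine ((p3 n).add (q3 n) hQ).congr hQ.mem_frontier fun ζ _ => ?_
      ring
    · exact hz
  have t4 := t1.add t2
  refine tendsto_nhds_unique t3 (t4.congr fun n => ?_)
  rw [cauchyInt_add hA.measurableSet (p1 n) (q1 n) hd hdist]

lemma IsExtension.const_mul (hA : AdmissibleSet A) (hQ : AdmissibleWeight A η Q)
    {K : (ℂ → ℂ) → ℂ → ℂ} (hK : IsExtension A η Q K) {f : ℂ → ℂ} (hf : MemCQ A η Q f)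
    (k : ℂ) {z : ℂ} (hz : z ∈ interior A) :
    K (fun ζ => k * f ζ) z = k * K f z := by
  obtain ⟨φ, p1, p2, p3⟩ := exists_seq hA hQ hf
  have t1 := hK.tendsto_seq hA hQ hf p1 p2 tendsto_inv_succ p3 hz
  have t3 : Tendsto (fun n => cauchyInt A (fun ζ => k * φ n ζ) z) atTop
      (𝓝 (K (fun ζ => k * f ζ) z)) := by
    apply hK.tendsto_seq hA hQ (hf.const_mul k) (fun n => (p1 n).const_mul k)
      (fun n => (p2 n).const_mul k) (a := fun n => ‖k‖ * (1 / ((n : ℝ) + 1)))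
    · have := tendsto_inv_succ.const_mul ‖k‖
      rwa [mul_zero] at this
    · intro n
      refine ((p3 n).const_mul k).congr hQ.mem_frontier fun ζ _ => ?_
      ring
    · exact hz
  refine tendsto_nhds_unique t3 ((t1.const_mul k).congr fun n => ?_)
  rw [cauchyInt_const_mul (p1 n)]

/-! ### Existence -/

open Classical in
/-- the chosen approximations -/
noncomputable def appr (A : Set ℂ) (η : ℂ) (Q : ℂ → ℝ) (f : ℂ → ℂ) (n : ℕ) : ℂ → ℂ :=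
  if h : ∃ φ : ℂ → ℂ, CT φ ∧ MemCQ A η Q φ ∧
    NormQLe A η Q (fun ζ => φ ζ - f ζ) (1 / ((n : ℝ) + 1)) then h.choose else 0

lemma appr_spec (hA : AdmissibleSet A) (hQ : AdmissibleWeight A η Q) {f : ℂ → ℂ}
    (hf : MemCQ A η Q f) (n : ℕ) : CT (appr A η Q f n) ∧ MemCQ A η Q (appr A η Q f n) ∧
      NormQLe A η Q (fun ζ => appr A η Q f n ζ - f ζ) (1 / ((n : ℝ) + 1)) := by
  have h : ∃ φ : ℂ → ℂ, CT φ ∧ MemCQ A η Q φ ∧
      NormQLe A η Q (fun ζ => φ ζ - f ζ) (1 / ((n : ℝ) + 1)) := by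
    obtain ⟨φ, h1, h2, h3, h4⟩ := dense_complex hA hQ hf
      (show (0 : ℝ) < 1 / ((n : ℝ) + 1) by positivity)
    exact ⟨φ, ⟨h1, h2⟩, h3, h4⟩
  rw [appr, dif_pos h]
  exact h.choose_spec

/-- the extension -/
noncomputable def K0 (A : Set ℂ) (η : ℂ) (Q : ℂ → ℝ) (f : ℂ → ℂ) (z : ℂ) : ℂ :=
  limUnder atTop fun n => cauchyInt A (appr A η Q f n) z

lemma K0_dist (hA : AdmissibleSet A) (hQ : AdmissibleWeight A η Q) {C : ℝ} (hC : 0 ≤ C)
    (hCb : ∀ z ∈ interior A, ∀ d > (0 : ℝ), (∀ ζ ∉ interior A, d ≤ ‖ζ - z‖) →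
      ∀ φ : ℂ → ℂ, CT φ → ∀ a, NormQLe A η Q φ a → ‖cauchyInt A φ z‖ ≤ C / d * a)
    {f : ℂ → ℂ} (hf : MemCQ A η Q f) {z : ℂ} (hz : z ∈ interior A) {d : ℝ} (hd : 0 < d)
    (hdist : ∀ ζ ∉ interior A, d ≤ ‖ζ - z‖) :
    Tendsto (fun n => cauchyInt A (appr A η Q f n) z) atTop (𝓝 (K0 A η Q f z)) := by
  apply CauchySeq.tendsto_limUnder
  rw [Metric.cauchySeq_iff']
  intro ε hε
  have h1 : Tendsto (fun n : ℕ => C / d * (1 / ((n : ℝ) + 1) + 1 / ((n : ℝ) + 1))) atTop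
      (𝓝 (C / d * (0 + 0))) := (tendsto_inv_succ.add tendsto_inv_succ).const_mul _
  rw [add_zero, mul_zero] at h1
  obtain ⟨N, hN⟩ := eventually_atTop.1 (h1.eventually (eventually_lt_nhds hε))
  refine ⟨N, fun n hn => ?_⟩
  obtain ⟨p1, p2, p3⟩ := appr_spec hA hQ hf n
  obtain ⟨q1, q2, q3⟩ := appr_spec hA hQ hf N
  rw [dist_eq_norm, ← cauchyInt_sub hA.measurableSet p1 q1 hd hdist]
  have h2 : NormQLe A η Q (fun ζ => appr A η Q f n ζ - appr A η Q f N ζ)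
      (1 / ((n : ℝ) + 1) + 1 / ((N : ℝ) + 1)) := by
    refine (p3.add q3.neg hQ).congr hQ.mem_frontier fun ζ _ => ?_
    ring
  have h3 := hCb z hz d hd hdist _ (p1.sub q1) _ h2
  have h4 : (1 : ℝ) / ((n : ℝ) + 1) ≤ 1 / ((N : ℝ) + 1) := by
    have : (N : ℝ) ≤ n := by exact_mod_cast hn
    gcongr
  have h5 : C / d * (1 / ((n : ℝ) + 1) + 1 / ((N : ℝ) + 1)) ≤
      C / d * (1 / ((N : ℝ) + 1) + 1 / ((N : ℝ) + 1)) := by gcongr
  exact (h3.trans h5).trans_lt (hN N le_rfl)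

theorem isExtension_K0 (hA : AdmissibleSet A) (hQ : AdmissibleWeight A η Q) :
    IsExtension A η Q (K0 A η Q) := by
  obtain ⟨C, hC, hCb⟩ := bound_smooth hA hQ
  -- distance of two values
  have key : ∀ f g : ℂ → ℂ, MemCQ A η Q f → MemCQ A η Q g → ∀ a,
      NormQLe A η Q (fun ζ => g ζ - f ζ) a → ∀ z ∈ interior A, ∀ d > (0 : ℝ),
      (∀ ζ ∉ interior A, d ≤ ‖ζ - z‖) → ‖K0 A η Q g z - K0 A η Q f z‖ ≤ C / d * a := by
    intro f g hf hg a ha z hz d hd hdist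
    have t1 := K0_dist hA hQ hC hCb hf hz hd hdist
    have t2 := K0_dist hA hQ hC hCb hg hz hd hdist
    have t3 := (t2.sub t1).norm
    have t4 : Tendsto (fun n : ℕ => C / d * (1 / ((n : ℝ) + 1) + (a + 1 / ((n : ℝ) + 1)))) atTop
        (𝓝 (C / d * (0 + (a + 0)))) :=
      (tendsto_inv_succ.add (tendsto_const_nhds.add tendsto_inv_succ)).const_mul _
    rw [add_zero, zero_add] at t4
    refine le_of_tendsto_of_tendsto' t3 t4 fun n => ?_
    obtain ⟨p1, p2, p3⟩ := appr_spec hA hQ hf n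
    obtain ⟨q1, q2, q3⟩ := appr_spec hA hQ hg n
    rw [← cauchyInt_sub hA.measurableSet q1 p1 hd hdist]
    apply hCb z hz d hd hdist _ (q1.sub p1)
    refine (q3.add (ha.add p3.neg hQ) hQ).congr hQ.mem_frontier fun ζ _ => ?_
    ring
  constructor
  · intro φ h1 h2 hm z hz _
    obtain ⟨d, hd, hdist⟩ := exists_dist hz
    have t1 := K0_dist hA hQ hC hCb hm hz hd hdist
    have t2 : Tendsto (fun n => cauchyInt A (appr A η Q φ n) z) atTop (𝓝 (cauchyInt A φ z)) := by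
      rw [tendsto_iff_norm_sub_tendsto_zero]
      have t4 : Tendsto (fun n : ℕ => C / d * (1 / ((n : ℝ) + 1))) atTop (𝓝 (C / d * 0)) :=
        tendsto_inv_succ.const_mul _
      rw [mul_zero] at t4
      refine squeeze_zero (fun n => norm_nonneg _) (fun n => ?_) t4
      obtain ⟨p1, p2, p3⟩ := appr_spec hA hQ hm n
      rw [← cauchyInt_sub hA.measurableSet p1 ⟨h1, h2⟩ hd hdist]
      exact hCb z hz d hd hdist _ (p1.sub ⟨h1, h2⟩) _ p3
    exact tendsto_nhds_unique t1 t2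
  · intro f hf L hL hLc ε hε
    obtain ⟨d, hd, hdist⟩ := exists_dist_compact hL hLc
    refine ⟨ε / (C / d + 1), by positivity, fun g hg hgf z hz => ?_⟩
    refine (key f g hf hg _ hgf z (hL hz) d hd (hdist z hz)).trans ?_
    have h1 : 0 ≤ C / d := by positivity
    calc C / d * (ε / (C / d + 1)) ≤ (C / d + 1) * (ε / (C / d + 1)) := by
          gcongr
          linarith
      _ = ε := by field_simp

end

end Pool.Agent.CauchyInt
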