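import Pool.Agent.CauchyInt.Dual2
import Pool.Agent.CauchyInt.Defs

/-!
# The Cauchy-type integral in terms of the functionals `R`
-/

namespace Pool.Agent.CauchyInt

open MeasureTheory Set Filter Topology Metric NNReal ENNReal ComplexConjugate

/-- the quotient -/
noncomputable def wq (c z ζ : ℂ) : ℂ := (ζ - c) / (ζ - z)

/-- the component -/
def Tc : Bool → ℂ → ℝ
  | true => fun w => w.im
  | false => fun w => w.re

/-- the sign -/
def sb : Bool → ℝ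
  | true => -1
  | false => 1

lemma abs_sb (β : Bool) : |sb β| = 1 := by cases β <;> simp [sb]

lemma abs_Tc_le (β : Bool) (w : ℂ) : |Tc β w| ≤ ‖w‖ := by
  cases β
  · exact Complex.abs_re_le_norm w
  · exact Complex.abs_im_le_norm w

lemma norm_le_Tc (w : ℂ) : ‖w‖ ≤ |Tc true w| + |Tc false w| := by
  rw [add_comm]
  exact Complex.norm_le_abs_re_add_abs_im w

lemma Tc_add (β : Bool) (w w' : ℂ) : Tc β (w + w') = Tc β w + Tc β w' := by
  cases β <;> simp [Tc]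

lemma Tc_sub (β : Bool) (w w' : ℂ) : Tc β (w - w') = Tc β w - Tc β w' := by
  cases β <;> simp [Tc]

lemma Tc_real_mul (β : Bool) (a : ℝ) (w : ℂ) : Tc β (a * w) = a * Tc β w := by
  cases β <;> simp [Tc]

lemma continuous_Tc (β : Bool) : Continuous (Tc β) := by
  cases β
  · exact Complex.continuous_re
  · exact Complex.continuous_im

lemma contDiff_mul_away {F : ℂ → ℝ} {φ : ℂ → ℝ} (hφ : ContDiff ℝ 1 φ)
    (hF : ∀ ζ ∈ tsupport φ, ContDiffAt ℝ 1 F ζ) : ContDiff ℝ 1 (fun ζ => F ζ * φ ζ) := by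
  rw [contDiff_iff_contDiffAt]
  intro ζ
  by_cases h : ζ ∈ tsupport φ
  · exact (hF ζ h).mul hφ.contDiffAt
  · have : (fun ζ => F ζ * φ ζ) =ᶠ[𝓝 ζ] fun _ => (0 : ℝ) := by
      filter_upwards [(isClosed_tsupport φ).isOpen_compl.mem_nhds h] with ξ hξ
      have : φ ξ = 0 := by
        by_contra hne
        exact hξ (subset_tsupport φ hne)
      rw [this, mul_zero]
    exact contDiffAt_const.congr_of_eventuallyEq this

lemma tsupport_mul_subset' (F φ : ℂ → ℝ) : tsupport (fun ζ => F ζ * φ ζ) ⊆ tsupport φ :=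
  closure_mono fun ζ hζ h0 => hζ (by simp only [h0, mul_zero])

lemma contDiffAt_wq {c z ζ : ℂ} (h : ζ ≠ z) : ContDiffAt ℝ 1 (wq c z) ζ := by
  have h1 : ContDiffAt ℂ 1 (wq c z) ζ :=
    (contDiffAt_id.sub contDiffAt_const).div (contDiffAt_id.sub contDiffAt_const)
      (sub_ne_zero.2 h)
  exact h1.restrict_scalars ℝ

lemma contDiffAt_wq_re {c z ζ : ℂ} (h : ζ ≠ z) :
    ContDiffAt ℝ 1 (fun ζ => (wq c z ζ).re) ζ :=
  Complex.reCLM.contDiff.contDiffAt.comp ζ (contDiffAt_wq h)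

lemma contDiffAt_wq_im {c z ζ : ℂ} (h : ζ ≠ z) :
    ContDiffAt ℝ 1 (fun ζ => (wq c z ζ).im) ζ :=
  Complex.imCLM.contDiff.contDiffAt.comp ζ (contDiffAt_wq h)

lemma dbar_ofReal {φ : ℂ → ℝ} {ζ : ℂ} (hφ : DifferentiableAt ℝ φ ζ) :
    dbar (fun ζ => (φ ζ : ℂ)) ζ =
      (1 / 2) * ((fderiv ℝ φ ζ 1 : ℝ) + Complex.I * (fderiv ℝ φ ζ Complex.I : ℝ)) := by
  have h1 : HasFDerivAt (fun ζ => (φ ζ : ℂ)) (Complex.ofRealCLM.comp (fderiv ℝ φ ζ)) ζ :=
    Complex.ofRealCLM.hasFDerivAt.comp ζ hφ.hasFDerivAt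
  rw [dbar, h1.fderiv]
  simp

lemma pointwise_formula {c z ζ : ℂ} {φ : ℂ → ℝ} (hφ : DifferentiableAt ℝ φ ζ) (hc : ζ ≠ c)
    (hz : ζ ≠ z) :
    ((rd c true (fun ζ => (wq c z ζ).re * φ ζ) ζ -
        rd c false (fun ζ => (wq c z ζ).im * φ ζ) ζ : ℝ) : ℂ) +
      Complex.I * ((rd c true (fun ζ => (wq c z ζ).im * φ ζ) ζ +
        rd c false (fun ζ => (wq c z ζ).re * φ ζ) ζ : ℝ) : ℂ) =
    2 * (dbar (fun ζ => (φ ζ : ℂ)) ζ / (ζ - z)) := by
  have hzz : ζ - z ≠ 0 := sub_ne_zero.2 hz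
  -- the derivative of the quotient
  obtain ⟨w', hw'⟩ : ∃ w', HasDerivAt (wq c z) w' ζ :=
    ⟨_, ((hasDerivAt_id ζ).sub_const c).div ((hasDerivAt_id ζ).sub_const z) hzz⟩
  have hwF : HasFDerivAt (wq c z) (mulL w') ζ := hw'.hasFDerivAt.restrictScalars ℝ
  have hφc : HasFDerivAt (fun ζ => (φ ζ : ℂ)) (Complex.ofRealCLM.comp (fderiv ℝ φ ζ)) ζ :=
    Complex.ofRealCLM.hasFDerivAt.comp ζ hφ.hasFDerivAt
  have hΨ := hwF.mul hφc
  set D := fderiv ℝ φ ζ with hD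
  set L := wq c z ζ • Complex.ofRealCLM.comp D + ((φ ζ : ℝ) : ℂ) • mulL w' with hL
  have hLv : ∀ v, L v = wq c z ζ * (D v : ℝ) + (φ ζ : ℂ) * (v * w') := by
    intro v
    simp [hL, mulL_apply]
  have h1 : HasFDerivAt (fun ζ => (wq c z ζ).re * φ ζ) (Complex.reCLM.comp L) ζ := by
    have h2 := Complex.reCLM.hasFDerivAt.comp ζ hΨ
    refine h2.congr_of_eventuallyEq (Eventually.of_forall fun ξ => ?_)
    simp
  have h2 : HasFDerivAt (fun ζ => (wq c z ζ).im * φ ζ) (Complex.imCLM.comp L) ζ := by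
    have h2 := Complex.imCLM.hasFDerivAt.comp ζ hΨ
    refine h2.congr_of_eventuallyEq (Eventually.of_forall fun ξ => ?_)
    simp
  have hn : (‖ζ - c‖ ^ 2 : ℝ) ≠ 0 := by
    have : 0 < ‖ζ - c‖ := norm_pos_iff.2 (sub_ne_zero.2 hc)
    positivity
  have hnc : ((‖ζ - c‖ ^ 2 : ℝ) : ℂ) = conj (ζ - c) * (ζ - c) := by
    rw [← Complex.normSq_eq_conj_mul_self, Complex.normSq_eq_norm_sq]
  unfold rd
  rw [h1.fderiv, h2.fderiv, dbar_ofReal hφ, ← hD]
  simp only [ContinuousLinearMap.comp_apply, Complex.reCLM_apply, Complex.imCLM_apply, dir,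
    one_mul]
  have key : ((L (ζ - c)).re : ℂ) - (L (Complex.I * (ζ - c))).im +
      Complex.I * ((L (ζ - c)).im + (L (Complex.I * (ζ - c))).re) =
      L (ζ - c) + Complex.I * L (Complex.I * (ζ - c)) := by
    apply Complex.ext <;> simp
    ring
  have hlin : ∀ v : ℂ, D v = v.re * D 1 + v.im * D Complex.I := by
    intro v
    have : v = v.re • (1 : ℂ) + v.im • Complex.I := by
      apply Complex.ext <;> simp
    conv_lhs => rw [this]
    rw [map_add, map_smul, map_smul]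
    rfl
  have hsum : L (ζ - c) + Complex.I * L (Complex.I * (ζ - c)) =
      wq c z ζ * (conj (ζ - c) * ((D 1 : ℝ) + Complex.I * (D Complex.I : ℝ))) := by
    rw [hLv, hLv, hlin (ζ - c), hlin (Complex.I * (ζ - c))]
    have e1 : conj (ζ - c) = ((ζ - c).re : ℂ) - (ζ - c).im * Complex.I := by
      apply Complex.ext
      · simp
      · simp
        ring
    have e2 : (Complex.I * (ζ - c)).re = - (ζ - c).im := by
      rw [Complex.I_mul_re]
    have e3 : (Complex.I * (ζ - c)).im = (ζ - c).re := by simp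
    rw [e1, e2, e3]
    have hI : Complex.I * Complex.I = -1 := Complex.I_mul_I
    push_cast
    linear_combination ((φ ζ : ℂ) * ((ζ - c) * w') +
      wq c z ζ * ((ζ - c).im : ℂ) * (D Complex.I : ℂ)) * hI
  have hfin : (((‖ζ - c‖ ^ 2)⁻¹ * (L (ζ - c)).re - (‖ζ - c‖ ^ 2)⁻¹ *
      (L (Complex.I * (ζ - c))).im : ℝ) : ℂ) + Complex.I * (((‖ζ - c‖ ^ 2)⁻¹ * (L (ζ - c)).im +
      (‖ζ - c‖ ^ 2)⁻¹ * (L (Complex.I * (ζ - c))).re : ℝ) : ℂ) =
      (((‖ζ - c‖ ^ 2 : ℝ) : ℂ))⁻¹ * (L (ζ - c) + Complex.I * L (Complex.I * (ζ - c))) := by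
    rw [← key]
    push_cast
    ring
  rw [hfin, hsum, hnc, wq]
  have hcc : conj (ζ - c) ≠ 0 := by
    rw [Ne, map_eq_zero]
    exact sub_ne_zero.2 hc
  have hcc' : ζ - c ≠ 0 := sub_ne_zero.2 hc
  field_simp

lemma rd_add_aux {c z : ℂ} {φ : ℂ → ℝ} (hφ : ContDiff ℝ 1 φ) (hz : z ∉ tsupport φ)
    (hc : c ∉ tsupport φ) (ζ : ℂ) :
    ((rd c true (fun ζ => (wq c z ζ).re * φ ζ) ζ -
        rd c false (fun ζ => (wq c z ζ).im * φ ζ) ζ : ℝ) : ℂ) +
      Complex.I * ((rd c true (fun ζ => (wq c z ζ).im * φ ζ) ζ +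
        rd c false (fun ζ => (wq c z ζ).re * φ ζ) ζ : ℝ) : ℂ) =
    2 * (dbar (fun ζ => (φ ζ : ℂ)) ζ / (ζ - z)) := by
  by_cases h : ζ ∈ tsupport φ
  · exact pointwise_formula (hφ.differentiable one_ne_zero ζ) (fun e => hc (e ▸ h))
      (fun e => hz (e ▸ h))
  · have h1 : ∀ F : ℂ → ℝ, ζ ∉ tsupport (fun ζ => F ζ * φ ζ) := fun F hh =>
      h (tsupport_mul_subset' F φ hh)
    have h2 : fderiv ℝ φ ζ = 0 := by
      by_contra hne
      exact h (support_fderiv_subset ℝ hne)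
    rw [rd_eq_zero (h1 _), rd_eq_zero (h1 _), rd_eq_zero (h1 _), rd_eq_zero (h1 _),
      dbar_ofReal (hφ.differentiable one_ne_zero ζ), h2]
    simp

theorem formula_T (A : Set ℂ) {c z : ℂ} {φ : ℂ → ℝ} (hφ : ContDiff ℝ 1 φ)
    (hs : HasCompactSupport φ) (hz : z ∉ tsupport φ) (hc : c ∉ tsupport φ) (β : Bool) :
    2 * Real.pi * Tc β (cauchyInt A (fun ζ => (φ ζ : ℂ)) z) =
      sb β * RR c β Aᶜ (fun ζ => (wq c z ζ).re * φ ζ) +
        RR c (!β) Aᶜ (fun ζ => (wq c z ζ).im * φ ζ) := by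
  have hne : ∀ ζ ∈ tsupport φ, ζ ≠ z := fun ζ hζ e => hz (e ▸ hζ)
  have hre : ContDiff ℝ 1 (fun ζ => (wq c z ζ).re * φ ζ) :=
    contDiff_mul_away hφ fun ζ hζ => contDiffAt_wq_re (hne ζ hζ)
  have him : ContDiff ℝ 1 (fun ζ => (wq c z ζ).im * φ ζ) :=
    contDiff_mul_away hφ fun ζ hζ => contDiffAt_wq_im (hne ζ hζ)
  have hsre : HasCompactSupport (fun ζ => (wq c z ζ).re * φ ζ) := hs.mul_left
  have hsim : HasCompactSupport (fun ζ => (wq c z ζ).im * φ ζ) := hs.mul_left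
  have hcre : c ∉ tsupport (fun ζ => (wq c z ζ).re * φ ζ) := fun h =>
    hc (tsupport_mul_subset' _ φ h)
  have hcim : c ∉ tsupport (fun ζ => (wq c z ζ).im * φ ζ) := fun h =>
    hc (tsupport_mul_subset' _ φ h)
  have i1 : ∀ β, IntegrableOn (rd c β (fun ζ => (wq c z ζ).re * φ ζ)) Aᶜ := fun β =>
    (integrable_rd β hre hsre hcre).integrableOn
  have i2 : ∀ β, IntegrableOn (rd c β (fun ζ => (wq c z ζ).im * φ ζ)) Aᶜ := fun β =>
    (integrable_rd β him hsim hcim).integrableOn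
  set X : ℝ := RR c true Aᶜ (fun ζ => (wq c z ζ).re * φ ζ) -
    RR c false Aᶜ (fun ζ => (wq c z ζ).im * φ ζ) with hX
  set Y : ℝ := RR c true Aᶜ (fun ζ => (wq c z ζ).im * φ ζ) +
    RR c false Aᶜ (fun ζ => (wq c z ζ).re * φ ζ) with hY
  have hint : (X : ℂ) + Complex.I * (Y : ℂ) =
      2 * ∫ ζ in Aᶜ, dbar (fun ζ => (φ ζ : ℂ)) ζ / (ζ - z) := by
    rw [← integral_const_mul]
    simp_rw [← rd_add_aux hφ hz hc]
    rw [integral_add, integral_const_mul, integral_complex_ofReal, integral_complex_ofReal,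
      integral_sub (i1 true) (i2 false), integral_add (i2 true) (i1 false)]
    · rfl
    · exact ((i1 true).sub (i2 false)).ofReal
    · exact (((i2 true).add (i1 false)).ofReal).const_mul _
  have hval : cauchyInt A (fun ζ => (φ ζ : ℂ)) z =
      (((2 * Real.pi)⁻¹ : ℝ) : ℂ) * ((Y : ℂ) - Complex.I * X) := by
    rw [cauchyInt]
    have h1 : ∫ ζ in Aᶜ, dbar (fun ζ => (φ ζ : ℂ)) ζ / (ζ - z) =
        ((X : ℂ) + Complex.I * (Y : ℂ)) / 2 := by
      rw [hint]; ring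
    rw [h1]
    have hpi : (Real.pi : ℂ) ≠ 0 := by exact_mod_cast Real.pi_ne_zero
    have hI : Complex.I ≠ 0 := Complex.I_ne_zero
    push_cast
    field_simp
    have hI2 : Complex.I ^ 2 = -1 := Complex.I_sq
    linear_combination (X : ℂ) * hI2
  have hpi := Real.pi_pos
  rw [hval, Tc_real_mul, ← mul_assoc, mul_inv_cancel₀ (by positivity), one_mul]
  cases β
  · simp only [Tc, sb, Bool.not_false, one_mul, Complex.sub_re, Complex.ofReal_re,
      Complex.mul_re, Complex.I_re, Complex.I_im, Complex.ofReal_im, zero_mul, mul_zero, sub_zero]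
    rw [hY]
    ring
  · simp only [Tc, sb, Bool.not_true, Complex.sub_im, Complex.ofReal_im, Complex.mul_im,
      Complex.I_re, Complex.I_im, Complex.ofReal_re, zero_mul, one_mul, zero_sub, zero_add]
    rw [hX]
    ring

end Pool.Agent.CauchyInt
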