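import Pool.Agent.CauchyInt.Ext

/-!
# Geometry of the approach
-/

namespace Pool.Agent.CauchyInt

open MeasureTheory Set Filter Topology Metric NNReal ENNReal ComplexConjugate

lemma away_of_notMem_contingent {M : Set ℂ} {η u : ℂ} (h : u ∉ contingent M η) :
    ∃ δ > (0 : ℝ), ∃ r > (0 : ℝ), ∀ ζ ∈ M, ζ ≠ η → ‖ζ - η‖ < r →
      δ ≤ ‖(ζ - η) / ‖ζ - η‖ - u‖ := by
  by_contra hne
  push Not at hne
  apply h
  have h1 : ∀ n : ℕ, ∃ ζ ∈ M, ζ ≠ η ∧ ‖ζ - η‖ < 1 / ((n : ℝ) + 1) ∧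
      ‖(ζ - η) / ‖ζ - η‖ - u‖ < 1 / ((n : ℝ) + 1) := by
    intro n
    obtain ⟨ζ, a1, a2, a3, a4⟩ := hne (1 / ((n : ℝ) + 1)) (by positivity) (1 / ((n : ℝ) + 1))
      (by positivity)
    exact ⟨ζ, a1, a2, a3, a4⟩
  choose ζ a1 a2 a3 a4 using h1
  refine ⟨ζ, fun n => ⟨a1 n, a2 n⟩, ?_, ?_⟩
  · rw [tendsto_iff_norm_sub_tendsto_zero]
    exact squeeze_zero (fun n => norm_nonneg _) (fun n => (a3 n).le) tendsto_inv_succ
  · rw [tendsto_iff_norm_sub_tendsto_zero]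
    exact squeeze_zero (fun n => norm_nonneg _) (fun n => (a4 n).le) tendsto_inv_succ

lemma norm_unit {ζ η : ℂ} (h : ζ ≠ η) : ‖(ζ - η) / ‖ζ - η‖‖ = 1 := by
  rw [norm_div, Complex.norm_real, norm_norm, div_self]
  exact norm_ne_zero_iff.2 (sub_ne_zero.2 h)

lemma near_of_contingent_eq {S : Set ℂ} {η u : ℂ} (h : contingent S η = {u}) {δ : ℝ}
    (hδ : 0 < δ) :
    ∃ t > (0 : ℝ), ∀ z ∈ S, z ≠ η → ‖z - η‖ < t → ‖(z - η) / ‖z - η‖ - u‖ < δ := by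
  by_contra hne
  push Not at hne
  have h1 : ∀ n : ℕ, ∃ z ∈ S, z ≠ η ∧ ‖z - η‖ < 1 / ((n : ℝ) + 1) ∧
      δ ≤ ‖(z - η) / ‖z - η‖ - u‖ := by
    intro n
    obtain ⟨z, a1, a2, a3, a4⟩ := hne (1 / ((n : ℝ) + 1)) (by positivity)
    exact ⟨z, a1, a2, a3, a4⟩
  choose z a1 a2 a3 a4 using h1
  obtain ⟨v, _, φ, hφ, hlim⟩ := (isCompact_sphere (0 : ℂ) 1).tendsto_subseq
    (x := fun n => (z n - η) / ‖z n - η‖) (fun n => by
      rw [mem_sphere_zero_iff_norm]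
      exact norm_unit (a2 n))
  have hv : v ∈ contingent S η := by
    refine ⟨fun n => z (φ n), fun n => ⟨a1 _, a2 _⟩, ?_, hlim⟩
    have h2 : Tendsto z atTop (𝓝 η) := by
      rw [tendsto_iff_norm_sub_tendsto_zero]
      exact squeeze_zero (fun n => norm_nonneg _) (fun n => (a3 n).le) tendsto_inv_succ
    exact h2.comp hφ.tendsto_atTop
  rw [h, mem_singleton_iff] at hv
  have h3 : Tendsto (fun n => ‖(z (φ n) - η) / ‖z (φ n) - η‖ - u‖) atTop (𝓝 ‖v - u‖) :=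
    ((hlim.sub tendsto_const_nhds).norm)
  have h4 : δ ≤ ‖v - u‖ := ge_of_tendsto' h3 fun n => a4 _
  rw [hv, sub_self, norm_zero] at h4
  linarith

lemma unit_im {a b : ℂ} (ha : ‖a‖ = 1) (hb : ‖b‖ = 1) :
    ‖a - b‖ * ‖a + b‖ = 2 * |(b / a).im| := by
  have ha0 : a ≠ 0 := by
    intro h
    rw [h, norm_zero] at ha
    exact zero_ne_one ha
  set c := b / a with hc
  have hc1 : ‖c‖ = 1 := by rw [hc, norm_div, ha, hb, div_one]
  have hb' : b = c * a := by rw [hc]; field_simp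
  have e1 : ‖a - b‖ = ‖1 - c‖ := by
    rw [hb', show a - c * a = (1 - c) * a by ring, norm_mul, ha, mul_one]
  have e2 : ‖a + b‖ = ‖1 + c‖ := by
    rw [hb', show a + c * a = (1 + c) * a by ring, norm_mul, ha, mul_one]
  rw [e1, e2, ← norm_mul]
  have hcc : conj c * c = 1 := by
    rw [← Complex.normSq_eq_conj_mul_self, Complex.normSq_eq_norm_sq, hc1]
    norm_num
  have e3 : (1 - c) * (1 + c) = c * (conj c - c) := by
    have : (1 - c) * (1 + c) = conj c * c - c * c := by rw [hcc]; ring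
    rw [this]; ring
  rw [e3, norm_mul, hc1, one_mul]
  have e4 : conj c - c = ((-2 * c.im : ℝ) : ℂ) * Complex.I := by
    apply Complex.ext
    · simp
    · simp; ring
  rw [e4, norm_mul, Complex.norm_I, mul_one, Complex.norm_real, Real.norm_eq_abs, abs_mul]
  norm_num

lemma norm_one_sub_ge {τ : ℂ} (hτ : τ ≠ 0) {k : ℝ} (h : k * ‖τ‖ ≤ |τ.im|) :
    k ≤ ‖1 - τ‖ ∧ k * ‖τ‖ ≤ ‖1 - τ‖ := by
  have h0 : 0 < ‖τ‖ := norm_pos_iff.2 hτ
  constructor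
  · have h1 : |τ.im| ≤ ‖1 - τ‖ * ‖τ‖ := by
      have e1 : ((1 - τ) * conj τ).im = - τ.im := by
        simp [Complex.mul_im]
        ring
      calc |τ.im| = |((1 - τ) * conj τ).im| := by rw [e1, abs_neg]
        _ ≤ ‖(1 - τ) * conj τ‖ := Complex.abs_im_le_norm _
        _ = ‖1 - τ‖ * ‖τ‖ := by rw [norm_mul, Complex.norm_conj]
    exact le_of_mul_le_mul_right (h.trans h1) h0
  · refine h.trans ?_
    have e1 : (1 - τ).im = - τ.im := by simp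
    calc |τ.im| = |(1 - τ).im| := by rw [e1, abs_neg]
      _ ≤ ‖1 - τ‖ := Complex.abs_im_le_norm _

lemma wq_eq {η z ζ : ℂ} (hζ : ζ ≠ η) : wq η z ζ = (1 - (z - η) / (ζ - η))⁻¹ := by
  have h : ζ - η ≠ 0 := sub_ne_zero.2 hζ
  have h1 : 1 - (z - η) / (ζ - η) = (ζ - z) / (ζ - η) := by
    field_simp
    ring
  rw [h1, inv_div, wq]

lemma wq_im {η z ζ : ℂ} (hζ : ζ ≠ η) :
    (wq η z ζ).im = ((z - η) / (ζ - η)).im / ‖1 - (z - η) / (ζ - η)‖ ^ 2 := by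
  rw [wq_eq hζ, Complex.inv_im, Complex.normSq_eq_norm_sq]
  congr 1
  simp

theorem geom {A : Set ℂ} {η : ℂ} {S : Set ℂ} (h : AdmissibleApproach A η S)
    (hη : η ∈ frontier A) :
    ∃ t₀ > (0 : ℝ), ∃ C > (0 : ℝ), ∃ c₀ > (0 : ℝ), ∀ z ∈ S, ‖z - η‖ < t₀ →
      ∀ ζ ∈ frontier A, ζ ≠ η →
        |(wq η z ζ).re| ≤ C ∧ |(wq η z ζ).im| ≤ C * (‖ζ - η‖ / ‖z - η‖) ∧
        |(wq η z ζ).im| ≤ C * (‖z - η‖ / ‖ζ - η‖) ∧
        (‖ζ - η‖ ≤ 2 * ‖z - η‖ → c₀ * (‖ζ - η‖ / ‖z - η‖) ≤ |(wq η z ζ).im|) := by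
  obtain ⟨u, hu1, hu2, hu3⟩ := h.exists_halfLine
  obtain ⟨δ₁, hδ₁, r₁, hr₁, h1⟩ := away_of_notMem_contingent hu2
  obtain ⟨δ₂, hδ₂, r₂, hr₂, h2⟩ := away_of_notMem_contingent hu3
  set δ := min δ₁ δ₂ with hδ
  have hδ0 : 0 < δ := lt_min hδ₁ hδ₂
  obtain ⟨t₁, ht₁, h3⟩ := near_of_contingent_eq hu1 (half_pos hδ0)
  set r₀ := min r₁ r₂ with hr₀
  have hr₀0 : 0 < r₀ := lt_min hr₁ hr₂
  set κ := δ ^ 2 / 8 with hκ
  have hκ0 : 0 < κ := by positivity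
  set k := min κ (1 / 2) with hk
  have hk0 : 0 < k := lt_min hκ0 (by norm_num)
  have hk1 : k ≤ 1 := (min_le_right _ _).trans (by norm_num)
  refine ⟨min t₁ (r₀ / 4), lt_min ht₁ (by positivity), 1 / k ^ 2, by positivity, κ / 9,
    by positivity, ?_⟩
  intro z hz hzt ζ hζ hζη
  have hzη : z ≠ η := by
    intro he
    exact frontier_notMem_interior hη (he ▸ h.subset_interior hz)
  have hρ : 0 < ‖ζ - η‖ := norm_pos_iff.2 (sub_ne_zero.2 hζη)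
  have ht : 0 < ‖z - η‖ := norm_pos_iff.2 (sub_ne_zero.2 hzη)
  set τ : ℂ := (z - η) / (ζ - η) with hτ
  have hτ0 : τ ≠ 0 := div_ne_zero (sub_ne_zero.2 hzη) (sub_ne_zero.2 hζη)
  have hτn : ‖τ‖ = ‖z - η‖ / ‖ζ - η‖ := by rw [hτ, norm_div]
  have hτpos : 0 < ‖τ‖ := norm_pos_iff.2 hτ0
  have hinv : ‖ζ - η‖ / ‖z - η‖ = 1 / ‖τ‖ := by rw [hτn, one_div_div]
  -- the near case
  have hnear : ‖ζ - η‖ < r₀ → κ * ‖τ‖ ≤ |τ.im| := by
    intro hlt
    set a := (ζ - η) / ‖ζ - η‖ with ha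
    set b := (z - η) / ‖z - η‖ with hb
    have hb3 := h3 z hz hzη (hzt.trans_le (min_le_left _ _))
    have e1 : δ / 2 ≤ ‖a - b‖ := by
      have := h1 ζ hζ hζη (hlt.trans_le (min_le_left _ _))
      have h4 : δ ≤ ‖a - u‖ := (min_le_left _ _).trans this
      have h5 : ‖a - u‖ ≤ ‖a - b‖ + ‖b - u‖ := by
        have := norm_add_le (a - b) (b - u)
        rwa [sub_add_sub_cancel] at this
      linarith
    have e2 : δ / 2 ≤ ‖a + b‖ := by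
      have := h2 ζ hζ hζη (hlt.trans_le (min_le_right _ _))
      have h4 : δ ≤ ‖a - -u‖ := (min_le_right _ _).trans this
      have h5 : ‖a - -u‖ ≤ ‖a + b‖ + ‖b - u‖ := by
        have := norm_sub_le (a + b) (b - u)
        have e : a + b - (b - u) = a - -u := by ring
        rwa [e] at this
      linarith
    have e3 : ‖a - b‖ * ‖a + b‖ = 2 * |(b / a).im| := unit_im (norm_unit hζη) (norm_unit hzη)
    have e4 : τ = (‖τ‖ : ℝ) * (b / a) := by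
      rw [hτn, ha, hb, hτ]
      have c1 : ((‖z - η‖ : ℝ) : ℂ) ≠ 0 := by exact_mod_cast ht.ne'
      have c2 : ((‖ζ - η‖ : ℝ) : ℂ) ≠ 0 := by exact_mod_cast hρ.ne'
      have c3 : ζ - η ≠ 0 := sub_ne_zero.2 hζη
      push_cast
      field_simp
    have e5 : τ.im = ‖τ‖ * (b / a).im := by
      conv_lhs => rw [e4]
      rw [Complex.im_ofReal_mul]
    rw [e5, abs_mul, abs_of_pos hτpos]
    have e6 : κ ≤ |(b / a).im| := by
      have : δ / 2 * (δ / 2) ≤ ‖a - b‖ * ‖a + b‖ := by gcongr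
      rw [hκ]
      rw [e3] at this
      nlinarith
    rw [mul_comm]
    gcongr
  have hboth : k ≤ ‖1 - τ‖ ∧ k * ‖τ‖ ≤ ‖1 - τ‖ := by
    rcases lt_or_ge ‖ζ - η‖ r₀ with hlt | hge
    · apply norm_one_sub_ge hτ0
      refine le_trans ?_ (hnear hlt)
      have : k ≤ κ := min_le_left _ _
      gcongr
    · have h4 : ‖τ‖ ≤ 1 / 4 := by
        rw [hτn, div_le_iff₀ hρ]
        have := hzt.trans_le (min_le_right _ _)
        linarith
      have h5 : 1 - ‖τ‖ ≤ ‖1 - τ‖ := by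
        have := norm_sub_norm_le (1 : ℂ) τ
        rwa [norm_one] at this
      have h6 : k ≤ 1 / 2 := min_le_right _ _
      constructor
      · linarith
      · nlinarith
  have hpos : 0 < ‖1 - τ‖ := hk0.trans_le hboth.1
  have him := wq_im (z := z) hζη
  rw [← hτ] at him
  have himabs : |(wq η z ζ).im| = |τ.im| / ‖1 - τ‖ ^ 2 := by
    rw [him, abs_div, abs_of_pos (by positivity : 0 < ‖1 - τ‖ ^ 2)]
  have hτim : |τ.im| ≤ ‖τ‖ := Complex.abs_im_le_norm _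
  refine ⟨?_, ?_, ?_, ?_⟩
  · refine (Complex.abs_re_le_norm _).trans ?_
    rw [wq_eq hζη, ← hτ, norm_inv]
    calc ‖1 - τ‖⁻¹ ≤ k⁻¹ := by gcongr; exact hboth.1
      _ ≤ 1 / k ^ 2 := by
          rw [inv_eq_one_div]
          gcongr
          nlinarith
  · rw [hinv, himabs]
    calc |τ.im| / ‖1 - τ‖ ^ 2 ≤ ‖τ‖ / (k * ‖τ‖) ^ 2 := by
          gcongr
          exact hboth.2
      _ = 1 / k ^ 2 * (1 / ‖τ‖) := by field_simp
  · rw [← hτn, himabs]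
    calc |τ.im| / ‖1 - τ‖ ^ 2 ≤ ‖τ‖ / k ^ 2 := by
          gcongr
          exact hboth.1
      _ = 1 / k ^ 2 * ‖τ‖ := by ring
  · intro hle
    rw [hinv, himabs]
    have hτ2 : 1 / 2 ≤ ‖τ‖ := by
      rw [hτn, div_le_div_iff₀ (by norm_num) hρ]
      linarith
    have hlt : ‖ζ - η‖ < r₀ := by
      have := hzt.trans_le (min_le_right _ _)
      linarith
    have h4 := hnear hlt
    have h5 : ‖1 - τ‖ ≤ 3 * ‖τ‖ := by
      have := norm_sub_le (1 : ℂ) τ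
      rw [norm_one] at this
      linarith
    calc κ / 9 * (1 / ‖τ‖) = κ * ‖τ‖ / (3 * ‖τ‖) ^ 2 := by field_simp; norm_num
      _ ≤ |τ.im| / ‖1 - τ‖ ^ 2 := by gcongr

end Pool.Agent.CauchyInt
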