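import Pool.Agent.CauchyInt.Pot

/-!
# The three equivalences
-/

namespace Pool.Agent.CauchyInt

open MeasureTheory Set Filter Topology Metric NNReal ENNReal

variable {A : Set ℂ} {η : ℂ} {Q : ℂ → ℝ} {S : Set ℂ}

theorem component_iff (hA : AdmissibleSet A) (hQ : AdmissibleWeight A η Q)
    (hS : AdmissibleApproach A η S) {K : (ℂ → ℂ) → ℂ → ℂ} (hK : IsExtension A η Q K) (β : Bool) :
    (∀ f : ℂ → ℝ, MemCQ A η Q (fun ζ => (f ζ : ℂ)) →
      ∃ L : ℝ, Tendsto (fun z => Tc β (K (fun ζ => (f ζ : ℂ)) z)) (𝓝[S] η) (𝓝 L)) ↔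
    (∃ B₁ : ℝ, 0 ≤ B₁ ∧
      NN η β (EE Aᶜ) (fun ζ => ENNReal.ofReal (Q ζ)) ≤ ENNReal.ofReal B₁) ∧
    ∃ B₂ : ℝ, 0 ≤ B₂ ∧ ∀ r > (0 : ℝ),
      NN η (!β) (EE Aᶜ) (fun ζ => ENNReal.ofReal (Qr η Q r ζ)) ≤ ENNReal.ofReal (B₂ * r) := by
  constructor
  · exact necessity hA hQ hS hK β
  · rintro ⟨⟨B₁, hB₁, h1⟩, B₂, hB₂, h2⟩ f hf
    exact sufficiency hA hQ hS hK β hB₁ hB₂ h1 h2 hf

theorem part_W (hA : AdmissibleSet A) (hQ : AdmissibleWeight A η Q)
    (hS : AdmissibleApproach A η S) {K : (ℂ → ℂ) → ℂ → ℂ} (hK : IsExtension A η Q K) :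
    (∀ f : ℂ → ℝ, MemCQ A η Q (fun ζ => (f ζ : ℂ)) →
      ∃ L : ℝ, Tendsto (fun z => (K (fun ζ => (f ζ : ℂ)) z).im) (𝓝[S] η) (𝓝 L)) ↔
    (smallV A η Q + ⨆ (r : ℝ) (_ : 0 < r), (ENNReal.ofReal r)⁻¹ * smallU A η Q r) < ⊤ := by
  rw [cond_iff]
  simp_rw [smallV_eq, smallU_eq]
  exact component_iff hA hQ hS hK true

theorem part_P (hA : AdmissibleSet A) (hQ : AdmissibleWeight A η Q)
    (hS : AdmissibleApproach A η S) {K : (ℂ → ℂ) → ℂ → ℂ} (hK : IsExtension A η Q K) :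
    (∀ f : ℂ → ℝ, MemCQ A η Q (fun ζ => (f ζ : ℂ)) →
      ∃ L : ℝ, Tendsto (fun z => (K (fun ζ => (f ζ : ℂ)) z).re) (𝓝[S] η) (𝓝 L)) ↔
    (bigU A η Q (Ioi 0) + ⨆ (r : ℝ) (_ : 0 < r), (ENNReal.ofReal r)⁻¹ * bigV A η Q r) < ⊤ := by
  rw [cond_iff]
  simp_rw [bigU_eq, bigV_eq]
  exact component_iff hA hQ hS hK false

lemma NN_Qr_le (hQ : AdmissibleWeight A η Q) (β : Bool) {B : ℝ} (hB : 0 ≤ B)
    (h : NN η β (EE Aᶜ) (fun ζ => ENNReal.ofReal (Q ζ)) ≤ ENNReal.ofReal B) {r : ℝ} (hr : 0 < r) :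
    NN η β (EE Aᶜ) (fun ζ => ENNReal.ofReal (Qr η Q r ζ)) ≤ ENNReal.ofReal (B * r) := by
  calc NN η β (EE Aᶜ) (fun ζ => ENNReal.ofReal (Qr η Q r ζ)) ≤
      NN η β (EE Aᶜ) (fun ζ => ENNReal.ofReal r * ENNReal.ofReal (Q ζ)) := by
        apply NN_mono
        intro ζ hζ
        have hζ' := EE_subset A hζ
        have hQ0 := hQ.nonneg ζ hζ'
        rw [← ENNReal.ofReal_mul hr.le]
        apply ENNReal.ofReal_le_ofReal
        rw [Qr]
        split_ifs with hlt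
        · gcongr
        · positivity
    _ = ENNReal.ofReal r * NN η β (EE Aᶜ) (fun ζ => ENNReal.ofReal (Q ζ)) :=
        NN_const_mul _ _ _ _ ENNReal.ofReal_ne_top
    _ ≤ ENNReal.ofReal r * ENNReal.ofReal B := by gcongr
    _ = ENNReal.ofReal (B * r) := by rw [ENNReal.ofReal_mul hB, mul_comm]

lemma MemCQ.re {f : ℂ → ℂ} (hf : MemCQ A η Q f) : MemCQ A η Q (fun ζ => ((f ζ).re : ℂ)) := by
  constructor
  · exact Complex.continuous_ofReal.comp_continuousOn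
      (Complex.continuous_re.comp_continuousOn hf.1)
  · refine Asymptotics.IsBigO.trans_isLittleO ?_ hf.2
    refine Asymptotics.IsBigO.of_bound 1 (Eventually.of_forall fun ζ => ?_)
    rw [one_mul, ← Complex.ofReal_sub, ← Complex.sub_re, Complex.norm_real]
    exact Complex.abs_re_le_norm _

lemma MemCQ.im {f : ℂ → ℂ} (hf : MemCQ A η Q f) : MemCQ A η Q (fun ζ => ((f ζ).im : ℂ)) := by
  constructor
  · exact Complex.continuous_ofReal.comp_continuousOn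
      (Complex.continuous_im.comp_continuousOn hf.1)
  · refine Asymptotics.IsBigO.trans_isLittleO ?_ hf.2
    refine Asymptotics.IsBigO.of_bound 1 (Eventually.of_forall fun ζ => ?_)
    rw [one_mul, ← Complex.ofReal_sub, ← Complex.sub_im, Complex.norm_real]
    exact Complex.abs_im_le_norm _

theorem part_K (hA : AdmissibleSet A) (hQ : AdmissibleWeight A η Q)
    (hS : AdmissibleApproach A η S) {K : (ℂ → ℂ) → ℂ → ℂ} (hK : IsExtension A η Q K) :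
    (∀ f : ℂ → ℂ, MemCQ A η Q f → ∃ L : ℂ, Tendsto (fun z => K f z) (𝓝[S] η) (𝓝 L)) ↔
    (bigU A η Q (Ioi 0) + smallV A η Q) < ⊤ := by
  rw [bigU_eq, smallV_eq, ENNReal.add_lt_top]
  constructor
  · intro h
    have key : ∀ β, NN η β (EE Aᶜ) (fun ζ => ENNReal.ofReal (Q ζ)) < ⊤ := by
      intro β
      obtain ⟨⟨B₁, _, h1⟩, _⟩ := (component_iff hA hQ hS hK β).1 (by
        intro f hf
        obtain ⟨L, hL⟩ := h _ hf
        exact ⟨Tc β L, ((continuous_Tc β).tendsto _).comp hL⟩)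
      exact h1.trans_lt ENNReal.ofReal_lt_top
    exact ⟨key false, key true⟩
  · rintro ⟨h1, h2⟩ f hf
    have hcond : ∀ β, NN η β (EE Aᶜ) (fun ζ => ENNReal.ofReal (Q ζ)) < ⊤ := by
      intro β
      cases β
      · exact h1
      · exact h2
    have hreal : ∀ g : ℂ → ℝ, MemCQ A η Q (fun ζ => (g ζ : ℂ)) →
        ∃ L : ℂ, Tendsto (fun z => K (fun ζ => (g ζ : ℂ)) z) (𝓝[S] η) (𝓝 L) := by
      intro g hg
      have hcomp : ∀ β, ∃ L : ℝ,
          Tendsto (fun z => Tc β (K (fun ζ => (g ζ : ℂ)) z)) (𝓝[S] η) (𝓝 L) := by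
        intro β
        refine (component_iff hA hQ hS hK β).2 ⟨⟨_, ENNReal.toReal_nonneg,
          (ENNReal.ofReal_toReal (hcond β).ne).ge⟩,
          (NN η (!β) (EE Aᶜ) (fun ζ => ENNReal.ofReal (Q ζ))).toReal,
          ENNReal.toReal_nonneg, fun r hr => ?_⟩ g hg
        exact NN_Qr_le hQ (!β) ENNReal.toReal_nonneg
          (ENNReal.ofReal_toReal (hcond (!β)).ne).ge hr
      obtain ⟨L₁, hL₁⟩ := hcomp false
      obtain ⟨L₂, hL₂⟩ := hcomp true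
      refine ⟨(L₁ : ℂ) + L₂ * Complex.I, ?_⟩
      have h3 := ((Complex.continuous_ofReal.tendsto L₁).comp hL₁).add
        (((Complex.continuous_ofReal.tendsto L₂).comp hL₂).mul_const Complex.I)
      refine h3.congr fun z => ?_
      exact Complex.re_add_im _
    obtain ⟨L₁, hL₁⟩ := hreal _ hf.re
    obtain ⟨L₂, hL₂⟩ := hreal _ hf.im
    refine ⟨L₁ + Complex.I * L₂, ?_⟩
    refine (hL₁.add (hL₂.const_mul Complex.I)).congr' ?_
    filter_upwards [self_mem_nhdsWithin] with z hz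
    have hzi := hS.subset_interior hz
    rw [← hK.const_mul hA hQ hf.im _ hzi, ← hK.add hA hQ hf.re (hf.im.const_mul _) hzi]
    congr 1
    ext ζ
    rw [mul_comm]
    exact Complex.re_add_im _

/-- uniqueness of the extension -/
theorem extension_unique (hA : AdmissibleSet A) (hQ : AdmissibleWeight A η Q)
    {K K' : (ℂ → ℂ) → ℂ → ℂ} (hK : IsExtension A η Q K) (hK' : IsExtension A η Q K')
    {f : ℂ → ℂ} (hf : MemCQ A η Q f) {z : ℂ} (hz : z ∈ interior A) : K f z = K' f z := by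
  obtain ⟨φ, p1, p2, p3⟩ := exists_seq hA hQ hf
  exact tendsto_nhds_unique (hK.tendsto_seq hA hQ hf p1 p2 tendsto_inv_succ p3 hz)
    (hK'.tendsto_seq hA hQ hf p1 p2 tendsto_inv_succ p3 hz)

end Pool.Agent.CauchyInt
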