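import Pool.Agent.CauchyInt.Suff

/-!
# Uniform boundedness
-/

namespace Pool.Agent.CauchyInt

open MeasureTheory Set Filter Topology Metric NNReal ENNReal

variable {A : Set ℂ} {η : ℂ} {Q : ℂ → ℝ} {S : Set ℂ}

lemma IsExtension.congr (hQ : AdmissibleWeight A η Q)
    {K : (ℂ → ℂ) → ℂ → ℂ} (hK : IsExtension A η Q K) {f g : ℂ → ℂ} (hf : MemCQ A η Q f)
    (h : ∀ ζ ∈ frontier A, f ζ = g ζ) {z : ℂ} (hz : z ∈ interior A) : K f z = K g z := by
  have hη := hQ.mem_frontier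
  have hg : MemCQ A η Q g := hf.congr hη h
  rw [eq_comm, ← sub_eq_zero, ← norm_le_zero_iff]
  apply _root_.le_of_forall_pos_le_add
  intro ε hε
  rw [zero_add]
  obtain ⟨δ, hδ, hδ2⟩ := hK.continuity f hf {z} (singleton_subset_iff.2 hz)
    isCompact_singleton ε hε
  apply hδ2 _ hg _ z (mem_singleton z)
  constructor
  · intro ζ hζ
    simp only
    rw [← h ζ hζ, sub_self, norm_zero]
    exact hδ.le
  · intro ζ hζ hne
    simp only
    rw [← h ζ hζ, ← h η hη, sub_self, sub_self, sub_self, norm_zero, zero_div]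
    exact hδ.le

/-- the space of the quotients `f / Q` -/
noncomputable def Zs (A : Set ℂ) (η : ℂ) (Q : ℂ → ℝ) : Submodule ℝ (lp (fun _ : ℂ => ℝ) ⊤) where
  carrier := {g | ContinuousOn (fun ζ => g ζ * Q ζ) (frontier A) ∧
    Tendsto (fun ζ => g ζ) (𝓝[frontier A \ {η}] η) (𝓝 0) ∧ g η = 0}
  add_mem' := by
    rintro g h ⟨a1, a2, a3⟩ ⟨b1, b2, b3⟩
    refine ⟨?_, ?_, ?_⟩
    · refine (a1.add b1).congr fun ζ _ => ?_
      simp only [lp.coeFn_add, Pi.add_apply]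
      ring
    · have := a2.add b2
      rw [add_zero] at this
      refine this.congr fun ζ => ?_
      simp
    · simp [a3, b3]
  zero_mem' := by
    refine ⟨?_, ?_, ?_⟩
    · simp only [lp.coeFn_zero, Pi.zero_apply, zero_mul]
      exact continuousOn_const
    · simp only [lp.coeFn_zero, Pi.zero_apply]
      exact tendsto_const_nhds
    · simp
  smul_mem' := by
    rintro k g ⟨a1, a2, a3⟩
    refine ⟨?_, ?_, ?_⟩
    · refine (continuousOn_const (c := k) |>.mul a1).congr fun ζ _ => ?_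
      simp only [lp.coeFn_smul, Pi.smul_apply, smul_eq_mul, Pi.mul_apply]
      ring
    · have := a2.const_mul k
      rw [mul_zero] at this
      refine this.congr fun ζ => ?_
      simp
    · simp [a3]

lemma isClosed_Zs (hQ : AdmissibleWeight A η Q) :
    IsClosed (Zs A η Q : Set (lp (fun _ : ℂ => ℝ) ⊤)) := by
  apply IsSeqClosed.isClosed
  intro g g₀ hg hlim
  obtain ⟨M, hM⟩ := hQ.bounded
  have hM0 : 0 ≤ M := (hQ.nonneg η hQ.mem_frontier).trans (hM η hQ.mem_frontier)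
  have hsup : ∀ ε > (0 : ℝ), ∃ n, ∀ ζ, |g n ζ - g₀ ζ| ≤ ε := by
    intro ε hε
    rw [Metric.tendsto_atTop] at hlim
    obtain ⟨N, hN⟩ := hlim ε hε
    refine ⟨N, fun ζ => ?_⟩
    have h1 := hN N le_rfl
    rw [dist_eq_norm] at h1
    have h2 := lp.norm_apply_le_norm ENNReal.top_ne_zero (g N - g₀) ζ
    rw [lp.coeFn_sub, Pi.sub_apply, Real.norm_eq_abs] at h2
    linarith
  refine ⟨?_, ?_, ?_⟩
  · apply continuousOn_of_uniform_approx_of_continuousOn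
    intro u hu
    obtain ⟨ε, hε, hεu⟩ := Metric.mem_uniformity_dist.1 hu
    obtain ⟨n, hn⟩ := hsup (ε / (2 * (M + 1))) (by positivity)
    refine ⟨fun ζ => g n ζ * Q ζ, (hg n).1, fun ζ hζ => ?_⟩
    apply hεu
    rw [Real.dist_eq, ← sub_mul, abs_mul, abs_sub_comm, abs_of_nonneg (hQ.nonneg ζ hζ)]
    calc |g n ζ - g₀ ζ| * Q ζ ≤ ε / (2 * (M + 1)) * M := by
          apply mul_le_mul (hn ζ) (hM ζ hζ) (hQ.nonneg ζ hζ) (by positivity)
      _ < ε := by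
          rw [div_mul_eq_mul_div, div_lt_iff₀ (by positivity)]
          nlinarith
  · rw [Metric.tendsto_nhds]
    intro ε hε
    obtain ⟨n, hn⟩ := hsup (ε / 2) (half_pos hε)
    have h1 := (Metric.tendsto_nhds.1 (hg n).2.1) (ε / 2) (half_pos hε)
    filter_upwards [h1] with ζ hζ
    rw [Real.dist_eq, sub_zero] at hζ ⊢
    have h2 := hn ζ
    have key : ∀ a b : ℝ, |b| ≤ |a - b| + |a| := by
      intro a b
      have := abs_sub a (a - b)
      rw [_root_.sub_sub_cancel] at this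
      linarith
    have h3 := key (g n ζ) (g₀ ζ)
    linarith
  · have h1 : ∀ ε > (0 : ℝ), |g₀ η| ≤ ε := by
      intro ε hε
      obtain ⟨n, hn⟩ := hsup ε hε
      have := hn η
      rwa [(hg n).2.2, zero_sub, abs_neg] at this
    have h2 : |g₀ η| ≤ 0 := by
      apply _root_.le_of_forall_pos_le_add
      intro ε hε
      rw [zero_add]
      exact h1 ε hε
    exact abs_nonpos_iff.1 h2

lemma memCQ_Zs {g : lp (fun _ : ℂ => ℝ) ⊤} (hg : g ∈ Zs A η Q) :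
    MemCQ A η Q (fun ζ => ((g ζ * Q ζ : ℝ) : ℂ)) := by
  constructor
  · exact Complex.continuous_ofReal.comp_continuousOn hg.1
  · rw [Asymptotics.isLittleO_iff]
    intro c hc
    have h1 := (Metric.tendsto_nhds.1 hg.2.1) c hc
    filter_upwards [h1, self_mem_nhdsWithin] with ζ hζ hζ2
    rw [Real.dist_eq, sub_zero] at hζ
    rw [hg.2.2, zero_mul, Complex.ofReal_zero, sub_zero, Complex.norm_real, Real.norm_eq_abs,
      Real.norm_eq_abs, abs_mul]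
    gcongr

/-- the functional at a point of the interior -/
noncomputable def fnl (hA : AdmissibleSet A) (hQ : AdmissibleWeight A η Q)
    {K : (ℂ → ℂ) → ℂ → ℂ} (hK : IsExtension A η Q K) (β : Bool) {z : ℂ} (hz : z ∈ interior A) :
    Zs A η Q →ₗ[ℝ] ℝ where
  toFun g := Tc β (K (fun ζ => (((g : lp (fun _ : ℂ => ℝ) ⊤) ζ * Q ζ : ℝ) : ℂ)) z)
  map_add' g h := by
    rw [← Tc_add, ← hK.add hA hQ (memCQ_Zs g.2) (memCQ_Zs h.2) hz]
    congr 2
    ext ζ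
    simp only [Submodule.coe_add, lp.coeFn_add, Pi.add_apply]
    push_cast
    ring
  map_smul' k g := by
    rw [RingHom.id_apply, smul_eq_mul, ← Tc_real_mul,
      ← hK.const_mul hA hQ (memCQ_Zs g.2) _ hz]
    congr 2
    ext ζ
    simp only [Submodule.coe_smul, lp.coeFn_smul, Pi.smul_apply, smul_eq_mul]
    push_cast
    ring

lemma fnl_bound (hA : AdmissibleSet A) (hQ : AdmissibleWeight A η Q)
    {K : (ℂ → ℂ) → ℂ → ℂ} (hK : IsExtension A η Q K) (β : Bool) {z : ℂ} (hz : z ∈ interior A) :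
    ∃ C : ℝ, ∀ g : Zs A η Q, ‖fnl hA hQ hK β hz g‖ ≤ C * ‖g‖ := by
  obtain ⟨d, hd, hdist⟩ := exists_dist hz
  refine ⟨16 / d * Itot A Q, fun g => ?_⟩
  rw [Real.norm_eq_abs]
  apply hK.bound_of_test hA hQ hz _ (memCQ_Zs g.2) (norm_nonneg _)
  · intro ζ hζ
    rw [abs_mul, abs_of_nonneg (hQ.nonneg ζ hζ)]
    have h2 := lp.norm_apply_le_norm ENNReal.top_ne_zero (g : lp (fun _ : ℂ => ℝ) ⊤) ζ
    rw [Real.norm_eq_abs] at h2
    have := hQ.nonneg ζ hζ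
    gcongr
    exact h2
  · rw [g.2.2.2, zero_mul]
  · intro φ hφ q hq hφq
    rw [mul_comm]
    exact bound_interior hA hQ hz hd (fun ζ hζ => hdist ζ (frontier_notMem_interior hζ))
      hφ.contDiff hφ.compact hq hφq β

/-- uniform boundedness near `η` -/
theorem uniform_of_limits (hA : AdmissibleSet A) (hQ : AdmissibleWeight A η Q)
    (hS : AdmissibleApproach A η S) {K : (ℂ → ℂ) → ℂ → ℂ} (hK : IsExtension A η Q K) (β : Bool)
    (hlim : ∀ f : ℂ → ℝ, MemCQ A η Q (fun ζ => (f ζ : ℂ)) →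
      ∃ L : ℝ, Tendsto (fun z => Tc β (K (fun ζ => (f ζ : ℂ)) z)) (𝓝[S] η) (𝓝 L)) :
    ∃ t₁ > (0 : ℝ), ∃ M : ℝ, 0 ≤ M ∧ ∀ z ∈ S, ‖z - η‖ < t₁ → ∀ φ : ℂ → ℝ, Test η φ →
      (∀ ζ ∈ frontier A, |φ ζ| ≤ Q ζ) → |Tc β (cauchyInt A (fun ζ => (φ ζ : ℂ)) z)| ≤ M := by
  have hη := hQ.mem_frontier
  have : CompleteSpace (Zs A η Q) := (isClosed_Zs hQ).completeSpace_coe
  by_contra hne
  push Not at hne
  have h1 : ∀ n : ℕ, ∃ z ∈ S, ‖z - η‖ < 1 / ((n : ℝ) + 1) ∧ ∃ φ : ℂ → ℝ, Test η φ ∧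
      (∀ ζ ∈ frontier A, |φ ζ| ≤ Q ζ) ∧ (n : ℝ) < |Tc β (cauchyInt A (fun ζ => (φ ζ : ℂ)) z)| := by
    intro n
    obtain ⟨z, a1, a2, φ, a3, a4, a5⟩ := hne (1 / ((n : ℝ) + 1)) (by positivity) n
      (Nat.cast_nonneg n)
    exact ⟨z, a1, a2, φ, a3, a4, a5⟩
  choose z hz1 hz2 φ hφ1 hφ2 hφ3 using h1
  have hzi : ∀ n, z n ∈ interior A := fun n => hS.subset_interior (hz1 n)
  have hzlim : Tendsto z atTop (𝓝[S] η) := by
    refine tendsto_nhdsWithin_iff.2 ⟨?_, Eventually.of_forall hz1⟩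
    rw [tendsto_iff_norm_sub_tendsto_zero]
    exact squeeze_zero (fun n => norm_nonneg _) (fun n => (hz2 n).le) tendsto_inv_succ
  have hbd := fun n => fnl_bound hA hQ hK β (hzi n)
  choose Cn hCn using hbd
  let F : ℕ → Zs A η Q →L[ℝ] ℝ := fun n => (fnl hA hQ hK β (hzi n)).mkContinuous (Cn n) (hCn n)
  obtain ⟨C', hC'⟩ := banach_steinhaus (g := F) (by
    intro g
    obtain ⟨L, hL⟩ := hlim (fun ζ => (g : lp (fun _ : ℂ => ℝ) ⊤) ζ * Q ζ) (memCQ_Zs g.2)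
    obtain ⟨B, hB⟩ := (hL.comp hzlim).norm.bddAbove_range
    refine ⟨B, fun n => ?_⟩
    exact hB ⟨n, rfl⟩)
  obtain ⟨n, hn⟩ := exists_nat_ge C'
  -- the element of the space
  classical
  let g : ℂ → ℝ := fun ζ => if ζ ∈ frontier A ∧ ζ ≠ η then φ n ζ / Q ζ else 0
  have hg1 : ∀ ζ, |g ζ| ≤ 1 := by
    intro ζ
    by_cases h : ζ ∈ frontier A ∧ ζ ≠ η
    · have hq := hQ.pos ζ h.1 h.2
      simp only [g, if_pos h]
      rw [abs_div, abs_of_pos hq, div_le_one hq]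
      exact hφ2 n ζ h.1
    · simp only [g, if_neg h, abs_zero]
      exact zero_le_one
  have hgmem : Memℓp g ⊤ := by
    rw [memℓp_infty_iff]
    refine ⟨1, ?_⟩
    rintro _ ⟨ζ, rfl⟩
    exact hg1 ζ
  let gl : lp (fun _ : ℂ => ℝ) ⊤ := ⟨g, hgmem⟩
  have hgl : ∀ ζ, gl ζ = g ζ := fun _ => rfl
  have hgQ : ∀ ζ ∈ frontier A, g ζ * Q ζ = φ n ζ := by
    intro ζ hζ
    by_cases h : ζ = η
    · rw [h, (hφ1 n).apply_self]
      simp [g]
    · simp only [g, if_pos (show ζ ∈ frontier A ∧ ζ ≠ η from ⟨hζ, h⟩)]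
      have hq := hQ.pos ζ hζ h
      field_simp
  have hφ0 : ∀ᶠ ζ in 𝓝 η, φ n ζ = 0 := by
    filter_upwards [(isClosed_tsupport (φ n)).isOpen_compl.mem_nhds (hφ1 n).away] with ζ hζ
    by_contra hne
    exact hζ (subset_tsupport (φ n) hne)
  have hglZ : gl ∈ Zs A η Q := by
    refine ⟨?_, ?_, ?_⟩
    · exact (hφ1 n).contDiff.continuous.continuousOn.congr fun ζ hζ => hgQ ζ hζ
    · refine tendsto_const_nhds.congr' ?_
      filter_upwards [hφ0.filter_mono nhdsWithin_le_nhds] with ζ hζ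
      rw [hgl]
      simp only [g, hζ, zero_div, ite_self]
    · rw [hgl]
      simp [g]
  have hnorm : ‖(⟨gl, hglZ⟩ : Zs A η Q)‖ ≤ 1 := by
    show ‖gl‖ ≤ 1
    exact lp.norm_le_of_forall_le zero_le_one fun ζ => hg1 ζ
  have h2 := (F n).le_opNorm ⟨gl, hglZ⟩
  have h3 : F n ⟨gl, hglZ⟩ = Tc β (cauchyInt A (fun ζ => (φ n ζ : ℂ)) (z n)) := by
    show Tc β (K (fun ζ => ((gl ζ * Q ζ : ℝ) : ℂ)) (z n)) = _
    rw [← hK.eq_cauchyInt hA hQ (CT.ofReal (hφ1 n).contDiff (hφ1 n).compact)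
      (memCQ_test (hφ1 n)) (hzi n)]
    congr 1
    apply hK.congr hQ (memCQ_Zs hglZ) _ (hzi n)
    intro ζ hζ
    simp only
    rw [hgl, hgQ ζ hζ]
  rw [h3, Real.norm_eq_abs] at h2
  have h4 := hφ3 n
  have h5 : ‖F n‖ * ‖(⟨gl, hglZ⟩ : Zs A η Q)‖ ≤ C' * 1 := by
    exact mul_le_mul (hC' n) hnorm (norm_nonneg _) ((F n).opNorm_nonneg.trans (hC' n))
  linarith

end Pool.Agent.CauchyInt
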