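import Pool.Agent.CauchyInt.Nec1

/-!
# Necessity
-/

namespace Pool.Agent.CauchyInt

open MeasureTheory Set Filter Topology Metric NNReal ENNReal

variable {A : Set ℂ} {η : ℂ} {Q : ℂ → ℝ} {S : Set ℂ}

lemma formula_self (A : Set ℂ) {c : ℂ} {φ : ℂ → ℝ} (h : Test c φ) (β : Bool) :
    2 * Real.pi * Tc β (cauchyInt A (fun ζ => (φ ζ : ℂ)) c) = sb β * RR c β Aᶜ φ := by
  have h1 := formula_T A h.contDiff h.compact h.away h.away β
  have hw : ∀ ζ, ζ ≠ c → wq c c ζ = 1 := by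
    intro ζ hζ
    rw [wq, div_self (sub_ne_zero.2 hζ)]
  have hz0 := h.apply_self
  have e1 : (fun ζ => (wq c c ζ).re * φ ζ) = fun ζ => φ ζ := by
    ext ζ
    rcases eq_or_ne ζ c with h | h
    · rw [h, hz0, mul_zero]
    · rw [hw ζ h, Complex.one_re, one_mul]
  have e2 : (fun ζ => (wq c c ζ).im * φ ζ) = fun _ => 0 := by
    ext ζ
    rcases eq_or_ne ζ c with h | h
    · rw [h, hz0, mul_zero]
    · rw [hw ζ h, Complex.one_im, zero_mul]
  have e3 : RR c (!β) Aᶜ (fun _ => (0 : ℝ)) = 0 := by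
    unfold RR rd
    simp
  rw [e1, e2, e3, add_zero] at h1
  exact h1

lemma abs_RR_eq (A : Set ℂ) {c : ℂ} {φ : ℂ → ℝ} (h : Test c φ) (β : Bool) :
    |RR c β Aᶜ φ| = 2 * Real.pi * |Tc β (cauchyInt A (fun ζ => (φ ζ : ℂ)) c)| := by
  have h1 := congrArg abs (formula_self A h β)
  rw [abs_mul, abs_mul (sb β), abs_sb, one_mul, abs_of_pos (by positivity : 0 < 2 * Real.pi)] at h1
  exact h1.symm

lemma mem_closure_of_approach (hS : AdmissibleApproach A η S) : η ∈ closure S := by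
  have : η ∈ closure S ∩ frontier A := by rw [hS.closure_inter_frontier]; rfl
  exact this.1

lemma Qr_nonneg (hQ : AdmissibleWeight A η Q) (r : ℝ) {ζ : ℂ} (hζ : ζ ∈ frontier A) :
    0 ≤ Qr η Q r ζ := by
  rw [Qr]
  split_ifs
  · exact mul_nonneg (norm_nonneg _) (hQ.nonneg ζ hζ)
  · exact le_rfl

lemma lsc_Qr (hQ : AdmissibleWeight A η Q) {k r : ℝ} (hk : 0 < k) :
    LowerSemicontinuousOn (fun ζ => k * Qr η Q r ζ) (frontier A) := by
  intro ζ hζ a ha
  by_cases hneg : a < 0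
  · filter_upwards [self_mem_nhdsWithin] with ξ hξ
    exact hneg.trans_le (mul_nonneg hk.le (Qr_nonneg hQ r hξ))
  · push Not at hneg
    have hlt : ‖ζ - η‖ < r := by
      by_contra hge
      simp only [Qr, if_neg hge, mul_zero] at ha
      linarith
    simp only [Qr, if_pos hlt] at ha
    have hρ : 0 < ‖ζ - η‖ := by
      rcases (norm_nonneg (ζ - η)).eq_or_lt with h | h
      · rw [← h, zero_mul, mul_zero] at ha
        linarith
      · exact h
    -- an intermediate value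
    obtain ⟨Q₁, hQ₁, hQ₁a⟩ : ∃ Q₁ < Q ζ, a < k * (‖ζ - η‖ * Q₁) := by
      refine ⟨(a / (k * ‖ζ - η‖) + Q ζ) / 2, ?_, ?_⟩
      · have : a / (k * ‖ζ - η‖) < Q ζ := by
          rw [div_lt_iff₀ (by positivity)]
          linarith
        linarith
      · have h1 : a < k * ‖ζ - η‖ * Q ζ := by linarith
        have h2 : k * (‖ζ - η‖ * ((a / (k * ‖ζ - η‖) + Q ζ) / 2)) =
            (a + k * ‖ζ - η‖ * Q ζ) / 2 := by
          field_simp
        rw [h2]
        linarith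
    have h1 := hQ.lowerSemicontinuousOn ζ hζ Q₁ hQ₁
    have hcont : ContinuousAt (fun ξ : ℂ => k * (‖ξ - η‖ * Q₁)) ζ := by fun_prop
    have h2 : ∀ᶠ ξ in 𝓝 ζ, a < k * (‖ξ - η‖ * Q₁) := hcont.eventually (eventually_gt_nhds hQ₁a)
    have hcont2 : ContinuousAt (fun ξ : ℂ => ‖ξ - η‖) ζ := by fun_prop
    have h3 : ∀ᶠ ξ in 𝓝 ζ, ‖ξ - η‖ < r := hcont2.eventually (eventually_lt_nhds hlt)
    filter_upwards [h1, h2.filter_mono nhdsWithin_le_nhds, h3.filter_mono nhdsWithin_le_nhds]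
      with ξ a1 a2 a3
    simp only [Qr, if_pos a3]
    refine a2.trans_le ?_
    gcongr

/-- the lower estimate for truncated weights -/
theorem nec_trunc (hA : AdmissibleSet A) (hQ : AdmissibleWeight A η Q) (β : Bool) {B₁ M : ℝ}
    (hB₁ : 0 ≤ B₁) (hM : 0 ≤ M)
    (h1 : NN η β (EE Aᶜ) (fun ζ => ENNReal.ofReal (Q ζ)) ≤ ENNReal.ofReal B₁) {z : ℂ}
    (hzi : z ∈ interior A) {C c₀ : ℝ} (hC : 0 < C) (hc₀ : 0 < c₀)
    (hgeom : ∀ ζ ∈ frontier A, ζ ≠ η →
        |(wq η z ζ).re| ≤ C ∧ |(wq η z ζ).im| ≤ C * (‖ζ - η‖ / ‖z - η‖) ∧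
        |(wq η z ζ).im| ≤ C * (‖z - η‖ / ‖ζ - η‖) ∧
        (‖ζ - η‖ ≤ 2 * ‖z - η‖ → c₀ * (‖ζ - η‖ / ‖z - η‖) ≤ |(wq η z ζ).im|))
    (hub : ∀ φ : ℂ → ℝ, Test η φ → (∀ ζ ∈ frontier A, |φ ζ| ≤ Q ζ) →
      |Tc β (cauchyInt A (fun ζ => (φ ζ : ℂ)) z)| ≤ M) :
    NN η (!β) (EE Aᶜ) (fun ζ => ENNReal.ofReal (Qr η Q ‖z - η‖ ζ)) ≤
      ENNReal.ofReal ((2 * Real.pi * M + C * B₁) / c₀ * ‖z - η‖) := by
  have hη := hQ.mem_frontier
  have hzη : z ≠ η := fun he => frontier_notMem_interior hη (he ▸ hzi)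
  set t := ‖z - η‖ with ht
  have ht0 : 0 < t := norm_pos_iff.2 (sub_ne_zero.2 hzη)
  have hpi := Real.pi_pos
  have hM' : 0 ≤ 2 * Real.pi * M + C * B₁ := by positivity
  have hk : 0 < c₀ / t := by positivity
  have hdual := dual (c := η) (β := !β) (G := Aᶜ) hA.measurableSet.compl hA.isCompact_frontier
    ⟨η, hη⟩ (EE_subset A) (lsc_Qr hQ (r := t) hk)
    (fun ζ hζ => mul_nonneg hk.le (Qr_nonneg hQ t hζ)) (M := 2 * Real.pi * M + C * B₁) (by
    intro φ₁ b1 b2 b3 hφ₁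
    have hφ₁T : Test η φ₁ := ⟨b1, b2, b3⟩
    set φ₂ : ℂ → ℝ := fun ζ => stp η t ζ * φ₁ ζ with hφ₂
    have hφ₂T : Test η φ₂ := hφ₁T.mul_left fun _ _ => (contDiff_stp η t).contDiffAt
    have h21 : ∀ ζ ∈ frontier A, φ₂ ζ = φ₁ ζ := by
      intro ζ hζ
      rw [hφ₂]
      simp only
      rcases lt_or_ge ‖ζ - η‖ t with h | h
      · rw [stp_eq_one ht0 h.le, one_mul]
      · have := hφ₁ ζ hζ
        simp only [Qr, if_neg (not_lt.2 h), mul_zero] at this
        rw [abs_nonpos_iff.1 this, mul_zero]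
    have hsupp2 : tsupport φ₂ ⊆ closedBall η (2 * t) := by
      apply closure_minimal _ isClosed_closedBall
      intro ζ hζ
      rw [mem_closedBall, dist_eq_norm]
      by_contra hlt
      push Not at hlt
      apply hζ
      rw [hφ₂]
      simp only
      rw [stp_eq_zero ht0 hlt.le, zero_mul]
    set C₁ : Set ℂ := frontier A ∩ tsupport φ₂ with hC₁
    have hC₁c : IsCompact C₁ := hA.isCompact_frontier.inter_right (isClosed_tsupport φ₂)
    set U : Set ℂ := {z}ᶜ ∩ (fun ζ => (wq η z ζ).im) ⁻¹' {0}ᶜ with hU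
    have hUo : IsOpen U := by
      apply ContinuousOn.isOpen_inter_preimage _ isOpen_compl_singleton isOpen_compl_singleton
      intro ζ hζ
      exact (contDiffAt_wq_im (c := η) (show ζ ≠ z from hζ)).continuousAt.continuousWithinAt
    have hlow : ∀ ζ ∈ C₁, c₀ * (‖ζ - η‖ / t) ≤ |(wq η z ζ).im| ∧ ζ ≠ η := by
      intro ζ hζ
      have hne : ζ ≠ η := fun he => hφ₂T.away (he ▸ hζ.2)
      have := hsupp2 hζ.2
      rw [mem_closedBall, dist_eq_norm] at this
      exact ⟨(hgeom ζ hζ.1 hne).2.2.2 this, hne⟩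
    have hCU : C₁ ⊆ U := by
      intro ζ hζ
      obtain ⟨a1, a2⟩ := hlow ζ hζ
      have hρ : 0 < ‖ζ - η‖ := norm_pos_iff.2 (sub_ne_zero.2 a2)
      refine ⟨?_, ?_⟩
      · intro he
        rw [mem_singleton_iff] at he
        exact frontier_notMem_interior hζ.1 (he ▸ hzi)
      · intro he
        have he' : (wq η z ζ).im = 0 := he
        rw [he', abs_zero] at a1
        have : 0 < c₀ * (‖ζ - η‖ / t) := by positivity
        linarith
    obtain ⟨ε, hε, hεU⟩ := hC₁c.exists_cthickening_subset_open hUo hCU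
    obtain ⟨χ, hχ1, hχ2, hχ3, hχ4⟩ := exists_bump (s := C₁) (t := cthickening ε C₁)
      hC₁c.isClosed (by
        have h5 : thickening ε C₁ ⊆ interior (cthickening ε C₁) :=
          interior_maximal (thickening_subset_cthickening ε C₁) isOpen_thickening
        exact (self_subset_thickening hε C₁).trans h5)
    have hχs : tsupport χ ⊆ U := by
      refine (closure_minimal ?_ isClosed_cthickening).trans hεU
      intro ζ hζ
      by_contra hne
      exact hζ (hχ3 ζ hne)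
    set F : ℂ → ℝ := fun ζ => ((wq η z ζ).im)⁻¹ * χ ζ with hF
    have hFd : ContDiff ℝ 1 F := by
      apply contDiff_mul_away hχ1
      intro ζ hζ
      have := hχs hζ
      exact (contDiffAt_wq_im (c := η) (show ζ ≠ z from this.1)).inv this.2
    set φ : ℂ → ℝ := fun ζ => F ζ * φ₂ ζ with hφ
    have hφT : Test η φ := hφ₂T.mul_left fun _ _ => hFd.contDiffAt
    have hzφ : z ∉ tsupport φ := by
      intro h
      have e : φ = fun ζ => (((wq η z ζ).im)⁻¹ * φ₂ ζ) * χ ζ := by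
        ext ζ
        rw [hφ, hF]
        ring
      rw [e] at h
      have := hχs (tsupport_mul_subset' _ χ h)
      exact this.1 rfl
    have hφQ : ∀ ζ ∈ frontier A, |φ ζ| ≤ Q ζ := by
      intro ζ hζ
      have hQ0 := hQ.nonneg ζ hζ
      by_cases h0 : φ₂ ζ = 0
      · rw [hφ]
        simp only
        rw [h0, mul_zero, abs_zero]
        exact hQ0
      · have hζC : ζ ∈ C₁ := ⟨hζ, subset_tsupport φ₂ h0⟩
        obtain ⟨a1, a2⟩ := hlow ζ hζC
        have hρ : 0 < ‖ζ - η‖ := norm_pos_iff.2 (sub_ne_zero.2 a2)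
        have h5 := hφ₁ ζ hζ
        have hlt : ‖ζ - η‖ < t := by
          by_contra hge
          simp only [Qr, if_neg hge, mul_zero] at h5
          rw [h21 ζ hζ] at h0
          exact h0 (abs_nonpos_iff.1 h5)
        simp only [Qr, if_pos hlt] at h5
        have hpos : 0 < c₀ * (‖ζ - η‖ / t) := by positivity
        rw [hφ, hF]
        simp only
        rw [h21 ζ hζ, abs_mul, abs_mul, abs_inv, abs_of_nonneg (hχ4 ζ).1]
        calc |(wq η z ζ).im|⁻¹ * χ ζ * |φ₁ ζ| ≤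
            (c₀ * (‖ζ - η‖ / t))⁻¹ * 1 * (c₀ / t * (‖ζ - η‖ * Q ζ)) := by
              have := (hχ4 ζ).2
              have := (hχ4 ζ).1
              gcongr
          _ = Q ζ := by field_simp
    have hform := formula_T A hφT.contDiff hφT.compact hzφ hφT.away β
    have hTre : Test η (fun ζ => (wq η z ζ).re * φ ζ) :=
      hφT.mul_left fun ζ hζ => contDiffAt_wq_re fun he => hzφ (he ▸ hζ)
    have e1 : |RR η β Aᶜ (fun ζ => (wq η z ζ).re * φ ζ)| ≤ C * B₁ := by
      apply RR_le_real hA hQ hTre (F := fun ζ => ENNReal.ofReal C * ENNReal.ofReal (Q ζ))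
      · intro ζ hζ
        have hζ' := EE_subset A hζ
        rw [← ENNReal.ofReal_mul hC.le]
        apply ENNReal.ofReal_le_ofReal
        rcases eq_or_ne ζ η with he | he
        · rw [he, hφT.apply_self, mul_zero, abs_zero]
          exact mul_nonneg hC.le (hQ.nonneg η hη)
        · rw [abs_mul]
          exact mul_le_mul (hgeom ζ hζ' he).1 (hφQ ζ hζ') (abs_nonneg _) hC.le
      · positivity
      · rw [NN_const_mul _ _ _ _ ENNReal.ofReal_ne_top, ENNReal.ofReal_mul hC.le]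
        gcongr
    have e2 : RR η (!β) Aᶜ (fun ζ => (wq η z ζ).im * φ ζ) = RR η (!β) Aᶜ φ₁ := by
      have hχφ : (fun ζ => (wq η z ζ).im * φ ζ) = fun ζ => χ ζ * φ₂ ζ := by
        ext ζ
        rw [hφ, hF]
        simp only
        by_cases h0 : χ ζ = 0
        · rw [h0]; ring
        · have := hχs (subset_tsupport χ h0)
          have hne : (wq η z ζ).im ≠ 0 := this.2
          field_simp
      rw [hχφ]
      apply RR_congr hA hQ (hφ₂T.mul_left fun _ _ => hχ1.contDiffAt) hφ₁T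
      intro ζ hζ
      by_cases h0 : φ₂ ζ = 0
      · rw [h0, mul_zero, ← h21 ζ hζ, h0]
      · rw [(hχ2 ζ ⟨hζ, subset_tsupport φ₂ h0⟩).self_of_nhds, one_mul, h21 ζ hζ]
    rw [e2] at hform
    have e3 : RR η (!β) Aᶜ φ₁ = 2 * Real.pi * Tc β (cauchyInt A (fun ζ => (φ ζ : ℂ)) z) -
        sb β * RR η β Aᶜ (fun ζ => (wq η z ζ).re * φ ζ) := by linarith
    rw [e3]
    refine (abs_sub _ _).trans (add_le_add ?_ ?_)
    · rw [abs_mul, abs_of_pos (by positivity : 0 < 2 * Real.pi)]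
      have := hub φ hφT hφQ
      gcongr
    · rw [abs_mul, abs_sb, one_mul]
      exact e1)
  have h3 : NN η (!β) (EE Aᶜ) (fun ζ => ENNReal.ofReal (c₀ / t * Qr η Q t ζ)) =
      ENNReal.ofReal (c₀ / t) * NN η (!β) (EE Aᶜ) (fun ζ => ENNReal.ofReal (Qr η Q t ζ)) := by
    rw [← NN_const_mul _ _ _ _ ENNReal.ofReal_ne_top]
    congr 1
    ext ζ
    rw [ENNReal.ofReal_mul hk.le]
  rw [h3] at hdual
  have h4 : ENNReal.ofReal ((2 * Real.pi * M + C * B₁) / c₀ * t) =
      (ENNReal.ofReal (c₀ / t))⁻¹ * ENNReal.ofReal (2 * Real.pi * M + C * B₁) := by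
    rw [← ENNReal.ofReal_inv_of_pos hk, ← ENNReal.ofReal_mul (by positivity)]
    congr 1
    field_simp
  rw [h4, mul_comm (ENNReal.ofReal (c₀ / t))⁻¹, ← div_eq_mul_inv]
  refine (ENNReal.le_div_iff_mul_le (Or.inl ?_) (Or.inl ENNReal.ofReal_ne_top)).2 ?_
  · rw [Ne, ENNReal.ofReal_eq_zero, not_le]
    exact hk
  · rw [mul_comm]
    exact hdual

lemma Sx_indicator (c : ℂ) (β : Bool) (E T : Set ℂ) (f : ℂ → ℝ≥0∞) (x : ℝ) :
    Sx c β E (T.indicator f) x ≤ Sx c β (E ∩ T) f x := by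
  classical
  conv_lhs => unfold Sx
  rw [ENNReal.tsum_eq_iSup_sum]
  refine iSup_le fun F => ?_
  set F' : Finset ℝ := (F.filter fun y : {y : ℝ // y ∈ Dy β ∧ Phi c β (x, y) ∈ E} =>
        Phi c β (x, y.1) ∈ T).image (fun y => y.1) with hF'
  have h1 := sum_le_Sx (c := c) (β := β) (E := E ∩ T) f (x := x) F' (by
    intro y hy
    rw [hF', Finset.mem_image] at hy
    obtain ⟨z, hz, rfl⟩ := hy
    exact ⟨z.2.1, z.2.2, (Finset.mem_filter.1 hz).2⟩)
  refine le_trans (le_of_eq ?_) h1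
  rw [hF', Finset.sum_image (fun a _ b _ hab => Subtype.ext hab), Finset.sum_filter]
  refine Finset.sum_congr rfl fun y _ => ?_
  rw [indicator_apply]

lemma sup_bound (hA : AdmissibleSet A) (hQ : AdmissibleWeight A η Q) (β : Bool) {t₂ B : ℝ}
    (ht₂ : 0 < t₂) (hB : 0 ≤ B)
    (h : ∀ t, 0 < t → t ≤ t₂ → NN η β (EE Aᶜ) (fun ζ => ENNReal.ofReal (Qr η Q t ζ)) ≤
      ENNReal.ofReal (B * t)) :
    ∃ B' : ℝ, 0 ≤ B' ∧ ∀ r > (0 : ℝ),
      NN η β (EE Aᶜ) (fun ζ => ENNReal.ofReal (Qr η Q r ζ)) ≤ ENNReal.ofReal (B' * r) := by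
  obtain ⟨R, hR⟩ := hA.isCompact_frontier.isBounded.subset_closedBall η
  have hη := hQ.mem_frontier
  have hR0 : 0 ≤ R := by
    have := hR hη
    rw [mem_closedBall, dist_self] at this
    exact this
  have hI := Itot_nonneg (A := A) (Q := Q)
  set T : Set ℂ := (ball η t₂)ᶜ with hT
  obtain ⟨g, hg1, hg2, hg3⟩ := weighted η β ht₂ (EE Aᶜ ∩ T) (fun ζ hζ => by
    have := hζ.2
    rw [hT, mem_compl_iff, mem_ball, dist_eq_norm, not_lt] at this
    exact this) (measurable_Qe hA hQ)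
  refine ⟨B + R * (16 / t₂ * Itot A Q) / t₂, by positivity, fun r hr => ?_⟩
  rcases le_or_gt r t₂ with hle | hgt
  · refine (h r hr hle).trans ?_
    apply ENNReal.ofReal_le_ofReal
    have : 0 ≤ R * (16 / t₂ * Itot A Q) / t₂ := by positivity
    gcongr
    linarith
  · have h1 : ∀ x ∈ Dx β, Sx η β (EE Aᶜ) (fun ζ => ENNReal.ofReal (Qr η Q r ζ)) x ≤
        Sx η β (EE Aᶜ) (fun ζ => ENNReal.ofReal (Qr η Q t₂ ζ)) x + ENNReal.ofReal R * g x := by
      intro x hx
      have h2 : Sx η β (EE Aᶜ) (fun ζ => ENNReal.ofReal (Qr η Q r ζ)) x ≤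
          Sx η β (EE Aᶜ) (fun ζ => ENNReal.ofReal (Qr η Q t₂ ζ) +
            ENNReal.ofReal R * T.indicator (Qe A Q) ζ) x := by
        apply Sx_mono
        intro ζ hζ
        have hζ' := EE_subset A hζ
        have hQ0 := hQ.nonneg ζ hζ'
        by_cases hζT : ζ ∈ T
        · have hge : ¬ ‖ζ - η‖ < t₂ := by
            rwa [hT, mem_compl_iff, mem_ball, dist_eq_norm] at hζT
          rw [indicator_of_mem hζT, Qe, indicator_of_mem hζ', ← ENNReal.ofReal_mul hR0]
          refine le_trans ?_ le_add_self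
          apply ENNReal.ofReal_le_ofReal
          rw [Qr]
          split_ifs
          · have := hR hζ'
            rw [mem_closedBall, dist_eq_norm] at this
            gcongr
          · positivity
        · have hlt : ‖ζ - η‖ < t₂ := by
            rw [hT, notMem_compl_iff, mem_ball, dist_eq_norm] at hζT
            exact hζT
          refine le_trans ?_ le_self_add
          apply ENNReal.ofReal_le_ofReal
          rw [Qr, Qr, if_pos hlt, if_pos (hlt.trans hgt)]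
      refine h2.trans ?_
      have h3 : Sx η β (EE Aᶜ) (fun ζ => ENNReal.ofReal (Qr η Q t₂ ζ) +
            ENNReal.ofReal R * T.indicator (Qe A Q) ζ) x =
          Sx η β (EE Aᶜ) (fun ζ => ENNReal.ofReal (Qr η Q t₂ ζ)) x +
            ENNReal.ofReal R * Sx η β (EE Aᶜ) (T.indicator (Qe A Q)) x := by
        rw [← Sx_const_mul]
        exact ENNReal.tsum_add
      rw [h3]
      gcongr
      exact (Sx_indicator _ _ _ _ _ _).trans (hg2 x hx)
    calc NN η β (EE Aᶜ) (fun ζ => ENNReal.ofReal (Qr η Q r ζ)) ≤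
        ∫⁻ x in Dx β, (Sx η β (EE Aᶜ) (fun ζ => ENNReal.ofReal (Qr η Q t₂ ζ)) x +
          ENNReal.ofReal R * g x) := setLIntegral_mono' (measurableSet_Dx β) h1
      _ = NN η β (EE Aᶜ) (fun ζ => ENNReal.ofReal (Qr η Q t₂ ζ)) +
          ENNReal.ofReal R * ∫⁻ x in Dx β, g x := by
          rw [lintegral_add_right _ (hg1.const_mul _), lintegral_const_mul _ hg1]
          rfl
      _ ≤ ENNReal.ofReal (B * t₂) + ENNReal.ofReal R * ENNReal.ofReal (16 / t₂ * Itot A Q) := by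
          gcongr
          · exact h t₂ ht₂ le_rfl
          · refine (setLIntegral_le_lintegral _ _).trans (hg3.trans ?_)
            rw [ENNReal.ofReal_mul (by positivity), ← lintegral_Qe_eq hA hQ]
            gcongr
            exact inter_subset_left
      _ = ENNReal.ofReal (B * t₂ + R * (16 / t₂ * Itot A Q)) := by
          rw [← ENNReal.ofReal_mul hR0, ← ENNReal.ofReal_add (by positivity) (by positivity)]
      _ ≤ ENNReal.ofReal ((B + R * (16 / t₂ * Itot A Q) / t₂) * r) := by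
          apply ENNReal.ofReal_le_ofReal
          rw [add_mul]
          have h5 : B * t₂ ≤ B * r := by gcongr
          have h6 : R * (16 / t₂ * Itot A Q) ≤ R * (16 / t₂ * Itot A Q) / t₂ * r := by
            have hX : 0 ≤ R * (16 / t₂ * Itot A Q) := by positivity
            generalize R * (16 / t₂ * Itot A Q) = X at hX
            calc X = X / t₂ * t₂ := by field_simp
              _ ≤ X / t₂ * r := by gcongr
          linarith

/-- necessity for one component -/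
theorem necessity (hA : AdmissibleSet A) (hQ : AdmissibleWeight A η Q)
    (hS : AdmissibleApproach A η S) {K : (ℂ → ℂ) → ℂ → ℂ} (hK : IsExtension A η Q K) (β : Bool)
    (hlim : ∀ f : ℂ → ℝ, MemCQ A η Q (fun ζ => (f ζ : ℂ)) →
      ∃ L : ℝ, Tendsto (fun z => Tc β (K (fun ζ => (f ζ : ℂ)) z)) (𝓝[S] η) (𝓝 L)) :
    (∃ B₁ : ℝ, 0 ≤ B₁ ∧
      NN η β (EE Aᶜ) (fun ζ => ENNReal.ofReal (Q ζ)) ≤ ENNReal.ofReal B₁) ∧
    ∃ B₂ : ℝ, 0 ≤ B₂ ∧ ∀ r > (0 : ℝ),
      NN η (!β) (EE Aᶜ) (fun ζ => ENNReal.ofReal (Qr η Q r ζ)) ≤ ENNReal.ofReal (B₂ * r) := by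
  have hη := hQ.mem_frontier
  have hcl := mem_closure_of_approach hS
  have : (𝓝[S] η).NeBot := mem_closure_iff_nhdsWithin_neBot.1 hcl
  obtain ⟨t₁, ht₁, M, hM, hub⟩ := uniform_of_limits hA hQ hS hK β hlim
  obtain ⟨t₀, ht₀, C, hC, c₀, hc₀, hgeom⟩ := geom hS hη
  have hpi := Real.pi_pos
  -- the first condition
  have hfirst : NN η β (EE Aᶜ) (fun ζ => ENNReal.ofReal (Q ζ)) ≤
      ENNReal.ofReal (2 * Real.pi * M) := by
    apply dual hA.measurableSet.compl hA.isCompact_frontier ⟨η, hη⟩ (EE_subset A)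
      hQ.lowerSemicontinuousOn hQ.nonneg
    intro φ b1 b2 b3 hφQ
    have hφT : Test η φ := ⟨b1, b2, b3⟩
    rw [abs_RR_eq A hφT β]
    have hlim2 : Tendsto (fun z => cauchyInt A (fun ζ => (φ ζ : ℂ)) z) (𝓝 η)
        (𝓝 (cauchyInt A (fun ζ => (φ ζ : ℂ)) η)) := by
      apply tendsto_cauchyInt (CT.ofReal b1 b2)
      filter_upwards [(isClosed_tsupport φ).isOpen_compl.mem_nhds b3] with ζ hζ
      have h1 : fderiv ℝ φ ζ = 0 := by
        by_contra hne
        exact hζ (support_fderiv_subset ℝ hne)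
      rw [dbar_ofReal (b1.differentiable one_ne_zero ζ), h1]
      simp
    have h2 : Tendsto (fun z => |Tc β (cauchyInt A (fun ζ => (φ ζ : ℂ)) z)|) (𝓝[S] η)
        (𝓝 |Tc β (cauchyInt A (fun ζ => (φ ζ : ℂ)) η)|) :=
      (((continuous_Tc β).tendsto _).comp (hlim2.mono_left nhdsWithin_le_nhds)).abs
    have h3 : |Tc β (cauchyInt A (fun ζ => (φ ζ : ℂ)) η)| ≤ M := by
      refine le_of_tendsto h2 ?_
      have hball : ∀ᶠ z in 𝓝[S] η, ‖z - η‖ < t₁ := by
        apply eventually_nhdsWithin_of_eventually_nhds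
        filter_upwards [Metric.ball_mem_nhds η ht₁] with z hz
        rwa [mem_ball, dist_eq_norm] at hz
      filter_upwards [hball, self_mem_nhdsWithin] with z hz hzS
      exact hub z hzS hz φ hφT hφQ
    gcongr
  refine ⟨⟨2 * Real.pi * M, by positivity, hfirst⟩, ?_⟩
  -- the second condition
  obtain ⟨z₀, hz₀⟩ := hS.isConnected.nonempty
  have hz₀η : z₀ ≠ η := fun he => frontier_notMem_interior hη (he ▸ hS.subset_interior hz₀)
  have hs₀ : 0 < ‖z₀ - η‖ := norm_pos_iff.2 (sub_ne_zero.2 hz₀η)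
  set t₂ := min (‖z₀ - η‖) (min (t₀ / 2) (t₁ / 2)) with ht₂
  have ht₂0 : 0 < t₂ := lt_min hs₀ (lt_min (by positivity) (by positivity))
  apply sup_bound hA hQ (!β) ht₂0
    (B := (2 * Real.pi * M + C * (2 * Real.pi * M)) / c₀) (by positivity)
  intro t ht0 ht
  -- a point of `S` at distance `t`
  obtain ⟨z, hzS, hzt⟩ : ∃ z ∈ S, ‖z - η‖ = t := by
    have hpc : IsPreconnected ((fun z : ℂ => ‖z - η‖) '' S) :=
      hS.isConnected.isPreconnected.image _ (by fun_prop)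
    rw [isPreconnected_iff_ordConnected] at hpc
    obtain ⟨z₁, hz₁, hz₁S⟩ := mem_closure_iff_nhds.1 hcl (ball η t) (ball_mem_nhds η ht0)
    rw [mem_ball, dist_eq_norm] at hz₁
    have h5 := hpc.out ⟨z₁, hz₁S, rfl⟩ ⟨z₀, hz₀, rfl⟩
      (show t ∈ Icc ‖z₁ - η‖ ‖z₀ - η‖ from ⟨hz₁.le, ht.trans (min_le_left _ _)⟩)
    obtain ⟨z, hz, hzt⟩ := h5
    exact ⟨z, hz, hzt⟩
  have hlt0 : ‖z - η‖ < t₀ := by
    have := (min_le_right ‖z₀ - η‖ (min (t₀ / 2) (t₁ / 2))).trans (min_le_left _ _)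
    rw [hzt]
    linarith
  have hlt1 : ‖z - η‖ < t₁ := by
    have := (min_le_right ‖z₀ - η‖ (min (t₀ / 2) (t₁ / 2))).trans (min_le_right _ _)
    rw [hzt]
    linarith
  have h6 := nec_trunc hA hQ β (by positivity) hM hfirst (hS.subset_interior hzS) hC hc₀
    (hgeom z hzS hlt0) (hub z hzS hlt1)
  rw [hzt] at h6
  exact h6

end Pool.Agent.CauchyInt
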