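import Mathlib

/-!
# One-dimensional slices
-/

namespace Pool.Agent.CauchyInt

open MeasureTheory Set Filter Topology

/-- the support boundary of a set of reals -/
def suppBdry (B : Set ℝ) : Set ℝ :=
  {y | ∀ ε > 0, 0 < volume (B ∩ Ioo (y - ε) (y + ε)) ∧ 0 < volume (Bᶜ ∩ Ioo (y - ε) (y + ε))}

lemma suppBdry_compl (B : Set ℝ) : suppBdry Bᶜ = suppBdry B := by
  ext y
  simp only [suppBdry, mem_ofPred_eq, compl_compl]
  exact forall₂_congr fun ε _ => and_comm

/-- A set without support boundary in an interval is null or conull there. -/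
lemma const_of_disjoint (B : Set ℝ) {a b : ℝ} (h : ∀ y ∈ Ioo a b, y ∉ suppBdry B) :
    volume (B ∩ Ioo a b) = 0 ∨ volume (Bᶜ ∩ Ioo a b) = 0 := by
  set U : Set ℝ := {y | ∃ ε > 0, volume (B ∩ Ioo (y - ε) (y + ε)) = 0} with hU
  set V : Set ℝ := {y | ∃ ε > 0, volume (Bᶜ ∩ Ioo (y - ε) (y + ε)) = 0} with hV
  have hopen : ∀ C : Set ℝ, IsOpen {y : ℝ | ∃ ε > 0, volume (C ∩ Ioo (y - ε) (y + ε)) = 0} := by
    intro C
    rw [Metric.isOpen_iff]
    rintro y ⟨ε, hε, h0⟩
    refine ⟨ε / 2, by positivity, fun z hz => ⟨ε / 2, by positivity, ?_⟩⟩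
    rw [Metric.mem_ball, Real.dist_eq, abs_lt] at hz
    refine measure_mono_null (inter_subset_inter_right _ ?_) h0
    apply Ioo_subset_Ioo <;> linarith
  have hnull : ∀ C : Set ℝ, Ioo a b ⊆ {y : ℝ | ∃ ε > 0, volume (C ∩ Ioo (y - ε) (y + ε)) = 0} →
      volume (C ∩ Ioo a b) = 0 := by
    intro C hC
    apply measure_null_of_locally_null
    rintro y ⟨hyC, hy⟩
    obtain ⟨ε, hε, h0⟩ := hC hy
    refine ⟨C ∩ Ioo (y - ε) (y + ε), ?_, h0⟩
    rw [mem_nhdsWithin]
    refine ⟨Ioo (y - ε) (y + ε), isOpen_Ioo, ⟨by linarith, by linarith⟩, ?_⟩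
    rintro z ⟨hz1, hz2, _⟩
    exact ⟨hz2, hz1⟩
  have hcover : Ioo a b ⊆ U ∪ V := by
    intro y hy
    have := h y hy
    simp only [suppBdry, mem_ofPred_eq, not_forall, not_and_or, not_lt, nonpos_iff_eq_zero] at this
    obtain ⟨ε, hε, h1 | h1⟩ := this
    · exact Or.inl ⟨ε, hε, h1⟩
    · exact Or.inr ⟨ε, hε, h1⟩
  have hdisj : ∀ y, y ∈ U → y ∈ V → False := by
    rintro y ⟨ε, hε, h1⟩ ⟨δ, hδ, h2⟩
    set m := min ε δ with hm
    have hmpos : 0 < m := lt_min hε hδ
    have h3 : volume (Ioo (y - m) (y + m)) = 0 := by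
      have hsub : Ioo (y - m) (y + m) ⊆
          (B ∩ Ioo (y - ε) (y + ε)) ∪ (Bᶜ ∩ Ioo (y - δ) (y + δ)) := by
        intro z hz
        by_cases hzB : z ∈ B
        · left
          refine ⟨hzB, ?_, ?_⟩
          · linarith [hz.1, min_le_left ε δ]
          · linarith [hz.2, min_le_left ε δ]
        · right
          refine ⟨hzB, ?_, ?_⟩
          · linarith [hz.1, min_le_right ε δ]
          · linarith [hz.2, min_le_right ε δ]
      exact measure_mono_null hsub (measure_union_null h1 h2)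
    rw [Real.volume_Ioo, ENNReal.ofReal_eq_zero] at h3
    linarith
  have hconn : IsPreconnected (Ioo a b) := isPreconnected_Ioo
  rw [isPreconnected_iff_subset_of_disjoint] at hconn
  rcases hconn U V (hopen B) (hopen Bᶜ) hcover (by
    rw [eq_empty_iff_forall_notMem]
    rintro y ⟨_, hyU, hyV⟩
    exact hdisj y hyU hyV) with h1 | h1
  · exact Or.inl (hnull B h1)
  · exact Or.inr (hnull Bᶜ h1)

/-! ### Upper bound -/

/-- `B` has the constant value `e` to the right of `a` -/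
def RStat (B : Set ℝ) (a e : ℝ) : Prop :=
  (e = 1 ∧ ∃ δ > 0, volume (Bᶜ ∩ Ioo a (a + δ)) = 0) ∨
    (e = 0 ∧ ∃ δ > 0, volume (B ∩ Ioo a (a + δ)) = 0)

/-- `B` has the constant value `e` to the left of `b` -/
def LStat (B : Set ℝ) (b e : ℝ) : Prop :=
  (e = 1 ∧ ∃ δ > 0, volume (Bᶜ ∩ Ioo (b - δ) b) = 0) ∨
    (e = 0 ∧ ∃ δ > 0, volume (B ∩ Ioo (b - δ) b) = 0)

lemma upper_aux (B : Set ℝ) (hB : MeasurableSet B) (ψ : ℝ → ℂ) (hψ : ContDiff ℝ 1 ψ) :
    ∀ (N : ℕ) (F : Finset ℝ) (a b : ℝ), F.card ≤ N → a < b → (∀ y ∈ F, y ∈ Ioo a b) →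
      (∀ y ∈ Ioo a b, y ∈ suppBdry B → y ∈ F) →
      ∃ ea eb : ℝ, RStat B a ea ∧ LStat B b eb ∧
        ‖(∫ x in B ∩ Ioo a b, deriv ψ x) - (eb * ψ b - ea * ψ a)‖ ≤ ∑ y ∈ F, ‖ψ y‖ := by
  intro N
  induction N with
  | zero =>
    intro F a b hF hab _ hsupp
    have hF' : F = ∅ := by
      rw [← Finset.card_eq_zero]; omega
    subst hF'
    rcases const_of_disjoint B (a := a) (b := b) (fun y hy hs => by simpa using hsupp y hy hs)
      with h | h
    · refine ⟨0, 0, Or.inr ⟨rfl, b - a, by linarith, ?_⟩, Or.inr ⟨rfl, b - a, by linarith, ?_⟩, ?_⟩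
      · rwa [show a + (b - a) = b by ring]
      · rwa [show b - (b - a) = a by ring]
      · rw [Measure.restrict_eq_zero.2 h]
        simp
    · refine ⟨1, 1, Or.inl ⟨rfl, b - a, by linarith, ?_⟩, Or.inl ⟨rfl, b - a, by linarith, ?_⟩, ?_⟩
      · rwa [show a + (b - a) = b by ring]
      · rwa [show b - (b - a) = a by ring]
      · have h1 : ∫ x in B ∩ Ioo a b, deriv ψ x = ∫ x in Ioo a b, deriv ψ x := by
          apply setIntegral_congr_set
          have h2 : (Ioo a b \ B : Set ℝ) =ᵐ[volume] (∅ : Set ℝ) := by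
            rw [ae_eq_empty]
            refine measure_mono_null ?_ h
            rintro x ⟨hx1, hx2⟩
            exact ⟨hx2, hx1⟩
          rw [inter_comm]
          have h3 := (ae_eq_refl (Ioo a b) : (Ioo a b : Set ℝ) =ᵐ[volume] Ioo a b)
          rw [ae_eq_empty] at h2
          apply LE.le.eventuallyLE (inter_subset_left : Ioo a b ∩ B ≤ Ioo a b) |>.antisymm
          rw [ae_le_set]
          rwa [sdiff_self_inter]
        rw [h1, ← integral_Ioc_eq_integral_Ioo, ← intervalIntegral.integral_of_le hab.le,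
          intervalIntegral.integral_deriv_eq_sub]
        · simp
        · intro x _
          exact (hψ.differentiable (by norm_num)) x
        · exact (hψ.continuous_deriv (le_refl _)).intervalIntegrable _ _
  | succ N ih =>
    intro F a b hF hab hFin hsupp
    rcases F.eq_empty_or_nonempty with hE | ⟨y, hy⟩
    · exact ih F a b (by rw [hE]; simp) hab hFin hsupp
    have hyab := hFin y hy
    set F1 := F.filter (· < y) with hF1
    set F2 := F.filter (y < ·) with hF2
    have hcard : F1.card + F2.card + 1 ≤ F.card := by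
      have hdisj : Disjoint F1 F2 := by
        rw [Finset.disjoint_left]
        intro z hz1 hz2
        rw [hF1, Finset.mem_filter] at hz1
        rw [hF2, Finset.mem_filter] at hz2
        linarith [hz1.2, hz2.2]
      have hnot : y ∉ F1 ∪ F2 := by
        simp [hF1, hF2]
      rw [← Finset.card_union_of_disjoint hdisj, ← Finset.card_insert_of_notMem hnot]
      apply Finset.card_le_card
      intro z hz
      rcases Finset.mem_insert.1 hz with rfl | hz
      · exact hy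
      · rcases Finset.mem_union.1 hz with hz | hz
        · exact (Finset.mem_filter.1 hz).1
        · exact (Finset.mem_filter.1 hz).1
    obtain ⟨ea, ey, h1, h2, h3⟩ := ih F1 a y (by omega) hyab.1
      (fun z hz => ⟨(hFin z (Finset.mem_filter.1 hz).1).1, (Finset.mem_filter.1 hz).2⟩)
      (fun z hz hs => Finset.mem_filter.2 ⟨hsupp z ⟨hz.1, hz.2.trans hyab.2⟩ hs, hz.2⟩)
    obtain ⟨ey', eb, h4, h5, h6⟩ := ih F2 y b (by omega) hyab.2
      (fun z hz => ⟨(Finset.mem_filter.1 hz).2, (hFin z (Finset.mem_filter.1 hz).1).2⟩)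
      (fun z hz hs => Finset.mem_filter.2 ⟨hsupp z ⟨hyab.1.trans hz.1, hz.2⟩ hs, hz.1⟩)
    refine ⟨ea, eb, h1, h5, ?_⟩
    have hint : ∀ c d : ℝ, IntegrableOn (deriv ψ) (B ∩ Ioo c d) := by
      intro c d
      refine IntegrableOn.mono_set ?_ inter_subset_right
      refine IntegrableOn.mono_set ?_ Ioo_subset_Icc_self
      exact (hψ.continuous_deriv (le_refl _)).continuousOn.integrableOn_Icc
    have hsplit : ∫ x in B ∩ Ioo a b, deriv ψ x =
        (∫ x in B ∩ Ioo a y, deriv ψ x) + ∫ x in B ∩ Ioo y b, deriv ψ x := by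
      rw [← setIntegral_union _ (hB.inter measurableSet_Ioo) (hint _ _) (hint _ _)]
      · apply setIntegral_congr_set
        have hsub : (B ∩ Ioo a y) ∪ (B ∩ Ioo y b) ⊆ B ∩ Ioo a b := by
          rintro x (⟨hx1, hx2⟩ | ⟨hx1, hx2⟩)
          · exact ⟨hx1, hx2.1, hx2.2.trans hyab.2⟩
          · exact ⟨hx1, hyab.1.trans hx2.1, hx2.2⟩
        refine EventuallyLE.antisymm ?_ (LE.le.eventuallyLE hsub)
        rw [ae_le_set]
        refine measure_mono_null (t := {y}) ?_ (by simp)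
        rintro x ⟨⟨hx1, hx2⟩, hx3⟩
        by_contra hne
        apply hx3
        rcases lt_or_gt_of_ne hne with h | h
        · exact Or.inl ⟨hx1, hx2.1, h⟩
        · exact Or.inr ⟨hx1, h, hx2.2⟩
      · rw [Set.disjoint_left]
        rintro x ⟨_, hx1⟩ ⟨_, hx2⟩
        linarith [hx1.2, hx2.1]
    have hey : |ey - ey'| ≤ 1 := by
      rcases h2 with ⟨h2, _⟩ | ⟨h2, _⟩ <;> rcases h4 with ⟨h4, _⟩ | ⟨h4, _⟩ <;>
        rw [h2, h4] <;> norm_num
    have hsum : ∑ z ∈ F, ‖ψ z‖ = ∑ z ∈ F1, ‖ψ z‖ + ∑ z ∈ F2, ‖ψ z‖ + ‖ψ y‖ := by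
      have hnot : y ∉ F1 ∪ F2 := by simp [hF1, hF2]
      have hdisj : Disjoint F1 F2 := by
        rw [Finset.disjoint_left]
        intro z hz1 hz2
        rw [hF1, Finset.mem_filter] at hz1
        rw [hF2, Finset.mem_filter] at hz2
        linarith [hz1.2, hz2.2]
      have hFeq : F = insert y (F1 ∪ F2) := by
        ext z
        simp only [hF1, hF2, Finset.mem_insert, Finset.mem_union, Finset.mem_filter]
        constructor
        · intro hz
          rcases lt_trichotomy z y with h | h | h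
          · exact Or.inr (Or.inl ⟨hz, h⟩)
          · exact Or.inl h
          · exact Or.inr (Or.inr ⟨hz, h⟩)
        · rintro (h | h | h)
          · rw [h]; exact hy
          · exact h.1
          · exact h.1
      conv_lhs => rw [hFeq]
      rw [Finset.sum_insert hnot, Finset.sum_union hdisj]
      ring
    rw [hsum, hsplit]
    have heq : (∫ x in B ∩ Ioo a y, deriv ψ x) + (∫ x in B ∩ Ioo y b, deriv ψ x) -
        (eb * ψ b - ea * ψ a) =
        ((∫ x in B ∩ Ioo a y, deriv ψ x) - (ey * ψ y - ea * ψ a)) +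
        ((∫ x in B ∩ Ioo y b, deriv ψ x) - (eb * ψ b - ey' * ψ y)) + ((ey - ey' : ℝ) : ℂ) * ψ y := by
      push_cast
      ring
    rw [heq]
    refine (norm_add_le _ _).trans (add_le_add ((norm_add_le _ _).trans (add_le_add h3 h6)) ?_)
    rw [norm_mul, Complex.norm_real, Real.norm_eq_abs]
    calc |ey - ey'| * ‖ψ y‖ ≤ 1 * ‖ψ y‖ := by gcongr
      _ = ‖ψ y‖ := one_mul _

/-- The upper bound for compactly supported functions. -/
theorem upper_line (B : Set ℝ) (hB : MeasurableSet B) (ψ : ℝ → ℂ) (hψ : ContDiff ℝ 1 ψ)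
    (F : Finset ℝ) {a b : ℝ} (hab : a < b) (h0 : ∀ x, x ∉ Ioo a b → ψ x = 0)
    (hFin : ∀ y ∈ F, y ∈ Ioo a b) (hsupp : ∀ y ∈ Ioo a b, y ∈ suppBdry B → y ∈ F) :
    ‖∫ x in B, deriv ψ x‖ ≤ ∑ y ∈ F, ‖ψ y‖ := by
  obtain ⟨ea, eb, _, _, h⟩ := upper_aux B hB ψ hψ F.card F a b le_rfl hab hFin hsupp
  rw [h0 a (by simp), h0 b (by simp)] at h
  simp only [mul_zero, sub_zero] at h
  have heq : ∫ x in B, deriv ψ x = ∫ x in B ∩ Ioo a b, deriv ψ x := by
    have h1 : ∫ x in B, deriv ψ x = ∫ x in B ∩ Icc a b, deriv ψ x := by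
      apply setIntegral_eq_of_subset_of_forall_sdiff_eq_zero hB inter_subset_left
      rintro x ⟨hx, hx2⟩
      have hx3 : x ∉ Icc a b := fun h => hx2 ⟨hx, h⟩
      have hev : ψ =ᶠ[𝓝 x] fun _ => (0 : ℂ) := by
        filter_upwards [isClosed_Icc.isOpen_compl.mem_nhds hx3] with z hz
        exact h0 z fun hz' => hz (Ioo_subset_Icc_self hz')
      rw [hev.deriv_eq]
      simp
    rw [h1]
    apply setIntegral_congr_set
    refine EventuallyLE.antisymm ?_ (LE.le.eventuallyLE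
      (inter_subset_inter_right B Ioo_subset_Icc_self))
    rw [ae_le_set]
    refine measure_mono_null (t := {a, b}) ?_ (by
      exact (Set.toFinite _).measure_zero _)
    rintro x ⟨⟨hx1, hx2⟩, hx3⟩
    by_contra hne
    simp only [mem_insert_iff, mem_singleton_iff, not_or] at hne
    exact hx3 ⟨hx1, lt_of_le_of_ne hx2.1 (Ne.symm hne.1), lt_of_le_of_ne hx2.2 hne.2⟩
  rw [heq]
  exact h

lemma rstat_eq_zero {B : Set ℝ} {a e : ℝ} (h : RStat B a e) {ε : ℝ} (hε : 0 < ε)
    (h0 : volume (B ∩ Ioo a (a + ε)) = 0) : e = 0 := by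
  rcases h with ⟨_, δ, hδ, h1⟩ | ⟨h, _⟩
  · exfalso
    have hm : 0 < min ε δ := lt_min hε hδ
    have hsub : Ioo a (a + min ε δ) ⊆ (B ∩ Ioo a (a + ε)) ∪ (Bᶜ ∩ Ioo a (a + δ)) := by
      intro z hz
      by_cases hzB : z ∈ B
      · exact Or.inl ⟨hzB, hz.1, by linarith [hz.2, min_le_left ε δ]⟩
      · exact Or.inr ⟨hzB, hz.1, by linarith [hz.2, min_le_right ε δ]⟩
    have h2 := measure_mono_null hsub (measure_union_null h0 h1)
    rw [Real.volume_Ioo, ENNReal.ofReal_eq_zero] at h2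
    linarith
  · exact h

lemma rstat_eq_one {B : Set ℝ} {a e : ℝ} (h : RStat B a e) {ε : ℝ} (hε : 0 < ε)
    (h0 : volume (Bᶜ ∩ Ioo a (a + ε)) = 0) : e = 1 := by
  rcases h with ⟨h, _⟩ | ⟨_, δ, hδ, h1⟩
  · exact h
  · exfalso
    have hm : 0 < min ε δ := lt_min hε hδ
    have hsub : Ioo a (a + min ε δ) ⊆ (Bᶜ ∩ Ioo a (a + ε)) ∪ (B ∩ Ioo a (a + δ)) := by
      intro z hz
      by_cases hzB : z ∈ B
      · exact Or.inr ⟨hzB, hz.1, by linarith [hz.2, min_le_right ε δ]⟩
      · exact Or.inl ⟨hzB, hz.1, by linarith [hz.2, min_le_left ε δ]⟩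
    have h2 := measure_mono_null hsub (measure_union_null h0 h1)
    rw [Real.volume_Ioo, ENNReal.ofReal_eq_zero] at h2
    linarith

lemma lstat_eq_zero {B : Set ℝ} {b e : ℝ} (h : LStat B b e) {ε : ℝ} (hε : 0 < ε)
    (h0 : volume (B ∩ Ioo (b - ε) b) = 0) : e = 0 := by
  rcases h with ⟨_, δ, hδ, h1⟩ | ⟨h, _⟩
  · exfalso
    have hm : 0 < min ε δ := lt_min hε hδ
    have hsub : Ioo (b - min ε δ) b ⊆ (B ∩ Ioo (b - ε) b) ∪ (Bᶜ ∩ Ioo (b - δ) b) := by
      intro z hz
      by_cases hzB : z ∈ B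
      · exact Or.inl ⟨hzB, by linarith [hz.1, min_le_left ε δ], hz.2⟩
      · exact Or.inr ⟨hzB, by linarith [hz.1, min_le_right ε δ], hz.2⟩
    have h2 := measure_mono_null hsub (measure_union_null h0 h1)
    rw [Real.volume_Ioo, ENNReal.ofReal_eq_zero] at h2
    linarith
  · exact h

lemma lstat_eq_one {B : Set ℝ} {b e : ℝ} (h : LStat B b e) {ε : ℝ} (hε : 0 < ε)
    (h0 : volume (Bᶜ ∩ Ioo (b - ε) b) = 0) : e = 1 := by
  rcases h with ⟨h, _⟩ | ⟨_, δ, hδ, h1⟩
  · exact h
  · exfalso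
    have hm : 0 < min ε δ := lt_min hε hδ
    have hsub : Ioo (b - min ε δ) b ⊆ (Bᶜ ∩ Ioo (b - ε) b) ∪ (B ∩ Ioo (b - δ) b) := by
      intro z hz
      by_cases hzB : z ∈ B
      · exact Or.inr ⟨hzB, by linarith [hz.1, min_le_right ε δ], hz.2⟩
      · exact Or.inl ⟨hzB, by linarith [hz.1, min_le_left ε δ], hz.2⟩
    have h2 := measure_mono_null hsub (measure_union_null h0 h1)
    rw [Real.volume_Ioo, ENNReal.ofReal_eq_zero] at h2
    linarith

lemma volume_inter_shift (C : Set ℝ) {T : ℝ} (hT : ∀ x, x + T ∈ C ↔ x ∈ C) (a b : ℝ) :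
    volume (C ∩ Ioo (a + T) (b + T)) = volume (C ∩ Ioo a b) := by
  have h := measure_preimage_add_right volume T (C ∩ Ioo (a + T) (b + T))
  rw [← h]
  congr 1
  ext x
  simp only [mem_preimage, mem_inter_iff, mem_Ioo, hT, add_lt_add_iff_right]

lemma suppBdry_shift (B : Set ℝ) {T : ℝ} (hT : ∀ x, x + T ∈ B ↔ x ∈ B) (y : ℝ) :
    y + T ∈ suppBdry B ↔ y ∈ suppBdry B := by
  have h1 : ∀ ε : ℝ, volume (B ∩ Ioo (y + T - ε) (y + T + ε)) =
      volume (B ∩ Ioo (y - ε) (y + ε)) := by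
    intro ε
    rw [← volume_inter_shift B hT (y - ε) (y + ε)]
    congr 3 <;> ring
  have h2 : ∀ ε : ℝ, volume (Bᶜ ∩ Ioo (y + T - ε) (y + T + ε)) =
      volume (Bᶜ ∩ Ioo (y - ε) (y + ε)) := by
    intro ε
    rw [← volume_inter_shift Bᶜ (fun x => not_congr (hT x)) (y - ε) (y + ε)]
    congr 3 <;> ring
  simp only [suppBdry, mem_ofPred_eq, h1, h2]

/-- The upper bound for periodic functions. -/
theorem upper_periodic (B : Set ℝ) (hB : MeasurableSet B) (ψ : ℝ → ℂ) (hψ : ContDiff ℝ 1 ψ)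
    {a T : ℝ} (hTpos : 0 < T) (hT : ∀ x, x + T ∈ B ↔ x ∈ B) (hψT : ∀ x, ψ (x + T) = ψ x)
    (F : Finset ℝ) (hFin : ∀ y ∈ F, y ∈ Ico a (a + T))
    (hsupp : ∀ y ∈ Ico a (a + T), y ∈ suppBdry B → y ∈ F) :
    ‖∫ x in B ∩ Ioo a (a + T), deriv ψ x‖ ≤ ∑ y ∈ F, ‖ψ y‖ := by
  obtain ⟨a', ha', haF⟩ : ∃ a' ∈ Ioo a (a + T), a' ∉ F := by
    have hinf : (Ioo a (a + T)).Infinite := Ioo_infinite (by linarith)
    obtain ⟨x, hx, hxF⟩ := hinf.exists_notMem_finset F
    exact ⟨x, hx, hxF⟩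
  have hanot : a' ∉ suppBdry B := fun h => haF (hsupp a' ⟨ha'.1.le, ha'.2⟩ h)
  -- the new finite set
  set F1 := F.filter (a' < ·) with hF1
  set F2 := (F.filter (· < a')).image (· + T) with hF2
  have hdisj : Disjoint F1 F2 := by
    rw [Finset.disjoint_left]
    intro z hz1 hz2
    rw [hF1, Finset.mem_filter] at hz1
    rw [hF2, Finset.mem_image] at hz2
    obtain ⟨w, hw, rfl⟩ := hz2
    have := hFin _ hz1.1
    have := hFin w (Finset.mem_filter.1 hw).1
    linarith [this.1, (hFin _ hz1.1).2]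
  obtain ⟨ea, eb, h1, h2, h3⟩ := upper_aux B hB ψ hψ (F1 ∪ F2).card (F1 ∪ F2) a' (a' + T) le_rfl
    (by linarith) (by
      intro y hy
      rcases Finset.mem_union.1 hy with hy | hy
      · rw [hF1, Finset.mem_filter] at hy
        exact ⟨hy.2, by linarith [(hFin y hy.1).2, ha'.1]⟩
      · rw [hF2, Finset.mem_image] at hy
        obtain ⟨w, hw, rfl⟩ := hy
        rw [Finset.mem_filter] at hw
        exact ⟨by linarith [(hFin w hw.1).1, ha'.2], by linarith [hw.2]⟩) (by
      intro y hy hs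
      rw [Finset.mem_union]
      rcases lt_or_ge y (a + T) with h | h
      · left
        rw [hF1, Finset.mem_filter]
        exact ⟨hsupp y ⟨by linarith [hy.1, ha'.1], h⟩ hs, hy.1⟩
      · right
        rw [hF2, Finset.mem_image]
        refine ⟨y - T, ?_, by ring⟩
        rw [Finset.mem_filter]
        refine ⟨hsupp (y - T) ⟨by linarith, by linarith [hy.2, ha'.2]⟩ ?_, by linarith [hy.2]⟩
        rw [← suppBdry_shift B hT, sub_add_cancel]
        exact hs)
  -- the boundary terms cancel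
  have hee : ea = eb := by
    simp only [suppBdry, mem_ofPred_eq, not_forall, not_and_or, not_lt,
      nonpos_iff_eq_zero] at hanot
    obtain ⟨ε, hε, h0 | h0⟩ := hanot
    · have e1 : ea = 0 := rstat_eq_zero h1 hε (measure_mono_null
        (inter_subset_inter_right _ (Ioo_subset_Ioo (by linarith) le_rfl)) h0)
      have e2 : eb = 0 := by
        refine lstat_eq_zero h2 hε ?_
        rw [show a' + T - ε = (a' - ε) + T by ring, volume_inter_shift B hT]
        exact measure_mono_null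
          (inter_subset_inter_right _ (Ioo_subset_Ioo le_rfl (by linarith))) h0
      rw [e1, e2]
    · have e1 : ea = 1 := rstat_eq_one h1 hε (measure_mono_null
        (inter_subset_inter_right _ (Ioo_subset_Ioo (by linarith) le_rfl)) h0)
      have e2 : eb = 1 := by
        refine lstat_eq_one h2 hε ?_
        rw [show a' + T - ε = (a' - ε) + T by ring,
          volume_inter_shift Bᶜ (fun x => not_congr (hT x))]
        exact measure_mono_null
          (inter_subset_inter_right _ (Ioo_subset_Ioo le_rfl (by linarith))) h0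
      rw [e1, e2]
  rw [hee, hψT, sub_self, sub_zero] at h3
  have hper : Function.Periodic (B.indicator (deriv ψ)) T := by
    intro x
    by_cases hx : x ∈ B
    · rw [indicator_of_mem hx, indicator_of_mem ((hT x).2 hx)]
      have : (fun x => ψ (x + T)) = ψ := funext hψT
      rw [← deriv_comp_add_const, this]
    · rw [indicator_of_notMem hx, indicator_of_notMem fun h => hx ((hT x).1 h)]
  have hint : ∀ c : ℝ, ∫ x in B ∩ Ioo c (c + T), deriv ψ x =
      ∫ x in c..(c + T), B.indicator (deriv ψ) x := by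
    intro c
    rw [intervalIntegral.integral_of_le (by linarith), integral_Ioc_eq_integral_Ioo,
      setIntegral_indicator hB, inter_comm]
  rw [hint a, hper.intervalIntegral_add_eq a a', ← hint a']
  refine h3.trans ?_
  rw [Finset.sum_union hdisj, hF2, Finset.sum_image (by
    intro x _ y _ hxy
    simpa using hxy)]
  have hFeq : ∑ y ∈ F, ‖ψ y‖ = ∑ y ∈ F1, ‖ψ y‖ + ∑ y ∈ F.filter (· < a'), ‖ψ y‖ := by
    rw [hF1, ← Finset.sum_filter_add_sum_filter_not F (a' < ·)]
    congr 1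
    apply Finset.sum_congr _ fun _ _ => rfl
    apply Finset.filter_congr
    intro z hz
    rw [not_lt]
    constructor
    · intro h
      exact lt_of_le_of_ne h fun h' => haF (h' ▸ hz)
    · exact le_of_lt
  rw [hFeq]
  apply le_of_eq
  congr 1
  exact Finset.sum_congr rfl fun y _ => by rw [hψT]

end Pool.Agent.CauchyInt
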