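import Pool.Agent.CauchyInt.OneDim

/-!
# One-dimensional slices: lower bound
-/

namespace Pool.Agent.CauchyInt

open MeasureTheory Set Filter Topology

/-- the points where `B` changes under a shift by `h` -/
def chg (B : Set ℝ) (h : ℝ) : Set ℝ := {y | ¬ (y ∈ B ↔ y + h ∈ B)}

lemma chg_compl (B : Set ℝ) (h : ℝ) : chg Bᶜ h = chg B h := by
  ext y
  simp only [chg, mem_ofPred_eq, mem_compl_iff]
  tauto

lemma measurableSet_chg {B : Set ℝ} (hB : MeasurableSet B) (h : ℝ) : MeasurableSet (chg B h) := by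
  have h1 : MeasurableSet {y : ℝ | y + h ∈ B} := hB.preimage (measurable_id.add_const h)
  have : chg B h = (B \ {y : ℝ | y + h ∈ B}) ∪ ({y : ℝ | y + h ∈ B} \ B) := by
    ext y
    simp only [chg, mem_ofPred_eq, mem_union, Set.mem_sdiff]
    tauto
  rw [this]
  exact (hB.diff h1).union (h1.diff hB)

lemma shift_le (C : Set ℝ) (hC : MeasurableSet C) {p q h : ℝ} (hpq : p ≤ q) (hh : 0 ≤ h) :
    volume (C ∩ Ioc p (p + h)) ≤ volume (C ∩ Ioc q (q + h)) + volume (Ioc p q ∩ chg C h) := by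
  have hfin : ∀ a b : ℝ, volume (C ∩ Ioc a b) ≠ ⊤ := fun a b =>
    ((measure_mono inter_subset_right).trans_lt measure_Ioc_lt_top).ne
  have hsplit : ∀ a b c : ℝ, a ≤ b → b ≤ c →
      volume (C ∩ Ioc a c) = volume (C ∩ Ioc a b) + volume (C ∩ Ioc b c) := by
    intro a b c hab hbc
    rw [← measure_union _ (hC.inter measurableSet_Ioc), ← inter_union_distrib_left,
      Ioc_union_Ioc_eq_Ioc hab hbc]
    rw [Set.disjoint_left]
    rintro x ⟨_, hx1⟩ ⟨_, hx2⟩
    linarith [hx1.2, hx2.1]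
  have h1 := hsplit p (p + h) (q + h) (by linarith) (by linarith)
  have h2 := hsplit p q (q + h) hpq (by linarith)
  have h3 : volume (C ∩ Ioc p q) ≤ volume (C ∩ Ioc (p + h) (q + h)) +
      volume (Ioc p q ∩ chg C h) := by
    have hpre : volume (C ∩ Ioc (p + h) (q + h)) = volume {x : ℝ | x ∈ Ioc p q ∧ x + h ∈ C} := by
      rw [← measure_preimage_add_right volume h (C ∩ Ioc (p + h) (q + h))]
      congr 1
      ext x
      simp only [mem_preimage, mem_inter_iff, mem_Ioc, mem_ofPred_eq, add_lt_add_iff_right,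
        add_le_add_iff_right]
      tauto
    rw [hpre]
    refine (measure_mono ?_).trans (measure_union_le _ _)
    rintro x ⟨hx1, hx2⟩
    by_cases hx : x + h ∈ C
    · exact Or.inl ⟨hx2, hx⟩
    · refine Or.inr ⟨hx2, ?_⟩
      simp only [chg, mem_ofPred_eq]
      tauto
  have h4 : volume (C ∩ Ioc (p + h) (q + h)) + volume (C ∩ Ioc p (p + h)) ≤
      volume (C ∩ Ioc (p + h) (q + h)) +
        (volume (C ∩ Ioc q (q + h)) + volume (Ioc p q ∩ chg C h)) := by
    rw [add_comm, ← h1, h2]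
    calc volume (C ∩ Ioc p q) + volume (C ∩ Ioc q (q + h))
        ≤ (volume (C ∩ Ioc (p + h) (q + h)) + volume (Ioc p q ∩ chg C h)) +
            volume (C ∩ Ioc q (q + h)) := by gcongr
      _ = _ := by ring
  exact (ENNReal.add_le_add_iff_left (hfin _ _)).1 h4

/-- right density one -/
def RDens (C : Set ℝ) (x : ℝ) : Prop :=
  Tendsto (fun h : ℝ => volume (C ∩ Ioc x (x + h)) / ENNReal.ofReal h) (𝓝[>] 0) (𝓝 1)

lemma ae_rdens (C : Set ℝ) : ∀ᵐ x ∂volume.restrict C, RDens C x := by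
  filter_upwards [IsUnifLocDoublingMeasure.ae_tendsto_measure_inter_div (volume : Measure ℝ) C 1]
    with x hx
  have h1 := hx (ι := ℝ) (l := 𝓝[>] (0 : ℝ)) (fun h => x + h / 2) (fun h => h / 2) (by
    refine tendsto_nhdsWithin_iff.2 ⟨?_, ?_⟩
    · have : Tendsto (fun h : ℝ => h / 2) (𝓝 0) (𝓝 (0 / 2)) := tendsto_id.div_const 2
      rw [zero_div] at this
      exact this.mono_left nhdsWithin_le_nhds
    · filter_upwards [self_mem_nhdsWithin] with h hh
      have : (0 : ℝ) < h := hh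
      show (0 : ℝ) < h / 2
      positivity) (by
    filter_upwards [self_mem_nhdsWithin] with h hh
    rw [Metric.mem_closedBall, Real.dist_eq, one_mul, abs_le]
    have : (0 : ℝ) < h := hh
    constructor <;> linarith)
  refine h1.congr' ?_
  filter_upwards [self_mem_nhdsWithin] with h hh
  have hpos : (0 : ℝ) < h := hh
  rw [Real.volume_closedBall, mul_div_cancel₀ h (two_ne_zero)]
  congr 1
  have h2 : Metric.closedBall (x + h / 2) (h / 2) = Icc x (x + h) := by
    rw [Real.closedBall_eq_Icc]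
    congr 1 <;> ring
  rw [h2]
  apply measure_congr
  refine (ae_eq_refl C).inter ?_
  exact Ioc_ae_eq_Icc.symm

lemma core_lower (C : Set ℝ) (hC : MeasurableSet C) {p q : ℝ} (hpq : p ≤ q) (h1 : RDens C p)
    (h2 : RDens Cᶜ q) (κ : ℝ) (hκ : κ < 1) (hκ0 : 0 < κ) :
    ∀ᶠ h in 𝓝[>] (0 : ℝ), ENNReal.ofReal (κ * h) ≤ volume (Ioc p q ∩ chg C h) := by
  set δ : ℝ := (1 - κ) / 2 with hδ
  have hδ0 : 0 < δ := by rw [hδ]; linarith
  have hlt : ENNReal.ofReal (1 - δ) < 1 := by
    rw [ENNReal.ofReal_lt_one]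
    linarith
  have e1 := h1.eventually (eventually_gt_nhds hlt)
  have e2 := h2.eventually (eventually_gt_nhds hlt)
  filter_upwards [e1, e2, self_mem_nhdsWithin] with h a1 a2 a3
  have hpos : (0 : ℝ) < h := a3
  have hh0 : ENNReal.ofReal h ≠ 0 := by
    rw [Ne, ENNReal.ofReal_eq_zero]; linarith
  have b1 : ENNReal.ofReal ((1 - δ) * h) ≤ volume (C ∩ Ioc p (p + h)) := by
    rw [ENNReal.ofReal_mul (by linarith)]
    exact (ENNReal.le_div_iff_mul_le (Or.inl hh0) (Or.inl ENNReal.ofReal_ne_top)).1 a1.le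
  have b2 : ENNReal.ofReal ((1 - δ) * h) ≤ volume (Cᶜ ∩ Ioc q (q + h)) := by
    rw [ENNReal.ofReal_mul (by linarith)]
    exact (ENNReal.le_div_iff_mul_le (Or.inl hh0) (Or.inl ENNReal.ofReal_ne_top)).1 a2.le
  have b3 : volume (C ∩ Ioc q (q + h)) + volume (Cᶜ ∩ Ioc q (q + h)) = ENNReal.ofReal h := by
    rw [← measure_union _ (hC.compl.inter measurableSet_Ioc)]
    · rw [← union_inter_distrib_right, union_compl_self, univ_inter, Real.volume_Ioc]
      congr 1; ring
    · rw [Set.disjoint_left]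
      rintro x ⟨hx1, _⟩ ⟨hx2, _⟩
      exact hx2 hx1
  have b4 : volume (C ∩ Ioc q (q + h)) ≤ ENNReal.ofReal (δ * h) := by
    have c1 : volume (C ∩ Ioc q (q + h)) + ENNReal.ofReal ((1 - δ) * h) ≤
        ENNReal.ofReal (δ * h) + ENNReal.ofReal ((1 - δ) * h) := by
      rw [← ENNReal.ofReal_add (by positivity) (mul_nonneg (by linarith) hpos.le)]
      have : δ * h + (1 - δ) * h = h := by ring
      rw [this, ← b3]
      gcongr
    exact (ENNReal.add_le_add_iff_right ENNReal.ofReal_ne_top).1 c1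
  have b5 := shift_le C hC hpq hpos.le
  have b6 : ENNReal.ofReal (δ * h) + ENNReal.ofReal (κ * h) ≤
      ENNReal.ofReal (δ * h) + volume (Ioc p q ∩ chg C h) := by
    rw [← ENNReal.ofReal_add (by positivity) (by positivity)]
    have : δ * h + κ * h = (1 - δ) * h := by rw [hδ]; ring
    rw [this]
    refine b1.trans (b5.trans ?_)
    gcongr
  exact (ENNReal.add_le_add_iff_left ENNReal.ofReal_ne_top).1 b6

lemma exists_rdens {C : Set ℝ} {a b : ℝ} (hC : MeasurableSet C) (h : 0 < volume (C ∩ Ioo a b)) :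
    ∃ x ∈ Ioo a b, RDens C x := by
  by_contra hc
  push Not at hc
  have h1 := ae_rdens C
  rw [ae_restrict_iff' hC] at h1
  have h2 : volume (C ∩ Ioo a b) = 0 := by
    refine measure_mono_null ?_ (ae_iff.1 h1)
    rintro x ⟨hx1, hx2⟩
    simp only [mem_ofPred_eq, not_forall]
    exact ⟨hx1, hc x hx2⟩
  exact absurd h2 h.ne'

lemma lower_local (B : Set ℝ) (hB : MeasurableSet B) {y c d : ℝ} (hy : y ∈ suppBdry B)
    (hc : c < y) (hd : y < d) (κ : ℝ) (hκ : κ < 1) (hκ0 : 0 < κ) :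
    ∀ᶠ h in 𝓝[>] (0 : ℝ), ENNReal.ofReal (κ * h) ≤ volume (Ioo c d ∩ chg B h) := by
  set ε := min (y - c) (d - y) with hε
  have hεpos : 0 < ε := lt_min (by linarith) (by linarith)
  obtain ⟨h1, h2⟩ := hy ε hεpos
  obtain ⟨p, hp, hpd⟩ := exists_rdens hB h1
  obtain ⟨q, hq, hqd⟩ := exists_rdens hB.compl h2
  have hsub : ∀ u ∈ Ioo (y - ε) (y + ε), ∀ v ∈ Ioo (y - ε) (y + ε), Ioc u v ⊆ Ioo c d := by
    intro u hu v hv x hx
    have e1 : ε ≤ y - c := min_le_left _ _
    have e2 : ε ≤ d - y := min_le_right _ _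
    exact ⟨by linarith [hu.1, hx.1], by linarith [hv.2, hx.2]⟩
  rcases le_total p q with hpq | hpq
  · filter_upwards [core_lower B hB hpq hpd hqd κ hκ hκ0] with h hh
    exact hh.trans (measure_mono (inter_subset_inter_left _ (hsub p hp q hq)))
  · filter_upwards [core_lower Bᶜ hB.compl hpq hqd (by rwa [compl_compl]) κ hκ hκ0] with h hh
    rw [chg_compl] at hh
    exact hh.trans (measure_mono (inter_subset_inter_left _ (hsub q hq p hp)))

theorem lower_sum (B : Set ℝ) (hB : MeasurableSet B) (ψ : ℝ → ℝ) (hψ : Continuous ψ)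
    (hψ0 : ∀ x, 0 ≤ ψ x) {c d : ℝ} (T : Finset ℝ) (hT : ∀ y ∈ T, y ∈ suppBdry B)
    (hTcd : ∀ y ∈ T, y ∈ Ioo c d) {ε : ℝ} (hε : 0 < ε) :
    ∀ᶠ h in 𝓝[>] (0 : ℝ), ENNReal.ofReal ((∑ y ∈ T, ψ y) - ε) ≤
      (ENNReal.ofReal h)⁻¹ * ∫⁻ x in Ioo c d ∩ chg B h, ENNReal.ofReal (ψ x) := by
  set S : ℝ := ∑ y ∈ T, ψ y with hS
  have hS0 : 0 ≤ S := Finset.sum_nonneg fun y _ => hψ0 y
  set ε' : ℝ := ε / (2 * (T.card + 1)) with hε'
  have hε'0 : 0 < ε' := by positivity
  set κ : ℝ := 1 - min (1 / 2) (ε / (2 * (S + 1))) with hκ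
  have hmin0 : 0 < min (1 / 2) (ε / (2 * (S + 1))) := lt_min (by norm_num) (by positivity)
  have hκ1 : κ < 1 := by rw [hκ]; linarith
  have hκ0 : 0 < κ := by
    have := min_le_left (1 / 2) (ε / (2 * (S + 1)))
    rw [hκ]; linarith
  -- disjoint intervals
  obtain ⟨r, hr0, hr1, hr2, hr3⟩ : ∃ r > 0, (∀ y ∈ T, Ioo (y - r) (y + r) ⊆ Ioo c d) ∧
      (∀ y ∈ T, ∀ x ∈ Ioo (y - r) (y + r), ψ y - ε' ≤ ψ x) ∧
      (∀ y ∈ T, ∀ z ∈ T, y ≠ z → Disjoint (Ioo (y - r) (y + r)) (Ioo (z - r) (z + r))) := by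
    have h1 : ∀ᶠ r in 𝓝[>] (0 : ℝ), ∀ y ∈ T, Ioo (y - r) (y + r) ⊆ Ioo c d := by
      rw [Finset.eventually_all]
      intro y hy
      have hy' := hTcd y hy
      have : ∀ᶠ r in 𝓝[>] (0 : ℝ), r < min (y - c) (d - y) :=
        eventually_nhdsWithin_of_eventually_nhds
          (eventually_lt_nhds (lt_min (by linarith [hy'.1]) (by linarith [hy'.2])))
      filter_upwards [this] with r hr
      have e1 : r < y - c := hr.trans_le (min_le_left _ _)
      have e2 : r < d - y := hr.trans_le (min_le_right _ _)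
      exact Ioo_subset_Ioo (by linarith) (by linarith)
    have h2 : ∀ᶠ r in 𝓝[>] (0 : ℝ), ∀ y ∈ T, ∀ x ∈ Ioo (y - r) (y + r), ψ y - ε' ≤ ψ x := by
      rw [Finset.eventually_all]
      intro y _
      obtain ⟨ρ, hρ, hρ2⟩ := Metric.continuousAt_iff.1 (hψ.continuousAt (x := y)) ε' hε'0
      have : ∀ᶠ r in 𝓝[>] (0 : ℝ), r < ρ :=
        eventually_nhdsWithin_of_eventually_nhds (eventually_lt_nhds hρ)
      filter_upwards [this] with r hr x hx
      have h3 := @hρ2 x (by
        rw [Real.dist_eq, abs_lt]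
        constructor <;> linarith [hx.1, hx.2])
      rw [Real.dist_eq, abs_lt] at h3
      linarith [h3.1]
    have h3 : ∀ᶠ r in 𝓝[>] (0 : ℝ), ∀ y ∈ T, ∀ z ∈ T, y ≠ z →
        Disjoint (Ioo (y - r) (y + r)) (Ioo (z - r) (z + r)) := by
      rw [Finset.eventually_all]
      intro y _
      rw [Finset.eventually_all]
      intro z _
      by_cases hyz : y = z
      · filter_upwards with r h
        exact absurd hyz h
      · have hpos : 0 < |y - z| / 2 := by
          have : 0 < |y - z| := abs_pos.2 (sub_ne_zero.2 hyz)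
          positivity
        have : ∀ᶠ r in 𝓝[>] (0 : ℝ), r < |y - z| / 2 :=
          eventually_nhdsWithin_of_eventually_nhds (eventually_lt_nhds hpos)
        filter_upwards [this] with r hr _
        rw [Set.disjoint_left]
        rintro x hx1 hx2
        have : |y - z| < 2 * r := by
          rw [abs_lt]
          constructor <;> linarith [hx1.1, hx1.2, hx2.1, hx2.2]
        linarith
    have h4 : ∀ᶠ r in 𝓝[>] (0 : ℝ), 0 < r := self_mem_nhdsWithin
    obtain ⟨r, a1, a2, a3, a4⟩ := (h1.and (h2.and (h3.and h4))).exists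
    exact ⟨r, a4, a1, a2, a3⟩
  have hloc : ∀ᶠ h in 𝓝[>] (0 : ℝ), ∀ y ∈ T,
      ENNReal.ofReal (κ * h) ≤ volume (Ioo (y - r) (y + r) ∩ chg B h) := by
    rw [Finset.eventually_all]
    intro y hy
    exact lower_local B hB (hT y hy) (by linarith) (by linarith) κ hκ1 hκ0
  filter_upwards [hloc, self_mem_nhdsWithin] with h hh hpos'
  have hpos : (0 : ℝ) < h := hpos'
  have hh0 : ENNReal.ofReal h ≠ 0 := by
    rw [Ne, ENNReal.ofReal_eq_zero]; linarith
  have hmeas := measurableSet_chg hB h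
  have hint : ∑ y ∈ T, ENNReal.ofReal (ψ y - ε') * ENNReal.ofReal (κ * h) ≤
      ∫⁻ x in Ioo c d ∩ chg B h, ENNReal.ofReal (ψ x) := by
    calc ∑ y ∈ T, ENNReal.ofReal (ψ y - ε') * ENNReal.ofReal (κ * h)
        ≤ ∑ y ∈ T, ∫⁻ x in Ioo (y - r) (y + r) ∩ chg B h, ENNReal.ofReal (ψ x) := by
          refine Finset.sum_le_sum fun y hy => ?_
          calc ENNReal.ofReal (ψ y - ε') * ENNReal.ofReal (κ * h)
              ≤ ENNReal.ofReal (ψ y - ε') * volume (Ioo (y - r) (y + r) ∩ chg B h) := by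
                gcongr
                exact hh y hy
            _ = ∫⁻ _x in Ioo (y - r) (y + r) ∩ chg B h, ENNReal.ofReal (ψ y - ε') := by
                rw [setLIntegral_const]
            _ ≤ _ := by
                apply setLIntegral_mono_ae' (measurableSet_Ioo.inter hmeas)
                filter_upwards with x hx
                exact ENNReal.ofReal_le_ofReal (hr2 y hy x hx.1)
      _ = ∫⁻ x in ⋃ y ∈ T, (Ioo (y - r) (y + r) ∩ chg B h), ENNReal.ofReal (ψ x) := by
          rw [lintegral_biUnion_finset]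
          · intro y hy z hz hyz
            exact (hr3 y hy z hz hyz).mono inter_subset_left inter_subset_left
          · intro y _
            exact measurableSet_Ioo.inter hmeas
      _ ≤ ∫⁻ x in Ioo c d ∩ chg B h, ENNReal.ofReal (ψ x) := by
          apply lintegral_mono_set
          intro x hx
          simp only [mem_iUnion] at hx
          obtain ⟨y, hy, hx1, hx2⟩ := hx
          exact ⟨hr1 y hy hx1, hx2⟩
  have hfin : ENNReal.ofReal (S - ε) ≤ (ENNReal.ofReal h)⁻¹ *
      ∑ y ∈ T, ENNReal.ofReal (ψ y - ε') * ENNReal.ofReal (κ * h) := by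
    rw [Finset.mul_sum]
    have h1 : ∀ y ∈ T, ENNReal.ofReal ((ψ y - ε') * κ) ≤
        (ENNReal.ofReal h)⁻¹ * (ENNReal.ofReal (ψ y - ε') * ENNReal.ofReal (κ * h)) := by
      intro y _
      rw [ENNReal.ofReal_mul hκ0.le, ENNReal.ofReal_mul' hκ0.le]
      apply le_of_eq
      calc ENNReal.ofReal (ψ y - ε') * ENNReal.ofReal κ
          = (ENNReal.ofReal (ψ y - ε') * ENNReal.ofReal κ) *
              ((ENNReal.ofReal h)⁻¹ * ENNReal.ofReal h) := by
            rw [ENNReal.inv_mul_cancel hh0 ENNReal.ofReal_ne_top, mul_one]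
        _ = _ := by ring
    refine le_trans ?_ (Finset.sum_le_sum h1)
    have h2 : S - ε ≤ ∑ y ∈ T, (ψ y - ε') * κ := by
      rw [← Finset.sum_mul, Finset.sum_sub_distrib, Finset.sum_const, nsmul_eq_mul, ← hS]
      have h3 : (T.card : ℝ) * ε' ≤ ε / 2 := by
        rw [hε']
        have : (0 : ℝ) ≤ T.card := by positivity
        rw [← mul_div_assoc, div_le_div_iff₀ (by positivity) (by norm_num)]
        nlinarith
      have h4 : (1 - κ) * S ≤ ε / 2 := by
        have h5 : 1 - κ ≤ ε / (2 * (S + 1)) := by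
          rw [hκ]
          have := min_le_right (1 / 2) (ε / (2 * (S + 1)))
          linarith
        calc (1 - κ) * S ≤ ε / (2 * (S + 1)) * S := by gcongr
          _ ≤ ε / 2 := by
            rw [div_mul_eq_mul_div, div_le_div_iff₀ (by positivity) (by norm_num)]
            nlinarith
      have h6 : 0 ≤ (T.card : ℝ) * ε' := by positivity
      nlinarith
    refine (ENNReal.ofReal_le_ofReal h2).trans ?_
    exact Finset.le_sum_of_subadditive ENNReal.ofReal ENNReal.ofReal_zero.le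
      (fun _ _ => ENNReal.ofReal_add_le) _ _
  refine hfin.trans ?_
  gcongr

end Pool.Agent.CauchyInt
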