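import Pool.Agent.CauchyInt.Eilenberg

/-!
# Change of variables to logarithmic polar coordinates
-/

namespace Pool.Agent.CauchyInt

open MeasureTheory Set Filter Topology Metric NNReal ENNReal

/-- the range of the parameter -/
def Dx : Bool → Set ℝ
  | true => Ioo 0 (2 * Real.pi)
  | false => univ

/-- the range of the slice variable -/
def Dy : Bool → Set ℝ
  | true => univ
  | false => Ico 0 (2 * Real.pi)

/-- the range of the slice variable, open version -/
def Dyo : Bool → Set ℝ
  | true => univ
  | false => Ioo 0 (2 * Real.pi)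

/-- the open strip -/
def strip : Set ℂ := {ω | 0 < ω.im ∧ ω.im < 2 * Real.pi}

lemma measurableSet_Dx (β : Bool) : MeasurableSet (Dx β) := by
  cases β
  · exact MeasurableSet.univ
  · exact measurableSet_Ioo

lemma measurableSet_Dyo (β : Bool) : MeasurableSet (Dyo β) := by
  cases β
  · exact measurableSet_Ioo
  · exact MeasurableSet.univ

lemma measurableSet_strip : MeasurableSet strip := by
  apply MeasurableSet.inter
  · exact measurableSet_lt measurable_const Complex.measurable_im
  · exact measurableSet_lt Complex.measurable_im measurable_const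

lemma ell_preimage_strip (β : Bool) : ell β ⁻¹' strip = Dx β ×ˢ Dyo β := by
  ext ⟨x, y⟩
  cases β
  · simp [strip, Dx, Dyo, ell_apply, dir, dir']
  · simp [strip, Dx, Dyo, ell_apply, dir, dir']

lemma injOn_exp_strip (c : ℂ) : InjOn (fun ω : ℂ => c + Complex.exp ω) strip := by
  intro a ha b hb hab
  have h1 : Complex.exp a = Complex.exp b := by simpa using hab
  have key : ∀ z : ℂ, Complex.exp (z - Real.pi * Complex.I) = - Complex.exp z := by
    intro z
    rw [Complex.exp_sub, Complex.exp_pi_mul_I, div_neg, div_one]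
  have h2 : a - Real.pi * Complex.I = b - Real.pi * Complex.I := by
    apply Complex.exp_inj_of_neg_pi_lt_of_le_pi
    · simp; exact ha.1
    · simp; linarith [ha.2]
    · simp; exact hb.1
    · simp; linarith [hb.2]
    · rw [key, key, h1]
  simpa using h2

lemma compl_image_strip (c : ℂ) :
    (((fun ω : ℂ => c + Complex.exp ω) '' strip)ᶜ : Set ℂ) =ᵐ[volume] (∅ : Set ℂ) := by
  rw [ae_eq_empty]
  refine measure_mono_null (t := {ζ : ℂ | ζ.im = c.im}) ?_ ?_
  · intro ζ hζ
    by_contra hne
    apply hζ
    have hne' : (c - ζ).im ≠ 0 := by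
      rw [Complex.sub_im, sub_ne_zero]
      exact fun h => hne h.symm
    have h0 : c - ζ ≠ 0 := fun h => hne' (by rw [h]; simp)
    refine ⟨Complex.log (c - ζ) + Real.pi * Complex.I, ?_, ?_⟩
    · constructor
      · have := Complex.neg_pi_lt_log_im (c - ζ)
        simp only [Complex.add_im, Complex.mul_im, Complex.ofReal_re, Complex.I_im, mul_one,
          Complex.ofReal_im, Complex.I_re, mul_zero, add_zero]
        linarith
      · have h1 := Complex.log_im_le_pi (c - ζ)
        have h2 : (Complex.log (c - ζ)).im ≠ Real.pi := by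
          rw [Complex.log_im]
          intro h
          rw [Complex.arg_eq_pi_iff] at h
          exact hne' h.2
        have h3 := lt_of_le_of_ne h1 h2
        simp only [Complex.add_im, Complex.mul_im, Complex.ofReal_re, Complex.I_im, mul_one,
          Complex.ofReal_im, Complex.I_re, mul_zero, add_zero]
        linarith
    · simp only
      rw [Complex.exp_add, Complex.exp_log h0, Complex.exp_pi_mul_I]
      ring
  · have h1 : {ζ : ℂ | ζ.im = c.im} =
        Complex.measurableEquivRealProd ⁻¹' (univ ×ˢ {c.im}) := by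
      ext ζ
      simp [Complex.measurableEquivRealProd]
    rw [h1, Complex.volume_preserving_equiv_real_prod.measure_preimage_equiv,
      Measure.volume_eq_prod, Measure.prod_prod]
    simp

/-- multiplication by `a` as a real linear map -/
noncomputable def mulL (a : ℂ) : ℂ →L[ℝ] ℂ :=
  (ContinuousLinearMap.toSpanSingleton ℂ a).restrictScalars ℝ

lemma mulL_apply (a v : ℂ) : mulL a v = v * a := by
  simp [mulL]

lemma det_mulL (a : ℂ) : (mulL a).det = ‖a‖ ^ 2 := by
  have h1 : ((mulL a : ℂ →L[ℝ] ℂ) : ℂ →ₗ[ℝ] ℂ) = Algebra.lmul ℝ ℂ a := by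
    ext v
    simp [mulL_apply, mul_comm]
  show LinearMap.det ((mulL a : ℂ →L[ℝ] ℂ) : ℂ →ₗ[ℝ] ℂ) = _
  rw [h1, ← Algebra.norm_apply, Algebra.norm_complex_eq]
  show Complex.normSq a = _
  rw [Complex.normSq_eq_norm_sq]

lemma hasFDerivAt_exp' (c ω : ℂ) :
    HasFDerivAt (fun ω : ℂ => c + Complex.exp ω) (mulL (Complex.exp ω)) ω := by
  have h1 := (Complex.hasDerivAt_exp ω).hasFDerivAt.restrictScalars ℝ
  have h2 := h1.const_add c
  exact h2

lemma measurePreserving_ell (β : Bool) : MeasurePreserving (ell β) volume volume := by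
  cases β
  · exact Complex.volume_preserving_equiv_real_prod.symm
  · exact Complex.volume_preserving_equiv_real_prod.symm.comp
      (Measure.measurePreserving_swap (μ := volume) (ν := volume))

lemma measurableEmbedding_ell (β : Bool) : MeasurableEmbedding (ell β) :=
  (ell β).toHomeomorph.measurableEmbedding

lemma Phi_sub (c : ℂ) (β : Bool) (p : ℝ × ℝ) : Phi c β p - c = Complex.exp (ell β p) := by
  simp [Phi]

theorem lintegral_cv (c : ℂ) (β : Bool) {F : ℂ → ℝ≥0∞} (hF : Measurable F) :
    ∫⁻ ζ, F ζ = ∫⁻ x in Dx β, ∫⁻ y in Dyo β,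
      ENNReal.ofReal (‖Phi c β (x, y) - c‖ ^ 2) * F (Phi c β (x, y)) := by
  have h1 : ∫⁻ ζ, F ζ = ∫⁻ ζ in (fun ω : ℂ => c + Complex.exp ω) '' strip, F ζ := by
    rw [← setLIntegral_univ]
    apply setLIntegral_congr
    have := (compl_image_strip c).compl
    rw [compl_compl, compl_empty] at this
    exact this.symm
  rw [h1, lintegral_image_eq_lintegral_abs_det_fderiv_mul volume measurableSet_strip
    (fun ω _ => (hasFDerivAt_exp' c ω).hasFDerivWithinAt) (injOn_exp_strip c) F]
  rw [← (measurePreserving_ell β).setLIntegral_comp_preimage_emb (measurableEmbedding_ell β),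
    ell_preimage_strip]
  have h2 : ∀ p : ℝ × ℝ, ENNReal.ofReal |(mulL (Complex.exp (ell β p))).det| *
      F (c + Complex.exp (ell β p)) =
      ENNReal.ofReal (‖Phi c β p - c‖ ^ 2) * F (Phi c β p) := by
    intro p
    rw [det_mulL, Phi_sub, abs_of_nonneg (by positivity)]
    rfl
  simp_rw [h2]
  rw [Measure.volume_eq_prod, ← Measure.prod_restrict, lintegral_prod]
  apply Measurable.aemeasurable
  apply Measurable.mul
  · apply Measurable.ennreal_ofReal
    exact ((((continuous_Phi c β).sub continuous_const).norm).pow 2).measurable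
  · exact hF.comp (continuous_Phi c β).measurable

theorem integral_cv (c : ℂ) (β : Bool) {F : ℂ → ℝ} (hF : Integrable F) :
    ∫ ζ, F ζ = ∫ x in Dx β, ∫ y in Dyo β, ‖Phi c β (x, y) - c‖ ^ 2 * F (Phi c β (x, y)) := by
  have h1 : ∫ ζ, F ζ = ∫ ζ in (fun ω : ℂ => c + Complex.exp ω) '' strip, F ζ := by
    rw [← setIntegral_univ]
    apply setIntegral_congr_set
    have := (compl_image_strip c).compl
    rw [compl_compl, compl_empty] at this
    exact this.symm
  have h0 : IntegrableOn F ((fun ω : ℂ => c + Complex.exp ω) '' strip) := hF.integrableOn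
  rw [integrableOn_image_iff_integrableOn_abs_det_fderiv_smul volume measurableSet_strip
    (fun ω _ => (hasFDerivAt_exp' c ω).hasFDerivWithinAt) (injOn_exp_strip c) F] at h0
  rw [h1, integral_image_eq_integral_abs_det_fderiv_smul volume measurableSet_strip
    (fun ω _ => (hasFDerivAt_exp' c ω).hasFDerivWithinAt) (injOn_exp_strip c) F]
  have h2 : ∀ p : ℝ × ℝ, |(mulL (Complex.exp (ell β p))).det| •
      F (c + Complex.exp (ell β p)) = ‖Phi c β p - c‖ ^ 2 * F (Phi c β p) := by
    intro p
    rw [det_mulL, Phi_sub, abs_of_nonneg (by positivity)]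
    rfl
  have h3 := (measurePreserving_ell β).integrableOn_comp_preimage (measurableEmbedding_ell β)
    |>.2 h0
  rw [ell_preimage_strip] at h3
  rw [← (measurePreserving_ell β).setIntegral_preimage_emb (measurableEmbedding_ell β),
    ell_preimage_strip]
  simp only [Function.comp_def, h2] at h3 ⊢
  rw [Measure.volume_eq_prod] at h3 ⊢
  rw [setIntegral_prod _ h3]

end Pool.Agent.CauchyInt
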