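import Pool.Agent.CauchyInt.Nec2

/-!
# The potentials in logarithmic polar coordinates
-/

namespace Pool.Agent.CauchyInt

open MeasureTheory Set Filter Topology Metric NNReal ENNReal

variable {A : Set ℂ} {η : ℂ} {Q : ℂ → ℝ}

lemma Phi_true_eq (η : ℂ) (x y : ℝ) :
    Phi η true (x, y) = η + (Real.exp y : ℝ) * Complex.exp (x * Complex.I) := by
  rw [Phi, ell_apply]
  simp only [dir, dir', mul_one]
  rw [add_comm ((x : ℂ) * Complex.I), Complex.exp_add, Complex.ofReal_exp]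

lemma Phi_false_eq (η : ℂ) (x y : ℝ) :
    Phi η false (x, y) = η + (Real.exp x : ℝ) * Complex.exp (y * Complex.I) := by
  rw [Phi, ell_apply]
  simp only [dir, dir', mul_one]
  rw [Complex.exp_add, Complex.ofReal_exp]

lemma Sx_true_eq (F : ℂ → ℝ≥0∞) (x : ℝ) :
    Sx η true (EE Aᶜ) F x = ∑' ξ : {ξ : ℂ // ξ ∈ essBdry A ∧
      ∃ ρ ∈ Ioi (0 : ℝ), ξ = η + ρ * Complex.exp (x * Complex.I)}, F ξ := by
  have hmap : ∀ y : {y : ℝ // y ∈ Dy true ∧ Phi η true (x, y) ∈ EE Aᶜ},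
      Phi η true (x, y) ∈ essBdry A ∧
      ∃ ρ ∈ Ioi (0 : ℝ), Phi η true (x, y) = η + ρ * Complex.exp (x * Complex.I) := by
    intro y
    refine ⟨by rw [essBdry_eq]; exact y.2.2, Real.exp y, Real.exp_pos _, ?_⟩
    exact Phi_true_eq η x y
  let e : {y : ℝ // y ∈ Dy true ∧ Phi η true (x, y) ∈ EE Aᶜ} → {ξ : ℂ // ξ ∈ essBdry A ∧
      ∃ ρ ∈ Ioi (0 : ℝ), ξ = η + ρ * Complex.exp (x * Complex.I)} := fun y => ⟨_, hmap y⟩
  have hbij : Function.Bijective e := by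
    constructor
    · intro y y' h
      have h1 : Phi η true (x, y) = Phi η true (x, y') := congrArg Subtype.val h
      exact Subtype.ext (Phi_injOn η true x y.2.1 y'.2.1 h1)
    · rintro ⟨ξ, h1, ρ, hρ, h2⟩
      have hρ' : (0 : ℝ) < ρ := hρ
      have h3 : Phi η true (x, Real.log ρ) = ξ := by
        rw [Phi_true_eq, Real.exp_log hρ', h2]
      refine ⟨⟨Real.log ρ, mem_univ _, ?_⟩, Subtype.ext h3⟩
      rw [h3, ← essBdry_eq]
      exact h1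
  rw [← (Equiv.ofBijective e hbij).tsum_eq (fun ξ => F ξ)]
  rfl

lemma Sx_false_eq (F : ℂ → ℝ≥0∞) (x : ℝ) :
    Sx η false (EE Aᶜ) F x =
      ∑' ζ : {ζ : ℂ // ζ ∈ essBdry A ∧ ‖ζ - η‖ = Real.exp x}, F ζ := by
  have hmap : ∀ y : {y : ℝ // y ∈ Dy false ∧ Phi η false (x, y) ∈ EE Aᶜ},
      Phi η false (x, y) ∈ essBdry A ∧ ‖Phi η false (x, y) - η‖ = Real.exp x := by
    intro y
    exact ⟨by rw [essBdry_eq]; exact y.2.2, norm_Phi_sub η false (x, y)⟩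
  let e : {y : ℝ // y ∈ Dy false ∧ Phi η false (x, y) ∈ EE Aᶜ} →
      {ζ : ℂ // ζ ∈ essBdry A ∧ ‖ζ - η‖ = Real.exp x} := fun y => ⟨_, hmap y⟩
  have hbij : Function.Bijective e := by
    constructor
    · intro y y' h
      have h1 : Phi η false (x, y) = Phi η false (x, y') := congrArg Subtype.val h
      exact Subtype.ext (Phi_injOn η false x y.2.1 y'.2.1 h1)
    · rintro ⟨ζ, h1, h2⟩
      have h3 : (‖ζ - η‖ : ℂ) * Complex.exp (Complex.arg (ζ - η) * Complex.I) = ζ - η :=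
        Complex.norm_mul_exp_arg_mul_I _
      obtain ⟨y, hy, hyζ⟩ : ∃ y ∈ Ico (0 : ℝ) (2 * Real.pi), Phi η false (x, y) = ζ := by
        have h4 : Phi η false (x, Complex.arg (ζ - η)) = ζ := by
          rw [Phi_false_eq, ← h2, h3]
          ring
        have hpi := Real.pi_pos
        rcases lt_or_ge (Complex.arg (ζ - η)) 0 with hneg | hpos
        · refine ⟨Complex.arg (ζ - η) + 2 * Real.pi, ⟨?_, by linarith⟩, ?_⟩
          · have := Complex.neg_pi_lt_arg (ζ - η)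
            linarith
          · rw [Phi_periodic, h4]
        · refine ⟨Complex.arg (ζ - η), ⟨hpos, ?_⟩, h4⟩
          have := Complex.arg_le_pi (ζ - η)
          linarith
      refine ⟨⟨y, hy, ?_⟩, Subtype.ext hyζ⟩
      rw [hyζ, ← essBdry_eq]
      exact h1
  rw [← (Equiv.ofBijective e hbij).tsum_eq (fun ξ => F ξ)]
  rfl

lemma smallV_eq : smallV A η Q = NN η true (EE Aᶜ) (fun ζ => ENNReal.ofReal (Q ζ)) := by
  unfold smallV NN
  simp_rw [Sx_true_eq]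
  rfl

lemma bigV_eq (r : ℝ) :
    bigV A η Q r = NN η true (EE Aᶜ) (fun ζ => ENNReal.ofReal (Qr η Q r ζ)) := by
  unfold bigV NN
  simp_rw [Sx_true_eq]
  show ∫⁻ γ in Ioo 0 (2 * Real.pi), _ = ∫⁻ γ in Ioo 0 (2 * Real.pi), _
  congr 1
  ext γ
  have h1 := tsum_subtype {ξ : ℂ | ξ ∈ essBdry A ∧
    ∃ ρ ∈ Ioo 0 r, ξ = η + ρ * Complex.exp (γ * Complex.I)}
    (fun ξ => ENNReal.ofReal (‖ξ - η‖ * Q ξ))
  have h2 := tsum_subtype {ξ : ℂ | ξ ∈ essBdry A ∧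
    ∃ ρ ∈ Ioi (0 : ℝ), ξ = η + ρ * Complex.exp (γ * Complex.I)}
    (fun ξ => ENNReal.ofReal (Qr η Q r ξ))
  refine h1.trans (Eq.trans ?_ h2.symm)
  congr 1
  ext ξ
  by_cases hξ : ξ ∈ essBdry A ∧ ∃ ρ ∈ Ioi (0 : ℝ), ξ = η + ρ * Complex.exp (γ * Complex.I)
  · obtain ⟨hE, ρ, hρ, he⟩ := hξ
    have hρ' : (0 : ℝ) < ρ := hρ
    have hn : ‖ξ - η‖ = ρ := by
      rw [he, add_sub_cancel_left, norm_mul, Complex.norm_exp_ofReal_mul_I, mul_one,
        Complex.norm_real, Real.norm_eq_abs, abs_of_pos hρ']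
    rw [indicator_of_mem (show ξ ∈ {ξ : ℂ | ξ ∈ essBdry A ∧
      ∃ ρ ∈ Ioi (0 : ℝ), ξ = η + ρ * Complex.exp (γ * Complex.I)} from ⟨hE, ρ, hρ, he⟩), Qr]
    split_ifs with hlt
    · rw [indicator_of_mem]
      refine ⟨hE, ρ, ⟨hρ', ?_⟩, he⟩
      rwa [hn] at hlt
    · rw [indicator_of_notMem, ENNReal.ofReal_zero]
      rintro ⟨_, ρ', hρ'', he'⟩
      apply hlt
      rw [he', add_sub_cancel_left, norm_mul, Complex.norm_exp_ofReal_mul_I, mul_one,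
        Complex.norm_real, Real.norm_eq_abs, abs_of_pos hρ''.1]
      exact hρ''.2
  · rw [indicator_of_notMem, indicator_of_notMem]
    · exact hξ
    · rintro ⟨hE, ρ, hρ, he⟩
      exact hξ ⟨hE, ρ, hρ.1, he⟩

lemma lintegral_Ioi_exp (F : ℝ → ℝ≥0∞) :
    ∫⁻ ρ in Ioi (0 : ℝ), F ρ = ∫⁻ x, ENNReal.ofReal (Real.exp x) * F (Real.exp x) := by
  have h := lintegral_image_eq_lintegral_abs_deriv_mul (s := univ) (f := Real.exp)
    (f' := Real.exp) MeasurableSet.univ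
    (fun x _ => (Real.hasDerivAt_exp x).hasDerivWithinAt) Real.exp_injective.injOn F
  rw [image_univ, Real.range_exp, setLIntegral_univ] at h
  rw [h]
  congr 1
  ext x
  rw [abs_of_pos (Real.exp_pos x)]

lemma circleSum_exp (x : ℝ) :
    circleSum A η Q (Real.exp x) = Sx η false (EE Aᶜ) (fun ζ => ENNReal.ofReal (Q ζ)) x := by
  rw [Sx_false_eq]
  rfl

lemma bigU_eq : bigU A η Q (Ioi 0) =
    NN η false (EE Aᶜ) (fun ζ => ENNReal.ofReal (Q ζ)) := by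
  unfold bigU NN
  rw [lintegral_Ioi_exp]
  show _ = ∫⁻ x in univ, _
  rw [setLIntegral_univ]
  congr 1
  ext x
  rw [← mul_assoc, ENNReal.mul_inv_cancel, one_mul, circleSum_exp]
  · rw [Ne, ENNReal.ofReal_eq_zero, not_le]
    exact Real.exp_pos x
  · exact ENNReal.ofReal_ne_top

lemma smallU_eq (r : ℝ) : smallU A η Q r =
    NN η false (EE Aᶜ) (fun ζ => ENNReal.ofReal (Qr η Q r ζ)) := by
  unfold smallU NN
  have h0 : Ioo 0 r = Iio r ∩ Ioi 0 := by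
    ext x
    simp only [mem_Ioo, mem_inter_iff, mem_Iio, mem_Ioi]
    exact and_comm
  have h1 : ∫⁻ ρ in Ioo 0 r, circleSum A η Q ρ =
      ∫⁻ ρ in Ioi 0, (Iio r).indicator (circleSum A η Q) ρ := by
    rw [setLIntegral_indicator measurableSet_Iio, h0]
  rw [h1, lintegral_Ioi_exp]
  show _ = ∫⁻ x in univ, _
  rw [setLIntegral_univ]
  congr 1
  ext x
  by_cases hx : Real.exp x < r
  · rw [indicator_of_mem (show Real.exp x ∈ Iio r from hx), circleSum_exp, Sx_false_eq,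
      Sx_false_eq, ← ENNReal.tsum_mul_left]
    congr 1
    ext ζ
    rw [Qr, if_pos (by rw [ζ.2.2]; exact hx), ζ.2.2, ENNReal.ofReal_mul (Real.exp_pos x).le]
  · rw [indicator_of_notMem (show Real.exp x ∉ Iio r from hx), mul_zero, Sx_false_eq]
    symm
    rw [ENNReal.tsum_eq_zero]
    intro ζ
    rw [Qr, if_neg (by rw [ζ.2.2]; exact hx), ENNReal.ofReal_zero]

lemma cond_iff (N : ℝ≥0∞) (u : ℝ → ℝ≥0∞) :
    (N + ⨆ (r : ℝ) (_ : 0 < r), (ENNReal.ofReal r)⁻¹ * u r) < ⊤ ↔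
      (∃ B₁ : ℝ, 0 ≤ B₁ ∧ N ≤ ENNReal.ofReal B₁) ∧
      ∃ B₂ : ℝ, 0 ≤ B₂ ∧ ∀ r > (0 : ℝ), u r ≤ ENNReal.ofReal (B₂ * r) := by
  rw [ENNReal.add_lt_top]
  constructor
  · rintro ⟨h1, h2⟩
    refine ⟨⟨N.toReal, ENNReal.toReal_nonneg, by rw [ENNReal.ofReal_toReal h1.ne]⟩,
      (⨆ (r : ℝ) (_ : 0 < r), (ENNReal.ofReal r)⁻¹ * u r).toReal, ENNReal.toReal_nonneg,
      fun r hr => ?_⟩
    rw [ENNReal.ofReal_mul ENNReal.toReal_nonneg, ENNReal.ofReal_toReal h2.ne]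
    have h3 : (ENNReal.ofReal r)⁻¹ * u r ≤
        ⨆ (r : ℝ) (_ : 0 < r), (ENNReal.ofReal r)⁻¹ * u r :=
      le_iSup₂ (f := fun (r : ℝ) (_ : 0 < r) => (ENNReal.ofReal r)⁻¹ * u r) r hr
    have hr0 : ENNReal.ofReal r ≠ 0 := by
      rw [Ne, ENNReal.ofReal_eq_zero, not_le]
      exact hr
    calc u r = ((ENNReal.ofReal r)⁻¹ * u r) * ENNReal.ofReal r := by
          rw [mul_comm, ← mul_assoc, ENNReal.mul_inv_cancel hr0 ENNReal.ofReal_ne_top, one_mul]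
      _ ≤ _ := by gcongr
  · rintro ⟨⟨B₁, _, h1⟩, B₂, hB₂, h2⟩
    refine ⟨h1.trans_lt ENNReal.ofReal_lt_top, ?_⟩
    refine lt_of_le_of_lt ?_ (ENNReal.ofReal_lt_top (r := B₂))
    refine iSup₂_le fun r hr => ?_
    have hr0 : ENNReal.ofReal r ≠ 0 := by
      rw [Ne, ENNReal.ofReal_eq_zero, not_le]
      exact hr
    calc (ENNReal.ofReal r)⁻¹ * u r ≤ (ENNReal.ofReal r)⁻¹ * ENNReal.ofReal (B₂ * r) := by
          gcongr
          exact h2 r hr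
      _ = ENNReal.ofReal B₂ := by
          rw [ENNReal.ofReal_mul hB₂, mul_comm (ENNReal.ofReal B₂), ← mul_assoc,
            ENNReal.inv_mul_cancel hr0 ENNReal.ofReal_ne_top, one_mul]

end Pool.Agent.CauchyInt
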