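import Pool.Agent.CauchyInt.Upper

/-!
# Shifts in the direction of the slices
-/

namespace Pool.Agent.CauchyInt

open MeasureTheory Set Filter Topology Metric NNReal ENNReal

/-- the shift -/
noncomputable def Ts (c : ℂ) (β : Bool) (u : ℝ) (ζ : ℂ) : ℂ :=
  c + Complex.exp (u * dir β) * (ζ - c)

lemma Ts_sub (c : ℂ) (β : Bool) (u : ℝ) (ζ : ℂ) :
    Ts c β u ζ - c = Complex.exp (u * dir β) * (ζ - c) := by simp [Ts]

lemma Ts_neg_Ts (c : ℂ) (β : Bool) (u : ℝ) (ζ : ℂ) : Ts c β (-u) (Ts c β u ζ) = ζ := by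
  rw [Ts, Ts_sub, ← mul_assoc, ← Complex.exp_add]
  push_cast
  rw [neg_mul, neg_add_cancel, Complex.exp_zero]
  ring

lemma Ts_Ts_neg (c : ℂ) (β : Bool) (u : ℝ) (ζ : ℂ) : Ts c β u (Ts c β (-u) ζ) = ζ := by
  have := Ts_neg_Ts c β (-u) ζ
  rwa [neg_neg] at this

lemma Ts_zero (c : ℂ) (β : Bool) (ζ : ℂ) : Ts c β 0 ζ = ζ := by simp [Ts]

lemma Ts_Phi (c : ℂ) (β : Bool) (u x y : ℝ) :
    Ts c β u (Phi c β (x, y)) = Phi c β (x, y + u) := by
  rw [Ts, Phi_sub, ← Complex.exp_add]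
  unfold Phi
  congr 2
  rw [ell_apply, ell_apply]
  push_cast
  ring

lemma norm_exp_dir (β : Bool) (u : ℝ) :
    Real.exp (-|u|) ≤ ‖Complex.exp (u * dir β)‖ ∧ ‖Complex.exp (u * dir β)‖ ≤ Real.exp |u| := by
  rw [Complex.norm_exp]
  cases β
  · simp [dir]
  · simp only [dir, mul_one, Complex.ofReal_re]
    exact ⟨Real.exp_le_exp.2 (neg_abs_le u), Real.exp_le_exp.2 (le_abs_self u)⟩

lemma norm_Ts_sub (c : ℂ) (β : Bool) (u : ℝ) (ζ : ℂ) :
    Real.exp (-|u|) * ‖ζ - c‖ ≤ ‖Ts c β u ζ - c‖ ∧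
      ‖Ts c β u ζ - c‖ ≤ Real.exp |u| * ‖ζ - c‖ := by
  rw [Ts_sub, norm_mul]
  obtain ⟨h1, h2⟩ := norm_exp_dir β u
  exact ⟨by gcongr, by gcongr⟩

lemma continuous_Ts (c : ℂ) (β : Bool) (u : ℝ) : Continuous (Ts c β u) := by
  unfold Ts
  fun_prop

lemma norm_dir (β : Bool) : ‖dir β‖ = 1 := by cases β <;> simp [dir]

lemma norm_Ts_sub_self (c : ℂ) (β : Bool) {u : ℝ} (hu : |u| ≤ 1) (ζ : ℂ) :
    ‖Ts c β u ζ - ζ‖ ≤ 2 * |u| * ‖ζ - c‖ := by
  have h1 : Ts c β u ζ - ζ = (Complex.exp (u * dir β) - 1) * (ζ - c) := by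
    rw [Ts]; ring
  rw [h1, norm_mul]
  have h2 : ‖(u : ℂ) * dir β‖ = |u| := by
    rw [norm_mul, norm_dir, mul_one, Complex.norm_real, Real.norm_eq_abs]
  have h3 := Complex.norm_exp_sub_one_le (x := (u : ℂ) * dir β) (by rw [h2]; exact hu)
  rw [h2] at h3
  gcongr

/-- the invariance of the measure `|ζ - c|⁻² dζ` -/
lemma integral_shift (c : ℂ) (β : Bool) (h : ℝ) (H : ℂ → ℝ) :
    ∫ ζ, (‖ζ - c‖ ^ 2)⁻¹ * H ζ = ∫ ζ, (‖ζ - c‖ ^ 2)⁻¹ * H (Ts c β h ζ) := by
  have himg : Ts c β h '' univ = univ := by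
    rw [image_univ, range_eq_univ]
    exact fun ζ => ⟨Ts c β (-h) ζ, Ts_Ts_neg c β h ζ⟩
  have hinj : InjOn (Ts c β h) univ := by
    intro a _ b _ hab
    rw [← Ts_neg_Ts c β h a, ← Ts_neg_Ts c β h b, hab]
  have hder : ∀ ζ ∈ (univ : Set ℂ), HasFDerivWithinAt (Ts c β h)
      (mulL (Complex.exp (h * dir β))) univ ζ := by
    intro ζ _
    apply HasFDerivAt.hasFDerivWithinAt
    have h1 : HasDerivAt (Ts c β h) (Complex.exp (h * dir β) * 1) ζ :=
      (((hasDerivAt_id ζ).sub_const c).const_mul _).const_add c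
    rw [mul_one] at h1
    exact h1.hasFDerivAt.restrictScalars ℝ
  have h1 := integral_image_eq_integral_abs_det_fderiv_smul volume MeasurableSet.univ hder hinj
    (fun ζ => (‖ζ - c‖ ^ 2)⁻¹ * H ζ)
  rw [himg, setIntegral_univ, setIntegral_univ] at h1
  rw [h1]
  congr 1
  ext ζ
  rw [det_mulL, smul_eq_mul, ← mul_assoc]
  congr 1
  have h2 : ‖Complex.exp (h * dir β)‖ ≠ 0 := norm_ne_zero_iff.2 (Complex.exp_ne_zero _)
  rw [Ts_sub, norm_mul, mul_pow, mul_inv, ← mul_assoc, abs_of_nonneg (by positivity),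
    mul_inv_cancel₀ (by positivity), one_mul]

lemma tsupport_comp_Ts (c : ℂ) (β : Bool) (u : ℝ) {φ : ℂ → ℝ} {ζ : ℂ}
    (h : ζ ∈ tsupport (fun ζ => φ (Ts c β u ζ))) : Ts c β u ζ ∈ tsupport φ := by
  have h1 : IsClosed {ζ | Ts c β u ζ ∈ tsupport φ} :=
    (isClosed_tsupport φ).preimage (continuous_Ts c β u)
  have h2 : Function.support (fun ζ => φ (Ts c β u ζ)) ⊆ {ζ | Ts c β u ζ ∈ tsupport φ} :=
    fun ζ hζ => subset_tsupport φ hζ
  exact closure_minimal h2 h1 h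

lemma notMem_tsupport_comp_Ts {c : ℂ} (β : Bool) (u : ℝ) {φ : ℂ → ℝ} (h : c ∉ tsupport φ) :
    c ∉ tsupport (fun ζ => φ (Ts c β u ζ)) := by
  intro hc
  have := tsupport_comp_Ts c β u hc
  apply h
  simpa [Ts] using this

lemma hasCompactSupport_comp_Ts (c : ℂ) (β : Bool) (u : ℝ) {φ : ℂ → ℝ}
    (h : HasCompactSupport φ) : HasCompactSupport (fun ζ => φ (Ts c β u ζ)) := by
  have h1 : IsCompact (Ts c β (-u) '' tsupport φ) := h.isCompact.image (continuous_Ts c β (-u))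
  apply HasCompactSupport.of_support_subset_isCompact h1
  intro ζ hζ
  exact ⟨Ts c β u ζ, subset_tsupport φ hζ, Ts_neg_Ts c β u ζ⟩

lemma contDiff_comp_Ts (c : ℂ) (β : Bool) (u : ℝ) {φ : ℂ → ℝ} (h : ContDiff ℝ 1 φ) :
    ContDiff ℝ 1 (fun ζ => φ (Ts c β u ζ)) := by
  apply h.comp
  unfold Ts
  fun_prop

lemma hasFDerivAt_Ts (c : ℂ) (β : Bool) (u : ℝ) (ζ : ℂ) :
    HasFDerivAt (Ts c β u) (mulL (Complex.exp (u * dir β))) ζ := by
  have h1 : HasDerivAt (Ts c β u) (Complex.exp (u * dir β) * 1) ζ :=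
    (((hasDerivAt_id ζ).sub_const c).const_mul _).const_add c
  rw [mul_one] at h1
  exact h1.hasFDerivAt.restrictScalars ℝ

lemma rd_comp_Ts (c : ℂ) (β : Bool) (u : ℝ) {φ : ℂ → ℝ} (h : ContDiff ℝ 1 φ) (ζ : ℂ) :
    rd c β (fun ζ => φ (Ts c β u ζ)) ζ =
      (‖ζ - c‖ ^ 2)⁻¹ * fderiv ℝ φ (Ts c β u ζ) (dir β * (Ts c β u ζ - c)) := by
  have h1 := (h.differentiable one_ne_zero (Ts c β u ζ)).hasFDerivAt
  have h2 : HasFDerivAt (fun ζ => φ (Ts c β u ζ)) _ ζ := h1.comp ζ (hasFDerivAt_Ts c β u ζ)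
  rw [rd, h2.fderiv, ContinuousLinearMap.comp_apply, mulL_apply, Ts_sub]
  congr 2
  ring

lemma hasDerivAt_Ts_u (c : ℂ) (β : Bool) {φ : ℂ → ℝ} (h : ContDiff ℝ 1 φ) (ζ : ℂ) (u : ℝ) :
    HasDerivAt (fun u : ℝ => (‖ζ - c‖ ^ 2)⁻¹ * φ (Ts c β (-u) ζ))
      (- rd c β (fun ζ => φ (Ts c β (-u) ζ)) ζ) u := by
  have h0 : HasDerivAt (fun u : ℝ => ((u : ℝ) : ℂ)) 1 u := Complex.ofRealCLM.hasDerivAt
  have h1 : HasDerivAt (fun u : ℝ => Ts c β (-u) ζ) (-(dir β * (Ts c β (-u) ζ - c))) u := by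
    have h2 := (((h0.neg.mul_const (dir β)).cexp).mul_const (ζ - c)).const_add c
    refine (h2.congr_deriv ?_).congr_of_eventuallyEq (Eventually.of_forall fun v => ?_)
    · rw [Ts_sub]
      push_cast
      simp only [Pi.neg_apply]
      ring
    · simp [Ts]
  have h2 := (h.differentiable one_ne_zero (Ts c β (-u) ζ)).hasFDerivAt
  have h3 := (h2.comp_hasDerivAt u h1).const_mul ((‖ζ - c‖ ^ 2)⁻¹)
  refine h3.congr_deriv ?_
  rw [rd_comp_Ts c β (-u) h, map_neg]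
  ring

lemma hasDerivAt_Iu {c : ℂ} {β : Bool} {G : Set ℂ} {φ : ℂ → ℝ} (hφ : ContDiff ℝ 1 φ)
    (hs : HasCompactSupport φ) (hc : c ∉ tsupport φ) (u : ℝ) :
    HasDerivAt (fun u : ℝ => ∫ ζ in G, (‖ζ - c‖ ^ 2)⁻¹ * φ (Ts c β (-u) ζ))
      (- RR c β G (fun ζ => φ (Ts c β (-u) ζ))) u := by
  -- radii
  have h1 : (tsupport φ)ᶜ ∈ 𝓝 c := (isClosed_tsupport φ).isOpen_compl.mem_nhds hc
  obtain ⟨δ, hδ, hδs⟩ := Metric.mem_nhds_iff.1 h1
  obtain ⟨R, hR⟩ := hs.isCompact.isBounded.subset_closedBall c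
  have hrad : ∀ ζ ∈ tsupport φ, δ ≤ ‖ζ - c‖ ∧ ‖ζ - c‖ ≤ R := by
    intro ζ hζ
    constructor
    · by_contra hlt
      push Not at hlt
      exact hδs (by rwa [mem_ball, dist_eq_norm]) hζ
    · have := hR hζ
      rwa [mem_closedBall, dist_eq_norm] at this
  set e : ℝ := Real.exp (|u| + 1) with he
  have he0 : 0 < e := Real.exp_pos _
  obtain ⟨C, hC⟩ := (hφ.continuous_fderiv one_ne_zero).bounded_above_of_compact_support
    (hs.fderiv ℝ)
  have hC0 : 0 ≤ C := (norm_nonneg _).trans (hC 0)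
  set K : Set ℂ := closedBall c (e * R) with hK
  have hexp : ∀ v ∈ ball u 1, Real.exp |v| ≤ e := by
    intro v hv
    rw [he]
    apply Real.exp_le_exp.2
    rw [mem_ball, Real.dist_eq] at hv
    have := abs_sub_abs_le_abs_sub v u
    linarith
  have hloc : ∀ v ∈ ball u 1, ∀ ζ, Ts c β (-v) ζ ∈ tsupport φ →
      δ / e ≤ ‖ζ - c‖ ∧ ‖ζ - c‖ ≤ e * R := by
    intro v hv ζ hζ
    obtain ⟨a1, a2⟩ := hrad _ hζ
    obtain ⟨b1, b2⟩ := norm_Ts_sub c β (-v) ζ
    rw [abs_neg] at b1 b2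
    have hv' := hexp v hv
    constructor
    · rw [div_le_iff₀ he0]
      calc δ ≤ Real.exp |v| * ‖ζ - c‖ := a1.trans b2
        _ ≤ e * ‖ζ - c‖ := by gcongr
        _ = ‖ζ - c‖ * e := mul_comm _ _
    · have h2 : ‖ζ - c‖ ≤ Real.exp |v| * R := by
        have h3 := b1.trans a2
        rw [Real.exp_neg, inv_mul_le_iff₀ (Real.exp_pos _)] at h3
        exact h3
      have hR0 : 0 ≤ R := (norm_nonneg _).trans a2
      exact h2.trans (by gcongr)
  have hcontF : ∀ v : ℝ, Continuous fun ζ => (‖ζ - c‖ ^ 2)⁻¹ * φ (Ts c β (-v) ζ) := by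
    intro v
    rw [continuous_iff_continuousAt]
    intro ζ
    by_cases h : ζ = c
    · subst h
      have : (fun z => (‖z - ζ‖ ^ 2)⁻¹ * φ (Ts ζ β (-v) z)) =ᶠ[𝓝 ζ] fun _ => (0 : ℝ) := by
        have h3 := notMem_tsupport_comp_Ts β (-v) hc
        filter_upwards [(isClosed_tsupport _).isOpen_compl.mem_nhds h3] with z hz
        have : φ (Ts ζ β (-v) z) = 0 := by
          by_contra hne
          exact hz (subset_tsupport _ hne)
        rw [this, mul_zero]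
      exact (continuousAt_const.congr this.symm)
    · have h3 : ContinuousAt (fun ζ => (‖ζ - c‖ ^ 2)⁻¹) ζ := by
        apply ContinuousAt.inv₀
        · fun_prop
        · have : 0 < ‖ζ - c‖ := norm_pos_iff.2 (sub_ne_zero.2 h)
          positivity
      exact h3.mul (hφ.continuous.comp (continuous_Ts c β (-v))).continuousAt
  have hsuppF : ∀ v : ℝ, HasCompactSupport fun ζ => (‖ζ - c‖ ^ 2)⁻¹ * φ (Ts c β (-v) ζ) :=
    fun v => (hasCompactSupport_comp_Ts c β (-v) hs).mul_left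
  have hres := hasDerivAt_integral_of_dominated_loc_of_deriv_le (μ := volume.restrict G)
    (s := ball u 1) (x₀ := u)
    (F := fun v ζ => (‖ζ - c‖ ^ 2)⁻¹ * φ (Ts c β (-v) ζ))
    (F' := fun v ζ => - rd c β (fun ζ => φ (Ts c β (-v) ζ)) ζ)
    (bound := K.indicator fun _ => (((δ / e) ^ 2)⁻¹ * (C * (e * (e * R)))))
    (ball_mem_nhds u one_pos)
    (Eventually.of_forall fun v => (hcontF v).aestronglyMeasurable)
    ((hcontF u).integrable_of_hasCompactSupport (hsuppF u)).integrableOn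
    ((continuous_rd β (contDiff_comp_Ts c β (-u) hφ)
      (notMem_tsupport_comp_Ts β (-u) hc)).neg.aestronglyMeasurable)
    (by
      refine Eventually.of_forall fun ζ v hv => ?_
      rw [norm_neg]
      by_cases hζ : Ts c β (-v) ζ ∈ tsupport φ
      · obtain ⟨a1, a2⟩ := hloc v hv ζ hζ
        have hK' : ζ ∈ K := by
          rw [hK, mem_closedBall, dist_eq_norm]
          exact a2
        rw [indicator_of_mem hK', rd_comp_Ts c β (-v) hφ, norm_mul]
        have hpos : 0 < δ / e := by positivity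
        have b1 : ‖(‖ζ - c‖ ^ 2)⁻¹‖ ≤ ((δ / e) ^ 2)⁻¹ := by
          rw [norm_inv, norm_pow, norm_norm]
          gcongr
        have b2 : ‖fderiv ℝ φ (Ts c β (-v) ζ) (dir β * (Ts c β (-v) ζ - c))‖ ≤
            C * (e * (e * R)) := by
          refine (ContinuousLinearMap.le_opNorm _ _).trans ?_
          have c1 : ‖dir β * (Ts c β (-v) ζ - c)‖ ≤ e * (e * R) := by
            rw [norm_mul, norm_dir, one_mul]
            obtain ⟨_, b2⟩ := norm_Ts_sub c β (-v) ζ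
            rw [abs_neg] at b2
            refine b2.trans ?_
            have := hexp v hv
            gcongr
          exact mul_le_mul (hC _) c1 (norm_nonneg _) hC0
        exact mul_le_mul b1 b2 (norm_nonneg _) (by positivity)
      · have h3 : rd c β (fun ζ => φ (Ts c β (-v) ζ)) ζ = 0 :=
          rd_eq_zero fun h => hζ (tsupport_comp_Ts c β (-v) h)
        rw [h3, norm_zero]
        by_cases hR0 : 0 ≤ R
        · exact indicator_nonneg (fun _ _ => by positivity) _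
        · rw [indicator_of_notMem]
          rw [hK, mem_closedBall, dist_eq_norm, not_le]
          push Not at hR0
          exact lt_of_lt_of_le (mul_neg_of_pos_of_neg he0 hR0) (norm_nonneg _))
    (by
      rw [integrable_indicator_iff Metric.isClosed_closedBall.measurableSet]
      apply integrableOn_const
      · exact ((Measure.restrict_apply_le _ _).trans_lt
          (isCompact_closedBall c _).measure_lt_top).ne
      · exact enorm_ne_top)
    (Eventually.of_forall fun ζ v _ => hasDerivAt_Ts_u c β hφ ζ v)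
  have h4 := hres.2
  rw [integral_neg] at h4
  exact h4

/-- the signed change of the indicator of `G` under the shift -/
noncomputable def sg (c : ℂ) (β : Bool) (G : Set ℂ) (h : ℝ) (ζ : ℂ) : ℝ :=
  G.indicator 1 ζ - G.indicator 1 (Ts c β h ζ)

theorem shift_bound {c : ℂ} {β : Bool} {G : Set ℂ} (hG : MeasurableSet G) {φ : ℂ → ℝ}
    (hφ : ContDiff ℝ 1 φ) (hs : HasCompactSupport φ) (hc : c ∉ tsupport φ) {h M : ℝ}
    (hh : 0 ≤ h) (hM : ∀ u ∈ Icc 0 h, |RR c β G (fun ζ => φ (Ts c β (-u) ζ))| ≤ M) :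
    |∫ ζ, (‖ζ - c‖ ^ 2)⁻¹ * (φ ζ * sg c β G h ζ)| ≤ M * h := by
  have h1 := norm_image_sub_le_of_norm_deriv_le_segment' (C := M) (a := 0) (b := h)
    (f := fun u : ℝ => ∫ ζ in G, (‖ζ - c‖ ^ 2)⁻¹ * φ (Ts c β (-u) ζ))
    (fun u _ => (hasDerivAt_Iu hφ hs hc u).hasDerivWithinAt)
    (fun u hu => by
      rw [norm_neg, Real.norm_eq_abs]
      exact hM u ⟨hu.1, hu.2.le⟩) h (right_mem_Icc.2 hh)
  have hcont : ∀ v : ℝ, Integrable fun ζ => (‖ζ - c‖ ^ 2)⁻¹ * φ (Ts c β (-v) ζ) := by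
    intro v
    refine Continuous.integrable_of_hasCompactSupport ?_
      (hasCompactSupport_comp_Ts c β (-v) hs).mul_left
    rw [continuous_iff_continuousAt]
    intro ζ
    by_cases h : ζ = c
    · subst h
      have : (fun z => (‖z - ζ‖ ^ 2)⁻¹ * φ (Ts ζ β (-v) z)) =ᶠ[𝓝 ζ] fun _ => (0 : ℝ) := by
        have h3 := notMem_tsupport_comp_Ts β (-v) hc
        filter_upwards [(isClosed_tsupport _).isOpen_compl.mem_nhds h3] with z hz
        have : φ (Ts ζ β (-v) z) = 0 := by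
          by_contra hne
          exact hz (subset_tsupport _ hne)
        rw [this, mul_zero]
      exact (continuousAt_const.congr this.symm)
    · have h3 : ContinuousAt (fun ζ => (‖ζ - c‖ ^ 2)⁻¹) ζ := by
        apply ContinuousAt.inv₀
        · fun_prop
        · have : 0 < ‖ζ - c‖ := norm_pos_iff.2 (sub_ne_zero.2 h)
          positivity
      exact h3.mul (hφ.continuous.comp (continuous_Ts c β (-v))).continuousAt
  have e1 : ∀ v : ℝ, ∫ ζ in G, (‖ζ - c‖ ^ 2)⁻¹ * φ (Ts c β (-v) ζ) =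
      ∫ ζ, (‖ζ - c‖ ^ 2)⁻¹ * (G.indicator 1 (Ts c β v ζ) * φ ζ) := by
    intro v
    have h2 := integral_shift c β v (fun ζ => G.indicator 1 ζ * φ (Ts c β (-v) ζ))
    simp only [Ts_neg_Ts] at h2
    rw [← h2, ← integral_indicator hG]
    congr 1
    ext ζ
    by_cases h : ζ ∈ G <;> simp [h]
  have hint : ∀ v : ℝ, Integrable fun ζ => (‖ζ - c‖ ^ 2)⁻¹ * (G.indicator 1 (Ts c β v ζ) * φ ζ) := by
    intro v
    have h2 := hcont 0
    simp only [neg_zero, Ts_zero] at h2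
    have h3 : MeasurableSet (Ts c β v ⁻¹' G) := (continuous_Ts c β v).measurable hG
    have h4 := h2.indicator h3
    refine h4.congr (Eventually.of_forall fun ζ => ?_)
    by_cases h : Ts c β v ζ ∈ G
    · have : ζ ∈ Ts c β v ⁻¹' G := h
      simp [h]
    · have : ζ ∉ Ts c β v ⁻¹' G := h
      simp [h]
  rw [e1 h, e1 0, ← integral_sub (hint h) (hint 0), sub_zero] at h1
  rw [← Real.norm_eq_abs, ← norm_neg, ← integral_neg]
  refine le_trans (le_of_eq ?_) h1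
  congr 2
  ext ζ
  rw [Ts_zero, sg]
  ring

end Pool.Agent.CauchyInt
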