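import Pool.Agent.CauchyInt.OneDimLower

/-!
# Slices of the essential boundary

For a measurable set `B` of the plane and almost every `x`, the points of the essential boundary of
`B` on the line `{x} × ℝ` are in the support boundary of the slice of `B`, and conversely the
support boundary of the slice is contained in the closure of these points.
-/

namespace Pool.Agent.CauchyInt

open MeasureTheory Set Filter Topology Metric

/-- zero density of `B` at `p` -/
def ZD (B : Set (ℝ × ℝ)) (p : ℝ × ℝ) : Prop :=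
  ∀ κ > (0 : ℝ), ∀ᶠ r in 𝓝[>] (0 : ℝ), volume (ball p r ∩ B) ≤ ENNReal.ofReal (κ * r ^ 2)

lemma volume_ball_prod (p : ℝ × ℝ) {r : ℝ} (hr : 0 ≤ r) :
    volume (ball p r) = ENNReal.ofReal (4 * r ^ 2) := by
  obtain ⟨x, y⟩ := p
  rw [← ball_prod_same, Measure.volume_eq_prod, Measure.prod_prod, Real.volume_ball,
    Real.volume_ball, ← ENNReal.ofReal_mul (by positivity)]
  congr 1
  ring

lemma ae_not_zd (B : Set (ℝ × ℝ)) (hB : MeasurableSet B) :
    ∀ᵐ p : ℝ × ℝ, ¬ (p ∈ B ∧ ZD B p) := by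
  have h := Besicovitch.ae_tendsto_measure_inter_div (volume : Measure (ℝ × ℝ)) B
  rw [ae_restrict_iff' hB] at h
  filter_upwards [h] with p hp hp2
  have h1 := hp hp2.1
  have hlt : (1 / 2 : ENNReal) < 1 := by
    rw [one_div]
    exact ENNReal.inv_lt_one.2 (by norm_num)
  have h2 := h1.eventually (eventually_gt_nhds hlt)
  have h3 := hp2.2 (1 / 4) (by norm_num)
  have h4 : Tendsto (fun r : ℝ => 2 * r) (𝓝[>] 0) (𝓝[>] 0) := by
    refine tendsto_nhdsWithin_iff.2 ⟨?_, ?_⟩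
    · have : Tendsto (fun r : ℝ => 2 * r) (𝓝 0) (𝓝 (2 * 0)) := tendsto_id.const_mul 2
      rw [mul_zero] at this
      exact this.mono_left nhdsWithin_le_nhds
    · filter_upwards [self_mem_nhdsWithin] with r hr
      have : (0 : ℝ) < r := hr
      show (0 : ℝ) < 2 * r
      positivity
  have h5 := h4.eventually h3
  obtain ⟨r, a1, a2, a3⟩ := (h2.and (h5.and self_mem_nhdsWithin)).exists
  have hr : (0 : ℝ) < r := a3
  have b1 : volume (B ∩ closedBall p r) ≤ volume (ball p (2 * r) ∩ B) := by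
    apply measure_mono
    rintro q ⟨hq1, hq2⟩
    exact ⟨closedBall_subset_ball (by linarith) hq2, hq1⟩
  have b2 : ENNReal.ofReal (4 * r ^ 2) ≤ volume (closedBall p r) := by
    rw [← volume_ball_prod p hr.le]
    exact measure_mono ball_subset_closedBall
  have hpos : volume (closedBall p r) ≠ 0 := by
    intro h0
    rw [h0, nonpos_iff_eq_zero, ENNReal.ofReal_eq_zero] at b2
    nlinarith [sq_nonneg r, pow_pos hr 2]
  have hfin : volume (closedBall p r) ≠ ⊤ := measure_closedBall_lt_top.ne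
  have b3 : (1 / 2) * volume (closedBall p r) < volume (B ∩ closedBall p r) :=
    (ENNReal.lt_div_iff_mul_lt (Or.inl hpos) (Or.inl hfin)).1 a1
  have b4 : (1 / 2) * ENNReal.ofReal (4 * r ^ 2) < ENNReal.ofReal (1 / 4 * (2 * r) ^ 2) := by
    calc (1 / 2) * ENNReal.ofReal (4 * r ^ 2) ≤ (1 / 2) * volume (closedBall p r) := by gcongr
      _ < volume (B ∩ closedBall p r) := b3
      _ ≤ _ := b1.trans a2
  have b5 : (1 / 2 : ENNReal) = ENNReal.ofReal (1 / 2) := by
    rw [ENNReal.ofReal_div_of_pos (by norm_num)]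
    simp
  rw [b5, ← ENNReal.ofReal_mul (by norm_num), ENNReal.ofReal_lt_ofReal_iff (by positivity)] at b4
  nlinarith [pow_pos hr 2]

/-! ### The easy direction -/

lemma zd_of_full (B : Set (ℝ × ℝ)) (hB : MeasurableSet B) (a b : ℝ) :
    ∀ᵐ x : ℝ, volume ({y | (x, y) ∈ B} ∩ Ioo a b) = 0 → ∀ y ∈ Ioo a b, ZD B (x, y) := by
  set Γ : Set ℝ := {x | volume ({y | (x, y) ∈ B} ∩ Ioo a b) = 0} with hΓ
  have hΓm : MeasurableSet Γ := by
    have h1 : Measurable fun x : ℝ => volume (Prod.mk x ⁻¹' (B ∩ univ ×ˢ Ioo a b)) :=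
      measurable_measure_prodMk_left (hB.inter (MeasurableSet.univ.prod measurableSet_Ioo))
    have h2 : Γ = (fun x : ℝ => volume (Prod.mk x ⁻¹' (B ∩ univ ×ˢ Ioo a b))) ⁻¹' {0} := by
      ext x
      simp only [hΓ, mem_ofPred_eq, mem_preimage, mem_singleton_iff]
      have : ({y | (x, y) ∈ B} ∩ Ioo a b : Set ℝ) = Prod.mk x ⁻¹' (B ∩ univ ×ˢ Ioo a b) := by
        ext y
        simp
      rw [this]
    rw [h2]
    exact h1 (measurableSet_singleton 0)
  have h := Besicovitch.ae_tendsto_measure_inter_div_of_measurableSet (volume : Measure ℝ) hΓm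
  -- the null set
  have hN : volume {p : ℝ × ℝ | p.1 ∈ Γ ∧ p.2 ∈ Ioo a b ∧ p ∈ B} = 0 := by
    have hm : MeasurableSet {p : ℝ × ℝ | p.1 ∈ Γ ∧ p.2 ∈ Ioo a b ∧ p ∈ B} :=
      (measurable_fst hΓm).inter ((measurable_snd measurableSet_Ioo).inter hB)
    rw [Measure.volume_eq_prod, Measure.measure_prod_null hm]
    filter_upwards with x
    by_cases hx : x ∈ Γ
    · refine measure_mono_null ?_ hx
      rintro y ⟨_, hy1, hy2⟩
      exact ⟨hy2, hy1⟩
    · have : (Prod.mk x ⁻¹' {p : ℝ × ℝ | p.1 ∈ Γ ∧ p.2 ∈ Ioo a b ∧ p ∈ B}) = ∅ := by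
        ext y
        simp [hx]
      rw [this]
      simp
  filter_upwards [h] with x hx hx0 y hy κ hκ
  have hxΓ : x ∈ Γ := hx0
  rw [indicator_of_mem hxΓ] at hx
  -- the complement of `Γ` has small density
  set δ : ℝ := min (κ / 4) (1 / 2) with hδ
  have hδ0 : 0 < δ := lt_min (by positivity) (by norm_num)
  have hδ1 : δ ≤ 1 / 2 := min_le_right _ _
  have hδ2 : δ ≤ κ / 4 := min_le_left _ _
  have hlt : ENNReal.ofReal (1 - δ) < (1 : ℝ → ENNReal) x := by
    rw [Pi.one_apply, ENNReal.ofReal_lt_one]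
    linarith
  have h2 := hx.eventually (eventually_gt_nhds hlt)
  have h3 : ∀ᶠ r in 𝓝[>] (0 : ℝ), r < min (y - a) (b - y) :=
    eventually_nhdsWithin_of_eventually_nhds
      (eventually_lt_nhds (lt_min (by linarith [hy.1]) (by linarith [hy.2])))
  filter_upwards [h2, h3, self_mem_nhdsWithin] with r a1 a2 a3
  have hr : (0 : ℝ) < r := a3
  have e1 : r < y - a := a2.trans_le (min_le_left _ _)
  have e2 : r < b - y := a2.trans_le (min_le_right _ _)
  have hvol : volume (closedBall x r) = ENNReal.ofReal (2 * r) := Real.volume_closedBall x r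
  have b1 : ENNReal.ofReal ((1 - δ) * (2 * r)) ≤ volume (Γ ∩ closedBall x r) := by
    rw [ENNReal.ofReal_mul (by linarith), ← hvol]
    refine ((ENNReal.le_div_iff_mul_le (Or.inl ?_) (Or.inl ?_)).1 a1.le)
    · rw [hvol, Ne, ENNReal.ofReal_eq_zero]; linarith
    · rw [hvol]; exact ENNReal.ofReal_ne_top
  have b2 : volume (Γᶜ ∩ closedBall x r) ≤ ENNReal.ofReal (δ * (2 * r)) := by
    have c1 : volume (Γᶜ ∩ closedBall x r) + ENNReal.ofReal ((1 - δ) * (2 * r)) ≤
        ENNReal.ofReal (δ * (2 * r)) + ENNReal.ofReal ((1 - δ) * (2 * r)) := by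
      rw [← ENNReal.ofReal_add (by positivity) (mul_nonneg (by linarith) (by positivity))]
      have : δ * (2 * r) + (1 - δ) * (2 * r) = 2 * r := by ring
      rw [this, ← hvol]
      calc volume (Γᶜ ∩ closedBall x r) + ENNReal.ofReal ((1 - δ) * (2 * r))
          ≤ volume (Γᶜ ∩ closedBall x r) + volume (Γ ∩ closedBall x r) := by gcongr
        _ = volume (closedBall x r) := by
            rw [inter_comm, inter_comm Γ, add_comm]
            rw [← measure_inter_add_sdiff (closedBall x r) hΓm]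
            rfl
    exact (ENNReal.add_le_add_iff_right ENNReal.ofReal_ne_top).1 c1
  calc volume (ball (x, y) r ∩ B)
      ≤ volume (((Γᶜ ∩ closedBall x r) ×ˢ ball y r) ∪
          {p : ℝ × ℝ | p.1 ∈ Γ ∧ p.2 ∈ Ioo a b ∧ p ∈ B}) := by
        apply measure_mono
        rintro ⟨u, v⟩ ⟨huv, hB'⟩
        rw [← ball_prod_same] at huv
        by_cases hu : u ∈ Γ
        · right
          refine ⟨hu, ?_, hB'⟩
          have hv : v ∈ ball y r := huv.2
          rw [mem_ball, Real.dist_eq, abs_lt] at hv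
          exact ⟨by linarith [hv.1], by linarith [hv.2]⟩
        · left
          exact ⟨⟨hu, ball_subset_closedBall huv.1⟩, huv.2⟩
    _ ≤ volume ((Γᶜ ∩ closedBall x r) ×ˢ ball y r) + 0 := by
        rw [← hN]
        exact measure_union_le _ _
    _ = volume (Γᶜ ∩ closedBall x r) * volume (ball y r) := by
        rw [add_zero, Measure.volume_eq_prod, Measure.prod_prod]
    _ ≤ ENNReal.ofReal (δ * (2 * r)) * ENNReal.ofReal (2 * r) := by
        rw [Real.volume_ball]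
        gcongr
    _ = ENNReal.ofReal (4 * δ * r ^ 2) := by
        rw [← ENNReal.ofReal_mul (by positivity)]
        congr 1; ring
    _ ≤ ENNReal.ofReal (κ * r ^ 2) := by
        apply ENNReal.ofReal_le_ofReal
        nlinarith [sq_nonneg r]

theorem slice_easy (B : Set (ℝ × ℝ)) (hB : MeasurableSet B) :
    ∀ᵐ x : ℝ, ∀ y, ¬ ZD B (x, y) → ¬ ZD Bᶜ (x, y) → y ∈ suppBdry {y | (x, y) ∈ B} := by
  have h1 : ∀ᵐ x : ℝ, ∀ a b : ℚ, volume ({y | (x, y) ∈ B} ∩ Ioo (a : ℝ) b) = 0 →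
      ∀ y ∈ Ioo (a : ℝ) b, ZD B (x, y) := by
    rw [ae_all_iff]
    intro a
    rw [ae_all_iff]
    intro b
    exact zd_of_full B hB a b
  have h2 : ∀ᵐ x : ℝ, ∀ a b : ℚ, volume ({y | (x, y) ∈ Bᶜ} ∩ Ioo (a : ℝ) b) = 0 →
      ∀ y ∈ Ioo (a : ℝ) b, ZD Bᶜ (x, y) := by
    rw [ae_all_iff]
    intro a
    rw [ae_all_iff]
    intro b
    exact zd_of_full Bᶜ hB.compl a b
  filter_upwards [h1, h2] with x hx1 hx2 y hy1 hy2 ε hε
  obtain ⟨a, ha1, ha2⟩ := exists_rat_btwn (show y - ε < y by linarith)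
  obtain ⟨b, hb1, hb2⟩ := exists_rat_btwn (show y < y + ε by linarith)
  constructor
  · rw [pos_iff_ne_zero]
    intro h0
    apply hy1
    refine hx1 a b (measure_mono_null (inter_subset_inter_right _ ?_) h0) y ⟨ha2, hb1⟩
    exact Ioo_subset_Ioo ha1.le hb2.le
  · rw [pos_iff_ne_zero]
    intro h0
    apply hy2
    refine hx2 a b (measure_mono_null (inter_subset_inter_right _ ?_) h0) y ⟨ha2, hb1⟩
    exact Ioo_subset_Ioo ha1.le hb2.le

/-! ### The other direction -/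

/-- points at which the density of `B` is uniformly small -/
def NS (δ : ℝ) (B : Set (ℝ × ℝ)) : Set (ℝ × ℝ) :=
  {p | ∀ r ∈ Ioo 0 δ, volume (ball p r ∩ B) ≤ ENNReal.ofReal (r ^ 2 / 8)}

lemma NS_anti {δ δ' : ℝ} (h : δ' ≤ δ) (B : Set (ℝ × ℝ)) : NS δ B ⊆ NS δ' B :=
  fun _ hp r hr => hp r ⟨hr.1, hr.2.trans_le h⟩

lemma exists_NS {B : Set (ℝ × ℝ)} {p : ℝ × ℝ} (h : ZD B p) :
    ∃ k : ℕ, p ∈ NS (1 / ((k : ℝ) + 1)) B := by
  have h1 := h (1 / 8) (by norm_num)
  rw [eventually_nhdsWithin_iff, Metric.eventually_nhds_iff] at h1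
  obtain ⟨ε, hε, h2⟩ := h1
  obtain ⟨k, hk⟩ := exists_nat_one_div_lt hε
  refine ⟨k, fun r hr => ?_⟩
  have h3 := h2 (y := r) (by
    rw [Real.dist_eq, sub_zero, abs_of_pos hr.1]
    exact hr.2.trans hk) hr.1
  rw [one_div, inv_mul_eq_div] at h3
  exact h3

lemma isClosed_NS (δ : ℝ) (B : Set (ℝ × ℝ)) : IsClosed (NS δ B) := by
  rw [← isOpen_compl_iff, Metric.isOpen_iff]
  intro p hp
  simp only [NS, mem_compl_iff, mem_ofPred_eq, not_forall, not_le] at hp
  obtain ⟨r, hr, h1⟩ := hp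
  have h2 : ∀ᶠ ε in 𝓝[>] (0 : ℝ), ENNReal.ofReal ((r + ε) ^ 2 / 8) < volume (ball p r ∩ B) := by
    have : Tendsto (fun ε : ℝ => ENNReal.ofReal ((r + ε) ^ 2 / 8)) (𝓝 0)
        (𝓝 (ENNReal.ofReal ((r + 0) ^ 2 / 8))) := by
      apply (ENNReal.continuous_ofReal.tendsto _).comp
      apply Continuous.tendsto
      fun_prop
    rw [add_zero] at this
    exact (this.mono_left nhdsWithin_le_nhds).eventually (eventually_lt_nhds h1)
  have h3 : ∀ᶠ ε in 𝓝[>] (0 : ℝ), ε < δ - r :=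
    eventually_nhdsWithin_of_eventually_nhds (eventually_lt_nhds (by linarith [hr.2]))
  obtain ⟨ε, a1, a2, a3⟩ := (h2.and (h3.and self_mem_nhdsWithin)).exists
  have hε : (0 : ℝ) < ε := a3
  refine ⟨ε, hε, fun q hq => ?_⟩
  simp only [NS, mem_compl_iff, mem_ofPred_eq, not_forall, not_le]
  refine ⟨r + ε, ⟨by linarith [hr.1], by linarith⟩, a1.trans_le ?_⟩
  apply measure_mono
  apply inter_subset_inter_left
  intro z hz
  rw [mem_ball] at hz hq ⊢
  calc dist z q ≤ dist z p + dist p q := dist_triangle _ _ _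
    _ < r + ε := by
      rw [dist_comm p q]
      linarith

lemma not_zd_of_NS {δ : ℝ} (hδ : 0 < δ) {B : Set (ℝ × ℝ)} {p : ℝ × ℝ} (h1 : p ∈ NS δ B)
    (h2 : ZD Bᶜ p) : False := by
  have h3 := h2 1 (by norm_num)
  have h4 : ∀ᶠ r in 𝓝[>] (0 : ℝ), r < δ :=
    eventually_nhdsWithin_of_eventually_nhds (eventually_lt_nhds hδ)
  obtain ⟨r, a1, a2, a3⟩ := (h3.and (h4.and self_mem_nhdsWithin)).exists
  have hr : (0 : ℝ) < r := a3
  have h5 := h1 r ⟨hr, a2⟩
  have h6 : volume (ball p r) ≤ ENNReal.ofReal (r ^ 2 / 8) + ENNReal.ofReal (1 * r ^ 2) := by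
    calc volume (ball p r) ≤ volume ((ball p r ∩ B) ∪ (ball p r ∩ Bᶜ)) := by
          apply measure_mono
          rw [inter_union_compl]
      _ ≤ volume (ball p r ∩ B) + volume (ball p r ∩ Bᶜ) := measure_union_le _ _
      _ ≤ _ := add_le_add h5 a1
  rw [volume_ball_prod p hr.le, ← ENNReal.ofReal_add (by positivity) (by positivity),
    ENNReal.ofReal_le_ofReal_iff (by positivity)] at h6
  nlinarith [pow_pos hr 2]

/-- points of `NS δ B` with full density of `B` just above (`σ = 1`) or just below (`σ = -1`) -/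
def NSd (σ δ : ℝ) (B : Set (ℝ × ℝ)) : Set (ℝ × ℝ) :=
  {p | p ∈ NS δ B ∧ ∀ s ∈ Ioo 0 δ, ZD Bᶜ (p.1, p.2 + σ * s)}

lemma null_NSd_pos {δ : ℝ} (hδ : 0 < δ) (B : Set (ℝ × ℝ)) (hB : MeasurableSet B) :
    volume (Prod.fst '' NSd 1 δ B) = 0 := by
  have hcover : Prod.fst '' NSd 1 δ B ⊆ ⋃ j : ℤ, Prod.fst ''
      (NSd 1 δ B ∩ {p | (j : ℝ) * (δ / 4) ≤ p.2 ∧ p.2 < (j + 1) * (δ / 4)}) := by
    rintro x ⟨p, hp, rfl⟩
    rw [mem_iUnion]
    refine ⟨⌊p.2 / (δ / 4)⌋, p, ⟨hp, ?_, ?_⟩, rfl⟩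
    · have := Int.floor_le (p.2 / (δ / 4))
      rwa [le_div_iff₀ (by positivity)] at this
    · have := Int.lt_floor_add_one (p.2 / (δ / 4))
      rwa [div_lt_iff₀ (by positivity)] at this
  refine measure_mono_null hcover (measure_iUnion_null fun j => ?_)
  set N := NSd 1 δ B ∩ {p : ℝ × ℝ | (j : ℝ) * (δ / 4) ≤ p.2 ∧ p.2 < (j + 1) * (δ / 4)} with hN
  set P := Prod.fst '' N with hP
  by_contra hne
  have hae := Besicovitch.ae_tendsto_measure_inter_div (volume : Measure ℝ) P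
  have hrne : volume.restrict P ≠ 0 := by
    intro h
    rw [Measure.restrict_eq_zero] at h
    exact hne h
  have : (ae (volume.restrict P)).NeBot := ae_neBot.2 hrne
  obtain ⟨x0, hx0⟩ := hae.exists
  have hlt : ENNReal.ofReal (3 / 4) < 1 := by
    rw [ENNReal.ofReal_lt_one]; norm_num
  have h2 := hx0.eventually (eventually_gt_nhds hlt)
  have h3 : ∀ᶠ r in 𝓝[>] (0 : ℝ), r < δ / 8 :=
    eventually_nhdsWithin_of_eventually_nhds (eventually_lt_nhds (by positivity))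
  obtain ⟨r, a1, a2, a3⟩ := (h2.and (h3.and self_mem_nhdsWithin)).exists
  have hr : (0 : ℝ) < r := a3
  have hvol : volume (closedBall x0 r) = ENNReal.ofReal (2 * r) := Real.volume_closedBall x0 r
  have b1 : ENNReal.ofReal (3 / 2 * r) ≤ volume (P ∩ closedBall x0 r) := by
    have : (3 / 2 * r : ℝ) = 3 / 4 * (2 * r) := by ring
    rw [this, ENNReal.ofReal_mul (by norm_num), ← hvol]
    refine ((ENNReal.le_div_iff_mul_le (Or.inl ?_) (Or.inl ?_)).1 a1.le)
    · rw [hvol, Ne, ENNReal.ofReal_eq_zero]; linarith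
    · rw [hvol]; exact ENNReal.ofReal_ne_top
  -- the heights
  set Y : Set ℝ := {y | ∃ x ∈ closedBall x0 r, (x, y) ∈ N} with hY
  have hYne : Y.Nonempty := by
    have hne' : (P ∩ closedBall x0 r).Nonempty := by
      rw [nonempty_iff_ne_empty]
      intro h0
      rw [h0, measure_empty, nonpos_iff_eq_zero, ENNReal.ofReal_eq_zero] at b1
      linarith
    obtain ⟨x, ⟨p, hp, rfl⟩, hx⟩ := hne'
    exact ⟨p.2, p.1, hx, hp⟩
  have hYbdd : BddAbove Y := by
    refine ⟨(j + 1) * (δ / 4), ?_⟩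
    rintro y ⟨x, _, hxy⟩
    exact hxy.2.2.le
  obtain ⟨y1, ⟨x1, hx1, hxy1⟩, hy1⟩ := exists_lt_of_lt_csSup hYne
    (show sSup Y - r / 8 < sSup Y by linarith)
  have hyle : ∀ y ∈ Y, y ≤ sSup Y := fun y hy => le_csSup hYbdd hy
  have hy1le : y1 ≤ sSup Y := hyle y1 ⟨x1, hx1, hxy1⟩
  have hprod : (P ∩ closedBall x0 r) ×ˢ Ioo (sSup Y) (y1 + 2 * r) ⊆
      ball (x1, y1) (3 * r) ∩ {p | ZD Bᶜ p} := by
    rintro ⟨x, y⟩ ⟨⟨⟨p, hp, hpx⟩, hx⟩, hy⟩
    simp only at hpx hx hy
    constructor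
    · rw [← ball_prod_same]
      constructor
      · rw [mem_ball]
        rw [mem_closedBall] at hx hx1
        calc dist x x1 ≤ dist x x0 + dist x0 x1 := dist_triangle _ _ _
          _ ≤ r + r := by
            rw [dist_comm x0 x1]
            exact add_le_add hx hx1
          _ < 3 * r := by linarith
      · rw [mem_ball, Real.dist_eq, abs_lt]
        constructor
        · linarith [hy.1]
        · linarith [hy.2]
    · have hpY : p.2 ∈ Y := ⟨p.1, by rw [hpx]; exact hx, hp⟩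
      have h4 := hp.1.2 (y - p.2) (by
        constructor
        · linarith [hy.1, hyle _ hpY]
        · have e1 := hp.2.1
          have e2 := hxy1.2.2
          simp only at e2
          have e3 := hy.2
          linarith)
      rw [hpx, one_mul, add_sub_cancel] at h4
      exact h4
  have hzd : volume ({p | ZD Bᶜ p} \ B) = 0 := by
    have := ae_not_zd Bᶜ hB.compl
    rw [ae_iff] at this
    refine measure_mono_null ?_ this
    rintro p ⟨hp1, hp2⟩
    simp only [mem_ofPred_eq, not_not]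
    exact ⟨hp2, hp1⟩
  have b2 : ENNReal.ofReal (45 / 16 * r ^ 2) ≤ volume (ball (x1, y1) (3 * r) ∩ B) := by
    calc ENNReal.ofReal (45 / 16 * r ^ 2)
        = ENNReal.ofReal (3 / 2 * r) * ENNReal.ofReal (15 / 8 * r) := by
          rw [← ENNReal.ofReal_mul (by positivity)]
          congr 1; ring
      _ ≤ volume (P ∩ closedBall x0 r) * volume (Ioo (sSup Y) (y1 + 2 * r)) := by
          rw [Real.volume_Ioo]
          gcongr
          linarith
      _ = volume ((P ∩ closedBall x0 r) ×ˢ Ioo (sSup Y) (y1 + 2 * r)) := by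
          rw [Measure.volume_eq_prod, Measure.prod_prod]
      _ ≤ volume (ball (x1, y1) (3 * r) ∩ {p | ZD Bᶜ p}) := measure_mono hprod
      _ ≤ volume ((ball (x1, y1) (3 * r) ∩ B) ∪ ({p | ZD Bᶜ p} \ B)) := by
          apply measure_mono
          rintro p ⟨hp1, hp2⟩
          by_cases hpB : p ∈ B
          · exact Or.inl ⟨hp1, hpB⟩
          · exact Or.inr ⟨hp2, hpB⟩
      _ ≤ volume (ball (x1, y1) (3 * r) ∩ B) + 0 := by
          rw [← hzd]
          exact measure_union_le _ _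
      _ = _ := add_zero _
  have b3 := hxy1.1.1 (3 * r) ⟨by positivity, by linarith⟩
  have b4 := b2.trans b3
  rw [ENNReal.ofReal_le_ofReal_iff (by positivity)] at b4
  nlinarith [pow_pos hr 2]

lemma reflect_zd (B : Set (ℝ × ℝ)) (p : ℝ × ℝ) :
    ZD ((fun q : ℝ × ℝ => (q.1, -q.2)) ⁻¹' B) p ↔ ZD B (p.1, -p.2) := by
  have h : ∀ r : ℝ, volume (ball p r ∩ (fun q : ℝ × ℝ => (q.1, -q.2)) ⁻¹' B) =
      volume (ball (p.1, -p.2) r ∩ B) := by
    intro r
    let e : (ℝ × ℝ) ≃ᵐ (ℝ × ℝ) := (MeasurableEquiv.refl ℝ).prodCongr (MeasurableEquiv.neg ℝ)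
    have he : MeasurePreserving e volume volume := by
      rw [Measure.volume_eq_prod]
      exact (MeasurePreserving.id volume).prod (Measure.measurePreserving_neg volume)
    rw [← he.measure_preimage_equiv (ball (p.1, -p.2) r ∩ B)]
    congr 1
    ext q
    obtain ⟨u, v⟩ := q
    obtain ⟨x, y⟩ := p
    simp only [mem_inter_iff, mem_preimage]
    rw [← ball_prod_same, ← ball_prod_same]
    simp only [mem_prod, mem_ball, e]
    have : dist (-v) (-y) = dist v y := dist_neg_neg v y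
    change (_ ∧ _) ∧ _ ↔ (dist u x < r ∧ dist (-v) (-y) < r) ∧ (u, -v) ∈ B
    rw [this]
  unfold ZD
  simp only [h]

lemma null_NSd_neg {δ : ℝ} (hδ : 0 < δ) (B : Set (ℝ × ℝ)) (hB : MeasurableSet B) :
    volume (Prod.fst '' NSd (-1) δ B) = 0 := by
  set ρ : ℝ × ℝ → ℝ × ℝ := fun q => (q.1, -q.2) with hρ
  have hm : MeasurableSet (ρ ⁻¹' B) := (by fun_prop : Measurable ρ) hB
  refine measure_mono_null ?_ (null_NSd_pos hδ (ρ ⁻¹' B) hm)
  rintro x ⟨p, ⟨hp1, hp2⟩, rfl⟩
  refine ⟨(p.1, -p.2), ⟨?_, ?_⟩, rfl⟩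
  · intro r hr
    have h1 := hp1 r hr
    refine le_trans (le_of_eq ?_) h1
    let e : (ℝ × ℝ) ≃ᵐ (ℝ × ℝ) := (MeasurableEquiv.refl ℝ).prodCongr (MeasurableEquiv.neg ℝ)
    have he : MeasurePreserving e volume volume := by
      rw [Measure.volume_eq_prod]
      exact (MeasurePreserving.id volume).prod (Measure.measurePreserving_neg volume)
    rw [← he.measure_preimage_equiv (ball p r ∩ B)]
    congr 1
    ext q
    obtain ⟨u, v⟩ := q
    obtain ⟨x, y⟩ := p
    simp only [mem_inter_iff, mem_preimage]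
    rw [← ball_prod_same, ← ball_prod_same]
    simp only [mem_prod, mem_ball]
    have : dist (-v) y = dist v (-y) := by
      rw [Real.dist_eq, Real.dist_eq, ← abs_neg]
      congr 1; ring
    change _ ↔ (dist u x < r ∧ dist (-v) y < r) ∧ (u, -v) ∈ B
    rw [this]
  · intro s hs
    have h1 := hp2 s hs
    have h2 : (ρ ⁻¹' B)ᶜ = ρ ⁻¹' Bᶜ := rfl
    rw [h2, reflect_zd]
    simp only
    have : -(-p.2 + 1 * s) = p.2 + -1 * s := by ring
    rw [this]
    exact h1

/-- The Baire category argument. -/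
lemma baire_aux (B : Set (ℝ × ℝ)) (x : ℝ)
    (hgood : ∀ k : ℕ, x ∉ Prod.fst '' NSd 1 (1 / ((k : ℝ) + 1)) B ∧
      x ∉ Prod.fst '' NSd (-1) (1 / ((k : ℝ) + 1)) B)
    {a b : ℝ} (hdich : ∀ y ∈ Ioo a b, ZD B (x, y) ∨ ZD Bᶜ (x, y))
    {p ε : ℝ} (hp : p ∈ Ioo a b) (hε : 0 < ε)
    (hpO : p ∈ closure {y | y ∈ Ioo a b ∧ ZD Bᶜ (x, y)}) (hpI : p ∈ closure {y | y ∈ Ioo a b ∧ ZD B (x, y)})
    (k : ℕ) (hF : ∀ y ∈ Ioo a b, y ∈ closure {y | y ∈ Ioo a b ∧ ZD B (x, y)} →
      y ∈ closure {y | y ∈ Ioo a b ∧ ZD Bᶜ (x, y)} → |y - p| < ε →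
      (x, y) ∈ NS (1 / ((k : ℝ) + 1)) B) : False := by
  set I : Set ℝ := {y | y ∈ Ioo a b ∧ ZD B (x, y)} with hI
  set O : Set ℝ := {y | y ∈ Ioo a b ∧ ZD Bᶜ (x, y)} with hO
  have hk0 : (0 : ℝ) < 1 / ((k : ℝ) + 1) := by positivity
  obtain ⟨q, hqO, hq⟩ := Metric.mem_closure_iff.1 hpO ε hε
  have hqp : |q - p| < ε := by
    rw [dist_comm, Real.dist_eq] at hq
    exact hq
  have hqnF : q ∉ closure I := by
    intro hqI
    exact not_zd_of_NS hk0 (hF q hqO.1 hqI (subset_closure hqO) hqp) hqO.2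
  have hne : p ≠ q := by
    rintro rfl
    exact hqnF hpI
  -- a common argument for both sides
  have hkey : ∀ (J : Set ℝ), IsPreconnected J → J ⊆ Ioo a b → q ∈ J →
      (∀ y ∈ J, ¬ (y ∈ closure I ∧ y ∈ closure O)) → ∀ y ∈ J, ZD Bᶜ (x, y) := by
    intro J hJ hJab hqJ hJF y hy
    have hJ' := isPreconnected_iff_subset_of_disjoint.1 hJ (closure I)ᶜ (closure O)ᶜ
      isClosed_closure.isOpen_compl isClosed_closure.isOpen_compl (by
        intro z hz
        by_cases hzI : z ∈ closure I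
        · exact Or.inr fun hzO => hJF z hz ⟨hzI, hzO⟩
        · exact Or.inl hzI) (by
        rw [eq_empty_iff_forall_notMem]
        rintro z ⟨hzJ, hz1, hz2⟩
        rcases hdich z (hJab hzJ) with h | h
        · exact hz1 (subset_closure ⟨hJab hzJ, h⟩)
        · exact hz2 (subset_closure ⟨hJab hzJ, h⟩))
    rcases hJ' with h | h
    · have hyI := h hy
      rcases hdich y (hJab hy) with h' | h'
      · exact absurd (subset_closure (show y ∈ I from ⟨hJab hy, h'⟩)) hyI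
      · exact h'
    · exact absurd (subset_closure hqO) (h hqJ)
  have hmono : ∀ t > (0 : ℝ), ∃ k' : ℕ, 1 / ((k' : ℝ) + 1) ≤ t ∧
      1 / ((k' : ℝ) + 1) ≤ 1 / ((k : ℝ) + 1) := by
    intro t ht
    obtain ⟨k1, hk1⟩ := exists_nat_one_div_lt ht
    refine ⟨max k k1, ?_, ?_⟩
    · refine le_trans ?_ hk1.le
      apply one_div_le_one_div_of_le (by positivity)
      have : (k1 : ℝ) ≤ (max k k1 : ℕ) := by exact_mod_cast le_max_right _ _
      linarith
    · apply one_div_le_one_div_of_le (by positivity)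
      have : (k : ℝ) ≤ (max k k1 : ℕ) := by exact_mod_cast le_max_left _ _
      linarith
  rcases lt_or_gt_of_ne hne with hpq | hpq
  · -- `p < q`
    set K : Set ℝ := (closure I ∩ closure O) ∩ Icc p q with hK
    have hKc : IsCompact K := (isCompact_Icc).inter_left (isClosed_closure.inter isClosed_closure)
    have hKne : K.Nonempty := ⟨p, ⟨hpI, hpO⟩, le_rfl, hpq.le⟩
    set c := sSup K with hc
    have hcK : c ∈ K := hKc.sSup_mem hKne
    have hcq : c < q := lt_of_le_of_ne hcK.2.2 fun h => hqnF (h ▸ hcK.1.1)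
    have hsub : Ioc c q ⊆ Ioo a b := by
      intro y hy
      exact ⟨by linarith [hy.1, hcK.2.1, hp.1], by linarith [hy.2, hqO.1.2]⟩
    have hall := hkey (Ioc c q) isPreconnected_Ioc hsub ⟨hcq, le_rfl⟩ (by
      rintro y hy ⟨h1, h2⟩
      have : y ≤ c := le_csSup hKc.bddAbove ⟨⟨h1, h2⟩, by linarith [hy.1, hcK.2.1], hy.2⟩
      linarith [hy.1])
    have hcNS : (x, c) ∈ NS (1 / ((k : ℝ) + 1)) B := by
      refine hF c ⟨by linarith [hp.1, hcK.2.1], by linarith [hqO.1.2]⟩ hcK.1.1 hcK.1.2 ?_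
      rw [abs_lt] at hqp ⊢
      constructor <;> linarith [hcK.2.1]
    obtain ⟨k', hk1, hk2⟩ := hmono (q - c) (by linarith)
    apply (hgood k').1
    refine ⟨(x, c), ⟨NS_anti hk2 B hcNS, ?_⟩, rfl⟩
    intro s hs
    rw [one_mul]
    exact hall (c + s) ⟨by linarith [hs.1], by linarith [hs.2]⟩
  · -- `q < p`
    set K : Set ℝ := (closure I ∩ closure O) ∩ Icc q p with hK
    have hKc : IsCompact K := (isCompact_Icc).inter_left (isClosed_closure.inter isClosed_closure)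
    have hKne : K.Nonempty := ⟨p, ⟨hpI, hpO⟩, hpq.le, le_rfl⟩
    set c := sInf K with hc
    have hcK : c ∈ K := hKc.sInf_mem hKne
    have hcq : q < c := lt_of_le_of_ne hcK.2.1 fun h => hqnF (h ▸ hcK.1.1)
    have hsub : Ico q c ⊆ Ioo a b := by
      intro y hy
      exact ⟨by linarith [hy.1, hqO.1.1], by linarith [hy.2, hcK.2.2, hp.2]⟩
    have hall := hkey (Ico q c) isPreconnected_Ico hsub ⟨le_rfl, hcq⟩ (by
      rintro y hy ⟨h1, h2⟩
      have : c ≤ y := csInf_le hKc.bddBelow ⟨⟨h1, h2⟩, hy.1, by linarith [hy.2, hcK.2.2]⟩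
      linarith [hy.2])
    have hcNS : (x, c) ∈ NS (1 / ((k : ℝ) + 1)) B := by
      refine hF c ⟨by linarith [hqO.1.1], by linarith [hp.2, hcK.2.2]⟩ hcK.1.1 hcK.1.2 ?_
      rw [abs_lt] at hqp ⊢
      constructor <;> linarith [hcK.2.2]
    obtain ⟨k', hk1, hk2⟩ := hmono (c - q) (by linarith)
    apply (hgood k').2
    refine ⟨(x, c), ⟨NS_anti hk2 B hcNS, ?_⟩, rfl⟩
    intro s hs
    have : c + -1 * s = c - s := by ring
    rw [this]
    exact hall (c - s) ⟨by linarith [hs.2], by linarith [hs.1]⟩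

lemma baire_main (B : Set (ℝ × ℝ)) (x : ℝ)
    (hgood : ∀ k : ℕ, x ∉ Prod.fst '' NSd 1 (1 / ((k : ℝ) + 1)) B ∧
      x ∉ Prod.fst '' NSd (-1) (1 / ((k : ℝ) + 1)) B)
    (hgood' : ∀ k : ℕ, x ∉ Prod.fst '' NSd 1 (1 / ((k : ℝ) + 1)) Bᶜ ∧
      x ∉ Prod.fst '' NSd (-1) (1 / ((k : ℝ) + 1)) Bᶜ)
    {a b : ℝ} (hdich : ∀ y ∈ Ioo a b, ZD B (x, y) ∨ ZD Bᶜ (x, y)) :
    (∀ y ∈ Ioo a b, ZD B (x, y)) ∨ (∀ y ∈ Ioo a b, ZD Bᶜ (x, y)) := by
  by_contra hcon
  rw [not_or] at hcon
  push Not at hcon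
  obtain ⟨⟨yO, hyO, hyO'⟩, ⟨yI, hyI, hyI'⟩⟩ := hcon
  set I : Set ℝ := {y | y ∈ Ioo a b ∧ ZD B (x, y)} with hI
  set O : Set ℝ := {y | y ∈ Ioo a b ∧ ZD Bᶜ (x, y)} with hO
  have hyOO : yO ∈ O := ⟨hyO, (hdich yO hyO).resolve_left hyO'⟩
  have hyII : yI ∈ I := ⟨hyI, (hdich yI hyI).resolve_right hyI'⟩
  set F : Set ℝ := Ioo a b ∩ (closure I ∩ closure O) with hF
  have hFne : F.Nonempty := by
    by_contra hFe
    rw [not_nonempty_iff_eq_empty] at hFe
    have hno : ∀ y ∈ Ioo a b, ¬ (y ∈ closure I ∧ y ∈ closure O) := by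
      intro y hy h
      have : y ∈ F := ⟨hy, h⟩
      rw [hFe] at this
      exact this
    have hJ' := isPreconnected_iff_subset_of_disjoint.1 (isPreconnected_Ioo (a := a) (b := b))
      (closure I)ᶜ (closure O)ᶜ
      isClosed_closure.isOpen_compl isClosed_closure.isOpen_compl (by
        intro z hz
        by_cases hzI : z ∈ closure I
        · exact Or.inr fun hzO => hno z hz ⟨hzI, hzO⟩
        · exact Or.inl hzI) (by
        rw [eq_empty_iff_forall_notMem]
        rintro z ⟨hzJ, hz1, hz2⟩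
        rcases hdich z hzJ with h | h
        · exact hz1 (subset_closure ⟨hzJ, h⟩)
        · exact hz2 (subset_closure ⟨hzJ, h⟩))
    rcases hJ' with h | h
    · exact h hyI (subset_closure hyII)
    · exact h hyO (subset_closure hyOO)
  have hloc : IsLocallyClosed F :=
    isOpen_Ioo.isLocallyClosed.inter (isClosed_closure.inter isClosed_closure).isLocallyClosed
  have : LocallyCompactSpace F := hloc.locallyCompactSpace
  have : Nonempty F := hFne.to_subtype
  let f : ℕ × Bool → Set F := fun kβ => {y | (x, (y : ℝ)) ∈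
    NS (1 / ((kβ.1 : ℝ) + 1)) (if kβ.2 then B else Bᶜ)}
  have hfc : ∀ i, IsClosed (f i) := by
    intro i
    exact (isClosed_NS _ _).preimage (by fun_prop)
  have hfU : ⋃ i, f i = univ := by
    rw [eq_univ_iff_forall]
    intro y
    rw [mem_iUnion]
    rcases hdich y y.2.1 with h | h
    · obtain ⟨k, hk⟩ := exists_NS h
      exact ⟨(k, true), by simpa [f] using hk⟩
    · obtain ⟨k, hk⟩ := exists_NS h
      exact ⟨(k, false), by simpa [f] using hk⟩
  obtain ⟨⟨k, β⟩, ⟨p, hp⟩⟩ := nonempty_interior_of_iUnion_of_closed hfc hfU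
  rw [mem_interior_iff_mem_nhds, Metric.mem_nhds_iff] at hp
  obtain ⟨ε, hε, hball⟩ := hp
  have hall : ∀ y ∈ Ioo a b, y ∈ closure I → y ∈ closure O → |y - p| < ε →
      (x, y) ∈ NS (1 / ((k : ℝ) + 1)) (if β then B else Bᶜ) := by
    intro y hy h1 h2 h3
    have hyF : y ∈ F := ⟨hy, h1, h2⟩
    have : (⟨y, hyF⟩ : F) ∈ f (k, β) := by
      apply hball
      rw [mem_ball, Subtype.dist_eq, Real.dist_eq]
      exact h3
    exact this
  rcases β with _ | _
  · simp only [Bool.false_eq_true, if_false] at hall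
    refine baire_aux Bᶜ x hgood' (a := a) (b := b) ?_ p.2.1 hε ?_ ?_ k ?_
    · intro y hy
      rw [compl_compl]
      exact (hdich y hy).symm
    · rw [compl_compl]
      exact p.2.2.1
    · exact p.2.2.2
    · intro y hy h1 h2 h3
      rw [compl_compl] at h2
      exact hall y hy h2 h1 h3
  · simp only [if_true] at hall
    exact baire_aux B x hgood hdich p.2.1 hε p.2.2.2 p.2.2.1 k hall

theorem slice_hard (B : Set (ℝ × ℝ)) (hB : MeasurableSet B) :
    ∀ᵐ x : ℝ, ∀ a b : ℝ, (∀ y ∈ Ioo a b, ZD B (x, y) ∨ ZD Bᶜ (x, y)) →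
      ∀ y ∈ Ioo a b, y ∉ suppBdry {y | (x, y) ∈ B} := by
  have hpos : ∀ k : ℕ, (0 : ℝ) < 1 / ((k : ℝ) + 1) := fun k => by positivity
  have hn : ∀ C : Set (ℝ × ℝ), MeasurableSet C → ∀ᵐ x : ℝ, ∀ k : ℕ,
      x ∉ Prod.fst '' NSd 1 (1 / ((k : ℝ) + 1)) C ∧
      x ∉ Prod.fst '' NSd (-1) (1 / ((k : ℝ) + 1)) C := by
    intro C hC
    rw [ae_all_iff]
    intro k
    have h1 := null_NSd_pos (hpos k) C hC
    have h2 := null_NSd_neg (hpos k) C hC
    filter_upwards [measure_eq_zero_iff_ae_notMem.1 h1, measure_eq_zero_iff_ae_notMem.1 h2]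
      with x hx1 hx2
    exact ⟨hx1, hx2⟩
  have hz : ∀ C : Set (ℝ × ℝ), MeasurableSet C → ∀ᵐ x : ℝ, ∀ᵐ y : ℝ,
      ¬ ((x, y) ∈ C ∧ ZD C (x, y)) := by
    intro C hC
    have := ae_not_zd C hC
    rw [Measure.volume_eq_prod] at this
    exact Measure.ae_ae_of_ae_prod this
  filter_upwards [hn B hB, hn Bᶜ hB.compl, hz B hB, hz Bᶜ hB.compl] with x h1 h2 h3 h4 a b hdich y
    hy hs
  have hε : 0 < min (y - a) (b - y) := lt_min (by linarith [hy.1]) (by linarith [hy.2])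
  have hsub : Ioo (y - min (y - a) (b - y)) (y + min (y - a) (b - y)) ⊆ Ioo a b := by
    have e1 := min_le_left (y - a) (b - y)
    have e2 := min_le_right (y - a) (b - y)
    exact Ioo_subset_Ioo (by linarith) (by linarith)
  rcases baire_main B x h1 h2 hdich with h | h
  · refine absurd ?_ (hs _ hε).1.ne'
    refine measure_mono_null (inter_subset_inter_right _ hsub) ?_
    rw [ae_iff] at h3
    refine measure_mono_null ?_ h3
    rintro z ⟨hz1, hz2⟩
    simp only [mem_ofPred_eq, not_not]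
    exact ⟨hz1, h z hz2⟩
  · refine absurd ?_ (hs _ hε).2.ne'
    refine measure_mono_null (inter_subset_inter_right _ hsub) ?_
    rw [ae_iff] at h4
    refine measure_mono_null ?_ h4
    rintro z ⟨hz1, hz2⟩
    simp only [mem_ofPred_eq, not_not]
    exact ⟨hz1, h z hz2⟩

end Pool.Agent.CauchyInt
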