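import Pool.Agent.CauchyInt.Polar

/-!
# Slices of the essential boundary in logarithmic polar coordinates
-/

namespace Pool.Agent.CauchyInt

open MeasureTheory Set Filter Topology Metric NNReal ENNReal

/-- the essential boundary -/
def EE (B : Set ℂ) : Set ℂ := {ζ | ¬ ZDc B ζ ∧ ¬ ZDc Bᶜ ζ}

lemma EE_compl (B : Set ℂ) : EE Bᶜ = EE B := by
  ext ζ
  simp only [EE, mem_ofPred_eq, compl_compl]
  exact and_comm

/-- the slices of a set -/
def sl (c : ℂ) (β : Bool) (B : Set ℂ) (x : ℝ) : Set ℝ := {y | Phi c β (x, y) ∈ B}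

lemma measurableSet_sl (c : ℂ) (β : Bool) {B : Set ℂ} (hB : MeasurableSet B) (x : ℝ) :
    MeasurableSet (sl c β B x) :=
  ((continuous_Phi c β).comp (Continuous.prodMk_right x)).measurable hB

theorem slice_E (c : ℂ) (β : Bool) (B : Set ℂ) (hB : MeasurableSet B) :
    ∀ᵐ x : ℝ, ∀ y, Phi c β (x, y) ∈ EE B → y ∈ suppBdry (sl c β B x) := by
  have hm : MeasurableSet (Phi c β ⁻¹' B) := (continuous_Phi c β).measurable hB
  filter_upwards [slice_easy _ hm] with x hx y hy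
  apply hx y
  · rw [transfer_zd]; exact hy.1
  · rw [← preimage_compl, transfer_zd]; exact hy.2

theorem slice_E' (c : ℂ) (β : Bool) (B : Set ℂ) (hB : MeasurableSet B) :
    ∀ᵐ x : ℝ, ∀ a b : ℝ, (∀ y ∈ Ioo a b, Phi c β (x, y) ∉ EE B) →
      ∀ y ∈ Ioo a b, y ∉ suppBdry (sl c β B x) := by
  have hm : MeasurableSet (Phi c β ⁻¹' B) := (continuous_Phi c β).measurable hB
  filter_upwards [slice_hard _ hm] with x hx a b hab
  apply hx a b
  intro y hy
  have := hab y hy
  simp only [EE, mem_ofPred_eq, not_and_or, not_not] at this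
  rw [← preimage_compl, transfer_zd, transfer_zd]
  exact this

lemma norm_Phi_sub (c : ℂ) (β : Bool) (p : ℝ × ℝ) :
    ‖Phi c β p - c‖ = Real.exp (if β then p.2 else p.1) := by
  rw [Phi_sub, Complex.norm_exp, ell_apply]
  cases β <;> simp [dir, dir']

lemma Phi_injOn (c : ℂ) (β : Bool) (x : ℝ) : InjOn (fun y => Phi c β (x, y)) (Dy β) := by
  intro y hy y' hy' h
  cases β
  · have h1 : Complex.exp (ell false (x, y)) = Complex.exp (ell false (x, y')) := by
      have := congrArg (· - c) h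
      simpa [Phi] using this
    rw [Complex.exp_eq_exp_iff_exists_int] at h1
    obtain ⟨n, hn⟩ := h1
    rw [ell_apply, ell_apply] at hn
    have him := congrArg Complex.im hn
    simp [dir, dir'] at him
    have hy2 : y ∈ Ico 0 (2 * Real.pi) := hy
    have hy2' : y' ∈ Ico 0 (2 * Real.pi) := hy'
    have hn0 : n = 0 := by
      by_contra hne
      rcases lt_or_gt_of_ne hne with h2 | h2
      · have : (n : ℝ) ≤ -1 := by exact_mod_cast Int.le_sub_one_of_lt h2
        nlinarith [hy2.1, hy2.2, hy2'.1, hy2'.2, Real.pi_pos]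
      · have : (1 : ℝ) ≤ n := by exact_mod_cast h2
        nlinarith [hy2.1, hy2.2, hy2'.1, hy2'.2, Real.pi_pos]
    rw [hn0] at him
    simpa using him
  · have h1 := norm_Phi_sub c true (x, y)
    have h2 := norm_Phi_sub c true (x, y')
    simp only at h
    rw [h, h2] at h1
    simpa using h1.symm

/-- the points of the plane in the slice `x` -/
def Lsl (c : ℂ) (β : Bool) (x : ℝ) : Set ℂ := {ζ | x ∈ Dx β ∧ ∃ y ∈ Dy β, Phi c β (x, y) = ζ}

lemma abs_log_sub {a b d : ℝ} (hd : 0 < d) (ha : d ≤ a) (hb : d ≤ b) :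
    |Real.log a - Real.log b| ≤ |a - b| / d := by
  have key : ∀ a b : ℝ, d ≤ a → d ≤ b → Real.log a - Real.log b ≤ |a - b| / d := by
    intro a b ha hb
    have ha0 : 0 < a := hd.trans_le ha
    have hb0 : 0 < b := hd.trans_le hb
    rw [← Real.log_div ha0.ne' hb0.ne']
    have h1 := Real.log_le_sub_one_of_pos (div_pos ha0 hb0)
    have h2 : a / b - 1 = (a - b) / b := by field_simp
    rw [h2] at h1
    refine h1.trans ?_
    calc (a - b) / b ≤ |a - b| / b := by gcongr; exact le_abs_self _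
      _ ≤ |a - b| / d := by gcongr
  rw [abs_le]
  constructor
  · have := key b a hb ha
    rw [abs_sub_comm] at this
    linarith
  · exact key a b ha hb

lemma unit_diff {u v : ℂ} {d : ℝ} (hd : 0 < d) (hu : d ≤ ‖u‖) (hv : d ≤ ‖v‖) :
    ‖u / ‖u‖ - v / ‖v‖‖ ≤ 2 * ‖u - v‖ / d := by
  have hu0 : 0 < ‖u‖ := hd.trans_le hu
  have hv0 : 0 < ‖v‖ := hd.trans_le hv
  have h1 : u / ‖u‖ - v / ‖v‖ = ((u - v) + v * ((‖v‖ - ‖u‖ : ℝ) / ‖v‖ : ℂ)) / ‖u‖ := by
    have h1 : (‖u‖ : ℂ) ≠ 0 := by exact_mod_cast hu0.ne'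
    have h2 : (‖v‖ : ℂ) ≠ 0 := by exact_mod_cast hv0.ne'
    push_cast
    field_simp
    ring
  rw [h1, norm_div, Complex.norm_real, norm_norm]
  have h2 : ‖(u - v) + v * ((‖v‖ - ‖u‖ : ℝ) / ‖v‖ : ℂ)‖ ≤ 2 * ‖u - v‖ := by
    refine (norm_add_le _ _).trans ?_
    rw [norm_mul, norm_div, Complex.norm_real, Complex.norm_real, norm_norm,
      mul_div_cancel₀ _ hv0.ne', Real.norm_eq_abs]
    have := abs_norm_sub_norm_le v u
    rw [norm_sub_rev v u] at this
    linarith
  calc _ ≤ 2 * ‖u - v‖ / ‖u‖ := by gcongr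
    _ ≤ 2 * ‖u - v‖ / d := by gcongr

lemma proj_bound (c : ℂ) (β : Bool) {d : ℝ} (hd : 0 < d) (D : Set ℂ)
    (hD : ∀ ζ ∈ D, d ≤ ‖ζ - c‖) (hne : D.Nonempty) :
    ∃ M : Set ℝ, MeasurableSet M ∧ (∀ x, (Lsl c β x ∩ D).Nonempty → x ∈ M) ∧
      volume M ≤ ENNReal.ofReal (16 / d) * ediam D := by
  by_cases htop : ediam D = ⊤
  · refine ⟨univ, MeasurableSet.univ, fun _ _ => mem_univ _, ?_⟩
    rw [htop, ENNReal.mul_top]
    · exact le_top
    · rw [Ne, ENNReal.ofReal_eq_zero, not_le]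
      positivity
  set ℓ : ℝ := (ediam D).toReal with hℓ
  have hℓ0 : 0 ≤ ℓ := ENNReal.toReal_nonneg
  have hdist : ∀ ζ ∈ D, ∀ ξ ∈ D, ‖ζ - ξ‖ ≤ ℓ := by
    intro ζ hζ ξ hξ
    rw [← dist_eq_norm, hℓ, ← ENNReal.ofReal_le_iff_le_toReal htop, ← edist_dist]
    exact edist_le_ediam_of_mem hζ hξ
  have hofReal : ENNReal.ofReal (16 / d) * ediam D = ENNReal.ofReal (16 / d * ℓ) := by
    rw [ENNReal.ofReal_mul (by positivity), hℓ, ENNReal.ofReal_toReal htop]
  obtain ⟨ζ₀, hζ₀⟩ := hne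
  rw [hofReal]
  have hpi := Real.pi_pos
  have hpi4 := Real.pi_le_four
  cases β
  · refine ⟨Icc (Real.log ‖ζ₀ - c‖ - ℓ / d) (Real.log ‖ζ₀ - c‖ + ℓ / d), measurableSet_Icc, ?_, ?_⟩
    · rintro x ⟨ζ, ⟨_, y, _, rfl⟩, hζ⟩
      have h1 := norm_Phi_sub c false (x, y)
      simp only [Bool.false_eq_true, if_false] at h1
      have h2 : x = Real.log ‖Phi c false (x, y) - c‖ := by rw [h1, Real.log_exp]
      have h3 := abs_log_sub hd (hD _ hζ) (hD _ hζ₀)
      rw [← h2] at h3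
      have h4 : |‖Phi c false (x, y) - c‖ - ‖ζ₀ - c‖| ≤ ℓ := by
        refine (abs_norm_sub_norm_le _ _).trans ?_
        rw [sub_sub_sub_cancel_right]
        exact hdist _ hζ _ hζ₀
      have h5 : |x - Real.log ‖ζ₀ - c‖| ≤ ℓ / d := h3.trans (by gcongr)
      rw [abs_le] at h5
      constructor <;> linarith [h5.1, h5.2]
    · rw [Real.volume_Icc]
      apply ENNReal.ofReal_le_ofReal
      have : 0 ≤ ℓ / d := by positivity
      have h2 : 16 / d * ℓ = 16 * (ℓ / d) := by ring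
      rw [h2]
      linarith
  · set θ := Complex.arg (ζ₀ - c) with hθ
    set κ : ℝ := 2 * ℓ / d with hκ
    have hκ0 : 0 ≤ κ := by positivity
    refine ⟨Icc (θ - Real.pi * κ / 2) (θ + Real.pi * κ / 2) ∪
      Icc (θ + 2 * Real.pi - Real.pi * κ / 2) (θ + 2 * Real.pi + Real.pi * κ / 2),
      measurableSet_Icc.union measurableSet_Icc, ?_, ?_⟩
    · rintro x ⟨ζ, ⟨hx, y, _, hxy⟩, hζ⟩
      have hx' : x ∈ Ioo 0 (2 * Real.pi) := hx
      have h1 := norm_Phi_sub c true (x, y)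
      have h0 : Phi c true (x, y) - c = Real.exp y * Complex.exp (x * Complex.I) := by
        rw [Phi_sub, ell_apply]
        simp only [dir, dir', mul_one]
        rw [add_comm, Complex.exp_add, Complex.ofReal_exp]
      rw [hxy] at h0 h1
      simp only [if_true] at h1
      have hu : (ζ - c) / ‖ζ - c‖ = Complex.exp (x * Complex.I) := by
        rw [h1, h0]
        have : ((Real.exp y : ℝ) : ℂ) ≠ 0 := by exact_mod_cast (Real.exp_pos y).ne'
        field_simp
      have hv : (ζ₀ - c) / ‖ζ₀ - c‖ = Complex.exp (θ * Complex.I) := by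
        have h2 := Complex.norm_mul_exp_arg_mul_I (ζ₀ - c)
        have h3 : (‖ζ₀ - c‖ : ℂ) ≠ 0 := by
          exact_mod_cast (hd.trans_le (hD _ hζ₀)).ne'
        rw [div_eq_iff h3, mul_comm]
        exact h2.symm
      have h2 := unit_diff hd (hD _ hζ) (hD _ hζ₀)
      rw [hu, hv] at h2
      have h3 : ‖ζ - c - (ζ₀ - c)‖ ≤ ℓ := by
        rw [sub_sub_sub_cancel_right]
        exact hdist _ hζ _ hζ₀
      have h4 : ‖Complex.exp (x * Complex.I) - Complex.exp (θ * Complex.I)‖ ≤ κ := by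
        refine h2.trans ?_
        rw [hκ]
        gcongr
      have h5 : ‖Complex.exp (x * Complex.I) - Complex.exp (θ * Complex.I)‖ =
          2 * |Real.sin ((x - θ) / 2)| := by
        have e1 : Complex.exp (x * Complex.I) - Complex.exp (θ * Complex.I) =
            Complex.exp (θ * Complex.I) * (Complex.exp (((x - θ : ℝ) : ℂ) * Complex.I) - 1) := by
          rw [mul_sub, ← Complex.exp_add, mul_one]
          congr 2
          push_cast
          ring
        rw [e1, norm_mul, Complex.norm_exp_ofReal_mul_I, one_mul]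
        have e2 := Complex.norm_exp_I_mul_ofReal_sub_one (x - θ)
        rw [mul_comm] at e2
        rw [e2, norm_mul]
        simp
      rw [h5] at h4
      have hθ1 := Complex.neg_pi_lt_arg (ζ₀ - c)
      have hθ2 := Complex.arg_le_pi (ζ₀ - c)
      rw [← hθ] at hθ1 hθ2
      rcases le_total ((x - θ) / 2) (Real.pi / 2) with h6 | h6
      · left
        have h7 : |(x - θ) / 2| ≤ Real.pi / 2 := by
          rw [abs_le]
          constructor <;> linarith [hx'.1]
        have h8 := Real.mul_abs_le_abs_sin h7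
        have h9 : |(x - θ) / 2| ≤ Real.pi * κ / 4 := by
          have : 2 * (2 / Real.pi * |(x - θ) / 2|) ≤ κ := by linarith
          rw [← mul_assoc, ← mul_div_assoc, div_mul_eq_mul_div, div_le_iff₀ hpi] at this
          linarith
        rw [abs_le] at h9
        constructor <;> linarith [h9.1, h9.2]
      · right
        have h7 : |(x - θ) / 2 - Real.pi| ≤ Real.pi / 2 := by
          rw [abs_le]
          constructor <;> linarith [hx'.2]
        have h8 := Real.mul_abs_le_abs_sin h7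
        rw [Real.sin_sub_pi, abs_neg] at h8
        have h9 : |(x - θ) / 2 - Real.pi| ≤ Real.pi * κ / 4 := by
          have : 2 * (2 / Real.pi * |(x - θ) / 2 - Real.pi|) ≤ κ := by linarith
          rw [← mul_assoc, ← mul_div_assoc, div_mul_eq_mul_div, div_le_iff₀ hpi] at this
          linarith
        rw [abs_le] at h9
        constructor <;> linarith [h9.1, h9.2]
    · refine (measure_union_le _ _).trans ?_
      rw [Real.volume_Icc, Real.volume_Icc, ← ENNReal.ofReal_add (by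
        have : 0 ≤ Real.pi * κ := by positivity
        linarith) (by
        have : 0 ≤ Real.pi * κ := by positivity
        linarith)]
      apply ENNReal.ofReal_le_ofReal
      have h2 : 16 / d * ℓ = 8 * κ := by rw [hκ]; ring
      rw [h2]
      nlinarith

theorem count_bound (c : ℂ) (β : Bool) {d : ℝ} (hd : 0 < d) (T : Set ℂ)
    (hT : ∀ ζ ∈ T, d ≤ ‖ζ - c‖) :
    ∃ g : ℝ → ℝ≥0∞, Measurable g ∧ (∀ x ∈ Dx β, ∀ F : Finset ℝ,
      (∀ y ∈ F, y ∈ Dy β ∧ Phi c β (x, y) ∈ T) → (F.card : ℝ≥0∞) ≤ g x) ∧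
      ∫⁻ x, g x ≤ ENNReal.ofReal (16 / d) * μH[1] T := by
  classical
  by_cases htop : μH[1] T = ⊤
  · refine ⟨fun _ => ⊤, measurable_const, fun _ _ _ _ => le_top, ?_⟩
    rw [htop, ENNReal.mul_top]
    · exact le_top
    · rw [Ne, ENNReal.ofReal_eq_zero, not_le]
      positivity
  obtain ⟨g, hg1, hg2, hg3⟩ := eilenberg (T := T) (L := Lsl c β) (C := ENNReal.ofReal (16 / d))
    ENNReal.ofReal_ne_top htop (fun D hDT hne =>
      proj_bound c β hd D (fun ζ hζ => hT ζ (hDT hζ)) hne)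
  refine ⟨g, hg1, fun x hx F hF => ?_, hg3⟩
  have h1 := hg2 x (F.image fun y => Phi c β (x, y)) (by
    intro ζ hζ
    rw [Finset.mem_coe, Finset.mem_image] at hζ
    obtain ⟨y, hy, rfl⟩ := hζ
    exact ⟨⟨hx, y, (hF y hy).1, rfl⟩, (hF y hy).2⟩)
  rwa [Finset.card_image_of_injOn (fun a ha b hb hab =>
    Phi_injOn c β x (hF a ha).1 (hF b hb).1 hab)] at h1

/-- the sums over slices -/
noncomputable def Sx (c : ℂ) (β : Bool) (E : Set ℂ) (F : ℂ → ℝ≥0∞) (x : ℝ) : ℝ≥0∞ :=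
  ∑' y : {y : ℝ // y ∈ Dy β ∧ Phi c β (x, y) ∈ E}, F (Phi c β (x, y))

/-- the integrated sums -/
noncomputable def NN (c : ℂ) (β : Bool) (E : Set ℂ) (F : ℂ → ℝ≥0∞) : ℝ≥0∞ :=
  ∫⁻ x in Dx β, Sx c β E F x

lemma Sx_mono (c : ℂ) (β : Bool) (E : Set ℂ) {F F' : ℂ → ℝ≥0∞} (h : ∀ ζ ∈ E, F ζ ≤ F' ζ)
    (x : ℝ) : Sx c β E F x ≤ Sx c β E F' x :=
  ENNReal.tsum_le_tsum fun y => h _ y.2.2

lemma NN_mono (c : ℂ) (β : Bool) (E : Set ℂ) {F F' : ℂ → ℝ≥0∞} (h : ∀ ζ ∈ E, F ζ ≤ F' ζ) :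
    NN c β E F ≤ NN c β E F' :=
  lintegral_mono fun x => Sx_mono c β E h x

lemma Sx_const_mul (c : ℂ) (β : Bool) (E : Set ℂ) (F : ℂ → ℝ≥0∞) (a : ℝ≥0∞) (x : ℝ) :
    Sx c β E (fun ζ => a * F ζ) x = a * Sx c β E F x := ENNReal.tsum_mul_left

lemma NN_const_mul (c : ℂ) (β : Bool) (E : Set ℂ) (F : ℂ → ℝ≥0∞) {a : ℝ≥0∞} (ha : a ≠ ⊤) :
    NN c β E (fun ζ => a * F ζ) = a * NN c β E F := by
  unfold NN
  simp_rw [Sx_const_mul]
  rw [lintegral_const_mul' _ _ ha]

theorem weighted (c : ℂ) (β : Bool) {d : ℝ} (hd : 0 < d) (T : Set ℂ)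
    (hT : ∀ ζ ∈ T, d ≤ ‖ζ - c‖) {q : ℂ → ℝ≥0∞} (hq : Measurable q) :
    ∃ g : ℝ → ℝ≥0∞, Measurable g ∧ (∀ x ∈ Dx β, Sx c β T q x ≤ g x) ∧
      ∫⁻ x, g x ≤ ENNReal.ofReal (16 / d) * ∫⁻ ζ in T, q ζ ∂μH[1] := by
  refine Measurable.ennreal_induction (motive := fun q => ∃ g : ℝ → ℝ≥0∞, Measurable g ∧
    (∀ x ∈ Dx β, Sx c β T q x ≤ g x) ∧
      ∫⁻ x, g x ≤ ENNReal.ofReal (16 / d) * ∫⁻ ζ in T, q ζ ∂μH[1]) ?_ ?_ ?_ hq
  · intro a s hs
    obtain ⟨g, hg1, hg2, hg3⟩ := count_bound c β hd (T ∩ s) (fun ζ hζ => hT ζ hζ.1)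
    refine ⟨fun x => a * g x, hg1.const_mul a, fun x hx => ?_, ?_⟩
    · have h1 : Sx c β T (s.indicator fun _ => a) x = a * Sx c β T (s.indicator fun _ => 1) x := by
        rw [← Sx_const_mul]
        congr 1
        ext ζ
        by_cases h : ζ ∈ s <;> simp [h]
      rw [h1]
      refine mul_le_mul' le_rfl ?_
      unfold Sx
      rw [ENNReal.tsum_eq_iSup_sum]
      refine iSup_le fun F => ?_
      classical
      set F' : Finset ℝ := (F.filter fun y : {y : ℝ // y ∈ Dy β ∧ Phi c β (x, y) ∈ T} =>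
        Phi c β (x, y.1) ∈ s).image (fun y => y.1) with hF'
      have h2 := hg2 x hx F' (by
        intro y hy
        rw [hF', Finset.mem_image] at hy
        obtain ⟨z, hz, rfl⟩ := hy
        exact ⟨z.2.1, z.2.2, (Finset.mem_filter.1 hz).2⟩)
      refine le_trans (le_of_eq ?_) h2
      rw [hF', Finset.card_image_of_injective _ Subtype.val_injective]
      simp only [indicator_apply]
      rw [← Finset.sum_filter]
      simp
    · rw [lintegral_const_mul a hg1, lintegral_indicator_const hs, Measure.restrict_apply hs,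
        inter_comm s T]
      calc a * ∫⁻ x, g x ≤ a * (ENNReal.ofReal (16 / d) * μH[1] (T ∩ s)) := by gcongr
        _ = _ := by ring
  · intro f f' _ hf hf' h1 h2
    obtain ⟨g, hg1, hg2, hg3⟩ := h1
    obtain ⟨g', hg1', hg2', hg3'⟩ := h2
    refine ⟨fun x => g x + g' x, hg1.add hg1', fun x hx => ?_, ?_⟩
    · have : Sx c β T (f + f') x = Sx c β T f x + Sx c β T f' x := ENNReal.tsum_add
      rw [this]
      exact add_le_add (hg2 x hx) (hg2' x hx)
    · rw [lintegral_add_left hg1]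
      simp only [Pi.add_apply]
      rw [lintegral_add_left hf, mul_add]
      exact add_le_add hg3 hg3'
  · intro f hf hmono h
    choose g hg1 hg2 hg3 using h
    refine ⟨fun x => liminf (fun n => g n x) atTop, Measurable.liminf hg1, fun x hx => ?_, ?_⟩
    · have h1 : Sx c β T (fun ζ => ⨆ n, f n ζ) x = ⨆ n, Sx c β T (f n) x := by
        unfold Sx
        rw [ENNReal.tsum_eq_iSup_sum]
        have h2 : ∀ F : Finset {y : ℝ // y ∈ Dy β ∧ Phi c β (x, y) ∈ T},
            ∑ y ∈ F, ⨆ n, f n (Phi c β (x, y)) = ⨆ n, ∑ y ∈ F, f n (Phi c β (x, y)) := by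
          intro F
          rw [ENNReal.finsetSum_iSup_of_monotone]
          intro y n m hnm
          exact hmono hnm _
        simp_rw [h2]
        rw [iSup_comm]
        congr 1
        ext n
        rw [ENNReal.tsum_eq_iSup_sum]
      rw [h1]
      have h3 : Monotone fun n => Sx c β T (f n) x := fun n m hnm =>
        Sx_mono c β T (fun ζ _ => hmono hnm ζ) x
      rw [← (tendsto_atTop_iSup h3).liminf_eq]
      exact liminf_le_liminf (Eventually.of_forall fun n => hg2 n x hx)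
    · refine (lintegral_liminf_le hg1).trans ?_
      refine liminf_le_of_le (by isBoundedDefault) ?_
      intro b hb
      obtain ⟨n, hn⟩ := hb.exists
      refine hn.trans ((hg3 n).trans ?_)
      gcongr
      exact le_iSup (fun n => f n _) n

/-- local finiteness of the length away from a point -/
def LocFin (E : Set ℂ) (η : ℂ) : Prop := ∀ δ > 0, μH[1] (E \ ball η δ) ≠ ⊤

lemma ae_Phi_ne (c : ℂ) (β : Bool) (η : ℂ) :
    ∀ᵐ x ∂(volume.restrict (Dx β)), ∀ y, Phi c β (x, y) ≠ η := by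
  rw [ae_restrict_iff' (measurableSet_Dx β)]
  rw [ae_iff]
  apply Subsingleton.measure_zero
  intro x hx x' hx'
  simp only [mem_ofPred_eq, Classical.not_imp, not_forall, not_not] at hx hx'
  obtain ⟨hx1, y, hy⟩ := hx
  obtain ⟨hx1', y', hy'⟩ := hx'
  cases β
  · have h1 := norm_Phi_sub c false (x, y)
    have h2 := norm_Phi_sub c false (x', y')
    rw [hy] at h1
    rw [hy', h1] at h2
    simpa using h2
  · have h1 := injOn_exp_strip c (x₁ := ell true (x, y)) (x₂ := ell true (x', y')) (by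
      show (x, y) ∈ ell true ⁻¹' strip
      rw [ell_preimage_strip]
      exact ⟨hx1, mem_univ _⟩) (by
      show (x', y') ∈ ell true ⁻¹' strip
      rw [ell_preimage_strip]
      exact ⟨hx1', mem_univ _⟩) (hy.trans hy'.symm)
    have h2 := (ell true).injective h1
    exact (Prod.ext_iff.1 h2).1

lemma finite_of_card_le {α : Type*} {S : Set α} {g : ℝ≥0∞} (hg : g < ⊤)
    (h : ∀ F : Finset α, (∀ y ∈ F, y ∈ S) → (F.card : ℝ≥0∞) ≤ g) : S.Finite := by
  by_contra hinf
  obtain ⟨n, hn⟩ := ENNReal.exists_nat_gt hg.ne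
  obtain ⟨F, hF, hcard⟩ := Set.Infinite.exists_subset_card_eq hinf n
  have := h F (fun y hy => hF hy)
  rw [hcard] at this
  exact absurd this (not_le.2 hn)

theorem slices_finite {E : Set ℂ} {η : ℂ} (hE : LocFin E η) (c : ℂ) (β : Bool) :
    ∀ᵐ x ∂(volume.restrict (Dx β)), ∀ a b : ℝ,
      {y | y ∈ Dy β ∧ y ∈ Icc a b ∧ Phi c β (x, y) ∈ E}.Finite := by
  have h1 : ∀ n : ℕ, ∀ᵐ x ∂(volume.restrict (Dx β)),
      {y | y ∈ Dy β ∧ Phi c β (x, y) ∈ E ∧ 1 / ((n : ℝ) + 1) ≤ ‖Phi c β (x, y) - η‖ ∧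
        1 / ((n : ℝ) + 1) ≤ ‖Phi c β (x, y) - c‖}.Finite := by
    intro n
    have hpos : (0 : ℝ) < 1 / ((n : ℝ) + 1) := by positivity
    obtain ⟨g, hg1, hg2, hg3⟩ := count_bound c β hpos
      ((E \ ball η (1 / ((n : ℝ) + 1))) ∩ {ζ | 1 / ((n : ℝ) + 1) ≤ ‖ζ - c‖}) (fun ζ hζ => hζ.2)
    have hfin : ∫⁻ x, g x ≠ ⊤ := by
      apply ne_top_of_le_ne_top _ hg3
      apply ENNReal.mul_ne_top ENNReal.ofReal_ne_top
      exact ne_top_of_le_ne_top (hE _ hpos) (measure_mono inter_subset_left)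
    have hae := ae_lt_top hg1 hfin
    rw [ae_restrict_iff' (measurableSet_Dx β)]
    filter_upwards [hae] with x hx hxD
    apply finite_of_card_le hx
    intro F hF
    apply hg2 x hxD F
    intro y hy
    obtain ⟨a1, a2, a3, a4⟩ := hF y hy
    refine ⟨a1, ⟨a2, ?_⟩, a4⟩
    rw [mem_ball, dist_eq_norm, not_lt]
    exact a3
  rw [← ae_all_iff] at h1
  filter_upwards [h1, ae_Phi_ne c β η] with x hx1 hx2 a b
  by_cases hab : (Icc a b).Nonempty
  swap
  · rw [not_nonempty_iff_eq_empty] at hab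
    refine Set.Finite.subset finite_empty ?_
    rintro y ⟨_, hy, _⟩
    rw [hab] at hy
    exact hy
  have hcont : Continuous fun y => Phi c β (x, y) :=
    (continuous_Phi c β).comp (Continuous.prodMk_right x)
  obtain ⟨y1, _, hy1⟩ := isCompact_Icc.exists_isMinOn hab
    ((hcont.sub (continuous_const (y := η))).norm.continuousOn)
  obtain ⟨y2, _, hy2⟩ := isCompact_Icc.exists_isMinOn hab
    ((hcont.sub (continuous_const (y := c))).norm.continuousOn)
  have p1 : 0 < ‖Phi c β (x, y1) - η‖ := norm_pos_iff.2 (sub_ne_zero.2 (hx2 y1))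
  have p2 : 0 < ‖Phi c β (x, y2) - c‖ := norm_pos_iff.2 (sub_ne_zero.2 (Phi_ne c β _))
  obtain ⟨n, hn⟩ := exists_nat_one_div_lt (lt_min p1 p2)
  refine (hx1 n).subset ?_
  rintro y ⟨b1, b2, b3⟩
  refine ⟨b1, b3, ?_, ?_⟩
  · exact hn.le.trans ((min_le_left _ _).trans (hy1 b2))
  · exact hn.le.trans ((min_le_right _ _).trans (hy2 b2))

end Pool.Agent.CauchyInt
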