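import Pool.Agent.CauchyInt.Geom

/-!
# Sufficiency
-/

namespace Pool.Agent.CauchyInt

open MeasureTheory Set Filter Topology Metric NNReal ENNReal

variable {A : Set ℂ} {η : ℂ} {Q : ℂ → ℝ} {S : Set ℂ}

/-- the truncated weight -/
noncomputable def Qr (η : ℂ) (Q : ℂ → ℝ) (r : ℝ) (ζ : ℂ) : ℝ :=
  if ‖ζ - η‖ < r then ‖ζ - η‖ * Q ζ else 0

/-- the smooth step -/
noncomputable def stp (η : ℂ) (s : ℝ) (ζ : ℂ) : ℝ :=
  Real.smoothTransition ((4 - ‖ζ - η‖ ^ 2 / s ^ 2) / 3)

lemma contDiff_stp (η : ℂ) (s : ℝ) : ContDiff ℝ 1 (stp η s) := by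
  unfold stp
  apply Real.smoothTransition.contDiff.comp
  apply ContDiff.div_const
  apply contDiff_const.sub
  apply ContDiff.div_const
  exact (contDiff_id.sub contDiff_const).norm_sq ℝ

lemma stp_nonneg (η : ℂ) (s : ℝ) (ζ : ℂ) : 0 ≤ stp η s ζ := Real.smoothTransition.nonneg _

lemma stp_le_one (η : ℂ) (s : ℝ) (ζ : ℂ) : stp η s ζ ≤ 1 := Real.smoothTransition.le_one _

lemma stp_eq_one {η : ℂ} {s : ℝ} (hs : 0 < s) {ζ : ℂ} (h : ‖ζ - η‖ ≤ s) : stp η s ζ = 1 := by
  apply Real.smoothTransition.one_of_one_le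
  have : ‖ζ - η‖ ^ 2 / s ^ 2 ≤ 1 := by
    rw [div_le_one (by positivity)]
    gcongr
  linarith

lemma stp_eq_zero {η : ℂ} {s : ℝ} (hs : 0 < s) {ζ : ℂ} (h : 2 * s ≤ ‖ζ - η‖) :
    stp η s ζ = 0 := by
  apply Real.smoothTransition.zero_of_nonpos
  have : 4 ≤ ‖ζ - η‖ ^ 2 / s ^ 2 := by
    rw [le_div_iff₀ (by positivity)]
    have : (2 * s) ^ 2 ≤ ‖ζ - η‖ ^ 2 := by gcongr
    linarith
  linarith

lemma Test.apply_self {c : ℂ} {φ : ℂ → ℝ} (h : Test c φ) : φ c = 0 := by
  by_contra hne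
  exact h.away (subset_tsupport φ hne)

lemma Test.kappa {c : ℂ} {φ κ : ℂ → ℝ} (h : Test c φ) (hκ : ContDiff ℝ 1 κ) :
    Test c (fun ζ => κ ζ * φ ζ) := h.mul_left fun _ _ => hκ.contDiffAt

/-- the uniform estimate on smooth functions -/
theorem uniform_bound (hA : AdmissibleSet A) (hQ : AdmissibleWeight A η Q)
    (hS : AdmissibleApproach A η S) (β : Bool) {B₁ B₂ : ℝ} (hB₁ : 0 ≤ B₁) (hB₂ : 0 ≤ B₂)
    (h1 : NN η β (EE Aᶜ) (fun ζ => ENNReal.ofReal (Q ζ)) ≤ ENNReal.ofReal B₁)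
    (h2 : ∀ r > (0 : ℝ), NN η (!β) (EE Aᶜ) (fun ζ => ENNReal.ofReal (Qr η Q r ζ)) ≤
      ENNReal.ofReal (B₂ * r)) :
    ∃ t₀ > (0 : ℝ), ∃ C : ℝ, 0 ≤ C ∧ ∀ z ∈ S, ‖z - η‖ < t₀ → ∀ φ : ℂ → ℝ, Test η φ →
      ∀ q : ℝ, 0 ≤ q → (∀ ζ ∈ frontier A, |φ ζ| ≤ q * Q ζ) →
        |Tc β (cauchyInt A (fun ζ => (φ ζ : ℂ)) z)| ≤ C * q := by
  have hη := hQ.mem_frontier
  obtain ⟨t₀, ht₀, C, hC, c₀, _, hgeom⟩ := geom hS hη
  refine ⟨t₀, ht₀, C * B₁ + 10 * C * B₂, by positivity, ?_⟩
  intro z hz hzt φ hφ q hq hφq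
  have hzi := hS.subset_interior hz
  have hzη : z ≠ η := fun he => frontier_notMem_interior hη (he ▸ hzi)
  set t := ‖z - η‖ with ht
  have ht0 : 0 < t := norm_pos_iff.2 (sub_ne_zero.2 hzη)
  obtain ⟨κ, hκ1, hκ2, hκz, hκ⟩ := exists_kappa hzi
  set φ' : ℂ → ℝ := fun ζ => κ ζ * φ ζ with hφ'
  have hT' : Test η φ' := hφ.mul_left fun _ _ => hκ1.contDiffAt
  have hz' : ∀ ζ ∈ tsupport φ', ζ ≠ z := by
    intro ζ hζ he
    apply hκz
    have h3 : φ' = fun ζ => φ ζ * κ ζ := by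
      ext ζ
      rw [hφ']
      ring
    rw [h3] at hζ
    rw [← he]
    exact tsupport_mul_subset' φ κ hζ
  have hφ'q : ∀ ζ ∈ frontier A, |φ' ζ| ≤ q * Q ζ := by
    intro ζ hζ
    rw [hφ']
    simp only
    rw [(hκ ζ (frontier_notMem_interior hζ)).self_of_nhds, one_mul]
    exact hφq ζ hζ
  have hform := formula_kappa hA.measurableSet hφ.contDiff hφ.compact hκ1 hκz hκ hT'.away β
  have hTre : Test η (fun ζ => (wq η z ζ).re * φ' ζ) :=
    hT'.mul_left fun ζ hζ => contDiffAt_wq_re (hz' ζ hζ)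
  set ψ : ℂ → ℝ := fun ζ => (wq η z ζ).im * φ' ζ with hψ
  have hTψ : Test η ψ := hT'.mul_left fun ζ hζ => contDiffAt_wq_im (hz' ζ hζ)
  have hφη := hT'.apply_self
  -- the first term
  have e1 : |RR η β Aᶜ (fun ζ => (wq η z ζ).re * φ' ζ)| ≤ C * q * B₁ := by
    apply RR_le_real hA hQ hTre (F := fun ζ => ENNReal.ofReal (C * q) * ENNReal.ofReal (Q ζ))
    · intro ζ hζ
      have hζ' := EE_subset A hζ
      rw [← ENNReal.ofReal_mul (by positivity)]
      apply ENNReal.ofReal_le_ofReal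
      rcases eq_or_ne ζ η with he | he
      · rw [he, hφη, mul_zero, abs_zero]
        have := hQ.nonneg η hη
        positivity
      · rw [abs_mul]
        calc |(wq η z ζ).re| * |φ' ζ| ≤ C * (q * Q ζ) := by
              apply mul_le_mul (hgeom z hz hzt ζ hζ' he).1 (hφ'q ζ hζ') (abs_nonneg _) hC.le
          _ = C * q * Q ζ := by ring
    · positivity
    · rw [NN_const_mul _ _ _ _ ENNReal.ofReal_ne_top, ENNReal.ofReal_mul (by positivity : 0 ≤ C * q)]
      gcongr
  -- the functions of the second term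
  have hTs : ∀ s, Test η (fun ζ => stp η s ζ * ψ ζ) := fun s =>
    hTψ.mul_left fun _ _ => (contDiff_stp η s).contDiffAt
  have e2 : |RR η (!β) Aᶜ (fun ζ => stp η t ζ * ψ ζ)| ≤ 2 * C * B₂ * q := by
    apply RR_le_real hA hQ (hTs t)
      (F := fun ζ => ENNReal.ofReal (C * q / t) * ENNReal.ofReal (Qr η Q (2 * t) ζ))
    · intro ζ hζ
      have hζ' := EE_subset A hζ
      rw [← ENNReal.ofReal_mul (by positivity)]
      apply ENNReal.ofReal_le_ofReal
      rw [Qr]
      split_ifs with hlt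
      · rcases eq_or_ne ζ η with he | he
        · rw [hψ]
          simp only
          rw [he, hφη, mul_zero, mul_zero, abs_zero, sub_self, norm_zero, zero_mul, mul_zero]
        · rw [abs_mul, abs_of_nonneg (stp_nonneg _ _ _), hψ]
          simp only
          rw [abs_mul]
          have g := (hgeom z hz hzt ζ hζ' he).2.1
          calc stp η t ζ * (|(wq η z ζ).im| * |φ' ζ|) ≤
              1 * (C * (‖ζ - η‖ / t) * (q * Q ζ)) := by
                apply mul_le_mul (stp_le_one _ _ _) _ (by positivity) zero_le_one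
                apply mul_le_mul g (hφ'q ζ hζ') (abs_nonneg _) (by positivity)
            _ = C * q / t * (‖ζ - η‖ * Q ζ) := by ring
      · rw [stp_eq_zero ht0 (not_lt.1 hlt), zero_mul, abs_zero, mul_zero]
    · positivity
    · rw [NN_const_mul _ _ _ _ ENNReal.ofReal_ne_top]
      calc ENNReal.ofReal (C * q / t) * NN η (!β) (EE Aᶜ)
            (fun ζ => ENNReal.ofReal (Qr η Q (2 * t) ζ)) ≤
          ENNReal.ofReal (C * q / t) * ENNReal.ofReal (B₂ * (2 * t)) := by
            gcongr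
            exact h2 (2 * t) (by positivity)
        _ = ENNReal.ofReal (2 * C * B₂ * q) := by
            rw [← ENNReal.ofReal_mul (by positivity)]
            congr 1
            field_simp
  have e3 : ∀ k : ℕ, |RR η (!β) Aᶜ (fun ζ => stp η (2 ^ (k + 1) * t) ζ * ψ ζ -
      stp η (2 ^ k * t) ζ * ψ ζ)| ≤ 4 * C * B₂ * q * (1 / 2) ^ k := by
    intro k
    have hs0 : 0 < 2 ^ k * t := by positivity
    apply RR_le_real hA hQ ((hTs _).sub (hTs _))
      (F := fun ζ => ENNReal.ofReal (C * q * t / (2 ^ k * t) ^ 2) *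
        ENNReal.ofReal (Qr η Q (2 ^ (k + 2) * t) ζ))
    · intro ζ hζ
      have hζ' := EE_subset A hζ
      rw [← ENNReal.ofReal_mul (by positivity)]
      apply ENNReal.ofReal_le_ofReal
      rw [← sub_mul]
      rcases le_or_gt ‖ζ - η‖ (2 ^ k * t) with hle | hgt
      · rw [stp_eq_one hs0 hle, stp_eq_one (by positivity) (hle.trans (by
          rw [pow_succ]
          nlinarith)), sub_self, zero_mul, abs_zero]
        apply mul_nonneg (by positivity)
        rw [Qr]
        split_ifs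
        · have := hQ.nonneg ζ hζ'
          positivity
        · exact le_rfl
      · have hρ : 0 < ‖ζ - η‖ := hs0.trans hgt
        have he : ζ ≠ η := fun he => by
          rw [he, sub_self, norm_zero] at hρ
          exact lt_irrefl _ hρ
        rw [Qr]
        split_ifs with hlt
        · rw [abs_mul, hψ]
          simp only
          rw [abs_mul]
          have g := (hgeom z hz hzt ζ hζ' he).2.2.1
          have hst : |stp η (2 ^ (k + 1) * t) ζ - stp η (2 ^ k * t) ζ| ≤ 1 := by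
            rw [abs_le]
            have a1 := stp_nonneg η (2 ^ (k + 1) * t) ζ
            have a2 := stp_le_one η (2 ^ (k + 1) * t) ζ
            have a3 := stp_nonneg η (2 ^ k * t) ζ
            have a4 := stp_le_one η (2 ^ k * t) ζ
            constructor <;> linarith
          have hQ0 := hQ.nonneg ζ hζ'
          calc |stp η (2 ^ (k + 1) * t) ζ - stp η (2 ^ k * t) ζ| *
                (|(wq η z ζ).im| * |φ' ζ|) ≤ 1 * (C * (t / ‖ζ - η‖) * (q * Q ζ)) := by
                apply mul_le_mul hst _ (by positivity) zero_le_one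
                apply mul_le_mul g (hφ'q ζ hζ') (abs_nonneg _) (by positivity)
            _ = C * q * t / ‖ζ - η‖ ^ 2 * (‖ζ - η‖ * Q ζ) := by field_simp
            _ ≤ C * q * t / (2 ^ k * t) ^ 2 * (‖ζ - η‖ * Q ζ) := by gcongr
        · have hge := not_lt.1 hlt
          rw [stp_eq_zero hs0 (le_trans (by
            rw [pow_add]
            nlinarith) hge), stp_eq_zero (by positivity) (le_trans (le_of_eq (by ring)) hge),
            sub_self, zero_mul, abs_zero, mul_zero]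
    · positivity
    · rw [NN_const_mul _ _ _ _ ENNReal.ofReal_ne_top]
      calc ENNReal.ofReal (C * q * t / (2 ^ k * t) ^ 2) * NN η (!β) (EE Aᶜ)
            (fun ζ => ENNReal.ofReal (Qr η Q (2 ^ (k + 2) * t) ζ)) ≤
          ENNReal.ofReal (C * q * t / (2 ^ k * t) ^ 2) *
            ENNReal.ofReal (B₂ * (2 ^ (k + 2) * t)) := by
            gcongr
            exact h2 _ (by positivity)
        _ = ENNReal.ofReal (4 * C * B₂ * q * (1 / 2) ^ k) := by
            rw [← ENNReal.ofReal_mul (by positivity)]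
            congr 1
            rw [one_div, inv_pow, pow_add]
            field_simp
            ring
  have e4 : ∀ n : ℕ, |RR η (!β) Aᶜ (fun ζ => stp η (2 ^ n * t) ζ * ψ ζ)| ≤
      2 * C * B₂ * q + 4 * C * B₂ * q * (2 - 2 * (1 / 2) ^ n) := by
    intro n
    induction n with
    | zero =>
      rw [pow_zero, one_mul, pow_zero]
      have : 2 * C * B₂ * q + 4 * C * B₂ * q * (2 - 2 * 1) = 2 * C * B₂ * q := by ring
      rw [this]
      exact e2
    | succ n ih =>
      have h5 := RR_sub (β := !β) (G := Aᶜ) (hTs (2 ^ (n + 1) * t)) (hTs (2 ^ n * t))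
      have h6 : RR η (!β) Aᶜ (fun ζ => stp η (2 ^ (n + 1) * t) ζ * ψ ζ) =
          RR η (!β) Aᶜ (fun ζ => stp η (2 ^ (n + 1) * t) ζ * ψ ζ -
            stp η (2 ^ n * t) ζ * ψ ζ) + RR η (!β) Aᶜ (fun ζ => stp η (2 ^ n * t) ζ * ψ ζ) := by
        rw [h5]; ring
      rw [h6]
      refine (abs_add_le _ _).trans ((add_le_add (e3 n) ih).trans (le_of_eq ?_))
      ring
  -- the support is bounded
  obtain ⟨R, hR⟩ := hTψ.compact.isCompact.isBounded.subset_closedBall η
  obtain ⟨n, hn⟩ := pow_unbounded_of_one_lt (R / t) (one_lt_two (α := ℝ))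
  have e5 : (fun ζ => stp η (2 ^ n * t) ζ * ψ ζ) = ψ := by
    ext ζ
    by_cases hζ : ψ ζ = 0
    · rw [hζ, mul_zero]
    · have h7 := hR (subset_tsupport ψ hζ)
      rw [mem_closedBall, dist_eq_norm] at h7
      rw [div_lt_iff₀ ht0] at hn
      rw [stp_eq_one (by positivity) (h7.trans hn.le), one_mul]
  have e6 := e4 n
  rw [e5] at e6
  have e7 : |RR η (!β) Aᶜ ψ| ≤ 10 * C * B₂ * q := by
    refine e6.trans ?_
    have h8 : (0 : ℝ) ≤ (1 / 2) ^ n := by positivity
    have h9 : 0 ≤ C * B₂ * q := by positivity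
    nlinarith
  have hpi := Real.pi_gt_three
  have e8 : 2 * Real.pi * |Tc β (cauchyInt A (fun ζ => (φ ζ : ℂ)) z)| ≤
      C * q * B₁ + 10 * C * B₂ * q := by
    have := congrArg abs hform
    rw [abs_mul, abs_of_pos (by linarith : 0 < 2 * Real.pi)] at this
    rw [this]
    refine (abs_add_le _ _).trans (add_le_add ?_ e7)
    rw [abs_mul, abs_sb, one_mul]
    exact e1
  have h10 := abs_nonneg (Tc β (cauchyInt A (fun ζ => (φ ζ : ℂ)) z))
  nlinarith

/-- transfer of a bound on test functions to the extension -/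
lemma IsExtension.bound_of_test (hA : AdmissibleSet A) (hQ : AdmissibleWeight A η Q)
    {K : (ℂ → ℂ) → ℂ → ℂ} (hK : IsExtension A η Q K) {β : Bool} {C : ℝ} {z : ℂ}
    (hz : z ∈ interior A)
    (H : ∀ φ : ℂ → ℝ, Test η φ → ∀ q : ℝ, 0 ≤ q → (∀ ζ ∈ frontier A, |φ ζ| ≤ q * Q ζ) →
      |Tc β (cauchyInt A (fun ζ => (φ ζ : ℂ)) z)| ≤ C * q)
    {f : ℂ → ℝ} (hf : MemCQ A η Q (fun ζ => (f ζ : ℂ))) {a : ℝ} (ha : 0 ≤ a)
    (hf1 : ∀ ζ ∈ frontier A, |f ζ| ≤ a * Q ζ) (hf0 : f η = 0) :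
    |Tc β (K (fun ζ => (f ζ : ℂ)) z)| ≤ C * a := by
  have hfc : ContinuousOn f (frontier A) := by
    have := Complex.continuous_re.comp_continuousOn hf.1
    exact this
  have hfo : f =o[𝓝[frontier A \ {η}] η] Q := by
    have h1 := hf.2
    rw [Asymptotics.isLittleO_iff] at h1 ⊢
    intro c hc
    filter_upwards [h1 hc] with ζ hζ
    rw [hf0, Complex.ofReal_zero, sub_zero, Complex.norm_real] at hζ
    exact hζ
  have h1 := fun n : ℕ => dense_real hA hQ hfc hf0 hfo (show (0 : ℝ) < 1 / ((n : ℝ) + 1) by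
    positivity)
  choose g hg1 hg2 using h1
  have t1 : Tendsto (fun n => cauchyInt A (fun ζ => (g n ζ : ℂ)) z) atTop
      (𝓝 (K (fun ζ => (f ζ : ℂ)) z)) := by
    apply hK.tendsto_seq hA hQ hf (fun n => CT.ofReal (hg1 n).contDiff (hg1 n).compact)
      (fun n => memCQ_test (hg1 n)) tendsto_inv_succ _ hz
    intro n
    have hgη : g n η - f η = 0 := by rw [(hg1 n).apply_self, hf0, sub_zero]
    constructor
    · intro ζ hζ
      simp only
      rw [← Complex.ofReal_sub, Complex.norm_real]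
      exact (hg2 n ζ hζ).1
    · intro ζ hζ hne
      simp only
      rw [← Complex.ofReal_sub, ← Complex.ofReal_sub, hgη, Complex.ofReal_zero, sub_zero,
        Complex.norm_real, div_le_iff₀ (hQ.pos ζ hζ hne)]
      exact (hg2 n ζ hζ).2
  have t2 := ((continuous_Tc β).tendsto _).comp t1 |>.abs
  have t3 : Tendsto (fun n : ℕ => C * (a + 1 / ((n : ℝ) + 1))) atTop (𝓝 (C * (a + 0))) :=
    (tendsto_const_nhds.add tendsto_inv_succ).const_mul C
  rw [add_zero] at t3
  refine le_of_tendsto_of_tendsto' t2 t3 fun n => ?_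
  apply H (g n) (hg1 n) _ (by positivity)
  intro ζ hζ
  have h2 := (hg2 n ζ hζ).2
  have h3 := hf1 ζ hζ
  have h4 : |g n ζ| ≤ |g n ζ - f ζ| + |f ζ| := by
    have := abs_add_le (g n ζ - f ζ) (f ζ)
    rwa [sub_add_cancel] at this
  calc |g n ζ| ≤ |g n ζ - f ζ| + |f ζ| := h4
    _ ≤ 1 / ((n : ℝ) + 1) * Q ζ + a * Q ζ := add_le_add h2 h3
    _ = _ := by ring

/-- continuity of the integral at a point where the density vanishes -/
lemma tendsto_cauchyInt {φ : ℂ → ℂ} (h : CT φ)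
    (h0 : ∀ᶠ ζ in 𝓝 η, dbar φ ζ = 0) :
    Tendsto (fun z => cauchyInt A φ z) (𝓝 η) (𝓝 (cauchyInt A φ η)) := by
  obtain ⟨δ, hδ, hδ0⟩ := Metric.eventually_nhds_iff_ball.1 h0
  unfold cauchyInt
  apply Filter.Tendsto.const_mul
  have hint : Integrable (dbar φ) :=
    (continuous_dbar h).integrable_of_hasCompactSupport (hasCompactSupport_dbar h)
  apply tendsto_integral_filter_of_dominated_convergence (fun ζ => 2 / δ * ‖dbar φ ζ‖)
  · refine Eventually.of_forall fun z => ?_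
    have : Measurable fun ζ => dbar φ ζ / (ζ - z) := by
      apply (continuous_dbar h).measurable.div
      fun_prop
    exact this.aestronglyMeasurable
  · filter_upwards [Metric.ball_mem_nhds η (half_pos hδ)] with z hz
    refine Eventually.of_forall fun ζ => ?_
    by_cases hζ : ζ ∈ ball η δ
    · rw [hδ0 ζ hζ]
      simp
    · rw [mem_ball, dist_eq_norm, not_lt] at hζ
      rw [mem_ball, dist_eq_norm] at hz
      have h1 : δ / 2 ≤ ‖ζ - z‖ := by
        have : ‖ζ - η‖ ≤ ‖ζ - z‖ + ‖z - η‖ := by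
          have := norm_add_le (ζ - z) (z - η)
          rwa [sub_add_sub_cancel] at this
        linarith
      rw [norm_div, div_le_iff₀ (by linarith)]
      calc ‖dbar φ ζ‖ = 2 / δ * ‖dbar φ ζ‖ * (δ / 2) := by field_simp
        _ ≤ 2 / δ * ‖dbar φ ζ‖ * ‖ζ - z‖ := by gcongr
  · exact (hint.norm.const_mul (2 / δ)).integrableOn
  · refine Eventually.of_forall fun ζ => ?_
    by_cases hζ : dbar φ ζ = 0
    · simp only [hζ, zero_div]
      exact tendsto_const_nhds
    · have hne : ζ - η ≠ 0 := by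
        intro he
        rw [sub_eq_zero] at he
        exact hζ (hδ0 ζ (he ▸ mem_ball_self hδ))
      exact (tendsto_const_nhds (x := dbar φ ζ)).div (tendsto_const_nhds.sub tendsto_id) hne

lemma exists_limit_of_approx {l : Filter ℂ} [l.NeBot] {F : ℂ → ℝ}
    (h : ∀ ε > (0 : ℝ), ∃ u : ℂ → ℝ, (∃ L : ℝ, Tendsto u l (𝓝 L)) ∧ ∀ᶠ z in l, |F z - u z| ≤ ε) :
    ∃ L : ℝ, Tendsto F l (𝓝 L) := by
  have hc : Cauchy (map F l) := by
    rw [Metric.cauchy_iff]
    refine ⟨inferInstance, fun ε hε => ?_⟩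
    obtain ⟨u, ⟨L, hL⟩, hu⟩ := h (ε / 5) (by positivity)
    have h1 : ∀ᶠ z in l, |u z - L| < ε / 5 := by
      have := (Metric.tendsto_nhds.1 hL) (ε / 5) (by positivity)
      filter_upwards [this] with z hz
      rwa [Real.dist_eq] at hz
    refine ⟨ball L (2 * ε / 5), ?_, ?_⟩
    · rw [mem_map]
      filter_upwards [h1, hu] with z h2 h3
      show F z ∈ ball L (2 * ε / 5)
      rw [mem_ball, Real.dist_eq]
      have : |F z - L| ≤ |F z - u z| + |u z - L| := by
        have := abs_add_le (F z - u z) (u z - L)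
        rwa [sub_add_sub_cancel] at this
      linarith
    · intro x hx y hy
      rw [mem_ball] at hx hy
      have := dist_triangle_right x y L
      linarith
  exact CompleteSpace.complete hc

/-- sufficiency for one component -/
theorem sufficiency (hA : AdmissibleSet A) (hQ : AdmissibleWeight A η Q)
    (hS : AdmissibleApproach A η S) {K : (ℂ → ℂ) → ℂ → ℂ} (hK : IsExtension A η Q K) (β : Bool)
    {B₁ B₂ : ℝ} (hB₁ : 0 ≤ B₁) (hB₂ : 0 ≤ B₂)
    (h1 : NN η β (EE Aᶜ) (fun ζ => ENNReal.ofReal (Q ζ)) ≤ ENNReal.ofReal B₁)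
    (h2 : ∀ r > (0 : ℝ), NN η (!β) (EE Aᶜ) (fun ζ => ENNReal.ofReal (Qr η Q r ζ)) ≤
      ENNReal.ofReal (B₂ * r)) {f : ℂ → ℝ} (hf : MemCQ A η Q (fun ζ => (f ζ : ℂ))) :
    ∃ L : ℝ, Tendsto (fun z => Tc β (K (fun ζ => (f ζ : ℂ)) z)) (𝓝[S] η) (𝓝 L) := by
  have hη := hQ.mem_frontier
  have hcl : η ∈ closure S := by
    have : η ∈ closure S ∩ frontier A := by rw [hS.closure_inter_frontier]; rfl
    exact this.1
  have : (𝓝[S] η).NeBot := mem_closure_iff_nhdsWithin_neBot.1 hcl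
  obtain ⟨t₀, ht₀, C, hC, hub⟩ := uniform_bound hA hQ hS β hB₁ hB₂ h1 h2
  obtain ⟨φ₀, hφ1, hφ2, hφ3, _⟩ := exists_one_near hA.isCompact_frontier
  have hφη : φ₀ η = 1 := (hφ3 η hη).self_of_nhds
  -- the centred function
  set f₁ : ℂ → ℝ := fun ζ => f ζ - f η with hf₁
  have hf₁c : ContinuousOn f₁ (frontier A) := by
    have := Complex.continuous_re.comp_continuousOn hf.1
    exact this.sub continuousOn_const
  have hf₁o : f₁ =o[𝓝[frontier A \ {η}] η] Q := by
    have h1 := hf.2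
    rw [Asymptotics.isLittleO_iff] at h1 ⊢
    intro c hc
    filter_upwards [h1 hc] with ζ hζ
    rw [← Complex.ofReal_sub, Complex.norm_real] at hζ
    exact hζ
  apply exists_limit_of_approx
  intro ε hε
  obtain ⟨g, hg, hgf⟩ := dense_real hA hQ hf₁c (by simp [hf₁]) hf₁o
    (show 0 < ε / (C + 1) by positivity)
  set b : ℂ → ℝ := fun ζ => f η * φ₀ ζ + g ζ with hb
  have hb1 : ContDiff ℝ 1 b := (contDiff_const.mul hφ1).add hg.contDiff
  have hb2 : HasCompactSupport b := (hφ2.mul_left).add hg.compact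
  have hbCT := CT.ofReal hb1 hb2
  have hg0 : ∀ᶠ ζ in 𝓝 η, g ζ = 0 := by
    filter_upwards [(isClosed_tsupport g).isOpen_compl.mem_nhds hg.away] with ζ hζ
    by_contra hne
    exact hζ (subset_tsupport g hne)
  have hbη : ∀ᶠ ζ in 𝓝 η, b ζ = f η := by
    filter_upwards [hg0, hφ3 η hη] with ζ h3 h4
    rw [hb]
    simp only
    rw [h3, h4]
    ring
  have hbm : MemCQ A η Q (fun ζ => (b ζ : ℂ)) := by
    apply memCQ_of_near
    · exact hbCT.contDiff.continuous.continuousOn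
    · filter_upwards [hbη.filter_mono nhdsWithin_le_nhds] with ζ hζ
      rw [hζ, hbη.self_of_nhds]
  refine ⟨fun z => Tc β (cauchyInt A (fun ζ => (b ζ : ℂ)) z), ?_, ?_⟩
  · refine ⟨Tc β (cauchyInt A (fun ζ => (b ζ : ℂ)) η), ?_⟩
    have h3 : Tendsto (fun z => cauchyInt A (fun ζ => (b ζ : ℂ)) z) (𝓝 η)
        (𝓝 (cauchyInt A (fun ζ => (b ζ : ℂ)) η)) := by
      apply tendsto_cauchyInt hbCT
      have h4 : ∀ᶠ ζ in 𝓝 η, (fun ζ => (b ζ : ℂ)) =ᶠ[𝓝 ζ] fun _ => (f η : ℂ) := by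
        filter_upwards [hbη.eventually_nhds] with ζ hζ
        filter_upwards [hζ] with ξ hξ
        rw [hξ]
      filter_upwards [h4] with ζ hζ
      rw [dbar, hζ.fderiv_eq]
      simp
    exact ((continuous_Tc β).tendsto _).comp (h3.mono_left nhdsWithin_le_nhds)
  · have hball : ∀ᶠ z in 𝓝[S] η, ‖z - η‖ < t₀ := by
      apply eventually_nhdsWithin_of_eventually_nhds
      filter_upwards [Metric.ball_mem_nhds η ht₀] with z hz
      rwa [mem_ball, dist_eq_norm] at hz
    filter_upwards [hball, self_mem_nhdsWithin] with z hz hzS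
    have hzi := hS.subset_interior hzS
    rw [← hK.eq_cauchyInt hA hQ hbCT hbm hzi, ← Tc_sub]
    have hm : MemCQ A η Q (fun ζ => ((f ζ - b ζ : ℝ) : ℂ)) := by
      refine (hf.sub hbm).congr hη fun ζ _ => ?_
      push_cast
      ring
    have h5 : K (fun ζ => ((f ζ - b ζ : ℝ) : ℂ)) z =
        K (fun ζ => (f ζ : ℂ)) z - K (fun ζ => (b ζ : ℂ)) z := by
      have e1 : (fun ζ => ((f ζ - b ζ : ℝ) : ℂ)) = fun ζ => (f ζ : ℂ) + (-1) * (b ζ : ℂ) := by
        ext ζ
        push_cast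
        ring
      rw [e1, hK.add hA hQ hf (hbm.const_mul _) hzi, hK.const_mul hA hQ hbm _ hzi]
      ring
    rw [← h5]
    have hval : ∀ ζ ∈ frontier A, f ζ - b ζ = -(g ζ - f₁ ζ) := by
      intro ζ hζ
      rw [hb, hf₁]
      simp only
      rw [(hφ3 ζ hζ).self_of_nhds]
      ring
    have h6 := hK.bound_of_test hA hQ hzi (fun φ hφ q hq hφq => hub z hzS hz φ hφ q hq hφq) hm
      (a := ε / (C + 1)) (by positivity) (fun ζ hζ => by
        rw [hval ζ hζ, abs_neg]
        exact (hgf ζ hζ).2) (by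
        rw [hval η hη, hg.apply_self, hf₁]
        simp)
    refine h6.trans ?_
    calc C * (ε / (C + 1)) ≤ (C + 1) * (ε / (C + 1)) := by
          gcongr
          linarith
      _ = ε := by field_simp

end Pool.Agent.CauchyInt
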