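import Pool.Agent.CauchyInt.Slices

/-!
# The functionals `R` and their upper bounds
-/

namespace Pool.Agent.CauchyInt

open MeasureTheory Set Filter Topology Metric NNReal ENNReal

/-- the density of the functional -/
noncomputable def rd (c : ℂ) (β : Bool) (φ : ℂ → ℝ) (ζ : ℂ) : ℝ :=
  (‖ζ - c‖ ^ 2)⁻¹ * fderiv ℝ φ ζ (dir β * (ζ - c))

/-- the functional -/
noncomputable def RR (c : ℂ) (β : Bool) (G : Set ℂ) (φ : ℂ → ℝ) : ℝ :=
  ∫ ζ in G, rd c β φ ζ

lemma rd_eq_zero {c : ℂ} {β : Bool} {φ : ℂ → ℝ} {ζ : ℂ} (h : ζ ∉ tsupport φ) :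
    rd c β φ ζ = 0 := by
  have h1 : fderiv ℝ φ ζ = 0 := by
    by_contra hne
    exact h (support_fderiv_subset ℝ hne)
  simp [rd, h1]

lemma continuous_rd {c : ℂ} (β : Bool) {φ : ℂ → ℝ} (hφ : ContDiff ℝ 1 φ) (hc : c ∉ tsupport φ) :
    Continuous (rd c β φ) := by
  rw [continuous_iff_continuousAt]
  intro ζ
  by_cases h : ζ = c
  · subst h
    have : rd ζ β φ =ᶠ[𝓝 ζ] fun _ => (0 : ℝ) := by
      filter_upwards [(isClosed_tsupport φ).isOpen_compl.mem_nhds hc] with z hz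
      exact rd_eq_zero hz
    exact (continuousAt_const.congr this.symm)
  · unfold rd
    have h1 : Continuous (fderiv ℝ φ) := hφ.continuous_fderiv one_ne_zero
    have h2 : ContinuousAt (fun ζ => (‖ζ - c‖ ^ 2)⁻¹) ζ := by
      apply ContinuousAt.inv₀
      · fun_prop
      · have : 0 < ‖ζ - c‖ := norm_pos_iff.2 (sub_ne_zero.2 h)
        positivity
    apply h2.mul
    have h3 : Continuous fun ζ => fderiv ℝ φ ζ (dir β * (ζ - c)) := by
      apply h1.clm_apply
      fun_prop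
    exact h3.continuousAt

lemma hasCompactSupport_rd (c : ℂ) (β : Bool) {φ : ℂ → ℝ} (hφ : HasCompactSupport φ) :
    HasCompactSupport (rd c β φ) :=
  hφ.mono' fun ζ hζ => by
    by_contra h
    exact hζ (rd_eq_zero h)

lemma integrable_rd {c : ℂ} (β : Bool) {φ : ℂ → ℝ} (hφ : ContDiff ℝ 1 φ)
    (hs : HasCompactSupport φ) (hc : c ∉ tsupport φ) : Integrable (rd c β φ) :=
  (continuous_rd β hφ hc).integrable_of_hasCompactSupport (hasCompactSupport_rd c β hs)

lemma hasDerivAt_Phi_snd (c : ℂ) (β : Bool) (x y : ℝ) :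
    HasDerivAt (fun y : ℝ => Phi c β (x, y)) (dir β * (Phi c β (x, y) - c)) y := by
  have h1 : HasDerivAt (fun y : ℝ => ell β (x, y)) (dir β) y := by
    simp_rw [ell_apply]
    have h2 : HasDerivAt (fun y : ℝ => ((y : ℝ) : ℂ)) 1 y := Complex.ofRealCLM.hasDerivAt
    have h3 := (h2.mul_const (dir β)).const_add ((x : ℂ) * dir' β)
    rw [one_mul] at h3
    exact h3
  have h2 := h1.cexp
  have h3 := h2.const_add c
  rw [Phi_sub, mul_comm]
  exact h3

lemma hasDerivAt_comp_Phi (c : ℂ) (β : Bool) {φ : ℂ → ℝ} (hφ : ContDiff ℝ 1 φ) (x y : ℝ) :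
    HasDerivAt (fun y : ℝ => φ (Phi c β (x, y)))
      (fderiv ℝ φ (Phi c β (x, y)) (dir β * (Phi c β (x, y) - c))) y := by
  have h1 := (hφ.differentiable one_ne_zero (Phi c β (x, y))).hasFDerivAt
  exact h1.comp_hasDerivAt y (hasDerivAt_Phi_snd c β x y)

lemma contDiff_comp_Phi (c : ℂ) (β : Bool) {φ : ℂ → ℝ} (hφ : ContDiff ℝ 1 φ) (x : ℝ) :
    ContDiff ℝ 1 (fun y : ℝ => φ (Phi c β (x, y))) := by
  apply hφ.comp
  unfold Phi
  apply contDiff_const.add
  apply ContDiff.cexp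
  exact ((ell β).contDiff).comp (contDiff_const.prodMk contDiff_id)

lemma rd_Phi (c : ℂ) (β : Bool) {φ : ℂ → ℝ} (hφ : ContDiff ℝ 1 φ) (x y : ℝ) :
    ‖Phi c β (x, y) - c‖ ^ 2 * rd c β φ (Phi c β (x, y)) =
      deriv (fun y : ℝ => φ (Phi c β (x, y))) y := by
  rw [(hasDerivAt_comp_Phi c β hφ x y).deriv, rd, ← mul_assoc, mul_inv_cancel₀, one_mul]
  have : 0 < ‖Phi c β (x, y) - c‖ := norm_pos_iff.2 (sub_ne_zero.2 (Phi_ne c β _))
  positivity

lemma exists_radii {c : ℂ} {φ : ℂ → ℝ} (hs : HasCompactSupport φ) (hc : c ∉ tsupport φ) :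
    ∃ a b : ℝ, a < b ∧ ∀ ζ, φ ζ ≠ 0 → ζ ≠ c ∧ a < Real.log ‖ζ - c‖ ∧ Real.log ‖ζ - c‖ < b := by
  have h1 : (tsupport φ)ᶜ ∈ 𝓝 c := (isClosed_tsupport φ).isOpen_compl.mem_nhds hc
  obtain ⟨δ, hδ, hδs⟩ := Metric.mem_nhds_iff.1 h1
  obtain ⟨R, hR⟩ := hs.isCompact.isBounded.subset_closedBall c
  set R' := max R δ with hR'
  have hR0 : 0 < R' := lt_max_of_lt_right hδ
  refine ⟨Real.log δ - 1, Real.log R' + 1, ?_, ?_⟩
  · have : Real.log δ ≤ Real.log R' := Real.log_le_log hδ (le_max_right _ _)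
    linarith
  · intro ζ hζ
    have h2 : ζ ∈ tsupport φ := subset_tsupport φ hζ
    have h3 : δ ≤ ‖ζ - c‖ := by
      by_contra hlt
      push Not at hlt
      exact hδs (by rwa [mem_ball, dist_eq_norm]) h2
    have h4 : ‖ζ - c‖ ≤ R' := by
      have := hR h2
      rw [mem_closedBall, dist_eq_norm] at this
      exact this.trans (le_max_left _ _)
    have h5 : 0 < ‖ζ - c‖ := hδ.trans_le h3
    refine ⟨?_, ?_, ?_⟩
    · intro h
      rw [h] at h5
      simp at h5
    · have := Real.log_le_log hδ h3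
      linarith
    · have := Real.log_le_log h5 h4
      linarith

lemma sum_le_Sx {c : ℂ} {β : Bool} {E : Set ℂ} (f : ℂ → ℝ≥0∞) {x : ℝ} (F : Finset ℝ)
    (hF : ∀ y ∈ F, y ∈ Dy β ∧ Phi c β (x, y) ∈ E) :
    ∑ y ∈ F, f (Phi c β (x, y)) ≤ Sx c β E f x := by
  classical
  rw [← Finset.sum_subtype_of_mem (fun y => f (Phi c β (x, y))) hF]
  exact ENNReal.sum_le_tsum _

lemma notMem_suppBdry_of_local {B T : Set ℝ}
    (h : ∀ a b : ℝ, (∀ y ∈ Ioo a b, y ∉ T) → ∀ y ∈ Ioo a b, y ∉ suppBdry B) {p q y : ℝ}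
    (hfin : {z | z ∈ Ioo p q ∧ z ∈ T}.Finite) (hy : y ∈ Ioo p q) (hyT : y ∉ T) :
    y ∉ suppBdry B := by
  have h1 : Ioo p q ∩ {z | z ∈ Ioo p q ∧ z ∈ T}ᶜ ∈ 𝓝 y :=
    inter_mem (isOpen_Ioo.mem_nhds hy)
      (hfin.isClosed.isOpen_compl.mem_nhds fun hh => hyT hh.2)
  obtain ⟨ε, hε, hsub⟩ := Metric.mem_nhds_iff.1 h1
  rw [Real.ball_eq_Ioo] at hsub
  refine h (y - ε) (y + ε) ?_ y ⟨by linarith, by linarith⟩
  intro z hz hzT
  have := hsub hz
  exact this.2 ⟨this.1, hzT⟩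

lemma Phi_periodic (c : ℂ) (x y : ℝ) :
    Phi c false (x, y + 2 * Real.pi) = Phi c false (x, y) := by
  unfold Phi
  congr 1
  have : ell false (x, y + 2 * Real.pi) = ell false (x, y) + 2 * Real.pi * Complex.I := by
    rw [ell_apply, ell_apply]
    simp only [dir, dir']
    push_cast
    ring
  rw [this]
  exact Complex.exp_periodic _

/-- the slice estimate -/
lemma slice_upper {G : Set ℂ} (hG : MeasurableSet G) {η : ℂ} (hfin : LocFin (EE G) η) (c : ℂ)
    (β : Bool) {φ : ℂ → ℝ} (hφ : ContDiff ℝ 1 φ) (hs : HasCompactSupport φ)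
    (hc : c ∉ tsupport φ) :
    ∀ᵐ x ∂(volume.restrict (Dx β)),
      ENNReal.ofReal |∫ y in Dyo β, (sl c β G x).indicator
        (deriv fun y : ℝ => φ (Phi c β (x, y))) y| ≤
      Sx c β (EE G) (fun ζ => ENNReal.ofReal |φ ζ|) x := by
  obtain ⟨a, b, hab, hsupp⟩ := exists_radii hs hc
  have h1 := ae_restrict_of_ae (s := Dx β) (slice_E' c β G hG)
  filter_upwards [slices_finite hfin c β, h1] with x hx1 hx2
  set ψ : ℝ → ℝ := fun y => φ (Phi c β (x, y)) with hψ
  have hψd : ContDiff ℝ 1 ψ := contDiff_comp_Phi c β hφ x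
  have hψc : ContDiff ℝ 1 (fun y => (ψ y : ℂ)) :=
    Complex.ofRealCLM.contDiff.comp hψd
  have hder : ∀ y, deriv (fun y => (ψ y : ℂ)) y = ((deriv ψ y : ℝ) : ℂ) := by
    intro y
    exact ((hψd.differentiable one_ne_zero y).hasDerivAt.ofReal_comp).deriv
  have hBm : MeasurableSet (sl c β G x) := measurableSet_sl c β hG x
  -- the key bound
  have key : ∀ (F : Finset ℝ) (D : Set ℝ), (∀ y ∈ F, y ∈ Dy β ∧ Phi c β (x, y) ∈ EE G) →
      ‖∫ y in D, deriv (fun y => (ψ y : ℂ)) y‖ ≤ ∑ y ∈ F, ‖(ψ y : ℂ)‖ →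
      ENNReal.ofReal |∫ y in D, deriv ψ y| ≤ Sx c β (EE G) (fun ζ => ENNReal.ofReal |φ ζ|) x := by
    intro F D hF hle
    have e1 : ∫ y in D, deriv (fun y => (ψ y : ℂ)) y = ((∫ y in D, deriv ψ y : ℝ) : ℂ) := by
      rw [← integral_complex_ofReal]
      congr 1
      ext y
      exact hder y
    rw [e1, Complex.norm_real, Real.norm_eq_abs] at hle
    refine (ENNReal.ofReal_le_ofReal hle).trans ?_
    rw [ENNReal.ofReal_sum_of_nonneg (fun _ _ => norm_nonneg _)]
    refine le_trans (le_of_eq ?_) (sum_le_Sx (fun ζ => ENNReal.ofReal |φ ζ|) F hF)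
    refine Finset.sum_congr rfl fun y _ => ?_
    rw [Complex.norm_real, Real.norm_eq_abs]
  cases β
  · -- circles
    have hper : ∀ y, y + 2 * Real.pi ∈ sl c false G x ↔ y ∈ sl c false G x := by
      intro y
      show Phi c false (x, y + 2 * Real.pi) ∈ G ↔ _
      rw [Phi_periodic]
      rfl
    have hpi := Real.pi_pos
    have hfinS : {y | y ∈ Ico 0 (2 * Real.pi) ∧ Phi c false (x, y) ∈ EE G}.Finite := by
      refine (hx1 0 (2 * Real.pi)).subset ?_
      rintro y ⟨h1, h2⟩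
      exact ⟨h1, ⟨h1.1, h1.2.le⟩, h2⟩
    set F := hfinS.toFinset with hF
    have hFmem : ∀ y, y ∈ F ↔ y ∈ Ico 0 (2 * Real.pi) ∧ Phi c false (x, y) ∈ EE G := by
      intro y
      rw [hF, Set.Finite.mem_toFinset]
      rfl
    have hfin2 : {z | z ∈ Ioo (-(2 * Real.pi)) (2 * Real.pi) ∧
        z ∈ {z | Phi c false (x, z) ∈ EE G}}.Finite := by
      have hsh : ((fun y => y - 2 * Real.pi) '' {y | y ∈ Ico 0 (2 * Real.pi) ∧
        Phi c false (x, y) ∈ EE G}).Finite := hfinS.image _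
      refine (hfinS.union hsh).subset ?_
      rintro z ⟨hz1, hz2⟩
      rcases lt_or_ge z 0 with h | h
      · right
        refine ⟨z + 2 * Real.pi, ⟨⟨by linarith [hz1.1], by linarith⟩, ?_⟩, by ring⟩
        rw [Phi_periodic]
        exact hz2
      · left
        exact ⟨⟨h, hz1.2⟩, hz2⟩
    have hub := upper_periodic (sl c false G x) hBm (fun y => (ψ y : ℂ)) hψc
      (a := 0) (T := 2 * Real.pi) (by linarith) hper (by
        intro y
        simp only [hψ]
        rw [Phi_periodic]) F (by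
        intro y hy
        rw [zero_add]
        exact ((hFmem y).1 hy).1) (by
        intro y hy hyS
        rw [zero_add] at hy
        by_contra hyF
        refine notMem_suppBdry_of_local (T := {z | Phi c false (x, z) ∈ EE G}) hx2 hfin2
          ⟨by linarith [hy.1], hy.2⟩ (fun hyE => hyF ?_) hyS
        rw [hFmem]
        exact ⟨hy, hyE⟩)
    have hres := key F _ (fun y hy => (hFmem y).1 hy) hub
    have e2 : ∫ y in Dyo false, (sl c false G x).indicator (deriv ψ) y =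
        ∫ y in sl c false G x ∩ Ioo 0 (0 + 2 * Real.pi), deriv ψ y := by
      rw [setIntegral_indicator hBm, zero_add, inter_comm]
      rfl
    rw [e2]
    exact hres
  · -- rays
    have h0 : ∀ y, y ∉ Ioo a b → (ψ y : ℂ) = 0 := by
      intro y hy
      by_contra hne
      have hne' : φ (Phi c true (x, y)) ≠ 0 := fun h => hne (by simp [hψ, h])
      obtain ⟨_, h2, h3⟩ := hsupp _ hne'
      rw [norm_Phi_sub] at h2 h3
      simp only [if_true, Real.log_exp] at h2 h3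
      exact hy ⟨h2, h3⟩
    have hfinS : {y | y ∈ Ioo a b ∧ Phi c true (x, y) ∈ EE G}.Finite := by
      refine (hx1 a b).subset ?_
      rintro y ⟨h1, h2⟩
      exact ⟨mem_univ _, ⟨h1.1.le, h1.2.le⟩, h2⟩
    set F := hfinS.toFinset with hF
    have hFmem : ∀ y, y ∈ F ↔ y ∈ Ioo a b ∧ Phi c true (x, y) ∈ EE G := by
      intro y
      rw [hF, Set.Finite.mem_toFinset]
      rfl
    have hub := upper_line (sl c true G x) hBm (fun y => (ψ y : ℂ)) hψc F hab h0
      (fun y hy => ((hFmem y).1 hy).1) (by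
        intro y hy hyS
        by_contra hyF
        refine notMem_suppBdry_of_local (T := {z | Phi c true (x, z) ∈ EE G}) hx2 hfinS
          hy (fun hyE => hyF ?_) hyS
        rw [hFmem]
        exact ⟨hy, hyE⟩)
    have hres := key F _ (fun y hy => ⟨mem_univ _, ((hFmem y).1 hy).2⟩) hub
    have e2 : ∫ y in Dyo true, (sl c true G x).indicator (deriv ψ) y =
        ∫ y in sl c true G x, deriv ψ y := by
      show ∫ y in univ, _ = _
      rw [setIntegral_univ, integral_indicator hBm]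
    rw [e2]
    exact hres

/-- the upper bound -/
theorem RR_le {G : Set ℂ} (hG : MeasurableSet G) {η : ℂ} (hfin : LocFin (EE G) η) (c : ℂ)
    (β : Bool) {φ : ℂ → ℝ} (hφ : ContDiff ℝ 1 φ) (hs : HasCompactSupport φ)
    (hc : c ∉ tsupport φ) :
    ENNReal.ofReal |RR c β G φ| ≤ NN c β (EE G) (fun ζ => ENNReal.ofReal |φ ζ|) := by
  have hint : Integrable (G.indicator (rd c β φ)) := (integrable_rd β hφ hs hc).indicator hG
  have h1 : RR c β G φ = ∫ x in Dx β, ∫ y in Dyo β, (sl c β G x).indicator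
        (deriv fun y : ℝ => φ (Phi c β (x, y))) y := by
    rw [RR, ← integral_indicator hG, integral_cv c β hint]
    congr 1
    ext x
    congr 1
    ext y
    by_cases h : Phi c β (x, y) ∈ G
    · rw [indicator_of_mem h, indicator_of_mem (show y ∈ sl c β G x from h), rd_Phi c β hφ]
    · rw [indicator_of_notMem h, indicator_of_notMem (show y ∉ sl c β G x from h), mul_zero]
  rw [h1, ← Real.norm_eq_abs, ofReal_norm]
  refine (enorm_integral_le_lintegral_enorm _).trans ?_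
  refine lintegral_mono_ae ?_
  filter_upwards [slice_upper hG hfin c β hφ hs hc] with x hx
  rw [← ofReal_norm, Real.norm_eq_abs]
  exact hx

end Pool.Agent.CauchyInt
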